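import Pool.Agent.Lib.MP_fc1011_gt.TP.Spec

/-!
# MP_fc1011_gt, paths of trees: change of an orthonormal family by blocks of size two
-/

set_option autoImplicit false

namespace MP_fc1011_gt.TP

open Finset MT

section

variable {W : Type} [AddCommGroup W] [Module ℂ W]

/-- The entries of an operator which satisfies a quadratic equation on two orthonormal vectors. -/
private theorem abs_block {B : LinearMap.BilinForm ℂ W} {e e' : W} (h11 : B e e = 1)
    (h12 : B e e' = 0) (h21 : B e' e = 0) (h22 : B e' e' = 1) (T : Module.End ℂ W)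
    {a b c q s d : ℂ} (he : T e = a • e + b • e') (he' : T e' = c • e + q • e')
    (hq : T (T e) = s • T e - d • e) (hq' : T (T e') = s • T e' - d • e') :
    a * a + b * c = s * a - d ∧ b * (a + q) = s * b ∧ q * q + b * c = s * q - d := by
  rw [he, map_add, map_smul, map_smul, he, he'] at hq
  rw [he', map_add, map_smul, map_smul, he, he'] at hq'
  have k1 := congrArg (B e) hq
  have k2 := congrArg (B e') hq
  have k3 := congrArg (B e') hq'
  simp only [map_add, map_sub, map_smul, smul_eq_mul, h11, h12, h21, h22, mul_one, mul_zero,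
    add_zero, zero_add, sub_zero] at k1 k2 k3
  refine ⟨by linear_combination k1, by linear_combination k2, by linear_combination k3⟩

/-- The quotient of two operators. -/
private theorem abs_quot {X Y Z : Module.End ℂ W} (hZY : ∀ w, Z (Y w) = X w) {y z : ℂ} {w : W}
    (hY : Qd Y y z w) : ((y * z) • Z) w = X ((y + z) • w - Y w) := by
  unfold Qd at hY
  have h1 : Y ((y + z) • w - Y w) = (y * z) • w := by
    rw [map_sub, map_smul, hY]
    abel
  rw [← hZY, h1, map_smul, LinearMap.smul_apply]

end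

private theorem bool_lem (x y z : Bool) (h1 : x ≠ z) (h2 : y ≠ z) : x = y := by
  cases x <;> cases y <;> cases z <;> simp_all

/-- Change of an orthonormal family. -/
theorem sAbs (hTwo : S_Two) : S_Abs := by
  intro W _ _ ι K _ _ B v κ t X Y Z x1 x2 y1 y2 z1 z2 ε he0 he1 hsym hON hinj hsame hnum hX hYs
    hκ hZY hY hZ
  obtain ⟨hon, hsp⟩ := hON
  -- the partner
  have hπ : ∀ a, ∃ b, κ b = κ a ∧ ∀ c, κ c = κ a → c = a ∨ c = b := by
    intro a
    by_cases h : ∃ b, κ b = κ a ∧ b ≠ a
    · obtain ⟨b, hb, hba⟩ := h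
      refine ⟨b, hb, fun c hc => ?_⟩
      by_cases hca : c = a
      · exact Or.inl hca
      · exact Or.inr (hinj c b (hc.trans hb.symm) (bool_lem _ _ _
          (fun h => hca (hinj c a hc h)) (fun h => hba (hinj b a hb h))))
    · push Not at h
      exact ⟨a, rfl, fun c hc => Or.inl (h c hc)⟩
  choose π hπκ hπU using hπ
  have hinv : ∀ a, π (π a) = a := by
    intro a
    rcases hπU (π a) a (hπκ a).symm with h | h
    · rw [← h, ← h]
    · exact h.symm
  have hne : ∀ a, π a ≠ a → π (π a) ≠ π a := by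
    intro a h h1
    rw [hinv] at h1
    exact h h1.symm
  have htπ : ∀ a, π a ≠ a → t (π a) ≠ t a := fun a h h1 => h (hinj _ _ (hπκ a) h1)
  -- expansions
  obtain ⟨p, hp⟩ : ∃ p : ι → ℂ, ∀ a, p a = B (v a) (Y (v a)) := ⟨_, fun _ => rfl⟩
  obtain ⟨r, hr⟩ : ∃ r : ι → ℂ, ∀ a, r a = B (v (π a)) (Y (v a)) := ⟨_, fun _ => rfl⟩
  have hrs : ∀ a, r (π a) = r a := by
    intro a
    rw [hr, hr, hinv, ← hYs, hsym]
  have hex : ∀ a, π a ≠ a → Y (v a) = p a • v a + r a • v (π a) := by
    intro a h
    rw [hp, hr]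
    conv_lhs => rw [← hsp (Y (v a))]
    rw [← Finset.sum_subset (Finset.subset_univ {a, π a}) (fun b _ hb => ?_),
      Finset.sum_pair (Ne.symm h)]
    have h1 : κ b ≠ κ a := by
      intro h1
      apply hb
      rw [Finset.mem_insert, Finset.mem_singleton]
      exact hπU a b h1
    rw [hκ b a h1, zero_smul]
  have hex1 : ∀ a, π a = a → Y (v a) = p a • v a := by
    intro a h
    rw [hp]
    conv_lhs => rw [← hsp (Y (v a))]
    rw [Finset.sum_eq_single a]
    · intro b _ hb
      have h1 : κ b ≠ κ a := by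
        intro h1
        rcases hπU a b h1 with h2 | h2
        · exact hb h2
        · exact hb (h2.trans h)
      rw [hκ b a h1, zero_smul]
    · intro h1
      exact absurd (Finset.mem_univ a) h1
  -- the blocks
  have htwo : ∀ u, ∃ α β : ℂ, t u = true → π u ≠ u → (α ^ 2 + β ^ 2 = 1 ∧ ‖α‖ ≤ 1 / ε ∧
      ‖β‖ ≤ 1 / ε ∧ p u * α + r u * β = y1 u * α ∧ r u * α + p (π u) * β = y1 u * β ∧
      p u * β - r u * α = y2 u * β ∧ r u * β - p (π u) * α = -(y2 u * α)) := by
    intro u
    by_cases h : t u = true ∧ π u ≠ u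
    · obtain ⟨ht, hu⟩ := h
      have ht' : t (π u) = false := by
        have := htπ u hu
        rw [ht] at this
        exact Bool.eq_false_of_not_eq_true this
      obtain ⟨n1, n2, n3, n4, n5, n6, n7, n8, n9, n10⟩ := hnum u
      obtain ⟨e1, e2, e3, e4, e5, e6⟩ := hsame (π u) u (hπκ u)
      have b11 : B (v u) (v u) = 1 := by rw [hon, if_pos rfl]
      have b12 : B (v u) (v (π u)) = 0 := by rw [hon, if_neg (Ne.symm hu)]
      have b21 : B (v (π u)) (v u) = 0 := by rw [hon, if_neg hu]
      have b22 : B (v (π u)) (v (π u)) = 1 := by rw [hon, if_pos rfl]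
      have hYu := hex u hu
      have hYu' : Y (v (π u)) = r u • v u + p (π u) • v (π u) := by
        rw [hex (π u) (hne u hu), hinv, hrs, add_comm]
      have hXu : X (v u) = x1 u • v u := by rw [hX, if_pos ht]
      have hXu' : X (v (π u)) = x2 u • v (π u) := by
        rw [hX, if_neg (by rw [ht']; exact Bool.false_ne_true), e2]
      have q1 := hY u
      have q2 := hY (π u)
      rw [e3, e4] at q2
      obtain ⟨h1, h2, h4⟩ := abs_block b11 b12 b21 b22 Y hYu hYu' q1 q2
      have z1' := hZ u
      have z2' := hZ (π u)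
      rw [e5, e6] at z2'
      have w1 : ((y1 u * y2 u) • Z) (v u) =
          (x1 u * (y1 u + y2 u - p u)) • v u + (-(r u * x2 u)) • v (π u) := by
        rw [abs_quot hZY q1, hYu, map_sub, map_add, map_smul, map_smul, map_smul, hXu, hXu']
        module
      have w2 : ((y1 u * y2 u) • Z) (v (π u)) =
          (-(r u * x1 u)) • v u + (x2 u * (y1 u + y2 u - p (π u))) • v (π u) := by
        rw [abs_quot hZY q2, hYu', map_sub, map_add, map_smul, map_smul, map_smul, hXu, hXu']
        module
      have qz : ∀ w, Qd Z (z1 u) (z2 u) w → ((y1 u * y2 u) • Z) (((y1 u * y2 u) • Z) w) =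
          ((z1 u + z2 u) * (y1 u * y2 u)) • (((y1 u * y2 u) • Z) w) -
            (z1 u * z2 u * (y1 u * y2 u) ^ 2) • w := by
        intro w hw
        unfold Qd at hw
        rw [LinearMap.smul_apply, LinearMap.smul_apply, map_smul, hw]
        module
      obtain ⟨g1, g3, g4⟩ := abs_block b11 b12 b21 b22 _ w1 w2 (qz _ z1') (qz _ z2')
      obtain ⟨α, β, hab⟩ := hTwo ε (x1 u) (x2 u) (y1 u) (y2 u) (z1 u) (z2 u) (p u) (p (π u)) (r u)
        he0 n1 n2 n3 n4 n5 n6 n7 n8 n9 n10 h1 h2 h4 (by linear_combination g1)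
        (by linear_combination -g3) (by linear_combination g4)
      exact ⟨α, β, fun _ _ => hab⟩
    · exact ⟨0, 0, fun h1 h2 => absurd ⟨h1, h2⟩ h⟩
  choose α β hαβ using htwo
  classical
  obtain ⟨f, hf⟩ : ∃ f : ι → ℂ, ∀ a, f a = if π a = a then 1 else
      if t a = true then α a else -α (π a) := ⟨_, fun _ => rfl⟩
  obtain ⟨g, hg⟩ : ∃ g : ι → ℂ, ∀ a, g a = if π a = a then 0 else
      if t a = true then β a else β (π a) := ⟨_, fun _ => rfl⟩
  obtain ⟨t', ht'⟩ : ∃ t' : ι → Bool, ∀ a, t' a = if π a = a then decide (p a = y1 a) else t a :=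
    ⟨_, fun _ => rfl⟩
  have fA : ∀ a, π a = a → f a = 1 ∧ g a = 0 := fun a h => by
    rw [hf, hg, if_pos h, if_pos h]
    exact ⟨rfl, rfl⟩
  have fT : ∀ a, π a ≠ a → t a = true → f a = α a ∧ g a = β a := fun a h h1 => by
    rw [hf, hg, if_neg h, if_neg h, if_pos h1, if_pos h1]
    exact ⟨rfl, rfl⟩
  have fF : ∀ a, π a ≠ a → t a = false → f a = -α (π a) ∧ g a = β (π a) := fun a h h1 => by
    have h2 : ¬ t a = true := by rw [h1]; exact Bool.false_ne_true
    rw [hf, hg, if_neg h, if_neg h, if_neg h2, if_neg h2]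
    exact ⟨rfl, rfl⟩
  have hc : ∀ a, π a = a ∨ (π a ≠ a ∧ t a = true ∧ t (π a) = false) ∨
      (π a ≠ a ∧ t a = false ∧ t (π a) = true) := by
    intro a
    by_cases h : π a = a
    · exact Or.inl h
    · have h1 := htπ a h
      right
      cases h2 : t a
      · right
        rw [h2] at h1
        exact ⟨h, rfl, Bool.eq_true_of_not_eq_false h1⟩
      · left
        rw [h2] at h1
        exact ⟨h, rfl, Bool.eq_false_of_not_eq_true h1⟩
  have hg2 : ∀ a, g (π a) = g a := by
    intro a
    rcases hc a with h | ⟨h, h1, h2⟩ | ⟨h, h1, h2⟩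
    · rw [h]
    · rw [(fF (π a) (hne a h) h2).2, (fT a h h1).2, hinv]
    · rw [(fT (π a) (hne a h) h2).2, (fF a h h1).2]
  have hfg : ∀ a, f (π a) * g a = -(f a * g a) := by
    intro a
    rcases hc a with h | ⟨h, h1, h2⟩ | ⟨h, h1, h2⟩
    · rw [(fA a h).2, mul_zero, mul_zero, neg_zero]
    · rw [(fF (π a) (hne a h) h2).1, (fT a h h1).1, hinv, neg_mul]
    · rw [(fT (π a) (hne a h) h2).1, (fF a h h1).1, neg_mul, neg_neg]
  have h11 : ∀ a, f a * f a + g a * g a = 1 := by
    intro a
    rcases hc a with h | ⟨h, h1, h2⟩ | ⟨h, h1, h2⟩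
    · rw [(fA a h).1, (fA a h).2, mul_one, mul_zero, add_zero]
    · rw [(fT a h h1).1, (fT a h h1).2]
      linear_combination (hαβ a h1 h).1
    · rw [(fF a h h1).1, (fF a h h1).2]
      linear_combination (hαβ (π a) h2 (hne a h)).1
  have hnf : ∀ a, ‖f a‖ ≤ 1 / ε ∧ ‖g a‖ ≤ 1 / ε := by
    intro a
    have h1e : (1 : ℝ) ≤ 1 / ε := by rwa [le_div_iff₀ he0, one_mul]
    rcases hc a with h | ⟨h, h1, h2⟩ | ⟨h, h1, h2⟩
    · rw [(fA a h).1, (fA a h).2, norm_one, norm_zero]
      exact ⟨h1e, zero_le_one.trans h1e⟩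
    · rw [(fT a h h1).1, (fT a h h1).2]
      exact ⟨(hαβ a h1 h).2.1, (hαβ a h1 h).2.2.1⟩
    · rw [(fF a h h1).1, (fF a h h1).2, norm_neg]
      exact ⟨(hαβ _ h2 (hne a h)).2.1, (hαβ _ h2 (hne a h)).2.2.1⟩
  refine ⟨fun a => f a • v a + g a • v (π a), t', ⟨?_, ?_⟩, ?_, ?_, ?_⟩
  · -- orthonormal
    intro a b
    simp only [map_add, map_smul, LinearMap.add_apply, LinearMap.smul_apply, smul_eq_mul, hon]
    by_cases hab : a = b
    · subst hab
      rw [if_pos rfl]
      by_cases h : π a = a
      · rw [(fA a h).1, (fA a h).2, h, if_pos rfl]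
        ring
      · rw [if_pos rfl, if_neg h, if_neg (Ne.symm h)]
        linear_combination h11 a
    · rw [if_neg hab, if_neg (fun h : π a = π b => hab (by rw [← hinv a, h, hinv]))]
      by_cases h : π a = b
      · subst h
        rw [hinv, if_pos rfl, if_pos rfl, hg2]
        linear_combination hfg a
      · rw [if_neg h, if_neg (fun h1 : a = π b => h (by rw [h1, hinv]))]
        ring
  · -- spanning
    intro w
    obtain ⟨c, hcc⟩ : ∃ c : ι → ℂ, ∀ a, c a = B (v a) w := ⟨_, fun _ => rfl⟩
    let e : Equiv.Perm ι := Function.Involutive.toPerm π hinv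
    have s0 : ∀ a, B (f a • v a + g a • v (π a)) w • (f a • v a + g a • v (π a)) =
        (f a * f a * c a) • v a + (g a * g a * c (π a)) • v (π a) +
          ((f a * g a * c a) • v (π a) + (f a * g a * c (π a)) • v a) := by
      intro a
      rw [map_add, map_smul, map_smul, LinearMap.add_apply, LinearMap.smul_apply,
        LinearMap.smul_apply, ← hcc, ← hcc]
      module
    have s1 : ∑ a, (g a * g a * c (π a)) • v (π a) = ∑ a, (g a * g a * c a) • v a := by
      rw [← Equiv.sum_comp e fun a => (g a * g a * c a) • v a]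
      refine Finset.sum_congr rfl fun a _ => ?_
      change _ = (g (π a) * g (π a) * c (π a)) • v (π a)
      rw [hg2]
    have s2 : ∑ a, (f a * g a * c a) • v (π a) = -∑ a, (f a * g a * c (π a)) • v a := by
      rw [← Equiv.sum_comp e, ← Finset.sum_neg_distrib]
      refine Finset.sum_congr rfl fun a _ => ?_
      change (f (π a) * g (π a) * c (π a)) • v (π (π a)) = _
      rw [hg2, hfg, hinv, ← neg_smul]
      congr 1
      ring
    rw [Finset.sum_congr rfl fun a _ => s0 a, Finset.sum_add_distrib, Finset.sum_add_distrib,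
      Finset.sum_add_distrib, s1, s2, neg_add_cancel, add_zero, ← Finset.sum_add_distrib]
    conv_rhs => rw [← hsp w]
    refine Finset.sum_congr rfl fun a _ => ?_
    rw [← hcc, ← add_smul, ← add_mul, h11, one_mul]
  · -- eigenvectors
    intro a
    change Y (f a • v a + g a • v (π a)) = _ • (f a • v a + g a • v (π a))
    rcases hc a with h | ⟨h, h1, h2⟩ | ⟨h, h1, h2⟩
    · rw [(fA a h).1, (fA a h).2, zero_smul, add_zero, one_smul, ht', if_pos h, hex1 a h]
      by_cases hpy : p a = y1 a
      · rw [hpy, decide_eq_true rfl, if_pos rfl]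
      · rw [decide_eq_false hpy, if_neg Bool.false_ne_true]
        have q1 := hY a
        unfold Qd at q1
        rw [hex1 a h, map_smul, hex1 a h] at q1
        have q2 := congrArg (B (v a)) q1
        simp only [map_smul, map_sub, smul_eq_mul, hon, if_true, mul_one] at q2
        have q3 : (p a - y1 a) * (p a - y2 a) = 0 := by linear_combination q2
        rcases mul_eq_zero.1 q3 with q4 | q4
        · exact absurd (sub_eq_zero.1 q4) hpy
        · rw [sub_eq_zero.1 q4]
    · rw [ht', if_neg h, h1, if_pos rfl, (fT a h h1).1, (fT a h h1).2, map_add, map_smul, map_smul,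
        hex a h, hex (π a) (hne a h), hinv, hrs]
      obtain ⟨-, -, -, a1, a2, -, -⟩ := hαβ a h1 h
      have k1 : α a • (p a • v a + r a • v (π a)) + β a • (p (π a) • v (π a) + r a • v a) =
          (p a * α a + r a * β a) • v a + (r a * α a + p (π a) * β a) • v (π a) := by module
      rw [k1, a1, a2]
      module
    · obtain ⟨-, -, -, -, -, a1, a2⟩ := hαβ (π a) h2 (hne a h)
      rw [hrs] at a1
      rw [hinv, hrs] at a2
      obtain ⟨e1, e2, e3, e4, e5, e6⟩ := hsame (π a) a (hπκ a)
      rw [e4] at a1 a2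
      rw [ht', if_neg h, h1, if_neg Bool.false_ne_true, (fF a h h1).1, (fF a h h1).2, map_add,
        map_smul, map_smul, hex a h, hex (π a) (hne a h), hinv, hrs]
      have k1 : (-α (π a)) • (p a • v a + r a • v (π a)) +
          β (π a) • (p (π a) • v (π a) + r a • v a) =
          (r a * β (π a) - p a * α (π a)) • v a + (p (π a) * β (π a) - r a * α (π a)) • v (π a) := by
        module
      rw [k1, a1, a2]
      module
  · -- injectivity
    intro a b hab htt
    rcases hπU a b hab.symm with h | h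
    · exact h.symm
    · by_cases h1 : π a = a
      · rw [h, h1]
      · exfalso
        rw [ht', ht', if_neg h1, h, if_neg (hne a h1)] at htt
        exact htπ a h1 htt.symm
  · intro a
    exact ⟨π a, f a, g a, hπκ a, rfl, (hnf a).1, (hnf a).2⟩

end MP_fc1011_gt.TP
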