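import Pool.Agent.Lib.MP_fc1011_gt.TP.Spec

/-!
# MP_fc1011_gt, paths of trees: symmetric operators, labels of `k` and `k + 1` strands
-/

set_option autoImplicit false

namespace MP_fc1011_gt.TP

open Finset MT

section

variable {W : Type} [AddCommGroup W] [Module ℂ W]

/-- `h` is the adjoint of `g`. -/
private def Ad (B : LinearMap.BilinForm ℂ W) (g h : (Module.End ℂ W)ˣ) : Prop :=
  ∀ x y, B (g.val x) y = B x (h.val y)

private theorem Ad.one (B : LinearMap.BilinForm ℂ W) : Ad B 1 1 := fun _ _ => rfl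

private theorem Ad.mul {B : LinearMap.BilinForm ℂ W} {g h g' h' : (Module.End ℂ W)ˣ}
    (H : Ad B g h) (H' : Ad B g' h') : Ad B (g * g') (h' * h) := by
  intro x y
  change B (g.val (g'.val x)) y = B x (h'.val (h.val y))
  rw [H, H']

private theorem shift {m : ℕ} {u : ℕ → (Module.End ℂ W)ˣ} (hu : MV.Br m u) (q k : ℕ)
    (h : q + k ≤ m) : MV.Br k (fun j => u (q + j)) := by
  constructor
  · intro j hj
    exact hu.brd (q + j) (by omega)
  · intro i j hij hj
    exact hu.comm (q + i) (q + j) (by omega) (by omega)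

private theorem adJ {B : LinearMap.BilinForm ℂ W} {t : ℕ → (Module.End ℂ W)ˣ} :
    ∀ k, (∀ l, l < k → Ad B (t l) (t l)) → Ad B (MV.JJ t k) (MV.JJ t k)
  | 0, _ => Ad.one B
  | k + 1, h => by
    have h1 := h k (Nat.lt_succ_self k)
    have h2 := adJ k fun l hl => h l (Nat.lt_succ_of_lt hl)
    have h3 : Ad B (t k * MV.JJ t k * t k) (t k * (MV.JJ t k * t k)) := (h1.mul h2).mul h1
    change Ad B (t k * MV.JJ t k * t k) (t k * MV.JJ t k * t k)
    rwa [mul_assoc (t k) (MV.JJ t k) (t k)] at h3 ⊢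

private theorem adR {B : LinearMap.BilinForm ℂ W} {t : ℕ → (Module.End ℂ W)ˣ} :
    ∀ k, (∀ l, l < k → Ad B (t l) (t l)) → Ad B (MV.RR t k) (MV.LL t k)
  | 0, _ => Ad.one B
  | k + 1, h => (h k (Nat.lt_succ_self k)).mul
      (adR k fun l hl => h l (Nat.lt_succ_of_lt hl))

private theorem comFJ {k : ℕ} {t : ℕ → (Module.End ℂ W)ˣ} (ht : MV.Br (k + 1) t) :
    Commute (MV.FF t k) (MV.JJ t k) :=
  MV.FF_commute k fun l hl => MV.JJ_comm ht k (Nat.lt_succ_self k) l hl

private theorem adF {B : LinearMap.BilinForm ℂ W} {t : ℕ → (Module.End ℂ W)ˣ} {n : ℕ}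
    (ht : MV.Br n t) : ∀ k, k ≤ n → (∀ l, l + 1 < k → Ad B (t l) (t l)) →
    Ad B (MV.FF t k) (MV.FF t k)
  | 0, _, _ => Ad.one B
  | k + 1, hk, h => by
    have h1 := adF ht k (by omega) fun l hl => h l (by omega)
    have h2 := adJ (B := B) (t := t) k fun l hl => h l (by omega)
    have h3 : Commute (MV.FF t k) (MV.JJ t k) :=
      MV.FF_commute k fun l hl => MV.JJ_comm ht k (by omega) l hl
    have h4 : Ad B (MV.FF t k * MV.JJ t k) (MV.JJ t k * MV.FF t k) := h1.mul h2
    rw [← h3.eq] at h4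
    exact h4

private theorem adH {B : LinearMap.BilinForm ℂ W} {t : ℕ → (Module.End ℂ W)ˣ} {n : ℕ}
    (ht : MV.Br n t) : ∀ k, k ≤ n → (∀ l, l + 1 < k → Ad B (t l) (t l)) →
    Ad B (MV.HH t k) (MV.HH t k)
  | 0, _, _ => Ad.one B
  | k + 1, hk, h => by
    have h1 := adH ht k (by omega) fun l hl => h l (by omega)
    have h2 := adR (B := B) (t := t) k fun l hl => h l (by omega)
    have h4 : Ad B (MV.HH t k * MV.RR t k) (MV.LL t k * MV.HH t k) := h1.mul h2
    rw [← MV.HH_eq ht k (by omega)] at h4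
    exact h4

end

theorem sAdj (hNum : S_Num) : S_Adj := by
  intro A m ε W _ _ B u M
  obtain ⟨n1, n2, -, -, n5, n6, n7, n8, -⟩ := hNum A M.nA M.rou
  have hth : ∀ k x, th A k x ≠ 0 := fun k x h => by
    have := (n2 k x 0).1
    rw [h, norm_zero] at this
    exact zero_ne_one this
  refine ⟨?_, ?_, ?_, ?_⟩
  · intro q k hqk
    exact adJ (B := B) (t := fun j => u (q + j)) k fun l hl => M.adj (q + l) (by omega)
  · intro q k hqk
    exact adF (B := B) (shift M.br q k hqk) k le_rfl fun l hl => M.adj (q + l) (by omega)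
  · intro q k hqk
    exact adH (B := B) (shift M.br q k hqk) k le_rfl fun l hl => M.adj (q + l) (by omega)
  · intro q k hqk x j w hx hj hw h1 h2
    have hc : Commute (Fq u q k) (Jq u q k) := comFJ (shift M.br q (k + 1) (by omega))
    have e1 : (Fq u q (k + 1)).val w = (Jq u q k).val ((Fq u q k).val w) := by
      have e2 : Fq u q (k + 1) = Jq u q k * Fq u q k := by
        rw [← hc.eq]
        rfl
      rw [e2]
      rfl
    rw [h1, map_smul, h2] at e1
    set c : ℂ := (th A k x)⁻¹ * th A (k + 1) j with hcd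
    have hJ : (Jq u q k).val w = c • w := by
      rw [hcd, mul_smul, e1, smul_smul, inv_mul_cancel₀ (hth k x), one_smul]
    have hcth : th A (k + 1) j = c * th A k x := by
      rw [hcd, mul_right_comm, inv_mul_cancel₀ (hth k x), one_mul]
    have hq := M.qa q k hqk x w hx h1
    unfold Qd at hq
    rw [hJ, map_smul, hJ, smul_smul, smul_smul, ← sub_smul] at hq
    have h3 : (c * c - ((ra A 2 x + rb A 2 x) * c - ra A 2 x * rb A 2 x)) • w = 0 := by
      rw [sub_smul, hq, sub_self]
    have h4 : (c - ra A 2 x) * (c - rb A 2 x) = 0 := by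
      rcases smul_eq_zero.1 h3 with h | h
      · linear_combination h
      · exact absurd h hw
    rcases mul_eq_zero.1 h4 with h | h
    · left
      have hcr : c = ra A 2 x := sub_eq_zero.1 h
      have hj1 : j = x + 1 := n1 (k + 1) j (x + 1) (by rw [hcth, hcr, n5])
      refine ⟨hj1, by rw [hJ, hcr], ?_⟩
      have h5 := n7 k j hj
      have h6 : j - 1 = x := by omega
      rw [h6, hcth] at h5
      rw [hJ, mul_right_cancel₀ (hth k x) h5]
    · right
      have hcr : c = rb A 2 x := sub_eq_zero.1 h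
      have hj1 : j = x - 1 := n1 (k + 1) j (x - 1) (by rw [hcth, hcr, n6 k x hx])
      have hj2 : j + 1 = x := by omega
      refine ⟨hj2, by rw [hJ, hcr], ?_⟩
      have h5 := n8 k j
      rw [hj2, hcth] at h5
      rw [hJ, mul_right_cancel₀ (hth k x) h5]

end MP_fc1011_gt.TP
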