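import Pool.Agent.Lib.MP_fc1011_gt.TP.Spec
import Pool.Agent.Lib.MP_fc1011_gt.MT.Final

/-!
# Paths of trees, assembly: `R(K) ≤ 4 N + 10 m`
-/

set_option autoImplicit false

namespace MP_fc1011_gt.TP

open Finset MT LaurentPolynomial

/-- The numerical estimate of the generic case. -/
private theorem as_num {s m N : ℕ} (hm : 2 ≤ m) (h : N + m ≤ s) :
    ((s : ℝ) + 1) * ((((m + 2 + 1 : ℕ) : ℝ) * ((s + 1 : ℕ) : ℝ)) *
      ((2 * ((m + 2 : ℕ) : ℝ) / (1 / (((m + 2 + 1 : ℕ) : ℝ) * ((s + 1 : ℕ) : ℝ)))) ^ m *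
        (2 / (1 / (((m + 2 + 1 : ℕ) : ℝ) * ((s + 1 : ℕ) : ℝ)))) ^ N)) ≤
      (s : ℝ) ^ (4 * N + 10 * m) := by
  have hs2 : (2 : ℝ) ≤ s := by exact_mod_cast (by omega : 2 ≤ s)
  have hms : (m : ℝ) ≤ s := by exact_mod_cast (by omega : m ≤ s)
  have hm0 : (0 : ℝ) ≤ m := Nat.cast_nonneg m
  push_cast
  set x : ℝ := ((m : ℝ) + 2 + 1) * ((s : ℝ) + 1) with hx
  have hx0 : 0 < x := by positivity
  have hx2 : x ≤ ((s : ℝ) + 3) * (s + 1) := by rw [hx]; nlinarith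
  have e1 : 2 * ((m : ℝ) + 2) / (1 / x) = 2 * ((m : ℝ) + 2) * x := by
    field_simp
  have e2 : 2 / (1 / x) = 2 * x := by
    field_simp
  have t0 : (0 : ℝ) ≤ (s : ℝ) - 2 := by linarith
  have b0 : ((s : ℝ) + 1) * x ≤ (s : ℝ) ^ 6 := by
    have h1 : ((s : ℝ) + 1) * x ≤ (s + 1) * (((s : ℝ) + 3) * (s + 1)) :=
      mul_le_mul_of_nonneg_left hx2 (by positivity)
    have h2 : ((s : ℝ) + 1) * (((s : ℝ) + 3) * (s + 1)) ≤ 6 * s ^ 3 := by
      have : 6 * (s : ℝ) ^ 3 - (s + 1) * ((s + 3) * (s + 1)) =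
          5 * ((s : ℝ) - 2) ^ 3 + 25 * ((s : ℝ) - 2) ^ 2 + 33 * ((s : ℝ) - 2) + 3 := by ring
      have h3 : 0 ≤ 5 * ((s : ℝ) - 2) ^ 3 + 25 * ((s : ℝ) - 2) ^ 2 + 33 * ((s : ℝ) - 2) + 3 := by
        positivity
      linarith
    have h4 : 8 * (s : ℝ) ^ 3 ≤ s ^ 6 := by
      have h5 : (8 : ℝ) ≤ s ^ 3 := by
        calc (8 : ℝ) = 2 ^ 3 := by norm_num
          _ ≤ (s : ℝ) ^ 3 := pow_le_pow_left₀ (by norm_num) hs2 3
      calc 8 * (s : ℝ) ^ 3 ≤ s ^ 3 * s ^ 3 := mul_le_mul_of_nonneg_right h5 (by positivity)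
        _ = (s : ℝ) ^ 6 := by ring
    have h6 : (0 : ℝ) ≤ (s : ℝ) ^ 3 := by positivity
    linarith
  have b1 : 2 * ((m : ℝ) + 2) * x ≤ (s : ℝ) ^ 7 := by
    have h1 : 2 * ((m : ℝ) + 2) * x ≤ 2 * (s + 2) * (((s : ℝ) + 3) * (s + 1)) :=
      mul_le_mul (by linarith) hx2 hx0.le (by positivity)
    have h2 : 2 * ((s : ℝ) + 2) * (((s : ℝ) + 3) * (s + 1)) ≤ 16 * s ^ 3 := by
      have : 16 * (s : ℝ) ^ 3 - 2 * (s + 2) * ((s + 3) * (s + 1)) =
          14 * ((s : ℝ) - 2) ^ 3 + 72 * ((s : ℝ) - 2) ^ 2 + 98 * ((s : ℝ) - 2) + 8 := by ring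
      have h3 : 0 ≤ 14 * ((s : ℝ) - 2) ^ 3 + 72 * ((s : ℝ) - 2) ^ 2 + 98 * ((s : ℝ) - 2) + 8 := by
        positivity
      linarith
    have h4 : 16 * (s : ℝ) ^ 3 ≤ s ^ 7 := by
      have h5 : (16 : ℝ) ≤ s ^ 4 := by
        calc (16 : ℝ) = 2 ^ 4 := by norm_num
          _ ≤ (s : ℝ) ^ 4 := pow_le_pow_left₀ (by norm_num) hs2 4
      calc 16 * (s : ℝ) ^ 3 ≤ s ^ 4 * s ^ 3 := mul_le_mul_of_nonneg_right h5 (by positivity)
        _ = (s : ℝ) ^ 7 := by ring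
    linarith
  have b2 : (2 * x) ^ N ≤ (s : ℝ) ^ (4 * N) := by
    rcases Nat.eq_zero_or_pos N with rfl | hN
    · simp
    · have hs3 : (3 : ℝ) ≤ s := by exact_mod_cast (by omega : 3 ≤ s)
      rw [pow_mul]
      refine pow_le_pow_left₀ (by positivity) ?_ N
      have h1 : 2 * x ≤ 6 * (s : ℝ) ^ 2 := by nlinarith
      have h2 : 6 * (s : ℝ) ^ 2 ≤ s ^ 4 := by
        have h3 : (9 : ℝ) ≤ s ^ 2 := by nlinarith
        calc 6 * (s : ℝ) ^ 2 ≤ s ^ 2 * s ^ 2 :=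
              mul_le_mul_of_nonneg_right (by linarith) (by positivity)
          _ = (s : ℝ) ^ 4 := by ring
      linarith
  rw [e1, e2]
  have hs1 : (1 : ℝ) ≤ s := by linarith
  calc ((s : ℝ) + 1) * (x * ((2 * ((m : ℝ) + 2) * x) ^ m * (2 * x) ^ N))
      = (((s : ℝ) + 1) * x) * ((2 * ((m : ℝ) + 2) * x) ^ m * (2 * x) ^ N) := by ring
    _ ≤ (s : ℝ) ^ 6 * (((s : ℝ) ^ 7) ^ m * (s : ℝ) ^ (4 * N)) := by
        refine mul_le_mul b0 (mul_le_mul (pow_le_pow_left₀ (by positivity) b1 m) b2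
          (by positivity) (by positivity)) (by positivity) (by positivity)
    _ = (s : ℝ) ^ (6 + 7 * m + 4 * N) := by
        rw [← pow_mul]; ring
    _ ≤ (s : ℝ) ^ (4 * N + 10 * m) := pow_le_pow_right₀ hs1 (by omega)

/-- The numerical estimate of the unitary case. -/
private theorem as_num' {s m N : ℕ} (hs : 2 ≤ s) (h : s < N + m) :
    ((s : ℝ) + 1) * (4 * (s : ℝ) ^ 2) ^ s * 2 ^ m ≤ (s : ℝ) ^ (4 * N + 10 * m) := by
  have hs2 : (2 : ℝ) ≤ s := by exact_mod_cast hs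
  have hs1 : (1 : ℝ) ≤ s := by linarith
  have b3 : (s : ℝ) + 1 ≤ s ^ 2 := by nlinarith
  have b4 : 4 * (s : ℝ) ^ 2 ≤ s ^ 4 := by
    have h4 : (4 : ℝ) ≤ s ^ 2 := by nlinarith
    calc 4 * (s : ℝ) ^ 2 ≤ s ^ 2 * s ^ 2 := mul_le_mul_of_nonneg_right h4 (by positivity)
      _ = (s : ℝ) ^ 4 := by ring
  calc ((s : ℝ) + 1) * (4 * (s : ℝ) ^ 2) ^ s * 2 ^ m
      ≤ s ^ 2 * ((s : ℝ) ^ 4) ^ s * s ^ m := by
        refine mul_le_mul (mul_le_mul b3 (pow_le_pow_left₀ (by positivity) b4 s)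
          (by positivity) (by positivity)) (pow_le_pow_left₀ (by norm_num) hs2 m)
          (by positivity) (by positivity)
    _ = (s : ℝ) ^ (2 + 4 * s + m) := by
        rw [← pow_mul]; ring
    _ ≤ (s : ℝ) ^ (4 * N + 10 * m) := pow_le_pow_right₀ hs1 (by omega)

/-- A list of crossings is a word. -/
private theorem as_cross (cs : List (ℕ × Bool)) :
    (cs.map fun c => Letter.twist c.1 (if c.2 = true then 1 else -1)).flatMap Letter.crossings =
      cs := by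
  induction cs with
  | nil => rfl
  | cons c cs ih =>
    rw [List.map_cons, List.flatMap_cons, ih]
    obtain ⟨i, e⟩ := c
    cases e <;> rfl

theorem sAs (hGn : S_Gn) (hTg : S_Tg) : S_As := by
  intro m hm μ ν cs N hW V hV hs
  have hP := sPair sCap sCol sExch sReach sFin sKet sSym sBStd
  have hE := sEval sCap sKet hP
  have hm2 : 2 ≤ m := by
    by_contra h
    have h1 : m = 1 := by omega
    subst h1
    exact μ.ne 0 (Subsingleton.elim _ _)
  obtain ⟨ζ, hζ1, hζ⟩ := hTg (m + 2) (span V + 1) m (by omega) (by omega) (by omega)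
  set s := span V with hsdef
  set ε : ℝ := 1 / (((m + 2 + 1 : ℕ) : ℝ) * ((s + 1 : ℕ) : ℝ)) with hε
  have hε0 : 0 < ε := by rw [hε]; positivity
  have hε1 : ε ≤ 1 := by
    rw [hε, div_le_one (by positivity)]
    have h2 : (1 : ℝ) ≤ ((m + 2 + 1 : ℕ) : ℝ) := by exact_mod_cast (by omega : 1 ≤ m + 2 + 1)
    have h3 : (1 : ℝ) ≤ ((s + 1 : ℕ) : ℝ) := by exact_mod_cast (by omega : 1 ≤ s + 1)
    nlinarith
  have hval : ∀ c ∈ cs, c.1 + 1 < m := by
    obtain ⟨A, b, hA4, hA, hA', hb, hup, hlow, hgap⟩ := hζ 0 (by omega)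
    exact (hGn hE A b (m + 2) m ε hm hA hA' (fun n h1 h2 => hgap n h1 (by omega)) hε0 hε1 hb
      (fun n h4 h5 => hlow n h4 h5) hup cs N hW).1
  let D : Diagram m :=
    { top := μ
      bot := ν
      word := cs.map fun c => Letter.twist c.1 (if c.2 = true then 1 else -1)
      valid := by
        intro l hl
        rw [List.mem_map] at hl
        obtain ⟨c, hc, rfl⟩ := hl
        exact hval c hc }
  have hD : D.crossings = cs := as_cross cs
  have hVD : D.IsJones V := by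
    obtain ⟨w, hw⟩ := hV
    exact ⟨w, by rw [hD]; exact hw⟩
  obtain ⟨c, hc1, hc2⟩ := sBridge (sState sCap sCol) m hm D V hVD
  rw [hD] at hc2
  change ∀ A : ℂ, ‖A‖ = 1 → ‖-A ^ 2 - (A ^ 2)⁻¹‖ *
    ‖∑ k ∈ range (s + 1), (c k : ℂ) * ((A ^ 4)⁻¹) ^ k‖ =
      ‖EE A A⁻¹ (-A ^ 2 - (A ^ 2)⁻¹) cs μ ν‖ at hc2
  change (atNegOne V).natAbs = (∑ k ∈ range (s + 1), c k * (-1) ^ k).natAbs at hc1
  have key : |(atNegOne V : ℝ)| ≤ (s : ℝ) ^ (4 * N + 10 * m) := by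
    have h1 : |(atNegOne V : ℝ)| = ‖∑ k ∈ range (s + 1), (c k : ℂ) * (-1) ^ k‖ := by
      have h2 : |atNegOne V| = |∑ k ∈ range (s + 1), c k * (-1) ^ k| := by
        rw [Int.abs_eq_natAbs, Int.abs_eq_natAbs, hc1]
      have h3 : (∑ k ∈ range (s + 1), (c k : ℂ) * (-1) ^ k) =
          (((∑ k ∈ range (s + 1), c k * (-1) ^ k : ℤ)) : ℂ) := by push_cast; rfl
      rw [h3, Complex.norm_intCast, ← Int.cast_abs, h2, Int.cast_abs]
    rw [h1]
    rcases Nat.lt_or_ge s (N + m) with hlt | hge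
    · -- unitary case
      refine (sExtra s (fun k => (c k : ℂ)) (2 ^ m) hs ?_).trans (as_num' hs hlt)
      intro r hr
      obtain ⟨A, b, hA4, hA, hb, hd1, hd2, hbn⟩ := sTrigUni r m hr
      have h2 := hc2 A hA
      have h3 := sUni sFin sSym sU2 hP hE A b (r - 1) m hA hb hd2 hbn cs hval μ ν
      rw [← h2, hA4] at h3
      have h4 := norm_nonneg (∑ k ∈ range (s + 1), (c k : ℂ) *
        Complex.exp (2 * Real.pi * Complex.I / r) ^ k)
      nlinarith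
    · -- generic case
      set B : ℝ := (((m + 2 + 1 : ℕ) : ℝ) * ((s + 1 : ℕ) : ℝ)) *
        ((2 * ((m + 2 : ℕ) : ℝ) / ε) ^ m * (2 / ε) ^ N) with hB
      have hpt : ∀ j : ℕ, j < s + 1 → ‖∑ k ∈ range (s + 1),
          (c k : ℂ) * (ζ * Complex.exp (2 * Real.pi * Complex.I * (j / (s + 1 : ℕ)))) ^ k‖ ≤ B := by
        intro j hj
        obtain ⟨A, b, hA4, hA, hA', hb, hup, hlow, hgap⟩ := hζ j hj
        have h2 := hc2 A hA
        have h3 := (hGn hE A b (m + 2) m ε hm hA hA' (fun n h1 h2 => hgap n h1 (by omega))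
          hε0 hε1 hb (fun n h4 h5 => hlow n h4 h5) hup cs N hW).2 μ ν
        rw [← h2, hA4] at h3
        have hd2 : b 2 = -A ^ 2 - (A ^ 2)⁻¹ := by
          have := hb.rc 0
          rw [hb.b1, hb.b0] at this
          simpa using this
        have hd : ε ≤ ‖-A ^ 2 - (A ^ 2)⁻¹‖ := by
          rw [← hd2]; exact hlow 2 (by norm_num) hb.two
        have h4 := norm_nonneg (∑ k ∈ range (s + 1), (c k : ℂ) *
          (ζ * Complex.exp (2 * Real.pi * Complex.I * (j / (s + 1 : ℕ)))) ^ k)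
        have h5 : ε * ‖∑ k ∈ range (s + 1), (c k : ℂ) *
          (ζ * Complex.exp (2 * Real.pi * Complex.I * (j / (s + 1 : ℕ)))) ^ k‖ ≤
            (2 * ((m + 2 : ℕ) : ℝ) / ε) ^ m * (2 / ε) ^ N :=
          (mul_le_mul_of_nonneg_right hd h4).trans h3
        have h6 : (((m + 2 + 1 : ℕ) : ℝ) * ((s + 1 : ℕ) : ℝ)) * ε = 1 := by
          rw [hε]
          exact mul_one_div_cancel (by positivity)
        calc ‖∑ k ∈ range (s + 1),
            (c k : ℂ) * (ζ * Complex.exp (2 * Real.pi * Complex.I * (j / (s + 1 : ℕ)))) ^ k‖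
            = (((m + 2 + 1 : ℕ) : ℝ) * ((s + 1 : ℕ) : ℝ)) * (ε * ‖∑ k ∈ range (s + 1), (c k : ℂ) *
              (ζ * Complex.exp (2 * Real.pi * Complex.I * (j / (s + 1 : ℕ)))) ^ k‖) := by
              rw [← mul_assoc, h6, one_mul]
          _ ≤ B := by
              rw [hB]
              exact mul_le_mul_of_nonneg_left h5 (by positivity)
      have h7 := sInterp s (fun k => (c k : ℂ)) ζ B hζ1 hpt
      calc ‖∑ k ∈ range (s + 1), (c k : ℂ) * (-1) ^ k‖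
          ≤ ∑ k ∈ range (s + 1), ‖(c k : ℂ)‖ := by
            refine norm_sum_le_of_le _ fun k _ => ?_
            rw [norm_mul, norm_pow, norm_neg, norm_one, one_pow, mul_one]
        _ ≤ (s + 1) * B := h7
        _ ≤ (s : ℝ) ^ (4 * N + 10 * m) := by
            rw [hB, hε]
            exact as_num hm2 hge
  -- the quotient
  unfold quotient
  have hlog : 0 < Real.log s := Real.log_pos (by exact_mod_cast (by omega : 1 < s))
  rw [div_le_iff₀ hlog]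
  by_cases h0 : atNegOne V = 0
  · rw [h0]
    simp only [Int.cast_zero, abs_zero, Real.log_zero]
    positivity
  · have h4 : 0 < |(atNegOne V : ℝ)| := abs_pos.mpr (by exact_mod_cast h0)
    calc Real.log |(atNegOne V : ℝ)| ≤ Real.log ((s : ℝ) ^ (4 * N + 10 * m)) :=
          Real.log_le_log h4 key
      _ = (4 * N + 10 * m) * Real.log s := by
        rw [Real.log_pow]
        push_cast
        ring

end MP_fc1011_gt.TP
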