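import Pool.Agent.Lib.MP_fc1011_gt.MT.Defs

/-!
# Diagrams which follow a path of trees

`m` parallel strands, numbered `0, …, m - 1` from the left to the right, run from the top to the
bottom of the plane.  At every level the strands are the leaves of a planar binary tree.
-/

namespace MP_fc1011_gt.TP

open LaurentPolynomial MT

/-- A planar binary tree; the leaves, from the left to the right, are neighbouring strands. -/
inductive Tree
  | leaf
  | node (S T : Tree)

namespace Tree

/-- The number of leaves. -/
def leaves : Tree → ℕ
  | leaf => 1
  | node S T => S.leaves + T.leaves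

/-- The mirror image. -/
def mirror : Tree → Tree
  | leaf => leaf
  | node S T => node T.mirror S.mirror

/-- The left comb `(((0 1) 2) … n)` with `n + 1` leaves. -/
def comb : ℕ → Tree
  | 0 => leaf
  | n + 1 => node (comb n) leaf

end Tree

/-- `Turn o T T' p k`: in the tree `T`, whose first leaf is the strand `o`, a subtree `S` with the
`k` leaves `p, …, p + k - 1` is replaced by its mirror image, and the result is `T'`. -/
inductive Turn : ℕ → Tree → Tree → ℕ → ℕ → Prop
  | whole (o : ℕ) (T : Tree) : Turn o T T.mirror o T.leaves
  | left {o : ℕ} {S S' : Tree} {p k : ℕ} (T : Tree) :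
      Turn o S S' p k → Turn o (.node S T) (.node S' T) p k
  | right {o : ℕ} (S : Tree) {T T' : Tree} {p k : ℕ} :
      Turn (o + S.leaves) T T' p k → Turn o (.node S T) (.node S T') p k

/-- `Change T T' c`: in the tree `T` a subtree `((A B) C)` is replaced by `(A (B C))`, or the other
way round, and the result is `T'`; `c` is the square of the smallest one of the numbers of leaves
of `A`, `B` and `C`. -/
inductive Change : Tree → Tree → ℕ → Prop
  | fwd (A B C : Tree) :
      Change (.node (.node A B) C) (.node A (.node B C)) (min A.leaves (min B.leaves C.leaves) ^ 2)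
  | bwd (A B C : Tree) :
      Change (.node A (.node B C)) (.node (.node A B) C) (min A.leaves (min B.leaves C.leaves) ^ 2)
  | left {S S' : Tree} {c : ℕ} (T : Tree) : Change S S' c → Change (.node S T) (.node S' T) c
  | right (S : Tree) {T T' : Tree} {c : ℕ} : Change T T' c → Change (.node S T) (.node S T') c

/-- `Reroot T T'`: one of the two whole trees is `((A B) C)` and the other one is `(A (B C))`. -/
inductive Reroot : Tree → Tree → Prop
  | fwd (A B C : Tree) : Reroot (.node (.node A B) C) (.node A (.node B C))
  | bwd (A B C : Tree) : Reroot (.node A (.node B C)) (.node (.node A B) C)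

/-- The half twist of the first `k` strands (the places of its `k (k - 1) / 2` crossings); in terms
of the generators of the braid group (`σ_i` crosses the strands in the places `i` and `i + 1`) it is
`σ_0 (σ_1 σ_0) (σ_2 σ_1 σ_0) …`. -/
def halfTwist (k : ℕ) : List ℕ := (List.range (k - 1)).flatMap fun j => (List.range (j + 1)).reverse

/-- `Walk S cs N T`: a path of trees from `S` to `T`, with the crossings `cs` (from the top to the
bottom; `(i, ε)` is the crossing of sign `ε` of the strands in the places `i` and `i + 1`) and the
cost `N`.  A step is either a half twist, of either sign, of the strands of a subtree, which costs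
nothing, or a change `((A B) C) ↔ (A (B C))` of the tree without crossings; it costs nothing if
`((A B) C)` is the whole tree (on the sphere only the place of the root changes). -/
inductive Walk (S : Tree) : List (ℕ × Bool) → ℕ → Tree → Prop
  | start : Walk S [] 0 S
  | turn {cs : List (ℕ × Bool)} {N : ℕ} {T T' : Tree} {p k : ℕ} (ε : Bool) :
      Walk S cs N T → Turn 0 T T' p k →
        Walk S (cs ++ (halfTwist k).map fun j => (p + j, ε)) N T'
  | change {cs : List (ℕ × Bool)} {N : ℕ} {T T' : Tree} {c : ℕ} :
      Walk S cs N T → Change T T' c → Walk S cs (N + c) T'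
  | reroot {cs : List (ℕ × Bool)} {N : ℕ} {T T' : Tree} :
      Walk S cs N T → Reroot T T' → Walk S cs N T'

/-- `V` is the Jones polynomial of the diagram with the crossings `cs` whose upper ends are joined
by `μ` and whose lower ends are joined by `ν`: `V(A⁻⁴) = (-A³)^(-w) ⟨D⟩` where the integer `w` is
the writhe of the diagram. -/
def IsJones {m : ℕ} (cs : List (ℕ × Bool)) (μ ν : Matching m) (V : ℤ[T;T⁻¹]) : Prop :=
  ∃ w : ℤ, TwistDiagram.toA V =
    (C (Int.negOnePow w : ℤ) * T (-3 * w)) * bracket cs μ ν

end MP_fc1011_gt.TP
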