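import Pool.Agent.Lib.MP_fc1011_gt.TP.Spec
import Pool.Agent.Lib.MP_fc1011_gt.MT.Around

/-!
# MP_fc1011_gt, paths of trees: the first strands are diagonal
-/

set_option autoImplicit false

namespace MP_fc1011_gt.TP

open Finset MT

private theorem dgFold {G : Type} [Group G] (s : ℕ → G) (cs : List (ℕ × Bool)) : ∀ X : G,
    cs.foldl (fun X c => (if c.2 = true then s c.1 else (s c.1)⁻¹) * X) X = opG s cs * X := by
  induction cs with
  | nil => intro X; simp [opG]
  | cons c cs ih =>
    intro X
    unfold opG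
    rw [List.foldl_cons, List.foldl_cons, ih, ih, mul_one, mul_assoc]

private theorem dgAppend {G : Type} [Group G] (s : ℕ → G) (cs cs' : List (ℕ × Bool)) :
    opG s (cs ++ cs') = opG s cs' * opG s cs := by
  have h : opG s (cs ++ cs') =
      cs'.foldl (fun X c => (if c.2 = true then s c.1 else (s c.1)⁻¹) * X) (opG s cs) := by
    unfold opG
    rw [List.foldl_append]
  rw [h, dgFold]

private theorem dgOne {G : Type} [Group G] (s : ℕ → G) (i : ℕ) : opG s [(i, true)] = s i := by
  simp [opG]

private theorem dgAround {G : Type} [Group G] (s : ℕ → G) (j : ℕ) :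
    opG s ((around j).map fun i => (i, true)) = Jq s 0 (j + 1) := by
  induction j with
  | zero =>
    have h1 : (around 0).map (fun i => (i, true)) = [(0, true)] ++ [(0, true)] := rfl
    rw [h1, dgAppend, dgOne]
    change s 0 * s 0 = s (0 + 0) * 1 * s (0 + 0)
    rw [mul_one, Nat.add_zero]
  | succ j ih =>
    have h1 : (around (j + 1)).map (fun i => (i, true)) =
        [(j + 1, true)] ++ ((around j).map (fun i => (i, true)) ++ [(j + 1, true)]) := by
      rw [around_succ, List.map_cons, List.map_append, List.map_cons, List.map_nil]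
      rfl
    rw [h1, dgAppend, dgAppend, dgOne, ih]
    change s (j + 1) * Jq s 0 (j + 1) * s (j + 1) =
      s (0 + (j + 1)) * Jq s 0 (j + 1) * s (0 + (j + 1))
    rw [Nat.zero_add]

theorem sDg : S_Dg := by
  intro A b R m hA hA4 hb u hu
  have hJ : ∀ k, k < m → ∀ (ψ : PT R m → ℂ) (a : PT R m), (Jq u 0 k).val ψ a =
      A ^ ((a.1 (k + 1) : ℤ) ^ 2 - (a.1 k : ℤ) ^ 2 - 3) * ψ a := by
    intro k hk ψ a
    obtain ⟨a, ha⟩ := a
    cases k with
    | zero =>
      have h2 := ha.2.2.1 0 hk
      have h3 := (ha.2.2.2 (0 + 1)).1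
      rw [ha.1] at h2
      have h4 : a (0 + 1) = 2 := by omega
      have h5 : (Jq u 0 0).val ψ = ψ := rfl
      rw [h5]
      change ψ ⟨a, ha⟩ = A ^ ((a (0 + 1) : ℤ) ^ 2 - (a 0 : ℤ) ^ 2 - 3) * ψ ⟨a, ha⟩
      rw [h4, ha.1]
      norm_num
    | succ j =>
      have hcs : ∀ c ∈ (around j).map (fun i => (i, true)), c.1 + 1 < m := by
        intro c hc
        obtain ⟨i, hi, rfl⟩ := List.mem_map.1 hc
        change i + 1 < m
        unfold around at hi
        rcases List.mem_append.1 hi with h | h
        · have := List.mem_range.1 (List.mem_reverse.1 h); omega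
        · have := List.mem_range.1 h; omega
      have h1 := congrFun (hu _ hcs ψ) a
      rw [ext_of _ ha, dgAround, sAround A b R m j hA hA4 hb hk _ (ext_supp ψ) a ha,
        ext_of _ ha] at h1
      exact h1
  refine ⟨hJ, ?_⟩
  intro k
  induction k with
  | zero =>
    intro _ ψ a
    have h5 : (Fq u 0 0).val ψ = ψ := rfl
    have h6 : th A 0 (a.1 0) = 1 := by
      unfold th
      rw [a.2.1]
      norm_num
    rw [h5, h6, one_mul]
  | succ k ih =>
    intro hk ψ a
    have h1 : (Fq u 0 (k + 1)).val ψ = (Fq u 0 k).val ((Jq u 0 k).val ψ) := rfl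
    rw [h1, ih (by omega), hJ k (by omega)]
    unfold th
    rw [← mul_assoc, ← zpow_add₀ hA]
    congr 2
    push_cast
    ring

end MP_fc1011_gt.TP
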