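import Pool.Agent.Lib.MP_fc1011_gt.TP.Spec

/-!
# MP_fc1011_gt, package TP: full twists of compatible intervals commute
-/

set_option autoImplicit false

namespace MP_fc1011_gt.TP

private theorem br_shift {G : Type} [Monoid G] {m : ℕ} {s : ℕ → G} (hs : MV.Br m s) {q k : ℕ}
    (h : q + k ≤ m) : MV.Br k (fun j => s (q + j)) where
  brd j hj := hs.brd (q + j) (by omega)
  comm i j hij hj := hs.comm (q + i) (q + j) (by omega) (by omega)

/-- Generators to the left of an interval. -/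
private theorem gen_left {G : Type} [Monoid G] {m : ℕ} {s : ℕ → G} (hs : MV.Br m s) {q k i : ℕ}
    (h : q + k ≤ m) (hi : i + 2 ≤ q) : Commute (s i) (Fq s q k) :=
  (MV.FF_commute k fun l _ => (hs.comm i (q + l) (by omega) (by omega)).symm).symm

/-- Generators to the right of an interval. -/
private theorem gen_right {G : Type} [Monoid G] {m : ℕ} {s : ℕ → G} (hs : MV.Br m s) {q k i : ℕ}
    (h : q + k ≤ i) (hi : i + 1 < m) : Commute (s i) (Fq s q k) :=
  (MV.FF_commute k fun l _ => (hs.comm (q + l) i (by omega) (by omega))).symm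

/-- Generators of an interval. -/
private theorem gen_in {G : Type} [Monoid G] {m : ℕ} {s : ℕ → G} (hs : MV.Br m s) {q k i : ℕ}
    (h : q + k ≤ m) (h1 : q ≤ i) (h2 : i + 1 < q + k) : Commute (s i) (Fq s q k) := by
  have h3 := MV.FF_comm (br_shift hs h) k le_rfl (i - q) (by omega)
  have e : q + (i - q) = i := by omega
  have h4 : Commute (s (q + (i - q))) (Fq s q k) := h3
  rwa [e] at h4

private theorem gen_all {G : Type} [Monoid G] {m : ℕ} {s : ℕ → G} (hs : MV.Br m s)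
    (n : ℕ × ℕ) (p k : ℕ) (hn : n.1 + n.2 ≤ m) (hp : p + k ≤ m)
    (h : n.1 + n.2 ≤ p ∨ p + k ≤ n.1 ∨ (n.1 ≤ p ∧ p + k ≤ n.1 + n.2)) (j : ℕ) (hj : j + 1 < k) :
    Commute (s (p + j)) (Fq s n.1 n.2) := by
  rcases h with h | h | ⟨h1, h2⟩
  · exact gen_right hs (by omega) (by omega)
  · exact gen_left hs hn (by omega)
  · exact gen_in hs hn (by omega) (by omega)

private theorem twist {G : Type} [Monoid G] {m : ℕ} {s : ℕ → G} (hs : MV.Br m s)
    (n n' : ℕ × ℕ) (hn : n.1 + n.2 ≤ m) (hn' : n'.1 + n'.2 ≤ m)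
    (h : n.1 + n.2 ≤ n'.1 ∨ n'.1 + n'.2 ≤ n.1 ∨ (n.1 ≤ n'.1 ∧ n'.1 + n'.2 ≤ n.1 + n.2)) :
    Commute (Fq s n'.1 n'.2) (Fq s n.1 n.2) :=
  MV.FF_commute n'.2 fun l hl => gen_all hs n n'.1 n'.2 hn hn' h l hl

theorem sGc : S_Gc := by
  intro G _ m s hs
  refine ⟨?_, ?_⟩
  · intro n n' hn hn' h
    rcases h with h | h | h | h
    · exact (twist hs n n' hn hn' (Or.inl h)).symm
    · exact (twist hs n n' hn hn' (Or.inr (Or.inl h))).symm
    · exact (twist hs n n' hn hn' (Or.inr (Or.inr h))).symm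
    · exact twist hs n' n hn' hn (Or.inr (Or.inr h))
  · intro n p k hn hp h j hj
    exact gen_all hs n p k hn hp h j hj

end MP_fc1011_gt.TP
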