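import Pool.Agent.Lib.MP_fc1011_gt.TP.Spec

/-!
# Half twists and full twists of intervals

The half twist of the strands `p, …, p + k - 1` maps the full twist of an interval inside of
`(p, k)` to the full twist of the mirror image of the interval.
-/

set_option autoImplicit false

namespace MP_fc1011_gt.TP

section

variable {E : Type} [Monoid E]

private theorem gh_RR {k : ℕ} {t : ℕ → E} (hs : MV.Br k t) : ∀ n, n < k → ∀ i, i + 1 < n →
    MV.RR t n * t (i + 1) = t i * MV.RR t n
  | 0, _, i, hi => by omega
  | n + 1, hn, i, hi => by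
    rcases Nat.lt_or_ge (i + 1) n with h | h
    · have h1 : Commute (t i) (t n) := hs.comm i n (by omega) (by omega)
      have ih := gh_RR hs n (by omega) i h
      change t n * MV.RR t n * t (i + 1) = t i * (t n * MV.RR t n)
      rw [mul_assoc, ih, ← mul_assoc, ← mul_assoc, h1.eq]
    · obtain rfl : n = i + 1 := by omega
      have hb := hs.brd i (by omega)
      have hc : Commute (MV.RR t i) (t (i + 1)) :=
        MV.RR_commute i fun l hl => hs.comm l (i + 1) (by omega) (by omega)
      change t (i + 1) * (t i * MV.RR t i) * t (i + 1) = t i * (t (i + 1) * (t i * MV.RR t i))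
      calc t (i + 1) * (t i * MV.RR t i) * t (i + 1)
          = t (i + 1) * t i * (MV.RR t i * t (i + 1)) := by simp only [mul_assoc]
        _ = t (i + 1) * t i * (t (i + 1) * MV.RR t i) := by rw [hc.eq]
        _ = (t (i + 1) * t i * t (i + 1)) * MV.RR t i := by simp only [mul_assoc]
        _ = (t i * t (i + 1) * t i) * MV.RR t i := by rw [hb]
        _ = _ := by simp only [mul_assoc]

private theorem gh_LL {k : ℕ} {t : ℕ → E} (hs : MV.Br k t) : ∀ n, n < k → ∀ i, i + 1 < n →
    t (i + 1) * MV.LL t n = MV.LL t n * t i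
  | 0, _, i, hi => by omega
  | n + 1, hn, i, hi => by
    rcases Nat.lt_or_ge (i + 1) n with h | h
    · have h1 : Commute (t i) (t n) := hs.comm i n (by omega) (by omega)
      have ih := gh_LL hs n (by omega) i h
      change t (i + 1) * (MV.LL t n * t n) = MV.LL t n * t n * t i
      rw [← mul_assoc, ih, mul_assoc, mul_assoc, h1.eq]
    · obtain rfl : n = i + 1 := by omega
      have hb := hs.brd i (by omega)
      have hc : ∀ n, n ≤ i → Commute (MV.LL t n) (t (i + 1)) := by
        intro n
        induction n with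
        | zero => exact fun _ => Commute.one_left _
        | succ n ih =>
          exact fun hn => (ih (by omega)).mul_left (hs.comm n (i + 1) (by omega) (by omega))
      change t (i + 1) * (MV.LL t i * t i * t (i + 1)) = MV.LL t i * t i * t (i + 1) * t i
      calc t (i + 1) * (MV.LL t i * t i * t (i + 1))
          = (t (i + 1) * MV.LL t i) * t i * t (i + 1) := by simp only [mul_assoc]
        _ = (MV.LL t i * t (i + 1)) * t i * t (i + 1) := by rw [(hc i (le_refl i)).eq]
        _ = MV.LL t i * (t (i + 1) * t i * t (i + 1)) := by simp only [mul_assoc]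
        _ = MV.LL t i * (t i * t (i + 1) * t i) := by rw [hb]
        _ = _ := by simp only [mul_assoc]

private theorem gh_HH {k : ℕ} {t : ℕ → E} (hs : MV.Br k t) : ∀ n, n ≤ k → ∀ j, j + 2 ≤ n →
    t j * MV.HH t n = MV.HH t n * t (n - 2 - j)
  | 0, _, j, hj => by omega
  | n + 1, hn, j, hj => by
    rcases Nat.lt_or_ge n (j + 2) with h | h
    · obtain rfl : n = j + 1 := by omega
      have e : j + 1 + 1 - 2 - j = 0 := by omega
      rw [e]
      cases j with
      | zero =>
        change t 0 * (1 * 1 * (t 0 * 1)) = 1 * 1 * (t 0 * 1) * t 0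
        simp only [one_mul, mul_one]
      | succ i =>
        have ih := gh_HH hs (i + 1 + 1) (by omega) i (by omega)
        have e1 : i + 1 + 1 - 2 - i = 0 := by omega
        rw [e1] at ih
        rw [MV.HH_eq hs (i + 1 + 1) (by omega), ← mul_assoc,
          gh_LL hs (i + 1 + 1) (by omega) i (by omega), mul_assoc, ih, mul_assoc]
    · have ih := gh_HH hs n (by omega) j h
      have h1 := gh_RR hs n (by omega) (n - 2 - j) (by omega)
      have e : n - 2 - j + 1 = n + 1 - 2 - j := by omega
      rw [e] at h1
      change t j * (MV.HH t n * MV.RR t n) = MV.HH t n * MV.RR t n * t (n + 1 - 2 - j)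
      rw [← mul_assoc, ih, mul_assoc, mul_assoc, h1]

private theorem gh_JJx {X : E} {a a' : ℕ → E} : ∀ n, (∀ j, j < n → X * a j = a' j * X) →
    X * MV.JJ a n = MV.JJ a' n * X
  | 0, _ => (mul_one X).trans (one_mul X).symm
  | n + 1, h => by
    have ih := gh_JJx n fun j hj => h j (by omega)
    have h1 := h n (by omega)
    change X * (a n * MV.JJ a n * a n) = a' n * MV.JJ a' n * a' n * X
    calc X * (a n * MV.JJ a n * a n) = (X * a n) * MV.JJ a n * a n := by simp only [mul_assoc]
      _ = a' n * (X * MV.JJ a n) * a n := by rw [h1]; simp only [mul_assoc]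
      _ = a' n * MV.JJ a' n * (X * a n) := by rw [ih]; simp only [mul_assoc]
      _ = _ := by rw [h1]; simp only [mul_assoc]

private theorem gh_FFx {X : E} {a a' : ℕ → E} : ∀ n, (∀ j, j + 1 < n → X * a j = a' j * X) →
    X * MV.FF a n = MV.FF a' n * X
  | 0, _ => (mul_one X).trans (one_mul X).symm
  | n + 1, h => by
    have ih := gh_FFx n fun j hj => h j (by omega)
    have h1 := gh_JJx n fun j hj => h j (by omega)
    change X * (MV.FF a n * MV.JJ a n) = MV.FF a' n * MV.JJ a' n * X
    rw [← mul_assoc, ih, mul_assoc, h1, mul_assoc]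

private theorem gh_FFc {a a' : ℕ → E} (n : ℕ) (h : ∀ j, j + 1 < n → a j = a' j) :
    MV.FF a n = MV.FF a' n := by
  have h1 : ∀ j, j + 1 < n → (1 : E) * a j = a' j * 1 := fun j hj => by
    rw [one_mul, mul_one, h j hj]
  have h2 := gh_FFx n h1
  rwa [one_mul, mul_one] at h2

end

section

variable {G : Type} [Group G]

private theorem gh_rev {l : ℕ} {u : ℕ → G} (hs : MV.Br l u) :
    MV.FF (fun j => u (l - 2 - j)) l = MV.FF u l := by
  have h1 := gh_FFx (X := MV.HH u l) (a := fun j => u (l - 2 - j)) (a' := u) l
    fun j hj => (gh_HH hs l (le_refl l) j hj).symm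
  have h2 := MV.HH_sq hs l (le_refl l)
  rw [← h2, mul_assoc, h2] at h1
  exact mul_left_cancel h1

private theorem gh_br {m : ℕ} {s : ℕ → G} (hs : MV.Br m s) {q l : ℕ} (h : q + l ≤ m) :
    MV.Br l fun j => s (q + j) where
  brd j hj := hs.brd (q + j) (by omega)
  comm i j hij hj := hs.comm (q + i) (q + j) (by omega) (by omega)

end

/-- Half twists and full twists. -/
theorem sGh (hGc : S_Gc) : S_Gh := by
  intro G _ m s hs p k hpk
  have ht := gh_br hs hpk
  refine ⟨MV.HH_sq ht k (le_refl k), fun n hn hc => ?_⟩
  by_cases hin : p ≤ n.1 ∧ n.1 + n.2 ≤ p + k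
  · obtain ⟨q, l⟩ := n
    obtain ⟨h1, h2⟩ := hin
    simp only at h1 h2 hn
    obtain ⟨i, rfl⟩ := Nat.exists_eq_add_of_le h1
    have e : flip p k (p + i, l) = (p + (k - i - l), l) := by
      rw [flip, if_pos ⟨h1, h2⟩]
      refine Prod.ext ?_ rfl
      simp only
      omega
    rw [e]
    have hu : MV.Br l fun r => s (p + i + r) := gh_br hs hn
    have h3 := gh_FFx (X := MV.HH (fun j => s (p + j)) k)
      (a := fun r => s (p + (k - 2 - (k - i - l + r))))
      (a' := fun r => s (p + (k - i - l) + r)) l fun r hr => by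
        have h4 := gh_HH ht k (le_refl k) (k - i - l + r) (by omega)
        rw [add_assoc p (k - i - l) r]
        exact h4.symm
    have h5 : MV.FF (fun r => s (p + (k - 2 - (k - i - l + r)))) l =
        MV.FF (fun j => (fun r => s (p + i + r)) (l - 2 - j)) l := gh_FFc l fun r hr => by
      change s _ = s _
      congr 1
      omega
    rw [h5, gh_rev hu] at h3
    exact h3.symm
  · have e : flip p k n = n := by rw [flip, if_neg hin]
    rw [e]
    have h1 : n.1 + n.2 ≤ p ∨ p + k ≤ n.1 ∨ (n.1 ≤ p ∧ p + k ≤ n.1 + n.2) := by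
      rcases hc with h | h | h | h
      · exact Or.inl h
      · exact Or.inr (Or.inl h)
      · exact Or.inr (Or.inr h)
      · exact absurd h hin
    have h2 := (hGc G m s hs).2 n p k hn hpk h1
    exact (MV.HH_commute (s := fun j => s (p + j)) k h2).eq.symm

end MP_fc1011_gt.TP
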