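import Pool.Agent.Lib.MP_fc1011_gt.TP.Spec

/-!
# MP_fc1011_gt, package TP: a strand around two groups of strands
-/

set_option autoImplicit false

namespace MP_fc1011_gt.TP

theorem sGj : S_Gj := by
  intro G _ s i kA kB
  constructor
  · induction kB with
    | zero =>
      change Jq s i kA = 1 * Jq s i kA * 1
      rw [one_mul, mul_one]
    | succ k ih =>
      have e1 : Jq s i (kA + (k + 1)) = s (i + (kA + k)) * Jq s i (kA + k) * s (i + (kA + k)) := rfl
      have e2 : Rq s (i + kA) (k + 1) = s (i + kA + k) * Rq s (i + kA) k := rfl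
      have e3 : Lq s (i + kA) (k + 1) = Lq s (i + kA) k * s (i + kA + k) := rfl
      rw [e1, e2, e3, ih, ← add_assoc]
      simp only [mul_assoc]
  · exact MV.JJ_eq _ kB

end MP_fc1011_gt.TP
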