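import Pool.Agent.Lib.MP_fc1011_gt.TP.Spec2

/-!
# MP_fc1011_gt, package TP: the first strand around the others
-/

set_option autoImplicit false

namespace MP_fc1011_gt.TP

private theorem gl_br {G : Type} [Monoid G] {m : ℕ} {s : ℕ → G} (hs : MV.Br m s) {q k : ℕ}
    (h : q + k ≤ m) : MV.Br k (fun j => s (q + j)) where
  brd j hj := hs.brd (q + j) (by omega)
  comm i j hij hj := hs.comm (q + i) (q + j) (by omega) (by omega)

theorem sGl (hSh : S_Sh) : S_Gl := by
  intro G _ m s hs q l hl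
  have ht : MV.Br (l + 1) (fun j => s (q + j)) := gl_br hs (by omega)
  obtain ⟨t, htd⟩ : ∃ t : ℕ → G, t = fun j => s (q + j) := ⟨_, rfl⟩
  have eF : Fq s q l = MV.FF t l := by rw [htd]; rfl
  have eF1 : Fq s q (l + 1) = MV.FF t (l + 1) := by rw [htd]; rfl
  have eH1 : Hq s q (l + 1) = MV.HH t (l + 1) := by rw [htd]; rfl
  have eL : Lq s q l = MV.LL t l := by rw [htd]; rfl
  have eR : Rq s q l = MV.RR t l := by rw [htd]; rfl
  have eJ : Jq s q l = MV.JJ t l := by rw [htd]; rfl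
  rw [← htd] at ht
  have h1 : MV.HH t (l + 1) = MV.HH t l * MV.RR t l := rfl
  have h2 : MV.HH t (l + 1) = MV.LL t l * MV.HH t l := MV.HH_eq ht l (by omega)
  have h3 : MV.HH t l * MV.HH t l = MV.FF t l := MV.HH_sq ht l (by omega)
  have h4 : MV.HH t (l + 1) * MV.HH t (l + 1) = MV.FF t (l + 1) := MV.HH_sq ht (l + 1) le_rfl
  have h5 : MV.LL t l * MV.FF t l = Fq s (q + 1) l * MV.LL t l := by
    rcases Nat.eq_zero_or_pos l with h | h
    · subst h
      change (1 : G) * 1 = 1 * 1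
      rfl
    · obtain ⟨k, rfl⟩ : ∃ k, l = k + 1 := ⟨l - 1, by omega⟩
      have h6 := (hSh G m s hs q k (by omega)).2.2
      rw [eL, eF] at h6
      exact h6
  have h6 : MV.JJ t l = MV.RR t l * MV.LL t l := MV.JJ_eq t l
  have h7 : Commute (MV.HH t l) (MV.JJ t l) :=
    MV.HH_commute l fun i hi => MV.JJ_comm ht l (by omega) i hi
  rw [eF, eF1, eH1, eL, eR, eJ]
  refine ⟨?_, ?_, ?_⟩
  · calc MV.FF t (l + 1) = MV.HH t (l + 1) * MV.HH t (l + 1) := h4.symm
      _ = (MV.LL t l * MV.HH t l) * (MV.HH t l * MV.RR t l) := by rw [← h2, ← h1]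
      _ = (MV.LL t l * (MV.HH t l * MV.HH t l)) * MV.RR t l := by simp only [mul_assoc]
      _ = Fq s (q + 1) l * MV.LL t l * MV.RR t l := by rw [h3, h5]
      _ = _ := by rw [mul_assoc]
  · calc MV.LL t l * MV.RR t l * MV.HH t (l + 1)
        = MV.LL t l * MV.RR t l * (MV.LL t l * MV.HH t l) := by rw [h2]
      _ = MV.LL t l * ((MV.RR t l * MV.LL t l) * MV.HH t l) := by simp only [mul_assoc]
      _ = MV.LL t l * (MV.HH t l * MV.JJ t l) := by rw [← h6, h7.eq]
      _ = MV.HH t (l + 1) * MV.JJ t l := by rw [h2, mul_assoc]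
  · calc MV.HH t (l + 1) * MV.FF t l = MV.LL t l * MV.HH t l * (MV.HH t l * MV.HH t l) := by
          rw [h2, h3]
      _ = MV.LL t l * (MV.HH t l * MV.HH t l) * MV.HH t l := by simp only [mul_assoc]
      _ = Fq s (q + 1) l * (MV.LL t l * MV.HH t l) := by rw [h3, h5, mul_assoc]
      _ = _ := by rw [h2]

end MP_fc1011_gt.TP
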