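import Pool.Agent.Lib.MP_fc1011_gt.TP.Spec2
import Pool.Agent.Lib.MP_fc1011_gt.MT.Fin

/-!
# MP_fc1011_gt, paths of trees: the generic bound
-/

set_option autoImplicit false

namespace MP_fc1011_gt.TP

open Finset MT

private theorem gn_half {p k : ℕ} {s : Bool} {c : ℕ × Bool}
    (h : c ∈ (halfTwist k).map fun j => (p + j, s)) : c.1 + 1 < p + k := by
  rw [List.mem_map] at h
  obtain ⟨j, hj, rfl⟩ := h
  unfold halfTwist at hj
  rw [List.mem_flatMap] at hj
  obtain ⟨i, hi, hj⟩ := hj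
  rw [List.mem_range] at hi
  rw [List.mem_reverse, List.mem_range] at hj
  change p + j + 1 < p + k
  omega

private theorem gn_change {T T' : Tree} {c : ℕ} (h : Change T T' c) : T'.leaves = T.leaves := by
  induction h with
  | fwd P Q R =>
    change P.leaves + (Q.leaves + R.leaves) = P.leaves + Q.leaves + R.leaves
    omega
  | bwd P Q R =>
    change P.leaves + Q.leaves + R.leaves = P.leaves + (Q.leaves + R.leaves)
    omega
  | @left S S' c T h ih =>
    change S'.leaves + T.leaves = S.leaves + T.leaves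
    rw [ih]
  | @right S T T' c h ih =>
    change S.leaves + T'.leaves = S.leaves + T.leaves
    rw [ih]

private theorem gn_reroot {T T' : Tree} (h : Reroot T T') : T'.leaves = T.leaves := by
  cases h with
  | fwd P Q R =>
    change P.leaves + (Q.leaves + R.leaves) = P.leaves + Q.leaves + R.leaves
    omega
  | bwd P Q R =>
    change P.leaves + Q.leaves + R.leaves = P.leaves + (Q.leaves + R.leaves)
    omega

private theorem gn_valid (hLam : S_Lam) {m : ℕ} {S T : Tree} {cs : List (ℕ × Bool)} {N : ℕ}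
    (hS : S.leaves = m) (h : Walk S cs N T) : T.leaves = m ∧ ∀ c ∈ cs, c.1 + 1 < m := by
  induction h with
  | start => exact ⟨hS, fun c hc => absurd hc (List.not_mem_nil)⟩
  | @turn cs N T T' p k s h1 h2 ih =>
    obtain ⟨g1, g2⟩ := ih
    obtain ⟨a1, a2, a3, a4⟩ := hLam.2.2.2.2.2.2 0 T T' p k h2
    refine ⟨by rw [a1, g1], fun c hc => ?_⟩
    rw [List.mem_append] at hc
    rcases hc with hc | hc
    · exact g2 c hc
    · have := gn_half hc
      omega
  | @change cs N T T' c h1 h3 ih =>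
    obtain ⟨g1, g2⟩ := ih
    exact ⟨by rw [gn_change h3, g1], g2⟩
  | @reroot cs N T T' h1 h3 ih =>
    obtain ⟨g1, g2⟩ := ih
    exact ⟨by rw [gn_reroot h3, g1], g2⟩

theorem sGn (hLam : S_Lam) (hTLp : S_TLp) (hUn : S_Un) (hDg : S_Dg) (hMdl : S_Mdl) (hIn : S_In)
    (hWk : S_Wk) (hUq : S_Uq) (hRt : S_Rt) : S_Gn := by
  intro hEv A b R m ε hm hA hrou hgap hε0 hε1 hb hlow hup cs N hW
  have hcomb : (Tree.comb (m - 1)).leaves = m := by
    rw [hLam.2.1]
    omega
  obtain ⟨-, hcs⟩ := gn_valid hLam hcomb hW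
  refine ⟨hcs, fun μ ν => ?_⟩
  have hA0 : A ≠ 0 := by
    intro h
    rw [h, norm_zero] at hA
    exact zero_ne_one hA
  have hA4 : A ^ 4 ≠ 1 := hrou 4 (by norm_num)
  obtain ⟨u, hbr, hu, hadj, hext⟩ := hUn A b R m hA0 hb
  obtain ⟨hJ, hF⟩ := hDg A b R m hA0 hA4 hb u hext
  have hTL := hTLp _ b R m hb
  have hM := hMdl A b R m ε hA hrou hgap hε0 hε1 hb hTL u hbr hu hadj hJ hF
  have hpath : ∀ a : PT R m, a.1 m = 1 ∧ a.1 (m - 1) = 2 := by
    intro a
    have h1 : a.1 m = 1 := a.2.2.1 m le_rfl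
    have h2 := a.2.2.2.1 (m - 1) (by omega)
    rw [show m - 1 + 1 = m by omega, h1] at h2
    have h3 := (a.2.2.2.2 (m - 1)).1
    exact ⟨h1, by omega⟩
  have hr := hRt A m (PT R m → ℂ) u hA0 hm hbr
    (by
      intro x
      funext a
      rw [hJ (m - 1) (by omega) x a, show m - 1 + 1 = m by omega, (hpath a).1, (hpath a).2]
      rfl)
    (by
      intro x
      funext a
      rw [hF m le_rfl x a, (hpath a).1]
      change A ^ (((1 : ℕ) : ℤ) ^ 2 - 1 - 3 * (m : ℤ)) * x a = A ^ (-(3 * (m : ℤ))) * x a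
      congr 2
      push_cast
      ring)
  haveI hfin : Finite (PT R m) := (MT.sFin R m).1
  haveI hft : Fintype (PT R m) := Fintype.ofFinite _
  classical
  have h1 := hIn A b R m ε hm hA hrou hb hε0 hlow hup u hF inferInstance inferInstance μ
  have h2 := hIn A b R m ε hm hA hrou hb hε0 hlow hup u hF inferInstance inferInstance ν
  obtain ⟨-, h3⟩ := hWk A m ε (PT R m → ℂ) (PT R m) (BP b R m) u hM hr _ _ cs N hcomb hW
    (kP b R μ) _ h1
  have hC : ∀ n ∈ nodes (Tree.comb (m - 1)) 0, n.1 + n.2 ≤ m := by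
    intro n hn
    have := ((hLam.2.2.1 (Tree.comb (m - 1)) 0).2.1 n hn).2.1
    omega
  have h4 := hUq A m ε (PT R m → ℂ) (PT R m) (BP b R m) u hM _ hC (kP b R ν)
    ((opG u cs).val (kP b R μ)) _ _ (Real.sqrt_nonneg _) h2 h3
  have e1 : EE A A⁻¹ (-A ^ 2 - (A ^ 2)⁻¹) cs μ ν =
      BP b R m (kP b R ν) ((opG u cs).val (kP b R μ)) := by
    rw [hEv A A⁻¹ _ b R m hb cs hcs μ ν, BP_apply, hext cs hcs, ext_kP, ext_kP]
  rw [e1]
  refine h4.trans ?_
  have hR0 : (0 : ℝ) ≤ R := Nat.cast_nonneg R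
  have hRε : (0 : ℝ) ≤ (R / ε) ^ m := pow_nonneg (div_nonneg hR0 hε0.le) m
  have hcard : (Fintype.card (PT R m) : ℝ) ≤ 2 ^ m := by
    have h5 := (MT.sFin R m).2
    have h6 : Fintype.card (PT R m) = {a | Pth R m a}.ncard := by
      rw [← Nat.card_eq_fintype_card]
      rfl
    rw [h6]
    exact_mod_cast h5
  have hN0 : (0 : ℝ) ≤ (2 / ε) ^ N := pow_nonneg (div_nonneg (by norm_num) hε0.le) N
  have e2 : Real.sqrt ((R / ε) ^ m) * ((2 / ε) ^ N * Real.sqrt ((R / ε) ^ m)) =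
      (2 / ε) ^ N * (R / ε) ^ m := by
    calc Real.sqrt ((R / ε) ^ m) * ((2 / ε) ^ N * Real.sqrt ((R / ε) ^ m))
        = (2 / ε) ^ N * (Real.sqrt ((R / ε) ^ m) * Real.sqrt ((R / ε) ^ m)) := by ring
      _ = _ := by rw [Real.mul_self_sqrt hRε]
  rw [e2]
  have h7 : (0 : ℝ) ≤ (2 / ε) ^ N * (R / ε) ^ m := mul_nonneg hN0 hRε
  calc (Fintype.card (PT R m) : ℝ) * ((2 / ε) ^ N * (R / ε) ^ m)
      ≤ 2 ^ m * ((2 / ε) ^ N * (R / ε) ^ m) := mul_le_mul_of_nonneg_right hcard h7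
    _ = (2 * R / ε) ^ m * (2 / ε) ^ N := by
      rw [mul_div_assoc, mul_pow]
      ring

end MP_fc1011_gt.TP
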