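import Pool.Agent.Lib.MP_fc1011_gt.TP.Spec

/-!
# MP_fc1011_gt, paths of trees: half twists of frames
-/

set_option autoImplicit false

namespace MP_fc1011_gt.TP

open Finset MT

private theorem flip_snd (p k : ℕ) (n : ℕ × ℕ) : (flip p k n).2 = n.2 := by
  unfold flip
  by_cases h : p ≤ n.1 ∧ n.1 + n.2 ≤ p + k
  · rw [if_pos h]
  · rw [if_neg h]

private theorem flip_flip (p k : ℕ) (n : ℕ × ℕ) : flip p k (flip p k n) = n := by
  by_cases h : p ≤ n.1 ∧ n.1 + n.2 ≤ p + k
  · have h1 : flip p k n = (2 * p + k - n.1 - n.2, n.2) := by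
      unfold flip
      rw [if_pos h]
    rw [h1]
    unfold flip
    obtain ⟨ha, hb⟩ := h
    have h2 : p ≤ (2 * p + k - n.1 - n.2, n.2).1 ∧
        (2 * p + k - n.1 - n.2, n.2).1 + (2 * p + k - n.1 - n.2, n.2).2 ≤ p + k := by
      constructor
      · change p ≤ 2 * p + k - n.1 - n.2
        omega
      · change 2 * p + k - n.1 - n.2 + n.2 ≤ p + k
        omega
    rw [if_pos h2]
    refine Prod.ext ?_ rfl
    change 2 * p + k - (2 * p + k - n.1 - n.2) - n.2 = n.1
    omega
  · have h1 : flip p k n = n := by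
      unfold flip
      rw [if_neg h]
    rw [h1, h1]

theorem sHalfF (hGh : S_Gh) (hNum : S_Num) (hAdj : S_Adj) : S_HalfF := by
  intro A m ε W _ _ ι _ _ B u M C p k hpk hpC hC w K hB
  obtain ⟨v, lab, F, hb⟩ := hB
  obtain ⟨-, n2, -⟩ := hNum A M.nA M.rou
  obtain ⟨-, aF, aH, -⟩ := hAdj A m ε W B u M
  have hth : ∀ x, th A k x ≠ 0 := fun x h => by
    have := (n2 k x 0).1
    rw [h, norm_zero] at this
    exact zero_ne_one this
  have hHH : ∀ x, (Hq u p k).val ((Hq u p k).val x) = (Fq u p k).val x := by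
    intro x
    have h := (hGh (Module.End ℂ W)ˣ m u M.br p k hpk).1
    rw [← h]
    rfl
  have hfl : ∀ n ∈ C, ∀ x, (Fq u (flip p k n).1 (flip p k n).2).val ((Hq u p k).val x) =
      (Hq u p k).val ((Fq u n.1 n.2).val x) := by
    intro n hn x
    have h := (hGh (Module.End ℂ W)ˣ m u M.br p k hpk).2 n (hC n hn).1 (hC n hn).2
    have h1 : (Fq u (flip p k n).1 (flip p k n).2 * Hq u p k).val x =
        (Hq u p k * Fq u n.1 n.2).val x := by rw [h]
    exact h1
  have hinv : ∀ x, (Hq u p k).val ((Hq u p k)⁻¹.val x) = x := by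
    intro x
    have h1 : (Hq u p k * (Hq u p k)⁻¹).val x = x := by
      rw [mul_inv_cancel]
      rfl
    exact h1
  have haH := aH p k hpk
  have haF := aF p k hpk
  have hex : ∀ a, ∃ c : ℂ, c ^ 2 = (th A k (lab a (p, k)))⁻¹ := fun a =>
    IsAlgClosed.exists_pow_nat_eq _ (by norm_num)
  choose c hc using hex
  have hcc : ∀ a, c a * c a * th A k (lab a (p, k)) = 1 := fun a => by
    rw [← pow_two, hc a, inv_mul_cancel₀ (hth _)]
  have hcn : ∀ a, ‖c a‖ = 1 := fun a => by
    have h1 : ‖c a‖ ^ 2 = 1 := by rw [← norm_pow, hc a, norm_inv, (n2 k _ 0).1, inv_one]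
    nlinarith [norm_nonneg (c a)]
  have hev : ∀ a, (Fq u p k).val (v a) = th A k (lab a (p, k)) • v a := fun a =>
    F.ev a (p, k) hpC
  have hFr : Frame A B u (flip p k '' C) (fun a => c a • (Hq u p k).val (v a))
      (fun a n => lab a (flip p k n)) := by
    refine ⟨⟨?_, ?_⟩, ?_, ?_, ?_⟩
    · intro a b
      have h1 : B (c a • (Hq u p k).val (v a)) (c b • (Hq u p k).val (v b)) =
          c a * c b * th A k (lab b (p, k)) * B (v a) (v b) := by
        rw [map_smul, map_smul, LinearMap.smul_apply, haH, hHH, hev b, map_smul, smul_eq_mul,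
          smul_eq_mul, smul_eq_mul]
        ring
      rw [h1, F.on.1 a b]
      by_cases hab : a = b
      · rw [if_pos hab, hab, hcc b, one_mul]
      · rw [if_neg hab, mul_zero]
    · intro x
      set x₀ := (Hq u p k)⁻¹.val x with hx₀
      have hx : x = (Hq u p k).val x₀ := (hinv x).symm
      have h1 : ∀ a, B (c a • (Hq u p k).val (v a)) x • (c a • (Hq u p k).val (v a)) =
          (Hq u p k).val (B (v a) x₀ • v a) := by
        intro a
        rw [hx, map_smul, LinearMap.smul_apply, haH, hHH, ← haF, hev a, map_smul,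
          LinearMap.smul_apply, smul_eq_mul, smul_eq_mul, smul_smul, map_smul]
        refine congrArg (fun y : ℂ => y • (Hq u p k).val (v a)) ?_
        linear_combination (B (v a) x₀) * hcc a
      rw [Finset.sum_congr rfl fun a _ => h1 a, ← map_sum, F.on.2 x₀]
      exact hx.symm
    · rintro a _ ⟨n, hn, rfl⟩
      rw [flip_flip, map_smul, hfl n hn, F.ev a n hn, map_smul, smul_comm, flip_snd]
    · rintro a _ ⟨n, hn, rfl⟩
      rw [flip_flip, flip_snd]
      exact F.rg a n hn
    · intro a b h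
      refine F.inj a b fun n hn => ?_
      have h1 := h (flip p k n) (Set.mem_image_of_mem _ hn)
      change lab a (flip p k (flip p k n)) = lab b (flip p k (flip p k n)) at h1
      rwa [flip_flip] at h1
  refine ⟨⟨_, _, hFr, fun a => ?_⟩, ⟨_, _, hFr, fun a => ?_⟩⟩
  · change ‖B (c a • (Hq u p k).val (v a)) ((Hq u p k).val w)‖ ≤ K
    rw [map_smul, LinearMap.smul_apply, haH, hHH, ← haF, hev a, map_smul, LinearMap.smul_apply,
      smul_eq_mul, smul_eq_mul, norm_mul, norm_mul, hcn a, (n2 k _ 0).1, one_mul, one_mul]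
    exact hb a
  · change ‖B (c a • (Hq u p k).val (v a)) ((Hq u p k)⁻¹.val w)‖ ≤ K
    rw [map_smul, LinearMap.smul_apply, haH, hinv, smul_eq_mul, norm_mul, hcn a, one_mul]
    exact hb a

end MP_fc1011_gt.TP
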