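import Pool.Agent.Lib.MP_fc1011_gt.TP.Spec
import Pool.Agent.Lib.MP_fc1011_gt.MT.Fin

/-!
# MP_fc1011_gt, paths of trees: the frame of the left comb
-/

set_option autoImplicit false

namespace MP_fc1011_gt.TP

open Finset MT

private theorem in_le {R m : ℕ} {a : ℕ → ℕ} (ha : Pth R m a) : ∀ i, i ≤ m → a i ≤ i + 1 := by
  intro i
  induction i with
  | zero => intro _; rw [ha.1]
  | succ i ih =>
    intro hi
    have h1 := ih (by omega)
    have h2 := ha.2.2.1 i (by omega)
    omega

private theorem in_one {R m : ℕ} {a : ℕ → ℕ} (hm : 0 < m) (ha : Pth R m a) : a 1 = 2 := by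
  have h1 := ha.2.2.1 0 hm
  have h2 := ha.1
  have h3 := (ha.2.2.2 1).1
  rw [zero_add] at h1
  omega

private theorem in_leaves (n : ℕ) : (Tree.comb n).leaves = n + 1 := by
  induction n with
  | zero => rfl
  | succ n ih =>
    show (Tree.comb n).leaves + 1 = _
    rw [ih]

private theorem in_nodes (n : ℕ) : ∀ x ∈ nodes (Tree.comb n) 0,
    (x.1 = 0 ∧ x.2 ≤ n + 1) ∨ x.2 = 1 := by
  induction n with
  | zero =>
    intro x hx
    have hx' : x = (0, 1) := hx
    right
    rw [hx']
  | succ n ih =>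
    intro x hx
    have hx' : x = (0, (Tree.comb n).leaves + Tree.leaf.leaves) ∨
      (x ∈ nodes (Tree.comb n) 0 ∨ x = (0 + (Tree.comb n).leaves, 1)) := hx
    rcases hx' with h | h | h
    · left
      rw [h, in_leaves]
      exact ⟨rfl, le_refl _⟩
    · rcases ih x h with h1 | h1
      · left
        exact ⟨h1.1, by omega⟩
      · right
        exact h1
    · right
      rw [h]

private theorem in_mem (n : ℕ) : ∀ k, 1 ≤ k → k ≤ n + 1 → ((0, k) : ℕ × ℕ) ∈ nodes (Tree.comb n) 0 := by
  induction n with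
  | zero =>
    intro k h1 h2
    have : k = 1 := by omega
    rw [this]
    exact rfl
  | succ n ih =>
    intro k h1 h2
    have goal' : ((0, k) : ℕ × ℕ) = (0, (Tree.comb n).leaves + Tree.leaf.leaves) ∨
      (((0, k) : ℕ × ℕ) ∈ nodes (Tree.comb n) 0 ∨
        ((0, k) : ℕ × ℕ) = (0 + (Tree.comb n).leaves, 1)) := by
      rcases Nat.lt_or_ge k (n + 2) with h | h
      · right; left
        exact ih k h1 (by omega)
      · left
        rw [in_leaves]
        have : k = n + 1 + 1 := by omega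
        rw [this]
        rfl
    exact goal'

private theorem in_ket {b : ℕ → ℂ} {R m : ℕ} (hb : ∀ n : ℕ, ‖b n‖ ≤ n) (hR : 2 ≤ R)
    (μ : Matching m) (a : ℕ → ℕ) (ha : Pth R m a) : ‖ket b R μ a‖ ^ 2 ≤ (R : ℝ) ^ m := by
  classical
  have hR0 : (0 : ℝ) ≤ (R : ℝ) ^ m := by positivity
  unfold ket
  split_ifs with h
  · let g : Fin m → ℝ := fun x => if x < μ.f x then (R : ℝ) else 1
    have h1 : ‖∏ x : Fin m, (if x < μ.f x then b (a ((x : ℕ) + 1)) else 1)‖ ≤ ∏ x, g x := by
      rw [norm_prod]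
      refine Finset.prod_le_prod (fun x _ => norm_nonneg _) fun x _ => ?_
      show ‖(if x < μ.f x then b (a ((x : ℕ) + 1)) else 1)‖ ≤ if x < μ.f x then (R : ℝ) else 1
      split_ifs with h2
      · refine (hb _).trans ?_
        exact_mod_cast (ha.2.2.2 _).2
      · rw [norm_one]
    have h2 : (∏ x, g x) ^ 2 = (R : ℝ) ^ m := by
      have e1 : ∏ x, g x = ∏ x, g (μ.f x) :=
        (Equiv.prod_comp (Function.Involutive.toPerm μ.f μ.invol) g).symm
      rw [pow_two]
      nth_rewrite 2 [e1]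
      rw [← Finset.prod_mul_distrib]
      have e2 : ∀ x, g x * g (μ.f x) = (R : ℝ) := by
        intro x
        show (if x < μ.f x then (R : ℝ) else 1) * (if μ.f x < μ.f (μ.f x) then (R : ℝ) else 1) = R
        rw [μ.invol]
        rcases lt_trichotomy x (μ.f x) with h3 | h3 | h3
        · rw [if_pos h3, if_neg (asymm h3), mul_one]
        · exact absurd h3.symm (μ.ne x)
        · rw [if_neg (asymm h3), if_pos h3, one_mul]
      simp only [e2]
      rw [Finset.prod_const, Finset.card_univ, Fintype.card_fin]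
    rw [← h2]
    exact pow_le_pow_left₀ (norm_nonneg _) h1 2
  · rw [norm_zero]
    simp

theorem sIn (_hNum : S_Num) : S_In := by
  intro A b R m ε hm hA _ hH hε hb1 hb2 u hF iF iD μ
  have hR := hH.two
  have hom : ∀ x, x ∈ Om R m ↔ Pth R m x := by
    intro x
    unfold Om
    rw [dif_pos (sFin R m).1, Set.Finite.mem_toFinset]
    rfl
  let D : PT R m → ℂ := fun a => ∏ j ∈ range m, b (a.1 (j + 1))
  have hD : ∀ a, D a ≠ 0 := fun a => Finset.prod_ne_zero_iff.2 fun j _ =>
    hH.ne _ (a.2.2.2.2 _).1 (a.2.2.2.2 _).2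
  have hc : ∀ a, ∃ c : ℂ, c ^ 2 = D a := fun a =>
    IsAlgClosed.exists_pow_nat_eq (D a) (by norm_num)
  choose c hc using hc
  have hc0 : ∀ a, c a ≠ 0 := by
    intro a h
    apply hD a
    rw [← hc a, h]
    norm_num
  have hBP : ∀ φ ψ : PT R m → ℂ, BP b R m φ ψ = ∑ a : PT R m, φ a * ψ a / D a := by
    intro φ ψ
    rw [BP_apply]
    unfold BB
    rw [Finset.sum_subtype (Om R m) hom]
    refine Finset.sum_congr rfl fun a _ => ?_
    rw [ext_of φ a.2, ext_of ψ a.2]
  let v : PT R m → PT R m → ℂ := fun a => c a • Pi.single a 1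
  have hv1 : ∀ a, v a a = c a := by
    intro a
    show c a * (Pi.single a 1 : PT R m → ℂ) a = c a
    rw [Pi.single_eq_same, mul_one]
  have hv2 : ∀ a a', a' ≠ a → v a a' = 0 := by
    intro a a' h
    show c a * (Pi.single a 1 : PT R m → ℂ) a' = 0
    rw [Pi.single_eq_of_ne h, mul_zero]
  have hBv : ∀ a (ψ : PT R m → ℂ), BP b R m (v a) ψ = ψ a / c a := by
    intro a ψ
    rw [hBP, Finset.sum_eq_single a]
    · rw [hv1, ← hc a]
      field_simp [hc0 a]
    · intro a' _ h
      rw [hv2 a a' h, zero_mul, zero_div]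
    · intro h
      exact absurd (Finset.mem_univ a) h
  let lab : PT R m → ℕ × ℕ → ℕ := fun a n => if n.2 = 1 then 2 else a.1 n.2
  have hnode : ∀ n ∈ nodes (Tree.comb (m - 1)) 0, (n.1 = 0 ∧ n.2 ≤ m) ∨ n.2 = 1 := by
    intro n hn
    rcases in_nodes _ n hn with h | h
    · left
      exact ⟨h.1, by omega⟩
    · right
      exact h
  refine ⟨v, lab, ⟨⟨?_, ?_⟩, ?_, ?_, ?_⟩, ?_⟩
  · intro a a'
    rw [hBv]
    by_cases h : a = a'
    · rw [if_pos h, ← h, hv1, div_self (hc0 a)]
    · rw [if_neg h, hv2 a' a h, zero_div]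
  · intro w
    funext a
    rw [Finset.sum_apply, Finset.sum_eq_single a]
    · rw [hBv]
      show w a / c a * v a a = w a
      rw [hv1, div_mul_cancel₀ _ (hc0 a)]
    · intro a' _ h
      show BP b R m (v a') w * v a' a = 0
      rw [hv2 a' a (Ne.symm h), mul_zero]
    · intro h
      exact absurd (Finset.mem_univ a) h
  · intro a n hn
    by_cases h1 : n.2 = 1
    · have e1 : lab a n = 2 := if_pos h1
      have e2 : th A 1 2 = 1 := by
        unfold th
        norm_num
      have e3 : Fq u n.1 1 = 1 := by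
        unfold Fq
        simp [MV.FF, MV.JJ]
      rw [e1, h1, e2, e3, one_smul]
      rfl
    · have e1 : lab a n = a.1 n.2 := if_neg h1
      obtain ⟨h2, h3⟩ := (hnode n hn).resolve_right h1
      rw [e1, h2]
      funext a'
      rw [hF n.2 h3]
      show _ = th A n.2 (a.1 n.2) * v a a'
      by_cases h4 : a' = a
      · rw [h4]
      · rw [hv2 a a' h4, mul_zero, mul_zero]
  · intro a n hn
    by_cases h1 : n.2 = 1
    · have e1 : lab a n = 2 := if_pos h1
      rw [e1, h1]
      norm_num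
    · have e1 : lab a n = a.1 n.2 := if_neg h1
      obtain ⟨h2, h3⟩ := (hnode n hn).resolve_right h1
      rw [e1]
      exact ⟨(a.2.2.2.2 _).1, in_le a.2 _ h3⟩
  · intro a a' h
    refine Subtype.ext (funext fun k => ?_)
    rcases Nat.lt_or_ge k 2 with h1 | h1
    · rcases Nat.lt_or_ge k 1 with h2 | h2
      · have : k = 0 := by omega
        rw [this, a.2.1, a'.2.1]
      · have : k = 1 := by omega
        rw [this, in_one hm a.2, in_one hm a'.2]
    · rcases Nat.lt_or_ge m k with h2 | h2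
      · rw [a.2.2.1 k h2.le, a'.2.2.1 k h2.le]
      · have e := h (0, k) (in_mem _ k (by omega) (by omega))
        have e1 : lab a (0, k) = a.1 k := if_neg (by show ¬ k = 1; omega)
        have e2 : lab a' (0, k) = a'.1 k := if_neg (by show ¬ k = 1; omega)
        rw [e1, e2] at e
        exact e
  · intro a
    rw [hBv]
    show ‖ket b R μ a.1 / c a‖ ≤ _
    have hcn : ε ^ m ≤ ‖c a‖ ^ 2 := by
      rw [← norm_pow, hc a]
      show _ ≤ ‖∏ j ∈ range m, b (a.1 (j + 1))‖
      rw [norm_prod]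
      calc ε ^ m = ∏ j ∈ range m, ε := by rw [Finset.prod_const, Finset.card_range]
        _ ≤ _ := Finset.prod_le_prod (fun _ _ => hε.le) fun j _ =>
          hb1 _ (a.2.2.2.2 _).1 (a.2.2.2.2 _).2
    have hk := in_ket hb2 hR μ a.1 a.2
    refine Real.le_sqrt_of_sq_le ?_
    rw [norm_div, div_pow, div_pow]
    exact div_le_div₀ (by positivity) hk (by positivity) hcn

end MP_fc1011_gt.TP
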