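import Pool.Agent.Lib.MP_fc1011_gt.TP.Spec

/-!
# MP_fc1011_gt, paths of trees: leaves and nodes
-/

set_option autoImplicit false

namespace MP_fc1011_gt.TP

open Finset MT

private theorem leaves_pos (T : Tree) : 1 ≤ T.leaves := by
  induction T with
  | leaf => exact le_rfl
  | node S T hS hT =>
    change 1 ≤ S.leaves + T.leaves
    omega

private theorem mirror_leaves (T : Tree) : T.mirror.leaves = T.leaves := by
  induction T with
  | leaf => rfl
  | node S T hS hT =>
    change T.mirror.leaves + S.mirror.leaves = S.leaves + T.leaves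
    omega

private theorem mirror_mirror (T : Tree) : T.mirror.mirror = T := by
  induction T with
  | leaf => rfl
  | node S T hS hT =>
    change Tree.node S.mirror.mirror T.mirror.mirror = Tree.node S T
    rw [hS, hT]

private theorem comb_leaves (n : ℕ) : (Tree.comb n).leaves = n + 1 := by
  induction n with
  | zero => rfl
  | succ n ih =>
    change (Tree.comb n).leaves + 1 = n + 1 + 1
    rw [ih]

private theorem root_mem (T : Tree) (o : ℕ) : (o, T.leaves) ∈ nodes T o := by
  cases T with
  | leaf => exact rfl
  | node S T => exact Or.inl rfl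

private theorem nodes_bd (T : Tree) : ∀ o : ℕ, ∀ n ∈ nodes T o,
    o ≤ n.1 ∧ n.1 + n.2 ≤ o + T.leaves ∧ 1 ≤ n.2 := by
  induction T with
  | leaf =>
    intro o n hn
    have h : n = (o, 1) := hn
    rw [h]
    exact ⟨le_rfl, le_rfl, le_rfl⟩
  | node S T hS hT =>
    intro o n hn
    have h1 := leaves_pos S
    have h2 := leaves_pos T
    change o ≤ n.1 ∧ n.1 + n.2 ≤ o + (S.leaves + T.leaves) ∧ 1 ≤ n.2
    rcases hn with h | h | h
    · have h : n = (o, S.leaves + T.leaves) := h
      rw [h]
      refine ⟨le_rfl, le_rfl, ?_⟩
      change 1 ≤ S.leaves + T.leaves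
      omega
    · have := hS o n h
      omega
    · have := hT (o + S.leaves) n h
      omega

private theorem nodes_cpt (T : Tree) : ∀ o : ℕ, ∀ n ∈ nodes T o, ∀ n' ∈ nodes T o, Cpt n n' := by
  induction T with
  | leaf =>
    intro o n hn n' hn'
    have h : n = (o, 1) := hn
    have h' : n' = (o, 1) := hn'
    rw [h, h']
    exact Or.inr (Or.inr (Or.inl ⟨le_rfl, le_rfl⟩))
  | node S T hS hT =>
    intro o n hn n' hn'
    have h1 := nodes_bd (Tree.node S T) o n hn
    have h2 := nodes_bd (Tree.node S T) o n' hn'
    have h3 : (Tree.node S T).leaves = S.leaves + T.leaves := rfl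
    rcases hn with h | h | h
    · have h : n = (o, S.leaves + T.leaves) := h
      refine Or.inr (Or.inr (Or.inl ?_))
      rw [h]
      change o ≤ n'.1 ∧ n'.1 + n'.2 ≤ o + (S.leaves + T.leaves)
      omega
    · have h4 := nodes_bd S o n h
      rcases hn' with h' | h' | h'
      · have h' : n' = (o, S.leaves + T.leaves) := h'
        refine Or.inr (Or.inr (Or.inr ?_))
        rw [h']
        change o ≤ n.1 ∧ n.1 + n.2 ≤ o + (S.leaves + T.leaves)
        omega
      · exact hS o n h n' h'
      · have h5 := nodes_bd T (o + S.leaves) n' h'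
        refine Or.inl ?_
        omega
    · have h4 := nodes_bd T (o + S.leaves) n h
      rcases hn' with h' | h' | h'
      · have h' : n' = (o, S.leaves + T.leaves) := h'
        refine Or.inr (Or.inr (Or.inr ?_))
        rw [h']
        change o ≤ n.1 ∧ n.1 + n.2 ≤ o + (S.leaves + T.leaves)
        omega
      · have h5 := nodes_bd S o n' h'
        refine Or.inr (Or.inl ?_)
        omega
      · exact hT (o + S.leaves) n h n' h'

private theorem elR_leaves {T T' : Tree} (h : ElR T T') : T'.leaves = T.leaves := by
  induction h with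
  | fwd A B =>
    change A.leaves + (B.leaves + 1) = A.leaves + B.leaves + 1
    omega
  | bwd A B =>
    change A.leaves + B.leaves + 1 = A.leaves + (B.leaves + 1)
    omega
  | @left S S' T _ ih =>
    change S'.leaves + T.leaves = S.leaves + T.leaves
    omega
  | @right S T T' _ ih =>
    change S.leaves + T'.leaves = S.leaves + T.leaves
    omega

private theorem elL_leaves {T T' : Tree} (h : ElL T T') : T'.leaves = T.leaves := by
  induction h with
  | fwd A B =>
    change 1 + A.leaves + B.leaves = 1 + (A.leaves + B.leaves)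
    omega
  | bwd A B =>
    change 1 + (A.leaves + B.leaves) = 1 + A.leaves + B.leaves
    omega
  | @left S S' T _ ih =>
    change S'.leaves + T.leaves = S.leaves + T.leaves
    omega
  | @right S T T' _ ih =>
    change S.leaves + T'.leaves = S.leaves + T.leaves
    omega

private theorem rot_leaves {T T' : Tree} {c : ℕ} (h : Rot T T' c) : T'.leaves = T.leaves := by
  induction h with
  | fwd A B C =>
    change A.leaves + (B.leaves + C.leaves) = A.leaves + B.leaves + C.leaves
    omega
  | bwd A B C =>
    change A.leaves + B.leaves + C.leaves = A.leaves + (B.leaves + C.leaves)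
    omega
  | @left S S' c T _ ih =>
    change S'.leaves + T.leaves = S.leaves + T.leaves
    omega
  | @right S T T' c _ ih =>
    change S.leaves + T'.leaves = S.leaves + T.leaves
    omega

private theorem turn_leaves {o : ℕ} {T T' : Tree} {p k : ℕ} (h : Turn o T T' p k) :
    T'.leaves = T.leaves ∧ o ≤ p ∧ p + k ≤ o + T.leaves ∧ (p, k) ∈ nodes T o := by
  induction h with
  | whole o T => exact ⟨mirror_leaves T, le_rfl, le_rfl, root_mem T o⟩
  | @left o S S' p k T _ ih =>
    obtain ⟨h1, h2, h3, h4⟩ := ih
    refine ⟨?_, h2, ?_, Or.inr (Or.inl h4)⟩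
    · change S'.leaves + T.leaves = S.leaves + T.leaves
      omega
    · change p + k ≤ o + (S.leaves + T.leaves)
      omega
  | @right o S T T' p k _ ih =>
    obtain ⟨h1, h2, h3, h4⟩ := ih
    refine ⟨?_, by omega, ?_, Or.inr (Or.inr h4)⟩
    · change S.leaves + T'.leaves = S.leaves + T.leaves
      omega
    · change p + k ≤ o + (S.leaves + T.leaves)
      omega

/-- Leaves and nodes. -/
theorem sLam : S_Lam :=
  ⟨fun T => ⟨leaves_pos T, mirror_leaves T, mirror_mirror T⟩, comb_leaves,
    fun T o => ⟨root_mem T o, nodes_bd T o, nodes_cpt T o⟩, fun _ _ h => elR_leaves h,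
    fun _ _ h => elL_leaves h, fun _ _ _ h => rot_leaves h, fun _ _ _ _ _ h => turn_leaves h⟩

end MP_fc1011_gt.TP
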