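import Pool.Agent.Lib.MP_fc1011_gt.TP.Spec

set_option autoImplicit false

/-!
# MP_fc1011_gt, paths of trees, module Mdl: the path model is a model
-/

namespace MP_fc1011_gt.TP

open Finset MT

private theorem md_JJ {G E : Type} [Monoid G] [Monoid E] (f : G →* E) (s : ℕ → G) :
    ∀ k, f (MV.JJ s k) = MV.JJ (fun j => f (s j)) k
  | 0 => map_one f
  | k + 1 => by
    change f (s k * MV.JJ s k * s k) = f (s k) * MV.JJ (fun j => f (s j)) k * f (s k)
    rw [map_mul, map_mul, md_JJ f s k]

private theorem md_FF {G E : Type} [Monoid G] [Monoid E] (f : G →* E) (s : ℕ → G) :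
    ∀ k, f (MV.FF s k) = MV.FF (fun j => f (s j)) k
  | 0 => map_one f
  | k + 1 => by
    change f (MV.FF s k * MV.JJ s k) =
      MV.FF (fun j => f (s j)) k * MV.JJ (fun j => f (s j)) k
    rw [map_mul, md_JJ f s k, md_FF f s k]

private theorem md_JJc {E : Type} [Monoid E] {s t : ℕ → E} :
    ∀ k, (∀ j, j < k → s j = t j) → MV.JJ s k = MV.JJ t k
  | 0, _ => rfl
  | k + 1, h => by
    change s k * MV.JJ s k * s k = t k * MV.JJ t k * t k
    rw [h k (Nat.lt_succ_self k), md_JJc k fun j hj => h j (by omega)]

private theorem md_FFc {E : Type} [Monoid E] {s t : ℕ → E} :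
    ∀ k, (∀ j, j + 1 < k → s j = t j) → MV.FF s k = MV.FF t k
  | 0, _ => rfl
  | k + 1, h => by
    change MV.FF s k * MV.JJ s k = MV.FF t k * MV.JJ t k
    rw [md_JJc k fun j hj => h j (by omega), md_FFc k fun j hj => h j (by omega)]

private theorem md_shift {W : Type} [AddCommGroup W] [Module ℂ W] {d : ℂ} {m q k : ℕ}
    {e : ℕ → Module.End ℂ W} (h : MV.TL d m e) (hqk : q + k ≤ m) :
    MV.TL d k fun j => e (q + j) where
  sq j hj := h.sq (q + j) (by omega)
  up j hj := h.up (q + j) (by omega)
  dn j hj := h.dn (q + j) (by omega)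
  comm i j hij hj := h.comm (q + i) (q + j) (by omega) (by omega)

private theorem md_Qd {W : Type} [AddCommGroup W] [Module ℂ W] {X J J' : (Module.End ℂ W)ˣ}
    (h : X * J = J' * X) {y z : ℂ} {w : W} (hQ : Qd J.val y z ((X⁻¹).val w)) :
    Qd J'.val y z w := by
  have hJ : J' = X * J * X⁻¹ := by rw [h, mul_inv_cancel_right]
  have h1 : ∀ v, (X⁻¹).val (X.val v) = v := by
    intro v
    rw [← Module.End.mul_apply, ← Units.val_mul, inv_mul_cancel, Units.val_one,
      Module.End.one_apply]
  have h2 : ∀ v, X.val ((X⁻¹).val v) = v := by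
    intro v
    rw [← Module.End.mul_apply, ← Units.val_mul, mul_inv_cancel, Units.val_one,
      Module.End.one_apply]
  have hap : ∀ v, J'.val v = X.val (J.val ((X⁻¹).val v)) := by
    intro v
    rw [hJ, Units.val_mul, Units.val_mul, Module.End.mul_apply, Module.End.mul_apply]
  unfold Qd at hQ ⊢
  rw [hap w, hap (X.val _), h1, hQ, map_sub, map_smul, map_smul, h2]

private theorem md_eig {W : Type} [AddCommGroup W] [Module ℂ W] {X F F' : (Module.End ℂ W)ˣ}
    (h : X * F = F' * X) {c : ℂ} {w : W} (hw : F'.val w = c • w) :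
    F.val ((X⁻¹).val w) = c • (X⁻¹).val w := by
  have hF : F = X⁻¹ * (F' * X) := by rw [← h, inv_mul_cancel_left]
  have h2 : X.val ((X⁻¹).val w) = w := by
    rw [← Module.End.mul_apply, ← Units.val_mul, mul_inv_cancel, Units.val_one,
      Module.End.one_apply]
  rw [hF, Units.val_mul, Units.val_mul, Module.End.mul_apply, Module.End.mul_apply, h2, hw,
    map_smul]

private theorem md_lb (A : ℂ) (hA : A ≠ 0) {W : Type} [AddCommGroup W] [Module ℂ W]
    (e : ℕ → Module.End ℂ W) (u : ℕ → (Module.End ℂ W)ˣ) {m : ℕ}
    (hTL : MV.TL (-A ^ 2 - (A ^ 2)⁻¹) m e)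
    (hu : ∀ j, j + 1 < m → (u j).val = A • (1 : Module.End ℂ W) + A⁻¹ • e j)
    (q k : ℕ) (hqk : q + k ≤ m) (w : W) (c : ℂ) (hw : w ≠ 0) (h : (Fq u q k).val w = c • w) :
    ∃ x : ℕ, 1 ≤ x ∧ x ≤ k + 1 ∧ c = th A k x := by
  let A' : ℂˣ := Units.mk0 A hA
  have hd : MV.dl A' = -A ^ 2 - (A ^ 2)⁻¹ := by
    unfold MV.dl
    rw [← inv_pow]
    rfl
  have hTL' : MV.TL (MV.dl A') k fun j => e (q + j) := by
    rw [hd]
    exact md_shift hTL hqk
  have hF : (Fq u q k).val = MV.FF (MV.sg A' fun j => e (q + j)) k := by
    have h1 := md_FF (Units.coeHom (Module.End ℂ W)) (fun j => u (q + j)) k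
    refine Eq.trans h1 (md_FFc k fun j hj => ?_)
    exact hu (q + j) (by omega)
  have hann := MV.aeval_ann A' k (fun j => e (q + j)) hTL'
  rw [← hF] at hann
  have hev : Module.End.HasEigenvector (Fq u q k).val c w :=
    ⟨Module.End.mem_eigenspace_iff.2 h, hw⟩
  have h1 := Module.End.aeval_apply_of_hasEigenvector (p := MV.ann A' k) hev
  rw [hann, LinearMap.zero_apply] at h1
  have h2 : (MV.ann A' k).eval c = 0 := by
    by_contra hne
    exact hw ((smul_eq_zero.1 h1.symm).resolve_left hne)
  unfold MV.ann at h2
  rw [Polynomial.eval_prod, Finset.prod_eq_zero_iff] at h2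
  obtain ⟨j, hj, hj2⟩ := h2
  rw [Finset.mem_range] at hj
  rw [Polynomial.eval_sub, Polynomial.eval_X, Polynomial.eval_C, sub_eq_zero] at hj2
  have hjk : 2 * j ≤ k := by omega
  refine ⟨k - 2 * j + 1, by omega, by omega, ?_⟩
  rw [hj2]
  unfold MV.lam th
  rw [Units.val_zpow_eq_zpow_val]
  have h3 : ((k - 2 * j + 1 : ℕ) : ℤ) = (k : ℤ) - 2 * j + 1 := by
    rw [Nat.cast_add, Nat.cast_sub hjk]
    push_cast
    ring
  rw [h3]
  change A ^ _ = A ^ _
  congr 1
  ring

/-- two roots -/
private theorem md_two {l y z w : ℂ} (h : w = 0 ∨ l = y ∨ l = z) :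
    l * (l * w) = (y + z) * (l * w) - y * z * w := by
  rcases h with h | h | h
  · rw [h]; ring
  · rw [h]; ring
  · rw [h]; ring

theorem sMdl (hSh : S_Sh) (hNum : S_Num) : S_Mdl := by
  intro A b R m ε hA hrou hgap he0 he1 hH hTL u hbr hu hadj hJ hF
  have hA0 : A ≠ 0 := by
    intro h
    rw [h, norm_zero] at hA
    exact zero_ne_one hA
  obtain ⟨hn1, -⟩ := hNum A hA hrou
  have main : ∀ q k, q + k < m →
      (∀ (x : ℕ) (w : PT R m → ℂ), 1 ≤ x → (Fq u q k).val w = th A k x • w →
        Qd (Jq u q k).val (ra A 2 x) (rb A 2 x) w) ∧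
      (∀ (x : ℕ) (w : PT R m → ℂ), 1 ≤ x → (Fq u q (k + 1)).val w = th A (k + 1) x • w →
        Qd (Jq u q k).val (ra A 4 x) (rb A 4 x) w) := by
    intro q
    induction q with
    | zero =>
      intro k hk
      have hkm : k < m := by omega
      constructor
      · intro x w hx hw
        funext a
        have hwa := congrFun hw a
        rw [hF k hkm.le] at hwa
        simp only [Pi.smul_apply, smul_eq_mul] at hwa
        have hcase : w a = 0 ∨ a.1 k = x := by
          by_cases h0 : w a = 0
          · exact Or.inl h0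
          · exact Or.inr (hn1 _ _ _ (mul_right_cancel₀ h0 hwa))
        simp only [Pi.smul_apply, Pi.sub_apply, smul_eq_mul]
        rw [hJ k hkm, hJ k hkm]
        refine md_two ?_
        rcases hcase with h0 | h0
        · exact Or.inl h0
        · right
          rcases a.2.2.2.1 k hkm with h1 | h1
          · left
            rw [h0] at h1
            unfold ra
            rw [h0, h1]
            congr 1
            push_cast
            ring
          · right
            rw [h0] at h1
            unfold rb
            have h2 : ((a.1 (k + 1) : ℕ) : ℤ) = (x : ℤ) - 1 := by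
              have : ((a.1 (k + 1) + 1 : ℕ) : ℤ) = (x : ℤ) := by rw [h1]
              push_cast at this
              linarith
            rw [h0, h2]
            congr 1
            push_cast
            ring
      · intro x w hx hw
        funext a
        have hwa := congrFun hw a
        rw [hF (k + 1) (by omega)] at hwa
        simp only [Pi.smul_apply, smul_eq_mul] at hwa
        have hcase : w a = 0 ∨ a.1 (k + 1) = x := by
          by_cases h0 : w a = 0
          · exact Or.inl h0
          · exact Or.inr (hn1 _ _ _ (mul_right_cancel₀ h0 hwa))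
        simp only [Pi.smul_apply, Pi.sub_apply, smul_eq_mul]
        rw [hJ k hkm, hJ k hkm]
        refine md_two ?_
        rcases hcase with h0 | h0
        · exact Or.inl h0
        · right
          rcases a.2.2.2.1 k hkm with h1 | h1
          · left
            rw [h0] at h1
            unfold ra
            have h2 : ((a.1 k : ℕ) : ℤ) = (x : ℤ) - 1 := by
              have : (x : ℤ) = ((a.1 k + 1 : ℕ) : ℤ) := by rw [h1]
              push_cast at this
              linarith
            rw [h0, h2]
            congr 1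
            push_cast
            ring
          · right
            rw [h0] at h1
            unfold rb
            rw [h0, ← h1]
            congr 1
            push_cast
            ring
    | succ q ih =>
      intro k hk
      have hk' : q + k + 1 < m := by omega
      obtain ⟨s1, s2, s3⟩ := hSh _ m u hbr q k hk'
      obtain ⟨i1, i2⟩ := ih k (by omega)
      constructor
      · intro x w hx hw
        exact md_Qd s1 (i1 x _ hx (md_eig s2 hw))
      · intro x w hx hw
        exact md_Qd s1 (i2 x _ hx (md_eig s3 hw))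
  exact
    { nA := hA
      rou := hrou
      gap := hgap
      e0 := he0
      e1 := he1
      sym := fun x y => by rw [BP_apply, BP_apply, BB_symm]
      br := hbr
      adj := hadj
      lb := fun q k hqk w c hw h => md_lb A hA0 _ u hTL hu q k hqk w c hw h
      qa := fun q k hqk x w hx hw => (main q k hqk).1 x w hx hw
      qb := fun q k hqk x w hx hw => (main q k hqk).2 x w hx hw }

end MP_fc1011_gt.TP
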