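import Pool.Agent.Lib.MP_fc1011_gt.TP.Spec

/-!
# TP/Mv: a general change of a tree is a chain of elementary ones
-/

set_option autoImplicit false

namespace MP_fc1011_gt.TP

open MP_fc1011_gt.TP.Tree

private theorem elR_symm {S T : Tree} (h : ElR S T) : ElR T S := by
  induction h with
  | fwd A B => exact ElR.bwd A B
  | bwd A B => exact ElR.fwd A B
  | left T _ ih => exact ElR.left T ih
  | right S _ ih => exact ElR.right S ih

private theorem elL_symm {S T : Tree} (h : ElL S T) : ElL T S := by
  induction h with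
  | fwd A B => exact ElL.bwd A B
  | bwd A B => exact ElL.fwd A B
  | left T _ ih => exact ElL.left T ih
  | right S _ ih => exact ElL.right S ih

private theorem elR_mirror {S T : Tree} (h : ElR S T) : ElL S.mirror T.mirror := by
  induction h with
  | fwd A B => exact ElL.fwd B.mirror A.mirror
  | bwd A B => exact ElL.bwd B.mirror A.mirror
  | left T _ ih => exact ElL.right T.mirror ih
  | right S _ ih => exact ElL.left S.mirror ih

private theorem elL_mirror {S T : Tree} (h : ElL S T) : ElR S.mirror T.mirror := by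
  induction h with
  | fwd A B => exact ElR.fwd B.mirror A.mirror
  | bwd A B => exact ElR.bwd B.mirror A.mirror
  | left T _ ih => exact ElR.right T.mirror ih
  | right S _ ih => exact ElR.left S.mirror ih

private theorem ch_trans {S T U : Tree} {a b : ℕ} (h1 : Ch S T a) (h2 : Ch T U b) :
    Ch S U (a + b) := by
  induction h2 with
  | refl => exact h1
  | stepR _ e ih => exact Ch.stepR ih e
  | stepL _ e ih => exact Ch.stepL ih e

private theorem ch_symm {S T : Tree} {n : ℕ} (h : Ch S T n) : Ch T S n := by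
  induction h with
  | refl => exact Ch.refl _
  | stepR _ e ih =>
    rw [Nat.add_comm]
    exact ch_trans (Ch.stepR (Ch.refl _) (elR_symm e)) ih
  | stepL _ e ih =>
    rw [Nat.add_comm]
    exact ch_trans (Ch.stepL (Ch.refl _) (elL_symm e)) ih

private theorem ch_left {S S' : Tree} {n : ℕ} (T : Tree) (h : Ch S S' n) :
    Ch (.node S T) (.node S' T) n := by
  induction h with
  | refl => exact Ch.refl _
  | stepR _ e ih => exact Ch.stepR ih (ElR.left T e)
  | stepL _ e ih => exact Ch.stepL ih (ElL.left T e)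

private theorem ch_right {T T' : Tree} {n : ℕ} (S : Tree) (h : Ch T T' n) :
    Ch (.node S T) (.node S T') n := by
  induction h with
  | refl => exact Ch.refl _
  | stepR _ e ih => exact Ch.stepR ih (ElR.right S e)
  | stepL _ e ih => exact Ch.stepL ih (ElL.right S e)

private theorem ch_mirror {S T : Tree} {n : ℕ} (h : Ch S T n) : Ch S.mirror T.mirror n := by
  induction h with
  | refl => exact Ch.refl _
  | stepR _ e ih => exact Ch.stepL ih (elR_mirror e)
  | stepL _ e ih => exact Ch.stepR ih (elL_mirror e)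

private theorem merge (a b : ℕ) : Ch (.node (comb a) (comb b)) (comb (a + b + 1)) b := by
  induction b with
  | zero => exact Ch.refl _
  | succ b ih =>
    have h1 : Ch (.node (comb a) (comb (b + 1))) (.node (.node (comb a) (comb b)) .leaf) 1 :=
      Ch.stepR (Ch.refl _) (ElR.bwd (comb a) (comb b))
    have h2 : Ch (.node (.node (comb a) (comb b)) .leaf) (comb (a + (b + 1) + 1)) b :=
      ch_left .leaf ih
    have h3 := ch_trans h1 h2
    rwa [Nat.add_comm 1 b] at h3

private theorem toComb (hLam : S_Lam) (C : Tree) : ∀ k : ℕ, C.leaves = k + 1 →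
    ∃ n, 2 * n + k ≤ k * k ∧ Ch C (comb k) n := by
  induction C with
  | leaf =>
    intro k hk
    have h0 : k = 0 := by
      have : (1 : ℕ) = k + 1 := hk
      omega
    subst h0
    exact ⟨0, by simp, Ch.refl _⟩
  | node X Y ihX ihY =>
    intro k hk
    have hX := (hLam.1 X).1
    have hY := (hLam.1 Y).1
    obtain ⟨x, hx⟩ : ∃ x, X.leaves = x + 1 := ⟨X.leaves - 1, by omega⟩
    obtain ⟨y, hy⟩ : ∃ y, Y.leaves = y + 1 := ⟨Y.leaves - 1, by omega⟩
    obtain ⟨n1, h1, c1⟩ := ihX x hx
    obtain ⟨n2, h2, c2⟩ := ihY y hy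
    have hk' : k = x + y + 1 := by
      have h3 : X.leaves + Y.leaves = k + 1 := hk
      omega
    subst hk'
    refine ⟨n1 + n2 + y, ?_, ch_trans (ch_trans (ch_left Y c1) (ch_right (comb x) c2))
      (merge x y)⟩
    nlinarith [Nat.zero_le (x * y), Nat.zero_le x]

private theorem slide (A B : Tree) (k : ℕ) :
    Ch (.node (.node A B) (comb k)) (.node A (.node B (comb k))) (3 * k + 1) := by
  induction k with
  | zero => exact Ch.stepR (Ch.refl _) (ElR.fwd A B)
  | succ k ih =>
    have h1 : Ch (.node (.node A B) (comb (k + 1))) (.node (.node (.node A B) (comb k)) .leaf) 1 :=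
      Ch.stepR (Ch.refl _) (ElR.bwd (.node A B) (comb k))
    have h2 : Ch (.node (.node (.node A B) (comb k)) .leaf) (.node (.node A (.node B (comb k))) .leaf)
      (3 * k + 1) := ch_left .leaf ih
    have h3 : Ch (.node (.node A (.node B (comb k))) .leaf)
      (.node A (.node (.node B (comb k)) .leaf)) 1 :=
      Ch.stepR (Ch.refl _) (ElR.fwd A (.node B (comb k)))
    have h4 : Ch (.node A (.node (.node B (comb k)) .leaf)) (.node A (.node B (comb (k + 1)))) 1 :=
      Ch.stepR (Ch.refl _) (ElR.right A (ElR.fwd B (comb k)))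
    have h5 := ch_trans (ch_trans (ch_trans h1 h2) h3) h4
    have h6 : 1 + (3 * k + 1) + 1 + 1 = 3 * (k + 1) + 1 := by ring
    rwa [h6] at h5

private theorem rotC (hLam : S_Lam) (A B C : Tree) :
    ∃ n ≤ C.leaves ^ 2, Ch (.node (.node A B) C) (.node A (.node B C)) n := by
  have hC := (hLam.1 C).1
  obtain ⟨k, hk⟩ : ∃ k, C.leaves = k + 1 := ⟨C.leaves - 1, by omega⟩
  obtain ⟨n, hn, hc⟩ := toComb hLam C k hk
  refine ⟨n + (3 * k + 1) + n, ?_, ch_trans (ch_trans (ch_right (.node A B) hc) (slide A B k))
    (ch_right A (ch_right B (ch_symm hc)))⟩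
  rw [hk]
  nlinarith

private theorem rotA (hLam : S_Lam) (A B C : Tree) :
    ∃ n ≤ A.leaves ^ 2, Ch (.node (.node A B) C) (.node A (.node B C)) n := by
  obtain ⟨n, hn, hc⟩ := rotC hLam C.mirror B.mirror A.mirror
  rw [(hLam.1 A).2.1] at hn
  refine ⟨n, hn, ?_⟩
  have h := ch_mirror (ch_symm hc)
  simp only [Tree.mirror, (hLam.1 A).2.2, (hLam.1 B).2.2, (hLam.1 C).2.2] at h
  exact h

private theorem rotM (hLam : S_Lam) (A B C : Tree) :
    ∃ n ≤ min A.leaves C.leaves ^ 2, Ch (.node (.node A B) C) (.node A (.node B C)) n := by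
  rcases le_total A.leaves C.leaves with h | h
  · rw [min_eq_left h]
    exact rotA hLam A B C
  · rw [min_eq_right h]
    exact rotC hLam A B C

theorem sMv (hLam : S_Lam) : S_Mv := by
  intro T T' c h
  induction h with
  | fwd A B C => exact rotM hLam A B C
  | bwd A B C =>
    obtain ⟨n, hn, hc⟩ := rotM hLam A B C
    exact ⟨n, hn, ch_symm hc⟩
  | left T _ ih =>
    obtain ⟨n, hn, hc⟩ := ih
    exact ⟨n, hn, ch_left T hc⟩
  | right S _ ih =>
    obtain ⟨n, hn, hc⟩ := ih
    exact ⟨n, hn, ch_right S hc⟩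

end MP_fc1011_gt.TP
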