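import Pool.Agent.Lib.MP_fc1011_gt.TP.Spec2

/-!
# TP/Mv2: a general change of a tree is a chain of elementary ones (costs with three subtrees)
-/

set_option autoImplicit false

namespace MP_fc1011_gt.TP

open MP_fc1011_gt.TP.Tree

private theorem m2_elR_symm {S T : Tree} (h : ElR S T) : ElR T S := by
  induction h with
  | fwd A B => exact ElR.bwd A B
  | bwd A B => exact ElR.fwd A B
  | left T _ ih => exact ElR.left T ih
  | right S _ ih => exact ElR.right S ih

private theorem m2_elL_symm {S T : Tree} (h : ElL S T) : ElL T S := by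
  induction h with
  | fwd A B => exact ElL.bwd A B
  | bwd A B => exact ElL.fwd A B
  | left T _ ih => exact ElL.left T ih
  | right S _ ih => exact ElL.right S ih

private theorem m2_of {S T : Tree} {n : ℕ} (h : Ch S T n) : Ch2 S T n := by
  induction h with
  | refl => exact Ch2.refl _
  | stepR _ e ih => exact Ch2.stepR ih e
  | stepL _ e ih => exact Ch2.stepL ih e

private theorem m2_trans {S T U : Tree} {a b : ℕ} (h1 : Ch2 S T a) (h2 : Ch2 T U b) :
    Ch2 S U (a + b) := by
  induction h2 with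
  | refl => exact h1
  | stepR _ e ih => exact Ch2.stepR ih e
  | stepL _ e ih => exact Ch2.stepL ih e
  | stepM _ e ih => exact Ch2.stepM ih e
  | stepN _ e ih => exact Ch2.stepN ih e

private theorem m2_symm {S T : Tree} {n : ℕ} (h : Ch2 S T n) : Ch2 T S n := by
  induction h with
  | refl => exact Ch2.refl _
  | stepR _ e ih =>
    rw [Nat.add_comm]
    exact m2_trans (Ch2.stepR (Ch2.refl _) (m2_elR_symm e)) ih
  | stepL _ e ih =>
    rw [Nat.add_comm]
    exact m2_trans (Ch2.stepL (Ch2.refl _) (m2_elL_symm e)) ih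
  | stepM _ e ih =>
    rw [Nat.add_comm]
    exact m2_trans (Ch2.stepN (Ch2.refl _) e) ih
  | stepN _ e ih =>
    rw [Nat.add_comm]
    exact m2_trans (Ch2.stepM (Ch2.refl _) e) ih

private theorem m2_left {S S' : Tree} {n : ℕ} (T : Tree) (h : Ch2 S S' n) :
    Ch2 (.node S T) (.node S' T) n := by
  induction h with
  | refl => exact Ch2.refl _
  | stepR _ e ih => exact Ch2.stepR ih (ElR.left T e)
  | stepL _ e ih => exact Ch2.stepL ih (ElL.left T e)
  | stepM _ e ih => exact Ch2.stepM ih (ElM.left T e)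
  | stepN _ e ih => exact Ch2.stepN ih (ElM.left T e)

private theorem m2_right {T T' : Tree} {n : ℕ} (S : Tree) (h : Ch2 T T' n) :
    Ch2 (.node S T) (.node S T') n := by
  induction h with
  | refl => exact Ch2.refl _
  | stepR _ e ih => exact Ch2.stepR ih (ElR.right S e)
  | stepL _ e ih => exact Ch2.stepL ih (ElL.right S e)
  | stepM _ e ih => exact Ch2.stepM ih (ElM.right S e)
  | stepN _ e ih => exact Ch2.stepN ih (ElM.right S e)

private theorem m2_merge (a b : ℕ) : Ch2 (.node (comb a) (comb b)) (comb (a + b + 1)) b := by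
  induction b with
  | zero => exact Ch2.refl _
  | succ b ih =>
    have h1 : Ch2 (.node (comb a) (comb (b + 1))) (.node (.node (comb a) (comb b)) .leaf) 1 :=
      Ch2.stepR (Ch2.refl _) (ElR.bwd (comb a) (comb b))
    have h2 : Ch2 (.node (.node (comb a) (comb b)) .leaf) (comb (a + (b + 1) + 1)) b :=
      m2_left .leaf ih
    have h3 := m2_trans h1 h2
    rwa [Nat.add_comm 1 b] at h3

private theorem m2_toComb (hLam : S_Lam) (C : Tree) : ∀ k : ℕ, C.leaves = k + 1 →
    ∃ n, 2 * n + k ≤ k * k ∧ Ch2 C (comb k) n := by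
  induction C with
  | leaf =>
    intro k hk
    have h0 : k = 0 := by
      have : (1 : ℕ) = k + 1 := hk
      omega
    subst h0
    exact ⟨0, by simp, Ch2.refl _⟩
  | node X Y ihX ihY =>
    intro k hk
    have hX := (hLam.1 X).1
    have hY := (hLam.1 Y).1
    obtain ⟨x, hx⟩ : ∃ x, X.leaves = x + 1 := ⟨X.leaves - 1, by omega⟩
    obtain ⟨y, hy⟩ : ∃ y, Y.leaves = y + 1 := ⟨Y.leaves - 1, by omega⟩
    obtain ⟨n1, h1, c1⟩ := ihX x hx
    obtain ⟨n2, h2, c2⟩ := ihY y hy
    have hk' : k = x + y + 1 := by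
      have h3 : X.leaves + Y.leaves = k + 1 := hk
      omega
    subst hk'
    refine ⟨n1 + n2 + y, ?_, m2_trans (m2_trans (m2_left Y c1) (m2_right (comb x) c2))
      (m2_merge x y)⟩
    nlinarith [Nat.zero_le (x * y), Nat.zero_le x]

private theorem m2_slide (k : ℕ) : ∀ A C : Tree,
    Ch2 (.node (.node A (comb k)) C) (.node A (.node (comb k) C)) (3 * k + 1) := by
  induction k with
  | zero =>
    intro A C
    exact Ch2.stepM (Ch2.refl _) (ElM.base A C)
  | succ k ih =>
    intro A C
    have h1 : Ch2 (.node (.node A (comb (k + 1))) C) (.node (.node (.node A (comb k)) .leaf) C) 1 :=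
      Ch2.stepR (Ch2.refl _) (ElR.left C (ElR.bwd A (comb k)))
    have h2 : Ch2 (.node (.node (.node A (comb k)) .leaf) C)
        (.node (.node A (comb k)) (.node .leaf C)) 1 :=
      Ch2.stepM (Ch2.refl _) (ElM.base (.node A (comb k)) C)
    have h3 := ih A (.node .leaf C)
    have h4 : Ch2 (.node A (.node (comb k) (.node .leaf C))) (.node A (.node (comb (k + 1)) C)) 1 :=
      Ch2.stepN (Ch2.refl _) (ElM.right A (ElM.base (comb k) C))
    have h5 := m2_trans (m2_trans (m2_trans h1 h2) h3) h4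
    have h6 : 1 + 1 + (3 * k + 1) + 1 = 3 * (k + 1) + 1 := by ring
    rwa [h6] at h5

private theorem m2_rotB (hLam : S_Lam) (A B C : Tree) :
    ∃ n ≤ B.leaves ^ 2, Ch2 (.node (.node A B) C) (.node A (.node B C)) n := by
  have hB := (hLam.1 B).1
  obtain ⟨k, hk⟩ : ∃ k, B.leaves = k + 1 := ⟨B.leaves - 1, by omega⟩
  obtain ⟨n, hn, hc⟩ := m2_toComb hLam B k hk
  refine ⟨n + (3 * k + 1) + n, ?_, m2_trans (m2_trans (m2_left C (m2_right A hc))
    (m2_slide k A C)) (m2_right A (m2_left C (m2_symm hc)))⟩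
  rw [hk]
  nlinarith

private theorem m2_rot (hLam : S_Lam) (hMv : S_Mv) (A B C : Tree) :
    ∃ n ≤ min A.leaves (min B.leaves C.leaves) ^ 2,
      Ch2 (.node (.node A B) C) (.node A (.node B C)) n := by
  rcases le_total B.leaves (min A.leaves C.leaves) with h | h
  · have e : min A.leaves (min B.leaves C.leaves) = B.leaves := by omega
    rw [e]
    exact m2_rotB hLam A B C
  · have e : min A.leaves (min B.leaves C.leaves) = min A.leaves C.leaves := by omega
    rw [e]
    obtain ⟨n, hn, hc⟩ := hMv _ _ _ (Rot.fwd A B C)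
    exact ⟨n, hn, m2_of hc⟩

theorem sMv2 (hLam : S_Lam) (hMv : S_Mv) : S_Mv2 := by
  intro T T' c h
  induction h with
  | fwd A B C => exact m2_rot hLam hMv A B C
  | bwd A B C =>
    obtain ⟨n, hn, hc⟩ := m2_rot hLam hMv A B C
    exact ⟨n, hn, m2_symm hc⟩
  | left T _ ih =>
    obtain ⟨n, hn, hc⟩ := ih
    exact ⟨n, hn, m2_left T hc⟩
  | right S _ ih =>
    obtain ⟨n, hn, hc⟩ := ih
    exact ⟨n, hn, m2_right S hc⟩

end MP_fc1011_gt.TP
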