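import Pool.Agent.Lib.MP_fc1011_gt.TP.Spec

/-!
# MP_fc1011_gt, paths of trees: powers of `A`
-/

set_option autoImplicit false

namespace MP_fc1011_gt.TP

private theorem numMul {A : ℂ} (hA : A ≠ 0) {a b c : ℤ} (h : a + b = c) : A ^ a * A ^ b = A ^ c := by
  rw [← h, zpow_add₀ hA]

private theorem numOne {A : ℂ} (hr : ∀ n : ℕ, 0 < n → A ^ n ≠ 1) {n : ℤ} (h : A ^ n = 1) :
    n = 0 := by
  by_contra hn
  apply hr n.natAbs (Int.natAbs_pos.2 hn)
  rcases Int.natAbs_eq n with h1 | h1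
  · rw [h1, zpow_natCast] at h
    exact h
  · rw [h1, zpow_neg, zpow_natCast, inv_eq_one] at h
    exact h

theorem sNum : S_Num := by
  intro A hA hr
  have hA0 : A ≠ 0 := by
    intro h
    rw [h, norm_zero] at hA
    exact zero_ne_one hA
  have hn : ∀ n : ℤ, ‖A ^ n‖ = 1 := by
    intro n
    rw [norm_zpow, hA, one_zpow]
  have hsub : ∀ t x : ℕ, ra A t x - rb A t x =
      A ^ (-(t : ℤ)) * (A ^ (2 * x) - (A ^ (2 * x))⁻¹) := by
    intro t x
    have e1 : A ^ (2 * x) = A ^ (2 * (x : ℤ)) := by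
      rw [← zpow_natCast]
      push_cast
      rfl
    rw [e1, ← zpow_neg, mul_sub, numMul hA0 (rfl : -(t : ℤ) + 2 * (x : ℤ) = _),
      numMul hA0 (rfl : -(t : ℤ) + -(2 * (x : ℤ)) = _)]
    unfold ra rb
    rw [show 2 * (x : ℤ) - (t : ℤ) = -(t : ℤ) + 2 * (x : ℤ) by ring,
      show -(2 * (x : ℤ)) - (t : ℤ) = -(t : ℤ) + -(2 * (x : ℤ)) by ring]
  refine ⟨?_, ?_, ?_, ?_, ?_, ?_, ?_, ?_, ?_⟩
  · intro k x y h
    unfold th at h
    have h1 : A ^ ((x : ℤ) ^ 2 - (y : ℤ) ^ 2) = 1 := by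
      have h2 : A ^ ((x : ℤ) ^ 2 - (y : ℤ) ^ 2) * A ^ ((y : ℤ) ^ 2 - 1 - 3 * (k : ℤ)) =
          A ^ ((x : ℤ) ^ 2 - 1 - 3 * (k : ℤ)) := numMul hA0 (by ring)
      rw [h] at h2
      exact mul_eq_right₀ (zpow_ne_zero _ hA0) |>.1 h2
    have h3 := numOne hr h1
    have h4 : (x : ℤ) ^ 2 = (y : ℤ) ^ 2 := by linarith
    have h5 : x ^ 2 = y ^ 2 := by exact_mod_cast h4
    exact Nat.pow_left_injective (n := 2) (by norm_num) h5
  · intro k x t
    exact ⟨hn _, hn _, hn _⟩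
  · intro t x
    rw [hsub, norm_mul, hn, one_mul]
  · intro t x
    unfold ra rb
    rw [← zpow_natCast, ← zpow_neg]
    apply numMul hA0
    push_cast
    ring
  · intro k x
    unfold ra th
    apply numMul hA0
    push_cast
    ring
  · intro k x hx
    obtain ⟨z, rfl⟩ : ∃ z, x = z + 1 := ⟨x - 1, by omega⟩
    unfold rb th
    apply numMul hA0
    rw [Nat.add_sub_cancel]
    push_cast
    ring
  · intro k x hx
    obtain ⟨z, rfl⟩ : ∃ z, x = z + 1 := ⟨x - 1, by omega⟩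
    unfold ra th
    apply numMul hA0
    rw [Nat.add_sub_cancel]
    push_cast
    ring
  · intro k x
    unfold rb th
    apply numMul hA0
    push_cast
    ring
  · intro t x hx h
    have h1 := hsub t x
    rw [h, sub_self] at h1
    have h2 : A ^ (2 * x) - (A ^ (2 * x))⁻¹ = 0 :=
      (mul_eq_zero.1 h1.symm).resolve_left (zpow_ne_zero _ hA0)
    have h4 : A ^ (2 * x) ≠ 0 := pow_ne_zero _ hA0
    have h5 : A ^ (2 * x) * A ^ (2 * x) = 1 := by
      have h6 := sub_eq_zero.1 h2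
      have h7 := mul_inv_cancel₀ h4
      rwa [← h6] at h7
    have h3 : A ^ (4 * x) = 1 := by
      rw [← h5, ← pow_add]
      congr 1
      ring
    exact hr (4 * x) (by omega) h3

end MP_fc1011_gt.TP
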