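import Pool.Agent.Lib.MP_fc1011_gt.TP.Spec2

/-!
# TP/Rn2: the nodes of a tree after a change with a leaf in the middle
-/

set_option autoImplicit false

namespace MP_fc1011_gt.TP

open MP_fc1011_gt.TP.Tree

/-- the intervals which are common to both trees -/
private def com2 (P Q : Tree) (o : ℕ) : Set (ℕ × ℕ) :=
  {(o, P.leaves + Q.leaves + 1)} ∪ (nodes P o ∪ ({(o + P.leaves, 1)} ∪
    nodes Q (o + P.leaves + 1)))

private theorem r2_leaves {T T' : Tree} (h : ElM T T') : T'.leaves = T.leaves := by
  induction h with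
  | base P Q =>
    change P.leaves + (1 + Q.leaves) = P.leaves + 1 + Q.leaves
    omega
  | @left S S' T _ ih =>
    change S'.leaves + T.leaves = S.leaves + T.leaves
    rw [ih]
  | @right S T T' _ ih =>
    change S.leaves + T'.leaves = S.leaves + T.leaves
    rw [ih]

private theorem r2_base1 (P Q : Tree) (o : ℕ) : nodes (.node (.node P .leaf) Q) o =
    com2 P Q o ∪ {(o, P.leaves + 1)} := by
  have h : P.leaves + 1 + Q.leaves = P.leaves + Q.leaves + 1 := by ring
  ext n
  simp only [nodes, com2, leaves, h, ← add_assoc, Set.mem_union, Set.mem_singleton_iff]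
  tauto

private theorem r2_base2 (P Q : Tree) (o : ℕ) : nodes (.node P (.node .leaf Q)) o =
    com2 P Q o ∪ {(o + P.leaves, Q.leaves + 1)} := by
  have h : P.leaves + (1 + Q.leaves) = P.leaves + Q.leaves + 1 := by ring
  have h' : 1 + Q.leaves = Q.leaves + 1 := by ring
  ext n
  simp only [nodes, com2, leaves, h, h', Set.mem_union, Set.mem_singleton_iff]
  tauto

theorem sRn2 (hLam : S_Lam) : S_Rn2 := by
  obtain ⟨hmir, -, -, -, -, -, -⟩ := id hLam
  refine ⟨fun T T' h => r2_leaves h, ?_, ?_⟩
  · intro T T' h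
    induction h with
    | base P Q =>
      intro o
      have hA := (hLam.2.2.1 P o).1
      have hB := (hLam.2.2.1 Q (o + P.leaves + 1)).1
      exact ⟨com2 P Q o, o, P.leaves, Q.leaves, (hmir P).1, (hmir Q).1, Or.inr (Or.inl hA),
        Or.inr (Or.inr (Or.inr hB)), Or.inl rfl, r2_base1 P Q o, r2_base2 P Q o⟩
    | @left S S' T hS ih =>
      intro o
      obtain ⟨C, i, kA, kC, hA, hC, m1, m2, m3, h1, h2⟩ := ih o
      have hl : S'.leaves = S.leaves := r2_leaves hS
      refine ⟨{(o, S.leaves + T.leaves)} ∪ (C ∪ nodes T (o + S.leaves)), i, kA, kC, hA, hC,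
        Or.inr (Or.inl m1), Or.inr (Or.inl m2), Or.inr (Or.inl m3), ?_, ?_⟩
      · ext n
        simp only [nodes, h1, Set.mem_union, Set.mem_singleton_iff]
        tauto
      · ext n
        simp only [nodes, h2, hl, Set.mem_union, Set.mem_singleton_iff]
        tauto
    | @right S T T' hT ih =>
      intro o
      obtain ⟨C, i, kA, kC, hA, hC, m1, m2, m3, h1, h2⟩ := ih (o + S.leaves)
      have hl : T'.leaves = T.leaves := r2_leaves hT
      refine ⟨{(o, S.leaves + T.leaves)} ∪ (C ∪ nodes S o), i, kA, kC, hA, hC,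
        Or.inr (Or.inl m1), Or.inr (Or.inl m2), Or.inr (Or.inl m3), ?_, ?_⟩
      · ext n
        simp only [nodes, h1, Set.mem_union, Set.mem_singleton_iff]
        tauto
      · ext n
        simp only [nodes, h2, hl, Set.mem_union, Set.mem_singleton_iff]
        tauto
  · intro T T' h
    induction h with
    | base P Q =>
      intro o
      have h2 := Turn.whole o (.node Q.mirror (.node .leaf P.mirror))
      have e1 : (Tree.node Q.mirror (.node .leaf P.mirror)).mirror =
          .node (.node P .leaf) Q := by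
        simp only [Tree.mirror, (hmir P).2.2, (hmir Q).2.2]
      have e2 : (Tree.node Q.mirror (.node .leaf P.mirror)).leaves =
          (Tree.node P (.node .leaf Q)).leaves := by
        simp only [leaves, (hmir P).2.1, (hmir Q).2.1]
        ring
      rw [e1, e2] at h2
      exact ⟨_, _, _, _, Turn.whole o _, ElM.base Q.mirror P.mirror, h2⟩
    | @left S S' T _ ih =>
      intro o
      obtain ⟨T₁, T₂, p, k, h1, h2, h3⟩ := ih o
      exact ⟨_, _, p, k, Turn.left T h1, ElM.left T h2, Turn.left T h3⟩
    | @right S T T' _ ih =>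
      intro o
      obtain ⟨T₁, T₂, p, k, h1, h2, h3⟩ := ih (o + S.leaves)
      exact ⟨_, _, p, k, Turn.right S h1, ElM.right S h2, Turn.right S h3⟩

end MP_fc1011_gt.TP
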