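import Pool.Agent.Lib.MP_fc1011_gt.TP.Spec

/-!
# MP_fc1011_gt, paths of trees: the change `(A (B c)) → ((A B) c)` (module RotL)
-/

set_option autoImplicit false

namespace MP_fc1011_gt.TP

open Finset MT

section aux

variable {W : Type} [AddCommGroup W] [Module ℂ W]

private theorem rl_mul (g h : (Module.End ℂ W)ˣ) (x : W) : (g * h).val x = g.val (h.val x) := rfl

private theorem rl_inv (g : (Module.End ℂ W)ˣ) (x : W) : (g⁻¹).val (g.val x) = x := by
  rw [← rl_mul, inv_mul_cancel]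
  rfl

private theorem rl_inv' (g : (Module.End ℂ W)ˣ) (x : W) : g.val ((g⁻¹).val x) = x := by
  rw [← rl_mul, mul_inv_cancel]
  rfl

private theorem rl_comm {g h : (Module.End ℂ W)ˣ} (hc : Commute g h) (x : W) :
    g.val (h.val x) = h.val (g.val x) := by
  rw [← rl_mul, hc.eq, rl_mul]

private theorem rl_gc (hGc : S_Gc) {m : ℕ} {u : ℕ → (Module.End ℂ W)ˣ} (hbr : MV.Br m u)
    {n : ℕ × ℕ} {i k : ℕ} (hn : n.1 + n.2 ≤ m) (hk : i + k < m) (h1 : Cpt n (i, k))
    (h2 : Cpt n (i, k + 1)) : Commute (Fq u n.1 n.2) (Jq u i k) := by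
  have e1 : Commute (Fq u n.1 n.2) (Fq u i k) :=
    (hGc _ m u hbr).1 n (i, k) hn (by show i + k ≤ m; omega) h1
  have e2 : Commute (Fq u n.1 n.2) (Fq u i (k + 1)) :=
    (hGc _ m u hbr).1 n (i, k + 1) hn (by show i + (k + 1) ≤ m; omega) h2
  have e3 : Fq u i (k + 1) = Fq u i k * Jq u i k := rfl
  have e4 : Jq u i k = (Fq u i k)⁻¹ * Fq u i (k + 1) := by
    rw [e3, inv_mul_cancel_left]
  rw [e4]
  exact e1.inv_right.mul_right e2

/-- The inverse operator satisfies the equation with the inverse roots. -/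
private theorem rl_qinv {M : (Module.End ℂ W)ˣ} {r r' : ℂ} (hr : r ≠ 0) (hr' : r' ≠ 0) {w : W}
    (h : Qd M.val r r' w) : Qd (M⁻¹).val r⁻¹ r'⁻¹ w := by
  unfold Qd at h ⊢
  have h1 := congrArg (fun y => (M⁻¹).val ((M⁻¹).val y)) h
  simp only [map_sub, map_smul, rl_inv] at h1
  -- h1 : w = (r + r') • N w - (r * r') • N (N w)
  have h2 : (r * r') • ((M⁻¹).val ((M⁻¹).val w)) = (r + r') • ((M⁻¹).val w) - w := by
    rw [eq_sub_iff_add_eq]
    nth_rewrite 2 [h1]
    abel
  have h3 : ((M⁻¹).val ((M⁻¹).val w)) = (r * r')⁻¹ • ((r + r') • ((M⁻¹).val w) - w) := by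
    rw [← h2, smul_smul, inv_mul_cancel₀ (mul_ne_zero hr hr'), one_smul]
  rw [h3, smul_sub, smul_smul]
  congr 1
  · congr 1
    field_simp
    ring
  · congr 1
    rw [mul_inv]

/-- Conjugation of an operator with an equation. -/
private theorem rl_conj {M R : (Module.End ℂ W)ˣ} {r r' : ℂ} {w : W}
    (h : Qd M.val r r' ((R⁻¹).val w)) : Qd (R * M * R⁻¹).val r r' w := by
  unfold Qd at h ⊢
  have e : ∀ x, (R * M * R⁻¹).val x = R.val (M.val ((R⁻¹).val x)) := fun x => rfl
  rw [e w, e, rl_inv, h, map_sub, map_smul, map_smul, rl_inv']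

end aux

theorem sRotL (hGj : S_Gj) (hGc : S_Gc) (hNum : S_Num) (hAdj : S_Adj) (hAbs : S_Abs) :
    S_RotL := by
  classical
  intro A m ε W _ _ ι _ _ B u hM C i kA kB hR w K hBd
  obtain ⟨v, lab, hF, hw⟩ := hBd
  obtain ⟨hkA, hkB, him, hCA, hCB, hCJ, hCm, hCC⟩ := hR
  obtain ⟨n1, n2, n3, n4, n5, n6, n7, n8, n9⟩ := hNum A hM.nA hM.rou
  obtain ⟨a1, a2, a3, a4⟩ := hAdj A m ε W B u hM
  have hA0 : A ≠ 0 := by
    intro h0
    have := hM.nA
    rw [h0, norm_zero] at this
    exact zero_ne_one this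
  have hCK : (i + kA, kB + 1) ∈ C ∪ {(i + kA, kB + 1)} := Or.inr rfl
  have hsub : ∀ n ∈ C, n ∈ C ∪ {(i + kA, kB + 1)} := fun n hn => Or.inl hn
  have hIC : (i, kA + kB) ∉ C := by
    intro hn
    have h := (hCC _ hn).2.1
    unfold Cpt at h
    simp only at h
    omega
  have hv0 : ∀ a, v a ≠ 0 := by
    intro a h0
    have h := hF.on.1 a a
    rw [h0, if_pos rfl] at h
    simp at h
  -- the labels of a frame vector
  have hβ : ∀ a, 1 ≤ lab a (i + kA, kB) ∧ lab a (i + kA, kB) ≤ kB + 1 := fun a =>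
    hF.rg a _ (hsub _ hCB)
  have hα : ∀ a, 1 ≤ lab a (i, kA) ∧ lab a (i, kA) ≤ kA + 1 := fun a => hF.rg a _ (hsub _ hCA)
  have hj : ∀ a, 1 ≤ lab a (i, kA + kB + 1) ∧ lab a (i, kA + kB + 1) ≤ kA + kB + 1 + 1 := fun a =>
    hF.rg a _ (hsub _ hCJ)
  have hKK : ∀ a, 1 ≤ lab a (i + kA, kB + 1) ∧ lab a (i + kA, kB + 1) ≤ kB + 1 + 1 := fun a =>
    hF.rg a _ hCK
  have hadj : ∀ a, (lab a (i + kA, kB + 1) = lab a (i + kA, kB) + 1 ∧
      (Jq u (i + kA) kB).val (v a) = ra A 2 (lab a (i + kA, kB)) • v a) ∨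
      (lab a (i + kA, kB + 1) + 1 = lab a (i + kA, kB) ∧
      (Jq u (i + kA) kB).val (v a) = rb A 2 (lab a (i + kA, kB)) • v a) := by
    intro a
    rcases a4 (i + kA) kB him _ _ (v a) (hβ a).1 (hKK a).1 (hv0 a)
      (hF.ev a _ (hsub _ hCB)) (hF.ev a _ hCK) with h | h
    · exact Or.inl ⟨h.1, h.2.1⟩
    · exact Or.inr ⟨h.1, h.2.1⟩
  have hk : i + (kA + kB) < m := by omega
  -- the units
  obtain ⟨Ru, hRu⟩ : ∃ Ru, Ru = Rq u (i + kA) kB := ⟨_, rfl⟩
  obtain ⟨Mu, hMu⟩ : ∃ Mu, Mu = Jq u i kA := ⟨_, rfl⟩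
  have hZY : ∀ x, (Ru * Mu⁻¹ * Ru⁻¹).val ((Jq u i (kA + kB)).val x) =
      (Jq u (i + kA) kB).val x := by
    intro x
    rw [← rl_mul]
    have h : Ru * Mu⁻¹ * Ru⁻¹ * Jq u i (kA + kB) = Jq u (i + kA) kB := by
      rw [(hGj _ u i kA kB).1, (hGj _ u i kA kB).2, ← hRu, ← hMu]
      group
    rw [h]
  have hcl : ∀ a b : ι, (fun n => if n ∈ C then lab a n else 0) =
      (fun n => if n ∈ C then lab b n else 0) → ∀ n ∈ C, lab a n = lab b n := by
    intro a b h n hn
    have h1 := congrFun h n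
    simp only [if_pos hn] at h1
    exact h1
  obtain ⟨v', t', hON', hY', hinj', hcomb⟩ := hAbs W ι (ℕ × ℕ → ℕ) B v
    (fun a n => if n ∈ C then lab a n else 0)
    (fun a => decide (lab a (i + kA, kB + 1) = lab a (i + kA, kB) + 1))
    (Jq u (i + kA) kB).val (Jq u i (kA + kB)).val (Ru * Mu⁻¹ * Ru⁻¹).val
    (fun a => ra A 2 (lab a (i + kA, kB))) (fun a => rb A 2 (lab a (i + kA, kB)))
    (fun a => ra A 4 (lab a (i, kA + kB + 1))) (fun a => rb A 4 (lab a (i, kA + kB + 1)))
    (fun a => (ra A 2 (lab a (i, kA)))⁻¹) (fun a => (rb A 2 (lab a (i, kA)))⁻¹) ε hM.e0 hM.e1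
    hM.sym hF.on
    (by
      intro a b hκ ht
      refine hF.inj a b fun n hn => ?_
      rcases hn with hn | hn
      · exact hcl a b hκ n hn
      · have hn' : n = (i + kA, kB + 1) := hn
        subst hn'
        have e1 := hcl a b hκ _ hCB
        have e2 := decide_eq_decide.1 ht
        rcases hadj a with h | h <;> rcases hadj b with h' | h' <;> omega)
    (by
      intro a b hκ
      have e1 := hcl a b hκ _ hCB
      have e2 := hcl a b hκ _ hCA
      have e3 := hcl a b hκ _ hCJ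
      simp only [e1, e2, e3, and_self])
    (by
      intro a
      have g1 := hM.gap (lab a (i + kA, kB)) (hβ a).1 (by have := (hβ a).2; omega)
      have g2 := hM.gap (lab a (i, kA + kB + 1)) (hj a).1 (by have := (hj a).2; omega)
      refine ⟨(n2 0 _ 2).2.1, (n2 0 _ 2).2.2, (n2 0 _ 4).2.1, (n2 0 _ 4).2.2, ?_, ?_, ?_, ?_, ?_,
        ?_⟩
      · rw [norm_inv, (n2 0 _ 2).2.1, inv_one]
      · rw [norm_inv, (n2 0 _ 2).2.2, inv_one]
      · rw [n3]
        exact g1
      · rw [n3]
        exact g2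
      · intro h
        exact n9 2 _ (hα a).1 (inv_injective h)
      · rw [n4, n4, ← mul_inv, n4, inv_inv]
        field_simp
        try ring)
    (by
      intro a
      rcases hadj a with h | h
      · rw [if_pos (decide_eq_true h.1)]
        exact h.2
      · rw [if_neg]
        · exact h.2
        · intro h3
          have := of_decide_eq_true h3
          omega)
    (fun x y => a1 i (kA + kB) hk x y)
    (by
      intro a b hκ
      by_contra hne
      refine hκ (funext fun n => ?_)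
      by_cases hn : n ∈ C
      · rw [if_pos hn, if_pos hn]
        have hc := rl_gc hGc hM.br (hCm n hn) hk (hCC n hn).1 ((hCC n hn).2.2 _ hCJ)
        have h1 : B ((Fq u n.1 n.2).val (v a)) ((Jq u i (kA + kB)).val (v b)) =
            B (v a) ((Jq u i (kA + kB)).val ((Fq u n.1 n.2).val (v b))) := by
          rw [a2 n.1 n.2 (hCm n hn), rl_comm hc]
        rw [hF.ev a n (hsub n hn), hF.ev b n (hsub n hn), map_smul, map_smul, map_smul,
          LinearMap.smul_apply, smul_eq_mul, smul_eq_mul] at h1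
        exact n1 n.2 _ _ (mul_right_cancel₀ hne h1)
      · rw [if_neg hn, if_neg hn])
    hZY
    (fun a => hM.qb i (kA + kB) hk _ (v a) (hj a).1 (hF.ev a _ (hsub _ hCJ)))
    (by
      intro a
      have hcR : Commute Ru (Fq u i kA) := by
        rw [hRu]
        refine MV.RR_commute kB fun l hl => ?_
        exact (hGc _ m u hM.br).2 (i, kA) (i + kA) (kB + 1) (by show i + kA ≤ m; omega) (by omega)
          (Or.inl le_rfl) l (by omega)
      have hw' : (Fq u i kA).val ((Ru⁻¹).val (v a)) =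
          th A kA (lab a (i, kA)) • (Ru⁻¹).val (v a) := by
        rw [rl_comm hcR.symm.inv_right, hF.ev a (i, kA) (hsub _ hCA), map_smul]
      have hq := hM.qa i kA (by omega) _ _ (hα a).1 hw'
      refine rl_conj (rl_qinv ?_ ?_ (by rw [hMu]; exact hq))
      · intro h0
        have := (n2 0 (lab a (i, kA)) 2).2.1
        rw [h0, norm_zero] at this
        exact zero_ne_one this
      · intro h0
        have := (n2 0 (lab a (i, kA)) 2).2.2
        rw [h0, norm_zero] at this
        exact zero_ne_one this)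
  -- the eigenvectors for the intervals in C
  have hevC : ∀ a, ∀ n ∈ C, (Fq u n.1 n.2).val (v' a) = th A n.2 (lab a n) • v' a := by
    intro a n hn
    obtain ⟨a', f, g, hκ, hv', _, _⟩ := hcomb a
    have h1 := hcl a' a hκ n hn
    rw [hv', map_add, map_smul, map_smul, hF.ev a n (hsub n hn), hF.ev a' n (hsub n hn), h1,
      smul_add, smul_comm f, smul_comm g]
  have hv0' : ∀ a, v' a ≠ 0 := by
    intro a h0
    have h := hON'.1 a a
    rw [h0, if_pos rfl] at h
    simp at h
  obtain ⟨lI, hlI⟩ : ∃ lI : ι → ℕ, lI = fun a => if t' a = true then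
      lab a (i, kA + kB + 1) - 1 else lab a (i, kA + kB + 1) + 1 := ⟨_, rfl⟩
  have hevI : ∀ a, (Fq u i (kA + kB)).val (v' a) = th A (kA + kB) (lI a) • v' a := by
    intro a
    have h1 := hevC a _ hCJ
    have h2 : (Fq u i (kA + kB + 1)).val (v' a) =
        (Fq u i (kA + kB)).val ((Jq u i (kA + kB)).val (v' a)) := rfl
    have h3 : (Fq u i (kA + kB + 1)).val (v' a) =
      th A (kA + kB + 1) (lab a (i, kA + kB + 1)) • v' a := h1
    rw [h2, hY' a, map_smul] at h3
    by_cases ht : t' a = true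
    · have h4 : lI a = lab a (i, kA + kB + 1) - 1 := by rw [hlI]; exact if_pos ht
      rw [if_pos ht, ← n7 (kA + kB) _ (hj a).1, mul_smul] at h3
      rw [h4]
      have hne : ra A 4 (lab a (i, kA + kB + 1)) ≠ 0 := by
        intro h0
        have := (n2 0 (lab a (i, kA + kB + 1)) 4).2.1
        rw [h0, norm_zero] at this
        exact zero_ne_one this
      exact smul_right_injective W hne h3
    · have h4 : lI a = lab a (i, kA + kB + 1) + 1 := by rw [hlI]; exact if_neg ht
      rw [if_neg ht, ← n8 (kA + kB) _, mul_smul] at h3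
      rw [h4]
      have hne : rb A 4 (lab a (i, kA + kB + 1)) ≠ 0 := by
        intro h0
        have := (n2 0 (lab a (i, kA + kB + 1)) 4).2.2
        rw [h0, norm_zero] at this
        exact zero_ne_one this
      exact smul_right_injective W hne h3
  have hrgI : ∀ a, 1 ≤ lI a ∧ lI a ≤ kA + kB + 1 := by
    intro a
    obtain ⟨x, hx1, hx2, hx3⟩ := hM.lb i (kA + kB) (by omega) (v' a) _ (hv0' a) (hevI a)
    rw [n1 _ _ _ hx3]
    exact ⟨hx1, hx2⟩
  refine ⟨v', fun a n => if n = (i, kA + kB) then lI a else lab a n, ⟨hON', ?_, ?_, ?_⟩, ?_⟩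
  · intro a n hn
    by_cases h : n = (i, kA + kB)
    · subst h
      rw [if_pos rfl]
      exact hevI a
    · rw [if_neg h]
      rcases hn with hn | hn
      · exact hevC a n hn
      · exact absurd hn h
  · intro a n hn
    by_cases h : n = (i, kA + kB)
    · subst h
      rw [if_pos rfl]
      exact hrgI a
    · rw [if_neg h]
      rcases hn with hn | hn
      · exact hF.rg a n (hsub n hn)
      · exact absurd hn h
  · intro a b hab
    have hC : ∀ n ∈ C, lab a n = lab b n := by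
      intro n hn
      have hne : n ≠ (i, kA + kB) := fun h => hIC (h ▸ hn)
      have h := hab n (Or.inl hn)
      rw [if_neg hne, if_neg hne] at h
      exact h
    refine hinj' a b (funext fun n => ?_) ?_
    · by_cases hn : n ∈ C
      · rw [if_pos hn, if_pos hn]
        exact hC n hn
      · rw [if_neg hn, if_neg hn]
    · have h := hab (i, kA + kB) (Or.inr rfl)
      rw [if_pos rfl, if_pos rfl, hlI] at h
      have hJ := hC _ hCJ
      simp only [hJ] at h
      by_cases ha : t' a = true <;> by_cases hb : t' b = true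
      · rw [ha, hb]
      · rw [if_pos ha, if_neg hb] at h
        omega
      · rw [if_neg ha, if_pos hb] at h
        omega
      · rw [Bool.not_eq_true] at ha hb
        rw [ha, hb]
  · intro a
    obtain ⟨a', f, g, hκ, hv', hf, hg⟩ := hcomb a
    rw [hv', map_add, map_smul, map_smul, LinearMap.add_apply, LinearMap.smul_apply,
      LinearMap.smul_apply, smul_eq_mul, smul_eq_mul]
    have hK0 : 0 ≤ K := (norm_nonneg _).trans (hw a)
    calc ‖f * B (v a) w + g * B (v a') w‖ ≤ ‖f * B (v a) w‖ + ‖g * B (v a') w‖ := norm_add_le _ _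
      _ = ‖f‖ * ‖B (v a) w‖ + ‖g‖ * ‖B (v a') w‖ := by rw [norm_mul, norm_mul]
      _ ≤ 1 / ε * K + 1 / ε * K := add_le_add
          (mul_le_mul hf (hw a) (norm_nonneg _) (one_div_nonneg.2 hM.e0.le))
          (mul_le_mul hg (hw a') (norm_nonneg _) (one_div_nonneg.2 hM.e0.le))
      _ = 2 / ε * K := by ring

end MP_fc1011_gt.TP
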