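import Pool.Agent.Lib.MP_fc1011_gt.TP.Spec2

/-!
# MP_fc1011_gt, paths of trees: the change `((A b) C) → (A (b C))` (module RotM)
-/

set_option autoImplicit false

namespace MP_fc1011_gt.TP

open Finset MT

section aux

variable {W : Type} [AddCommGroup W] [Module ℂ W]

private theorem rm_mul (g h : (Module.End ℂ W)ˣ) (x : W) : (g * h).val x = g.val (h.val x) := rfl

private theorem rm_inv (g : (Module.End ℂ W)ˣ) (x : W) : (g⁻¹).val (g.val x) = x := by
  rw [← rm_mul, inv_mul_cancel]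
  rfl

private theorem rm_inv' (g : (Module.End ℂ W)ˣ) (x : W) : g.val ((g⁻¹).val x) = x := by
  rw [← rm_mul, mul_inv_cancel]
  rfl

private theorem rm_comm {g h : (Module.End ℂ W)ˣ} (hc : Commute g h) (x : W) :
    g.val (h.val x) = h.val (g.val x) := by
  rw [← rm_mul, hc.eq, rm_mul]

/-- The operator `M` (the strand `q` goes around the strands on its right) commutes with the full
twists of compatible intervals. -/
private theorem rm_gc (hGc : S_Gc) (hGl : S_Gl) {m : ℕ} {u : ℕ → (Module.End ℂ W)ˣ}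
    (hbr : MV.Br m u) {n : ℕ × ℕ} {q k : ℕ} (hn : n.1 + n.2 ≤ m) (hk : q + k + 1 ≤ m)
    (h1 : Cpt n (q + 1, k)) (h2 : Cpt n (q, k + 1)) :
    Commute (Fq u n.1 n.2) (Lq u q k * Rq u q k) := by
  have e1 : Commute (Fq u n.1 n.2) (Fq u (q + 1) k) :=
    (hGc _ m u hbr).1 n (q + 1, k) hn (by show q + 1 + k ≤ m; omega) h1
  have e2 : Commute (Fq u n.1 n.2) (Fq u q (k + 1)) :=
    (hGc _ m u hbr).1 n (q, k + 1) hn (by show q + (k + 1) ≤ m; omega) h2
  have e3 : Fq u q (k + 1) = Fq u (q + 1) k * (Lq u q k * Rq u q k) :=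
    (hGl _ m u hbr q k hk).1
  have e4 : Lq u q k * Rq u q k = (Fq u (q + 1) k)⁻¹ * Fq u q (k + 1) := by
    rw [e3, inv_mul_cancel_left]
  rw [e4]
  exact e1.inv_right.mul_right e2

/-- The inverse operator satisfies the equation with the inverse roots. -/
private theorem rm_qinv {M : (Module.End ℂ W)ˣ} {r r' : ℂ} (hr : r ≠ 0) (hr' : r' ≠ 0) {w : W}
    (h : Qd M.val r r' w) : Qd (M⁻¹).val r⁻¹ r'⁻¹ w := by
  unfold Qd at h ⊢
  have h1 := congrArg (fun y => (M⁻¹).val ((M⁻¹).val y)) h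
  simp only [map_sub, map_smul, rm_inv] at h1
  have h2 : (r * r') • ((M⁻¹).val ((M⁻¹).val w)) = (r + r') • ((M⁻¹).val w) - w := by
    rw [eq_sub_iff_add_eq]
    nth_rewrite 2 [h1]
    abel
  have h3 : ((M⁻¹).val ((M⁻¹).val w)) = (r * r')⁻¹ • ((r + r') • ((M⁻¹).val w) - w) := by
    rw [← h2, smul_smul, inv_mul_cancel₀ (mul_ne_zero hr hr'), one_smul]
  rw [h3, smul_sub, smul_smul]
  congr 1
  · congr 1
    field_simp
    ring
  · congr 1
    rw [mul_inv]

/-- Conjugation of an operator with an equation. -/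
private theorem rm_conj {M R : (Module.End ℂ W)ˣ} {r r' : ℂ} {w : W}
    (h : Qd M.val r r' ((R⁻¹).val w)) : Qd (R * M * R⁻¹).val r r' w := by
  unfold Qd at h ⊢
  have e : ∀ x, (R * M * R⁻¹).val x = R.val (M.val ((R⁻¹).val x)) := fun x => rfl
  rw [e w, e, rm_inv, h, map_sub, map_smul, map_smul, rm_inv']

/-- The adjoint of `L` is `R`. -/
private theorem rm_LR {m : ℕ} {B : LinearMap.BilinForm ℂ W} {u : ℕ → (Module.End ℂ W)ˣ}
    (adj : ∀ j, j + 1 < m → ∀ x y, B ((u j).val x) y = B x ((u j).val y)) (q : ℕ) :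
    ∀ k, q + k < m → ∀ x y, B ((Lq u q k).val x) y = B x ((Rq u q k).val y) := by
  intro k
  induction k with
  | zero => intro _ x y; rfl
  | succ k ih =>
    intro hk x y
    have e1 : (Lq u q (k + 1)).val x = (Lq u q k).val ((u (q + k)).val x) := rfl
    have e2 : (Rq u q (k + 1)).val y = (u (q + k)).val ((Rq u q k).val y) := rfl
    rw [e1, e2, ih (by omega), adj _ (by omega)]

/-- `M = L R` is symmetric. -/
private theorem rm_sym {m : ℕ} {B : LinearMap.BilinForm ℂ W} {u : ℕ → (Module.End ℂ W)ˣ}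
    (sym : ∀ x y, B x y = B y x)
    (adj : ∀ j, j + 1 < m → ∀ x y, B ((u j).val x) y = B x ((u j).val y)) (q k : ℕ)
    (hk : q + k < m) (x y : W) :
    B ((Lq u q k * Rq u q k).val x) y = B x ((Lq u q k * Rq u q k).val y) := by
  rw [rm_mul, rm_mul, rm_LR adj q k hk, sym x, rm_LR adj q k hk, sym]

private theorem rm_sym' {m : ℕ} {B : LinearMap.BilinForm ℂ W} {u : ℕ → (Module.End ℂ W)ˣ}
    (sym : ∀ x y, B x y = B y x)
    (adj : ∀ j, j + 1 < m → ∀ x y, B ((u j).val x) y = B x ((u j).val y)) (q k : ℕ)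
    (hk : q + k < m) (x y : W) :
    B (((Lq u q k * Rq u q k)⁻¹).val x) y = B x (((Lq u q k * Rq u q k)⁻¹).val y) := by
  have h := rm_sym sym adj q k hk (((Lq u q k * Rq u q k)⁻¹).val x)
    (((Lq u q k * Rq u q k)⁻¹).val y)
  rw [rm_inv', rm_inv'] at h
  exact h.symm

private theorem rm_norm {a b : ℂ} (ha : ‖a‖ = 1) (hb : ‖b‖ = 1) : ‖a⁻¹ - b⁻¹‖ = ‖a - b‖ := by
  have ha0 : a ≠ 0 := by
    intro h
    rw [h, norm_zero] at ha
    exact zero_ne_one ha
  have hb0 : b ≠ 0 := by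
    intro h
    rw [h, norm_zero] at hb
    exact zero_ne_one hb
  have e : a⁻¹ - b⁻¹ = (b - a) * (a⁻¹ * b⁻¹) := by
    field_simp
  rw [e, norm_mul, norm_mul, norm_inv, norm_inv, ha, hb, norm_sub_rev]
  simp

private theorem rm_ne {a : ℂ} (ha : ‖a‖ = 1) : a ≠ 0 := by
  intro h
  rw [h, norm_zero] at ha
  exact zero_ne_one ha

end aux

theorem sRotM (hGj : S_Gj) (hGc : S_Gc) (hGl : S_Gl) (hNum : S_Num) (hAdj : S_Adj)
    (hAbs : S_Abs) : S_RotM := by
  classical
  intro A m ε W _ _ ι _ _ B u hM C i kA kC hR w K hBd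
  obtain ⟨v, lab, hF, hw⟩ := hBd
  obtain ⟨hkA, hkC, him, hCA, hCB, hCJ, hCm, hCC⟩ := hR
  obtain ⟨n1, n2, n3, n4, n5, n6, n7, n8, n9⟩ := hNum A hM.nA hM.rou
  obtain ⟨a1, a2, a3, a4⟩ := hAdj A m ε W B u hM
  have hCI : (i, kA + 1) ∈ C ∪ {(i, kA + 1)} := Or.inr rfl
  have hsub : ∀ n ∈ C, n ∈ C ∪ {(i, kA + 1)} := fun n hn => Or.inl hn
  have hKC : (i + kA, kC + 1) ∉ C := by
    intro hn
    have h := (hCC _ hn).1
    unfold Cpt at h
    simp only at h
    omega
  have hv0 : ∀ a, v a ≠ 0 := by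
    intro a h0
    have h := hF.on.1 a a
    rw [h0, if_pos rfl] at h
    simp at h
  -- the labels of a frame vector
  have hγ : ∀ a, 1 ≤ lab a (i + kA + 1, kC) ∧ lab a (i + kA + 1, kC) ≤ kC + 1 := fun a =>
    hF.rg a _ (hsub _ hCB)
  have hα : ∀ a, 1 ≤ lab a (i, kA) ∧ lab a (i, kA) ≤ kA + 1 := fun a => hF.rg a _ (hsub _ hCA)
  have hj : ∀ a, 1 ≤ lab a (i, kA + kC + 1) ∧ lab a (i, kA + kC + 1) ≤ kA + kC + 1 + 1 := fun a =>
    hF.rg a _ (hsub _ hCJ)
  have hII : ∀ a, 1 ≤ lab a (i, kA + 1) ∧ lab a (i, kA + 1) ≤ kA + 1 + 1 := fun a =>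
    hF.rg a _ hCI
  have hadj : ∀ a, (lab a (i, kA + 1) = lab a (i, kA) + 1 ∧
      (Jq u i kA).val (v a) = ra A 2 (lab a (i, kA)) • v a) ∨
      (lab a (i, kA + 1) + 1 = lab a (i, kA) ∧
      (Jq u i kA).val (v a) = rb A 2 (lab a (i, kA)) • v a) := by
    intro a
    rcases a4 i kA (by omega) _ _ (v a) (hα a).1 (hII a).1 (hv0 a)
      (hF.ev a _ (hsub _ hCA)) (hF.ev a _ hCI) with h | h
    · exact Or.inl ⟨h.1, h.2.1⟩
    · exact Or.inr ⟨h.1, h.2.1⟩
  have hk : i + (kA + kC) < m := by omega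
  -- the units
  obtain ⟨Ru, hRu⟩ : ∃ Ru, Ru = Rq u (i + kA) kC := ⟨_, rfl⟩
  obtain ⟨Lu, hLu⟩ : ∃ Lu, Lu = Lq u (i + kA) kC := ⟨_, rfl⟩
  obtain ⟨Hu, hHu⟩ : ∃ Hu, Hu = Hq u (i + kA) (kC + 1) := ⟨_, rfl⟩
  obtain ⟨l1, l2, l3⟩ := hGl _ m u hM.br (i + kA) kC (by omega)
  rw [← hRu, ← hLu] at l1 l2
  rw [← hHu] at l2 l3
  have hZY : ∀ x, (Ru⁻¹ * Jq u i (kA + kC) * (Ru⁻¹)⁻¹).val (((Lu * Ru)⁻¹).val x) =
      (Jq u i kA).val x := by
    intro x
    rw [← rm_mul]
    have h : Ru⁻¹ * Jq u i (kA + kC) * (Ru⁻¹)⁻¹ * (Lu * Ru)⁻¹ = Jq u i kA := by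
      rw [(hGj _ u i kA kC).1, ← hRu, ← hLu]
      group
    rw [h]
  have hcl : ∀ a b : ι, (fun n => if n ∈ C then lab a n else 0) =
      (fun n => if n ∈ C then lab b n else 0) → ∀ n ∈ C, lab a n = lab b n := by
    intro a b h n hn
    have h1 := congrFun h n
    simp only [if_pos hn] at h1
    exact h1
  obtain ⟨v', t', hON', hY', hinj', hcomb⟩ := hAbs W ι (ℕ × ℕ → ℕ) B v
    (fun a n => if n ∈ C then lab a n else 0)
    (fun a => decide (lab a (i, kA + 1) = lab a (i, kA) + 1))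
    (Jq u i kA).val ((Lu * Ru)⁻¹).val (Ru⁻¹ * Jq u i (kA + kC) * (Ru⁻¹)⁻¹).val
    (fun a => ra A 2 (lab a (i, kA))) (fun a => rb A 2 (lab a (i, kA)))
    (fun a => (ra A 2 (lab a (i + kA + 1, kC)))⁻¹) (fun a => (rb A 2 (lab a (i + kA + 1, kC)))⁻¹)
    (fun a => ra A 4 (lab a (i, kA + kC + 1))) (fun a => rb A 4 (lab a (i, kA + kC + 1)))
    ε hM.e0 hM.e1 hM.sym hF.on
    (by
      intro a b hκ ht
      refine hF.inj a b fun n hn => ?_
      rcases hn with hn | hn
      · exact hcl a b hκ n hn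
      · have hn' : n = (i, kA + 1) := hn
        subst hn'
        have e1 := hcl a b hκ _ hCA
        have e2 := decide_eq_decide.1 ht
        rcases hadj a with h | h <;> rcases hadj b with h' | h' <;> omega)
    (by
      intro a b hκ
      have e1 := hcl a b hκ _ hCB
      have e2 := hcl a b hκ _ hCA
      have e3 := hcl a b hκ _ hCJ
      simp only [e1, e2, e3, and_self])
    (by
      intro a
      have g1 := hM.gap (lab a (i, kA)) (hα a).1 (by have := (hα a).2; omega)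
      have g2 := hM.gap (lab a (i + kA + 1, kC)) (hγ a).1 (by have := (hγ a).2; omega)
      refine ⟨(n2 0 _ 2).2.1, (n2 0 _ 2).2.2, ?_, ?_, (n2 0 _ 4).2.1, (n2 0 _ 4).2.2, ?_, ?_, ?_,
        ?_⟩
      · rw [norm_inv, (n2 0 _ 2).2.1, inv_one]
      · rw [norm_inv, (n2 0 _ 2).2.2, inv_one]
      · rw [n3]
        exact g1
      · rw [rm_norm (n2 0 _ 2).2.1 (n2 0 _ 2).2.2, n3]
        exact g2
      · exact n9 4 _ (hj a).1
      · have hA0 : A ≠ 0 := rm_ne hM.nA
        rw [n4, n4, ← mul_inv, n4, inv_inv]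
        field_simp
        try ring)
    (by
      intro a
      rcases hadj a with h | h
      · rw [if_pos (decide_eq_true h.1)]
        exact h.2
      · rw [if_neg]
        · exact h.2
        · intro h3
          have := of_decide_eq_true h3
          omega)
    (by
      intro x y
      rw [hLu, hRu]
      exact rm_sym' hM.sym hM.adj (i + kA) kC (by omega) x y)
    (by
      intro a b hκ
      by_contra hne
      refine hκ (funext fun n => ?_)
      by_cases hn : n ∈ C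
      · rw [if_pos hn, if_pos hn]
        have hc0 : Commute (Fq u n.1 n.2) (Lu * Ru) := by
          rw [hLu, hRu]
          exact rm_gc hGc hGl hM.br (hCm n hn) (by omega) ((hCC n hn).2.2 _ hCB) (hCC n hn).2.1
        have hc := hc0.inv_right
        have h1 : B ((Fq u n.1 n.2).val (v a)) (((Lu * Ru)⁻¹).val (v b)) =
            B (v a) (((Lu * Ru)⁻¹).val ((Fq u n.1 n.2).val (v b))) := by
          rw [a2 n.1 n.2 (hCm n hn), rm_comm hc]
        rw [hF.ev a n (hsub n hn), hF.ev b n (hsub n hn), map_smul, map_smul, map_smul,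
          LinearMap.smul_apply, smul_eq_mul, smul_eq_mul] at h1
        exact n1 n.2 _ _ (mul_right_cancel₀ hne h1)
      · rw [if_neg hn, if_neg hn])
    hZY
    (by
      intro a
      have hw' : (Fq u (i + kA) kC).val ((Hu⁻¹).val (v a)) =
          th A kC (lab a (i + kA + 1, kC)) • (Hu⁻¹).val (v a) := by
        have e1 : Fq u (i + kA) kC * Hu⁻¹ = Hu⁻¹ * Fq u (i + kA + 1) kC := by
          rw [eq_inv_mul_iff_mul_eq, ← mul_assoc, l3, mul_inv_cancel_right]
        rw [← rm_mul, e1, rm_mul, hF.ev a (i + kA + 1, kC) (hsub _ hCB), map_smul]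
      have hq := hM.qa (i + kA) kC him _ _ (hγ a).1 hw'
      have e2 : Lu * Ru = Hu * Jq u (i + kA) kC * Hu⁻¹ := by
        rw [← l2, mul_inv_cancel_right]
      refine rm_qinv (rm_ne (n2 0 _ 2).2.1) (rm_ne (n2 0 _ 2).2.2) ?_
      rw [e2]
      exact rm_conj hq)
    (by
      intro a
      have hcR : Commute Ru (Fq u i (kA + kC + 1)) := by
        rw [hRu]
        refine MV.RR_commute kC fun l hl => ?_
        exact (hGc _ m u hM.br).2 (i, kA + kC + 1) (i + kA) (kC + 1)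
          (by show i + (kA + kC + 1) ≤ m; omega) (by omega)
          (Or.inr (Or.inr ⟨by show i ≤ i + kA; omega,
            by show i + kA + (kC + 1) ≤ i + (kA + kC + 1); omega⟩)) l (by omega)
      have hw' : (Fq u i (kA + kC + 1)).val (((Ru⁻¹)⁻¹).val (v a)) =
          th A (kA + kC + 1) (lab a (i, kA + kC + 1)) • ((Ru⁻¹)⁻¹).val (v a) := by
        rw [inv_inv, rm_comm hcR.symm, hF.ev a (i, kA + kC + 1) (hsub _ hCJ), map_smul]
      exact rm_conj (hM.qb i (kA + kC) hk _ _ (hj a).1 hw'))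
  -- the eigenvectors for the intervals in C
  have hevC : ∀ a, ∀ n ∈ C, (Fq u n.1 n.2).val (v' a) = th A n.2 (lab a n) • v' a := by
    intro a n hn
    obtain ⟨a', f, g, hκ, hv', _, _⟩ := hcomb a
    have h1 := hcl a' a hκ n hn
    rw [hv', map_add, map_smul, map_smul, hF.ev a n (hsub n hn), hF.ev a' n (hsub n hn), h1,
      smul_add, smul_comm f, smul_comm g]
  have hv0' : ∀ a, v' a ≠ 0 := by
    intro a h0
    have h := hON'.1 a a
    rw [h0, if_pos rfl] at h
    simp at h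
  obtain ⟨lK, hlK⟩ : ∃ lK : ι → ℕ, lK = fun a => if t' a = true then
      lab a (i + kA + 1, kC) + 1 else lab a (i + kA + 1, kC) - 1 := ⟨_, rfl⟩
  have hevK : ∀ a, (Fq u (i + kA) (kC + 1)).val (v' a) = th A (kC + 1) (lK a) • v' a := by
    intro a
    have h1 : (Fq u (i + kA + 1) kC).val (v' a) = th A kC (lab a (i + kA + 1, kC)) • v' a :=
      hevC a _ hCB
    have h2 : ∀ y : ℂ, y ≠ 0 → ((Lu * Ru)⁻¹).val (v' a) = y⁻¹ • v' a →
        (Lu * Ru).val (v' a) = y • v' a := by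
      intro y hy h
      have h3 := congrArg (fun z => (Lu * Ru).val z) h
      simp only [rm_inv', map_smul] at h3
      -- h3 : v' a = y⁻¹ • M (v' a)
      rw [← inv_smul_eq_iff₀ hy] at *
      exact h3.symm
    rw [l1, rm_mul]
    by_cases ht : t' a = true
    · have h4 : lK a = lab a (i + kA + 1, kC) + 1 := by rw [hlK]; exact if_pos ht
      have h5 := hY' a
      rw [if_pos ht] at h5
      rw [h2 _ (rm_ne (n2 0 _ 2).2.1) h5, map_smul, h1, h4, ← n5, mul_smul]
    · have h4 : lK a = lab a (i + kA + 1, kC) - 1 := by rw [hlK]; exact if_neg ht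
      have h5 := hY' a
      rw [if_neg ht] at h5
      rw [h2 _ (rm_ne (n2 0 _ 2).2.2) h5, map_smul, h1, h4, ← n6 _ _ (hγ a).1, mul_smul]
  have hrgK : ∀ a, 1 ≤ lK a ∧ lK a ≤ kC + 1 + 1 := by
    intro a
    obtain ⟨x, hx1, hx2, hx3⟩ := hM.lb (i + kA) (kC + 1) (by omega) (v' a) _ (hv0' a) (hevK a)
    rw [n1 _ _ _ hx3]
    exact ⟨hx1, hx2⟩
  refine ⟨v', fun a n => if n = (i + kA, kC + 1) then lK a else lab a n, ⟨hON', ?_, ?_, ?_⟩, ?_⟩
  · intro a n hn
    by_cases h : n = (i + kA, kC + 1)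
    · subst h
      rw [if_pos rfl]
      exact hevK a
    · rw [if_neg h]
      rcases hn with hn | hn
      · exact hevC a n hn
      · exact absurd hn h
  · intro a n hn
    by_cases h : n = (i + kA, kC + 1)
    · subst h
      rw [if_pos rfl]
      exact hrgK a
    · rw [if_neg h]
      rcases hn with hn | hn
      · exact hF.rg a n (hsub n hn)
      · exact absurd hn h
  · intro a b hab
    have hC : ∀ n ∈ C, lab a n = lab b n := by
      intro n hn
      have hne : n ≠ (i + kA, kC + 1) := fun h => hKC (h ▸ hn)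
      have h := hab n (Or.inl hn)
      rw [if_neg hne, if_neg hne] at h
      exact h
    refine hinj' a b (funext fun n => ?_) ?_
    · by_cases hn : n ∈ C
      · rw [if_pos hn, if_pos hn]
        exact hC n hn
      · rw [if_neg hn, if_neg hn]
    · have h := hab (i + kA, kC + 1) (Or.inr rfl)
      rw [if_pos rfl, if_pos rfl, hlK] at h
      have hJ := hC _ hCB
      simp only [hJ] at h
      by_cases ha : t' a = true <;> by_cases hb : t' b = true
      · rw [ha, hb]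
      · rw [if_pos ha, if_neg hb] at h
        omega
      · rw [if_neg ha, if_pos hb] at h
        omega
      · rw [Bool.not_eq_true] at ha hb
        rw [ha, hb]
  · intro a
    obtain ⟨a', f, g, hκ, hv', hf, hg⟩ := hcomb a
    rw [hv', map_add, map_smul, map_smul, LinearMap.add_apply, LinearMap.smul_apply,
      LinearMap.smul_apply, smul_eq_mul, smul_eq_mul]
    have hK0 : 0 ≤ K := (norm_nonneg _).trans (hw a)
    calc ‖f * B (v a) w + g * B (v a') w‖ ≤ ‖f * B (v a) w‖ + ‖g * B (v a') w‖ := norm_add_le _ _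
      _ = ‖f‖ * ‖B (v a) w‖ + ‖g‖ * ‖B (v a') w‖ := by rw [norm_mul, norm_mul]
      _ ≤ 1 / ε * K + 1 / ε * K := add_le_add
          (mul_le_mul hf (hw a) (norm_nonneg _) (one_div_nonneg.2 hM.e0.le))
          (mul_le_mul hg (hw a') (norm_nonneg _) (one_div_nonneg.2 hM.e0.le))
      _ = 2 / ε * K := by ring

end MP_fc1011_gt.TP
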