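import Pool.Agent.Lib.MP_fc1011_gt.TP.Spec

/-!
# MP_fc1011_gt, paths of trees: the change `((A B) c) → (A (B c))` of frames
-/

set_option autoImplicit false

namespace MP_fc1011_gt.TP

open Finset MT

section

variable {W : Type} [AddCommGroup W] [Module ℂ W]

private theorem rotR_comm {a b : (Module.End ℂ W)ˣ} (h : Commute a b) (w : W) :
    a.val (b.val w) = b.val (a.val w) := by
  have h1 := congrArg (fun x : (Module.End ℂ W)ˣ => x.val w) h.eq
  simpa only [Units.val_mul, Module.End.mul_apply] using h1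

/-- The conjugate of an operator. -/
private theorem rotR_conj {R J : (Module.End ℂ W)ˣ} {y z : ℂ} {w : W}
    (h : Qd J.val y z (R⁻¹.val w)) : Qd (R * J * R⁻¹).val y z w := by
  unfold Qd at h ⊢
  have h1 : ∀ x, R.val (R⁻¹.val x) = x := fun x => by
    rw [← Module.End.mul_apply, ← Units.val_mul, mul_inv_cancel, Units.val_one, Module.End.one_apply]
  have h2 : ∀ x, R⁻¹.val (R.val x) = x := fun x => by
    rw [← Module.End.mul_apply, ← Units.val_mul, inv_mul_cancel, Units.val_one, Module.End.one_apply]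
  simp only [Units.val_mul, Module.End.mul_apply]
  rw [h2, h, map_sub, map_smul, map_smul, h1]

end

/-- The change `((A B) c) → (A (B c))`. -/
theorem sRotR (hGj : S_Gj) (hGc : S_Gc) (hNum : S_Num) (hAdj : S_Adj) (hAbs : S_Abs) :
    S_RotR := by
  classical
  intro A m ε W _ _ ι _ _ B u hM C i kA kB hR w K hBd
  obtain ⟨v, lab, hF, hK⟩ := hBd
  obtain ⟨hkA, hkB, hm, hA, hB, hJ, hCm, hC⟩ := hR
  obtain ⟨N1, N2, N3, N4, N5, N6, -, -, N9⟩ := hNum A hM.nA hM.rou
  obtain ⟨D1, D2, -, D4⟩ := hAdj A m ε W B u hM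
  obtain ⟨G1, -⟩ := hGc (Module.End ℂ W)ˣ m u hM.br
  have hKC : (i + kA, kB + 1) ∉ C := by
    intro h
    have := (hC _ h).1
    unfold Cpt at this
    simp only at this
    omega
  have memC : ∀ n ∈ C, n ∈ C ∪ {(i, kA + kB)} := fun n hn => Or.inl hn
  have memI : (i, kA + kB) ∈ C ∪ {(i, kA + kB)} := Or.inr rfl
  have hvne : ∀ a, v a ≠ 0 := by
    intro a h
    have h1 := hF.on.1 a a
    rw [if_pos rfl, h, map_zero] at h1
    exact zero_ne_one h1
  -- the labels of `I` and `J`
  have hIJ : ∀ a, (lab a (i, kA + kB + 1) = lab a (i, kA + kB) + 1 ∧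
      (Jq u i (kA + kB)).val (v a) = ra A 4 (lab a (i, kA + kB + 1)) • v a) ∨
      (lab a (i, kA + kB + 1) + 1 = lab a (i, kA + kB) ∧
      (Jq u i (kA + kB)).val (v a) = rb A 4 (lab a (i, kA + kB + 1)) • v a) := by
    intro a
    have h := D4 i (kA + kB) (by omega) (lab a (i, kA + kB)) (lab a (i, kA + kB + 1)) (v a)
      (hF.rg a _ memI).1 (hF.rg a _ (memC _ hJ)).1 (hvne a) (hF.ev a _ memI)
      (hF.ev a _ (memC _ hJ))
    rcases h with h | h
    · exact Or.inl ⟨h.1, h.2.2⟩
    · exact Or.inr ⟨h.1, h.2.2⟩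
  obtain ⟨κ, hκ⟩ : ∃ κ : ι → (ℕ × ℕ → ℕ), ∀ a n, κ a n = if n ∈ C then lab a n else 0 :=
    ⟨_, fun _ _ => rfl⟩
  have hκC : ∀ a b, κ a = κ b → ∀ n ∈ C, lab a n = lab b n := by
    intro a b h n hn
    have h1 := congrFun h n
    rwa [hκ, hκ, if_pos hn, if_pos hn] at h1
  have hκof : ∀ a b, (∀ n ∈ C, lab a n = lab b n) → κ a = κ b := by
    intro a b h
    funext n
    rw [hκ, hκ]
    by_cases hn : n ∈ C
    · rw [if_pos hn, if_pos hn, h n hn]
    · rw [if_neg hn, if_neg hn]
  have hGj' := hGj (Module.End ℂ W)ˣ u i kA kB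
  have hcB : ∀ n ∈ C, Commute (Fq u n.1 n.2) (Jq u (i + kA) kB) := by
    intro n hn
    have h1 : Commute (Fq u n.1 n.2) (Fq u (i + kA) kB) :=
      G1 n (i + kA, kB) (hCm n hn) (hCm _ hB) ((hC n hn).2.2 _ hB)
    have h2 : Commute (Fq u n.1 n.2) (Fq u (i + kA) (kB + 1)) :=
      G1 n (i + kA, kB + 1) (hCm n hn) (by simp only; omega) (hC n hn).2.1
    have h3 : Jq u (i + kA) kB = (Fq u (i + kA) kB)⁻¹ * Fq u (i + kA) (kB + 1) := by
      change _ = (Fq u (i + kA) kB)⁻¹ * (Fq u (i + kA) kB * Jq u (i + kA) kB)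
      rw [inv_mul_cancel_left]
    rw [h3]
    exact h1.inv_right.mul_right h2
  have hgap : ∀ t x : ℕ, 1 ≤ x → x ≤ m + 1 → 2 * ε ≤ ‖ra A t x - rb A t x‖ := by
    intro t x h1 h2
    rw [N3]
    exact hM.gap x h1 h2
  obtain ⟨v', t', hON', hY', hinj', hcomb⟩ := hAbs W ι (ℕ × ℕ → ℕ) B v κ
    (fun a => decide (lab a (i, kA + kB) + 1 = lab a (i, kA + kB + 1)))
    (Jq u i (kA + kB)).val (Jq u (i + kA) kB).val
    (Rq u (i + kA) kB * Jq u i kA * (Rq u (i + kA) kB)⁻¹).val
    (fun a => ra A 4 (lab a (i, kA + kB + 1))) (fun a => rb A 4 (lab a (i, kA + kB + 1)))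
    (fun a => ra A 2 (lab a (i + kA, kB))) (fun a => rb A 2 (lab a (i + kA, kB)))
    (fun a => ra A 2 (lab a (i, kA))) (fun a => rb A 2 (lab a (i, kA))) ε hM.e0 hM.e1 hM.sym hF.on
    (by
      intro a b h1 h2
      have hJab := hκC a b h1 _ hJ
      refine hF.inj a b fun n hn => ?_
      rcases hn with hn | hn
      · exact hκC a b h1 n hn
      · rw [Set.mem_singleton_iff] at hn
        subst hn
        simp only [decide_eq_decide] at h2
        rcases hIJ a with ha | ha <;> rcases hIJ b with hb | hb <;> omega)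
    (by
      intro a b h1
      simp only [hκC a b h1 _ hJ, hκC a b h1 _ hA, hκC a b h1 _ hB]
      exact ⟨trivial, trivial, trivial, trivial, trivial, trivial⟩)
    (by
      intro a
      have r1 := hF.rg a _ (memC _ hJ)
      have r2 := hF.rg a _ (memC _ hA)
      have r3 := hF.rg a _ (memC _ hB)
      simp only at r1 r2 r3
      refine ⟨(N2 0 _ 4).2.1, (N2 0 _ 4).2.2, (N2 0 _ 2).2.1, (N2 0 _ 2).2.2, (N2 0 _ 2).2.1,
        (N2 0 _ 2).2.2, hgap _ _ r1.1 (by omega), hgap _ _ r3.1 (by omega), N9 _ _ r2.1, ?_⟩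
      rw [N4, N4, N4, ← mul_inv, ← pow_add])
    (by
      intro a
      rcases hIJ a with h | h
      · rw [if_pos (by simp only [decide_eq_true_eq]; omega)]
        exact h.2
      · rw [if_neg (by simp only [decide_eq_true_eq]; omega)]
        exact h.2)
    (fun x y => D1 (i + kA) kB (by omega) x y)
    (by
      intro a b h
      obtain ⟨n, hn⟩ := Function.ne_iff.1 h
      rw [hκ, hκ] at hn
      by_cases hnC : n ∈ C
      · rw [if_pos hnC, if_pos hnC] at hn
        have h1 : B ((Fq u n.1 n.2).val (v a)) ((Jq u (i + kA) kB).val (v b)) =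
            B (v a) ((Jq u (i + kA) kB).val ((Fq u n.1 n.2).val (v b))) := by
          rw [D2 n.1 n.2 (hCm n hnC), rotR_comm (hcB n hnC)]
        rw [hF.ev a n (memC n hnC), hF.ev b n (memC n hnC), map_smul, map_smul, map_smul,
          LinearMap.smul_apply, smul_eq_mul, smul_eq_mul] at h1
        by_contra h0
        exact hn (N1 _ _ _ (mul_right_cancel₀ h0 h1))
      · rw [if_neg hnC, if_neg hnC] at hn
        exact absurd rfl hn)
    (by
      intro x
      rw [← Module.End.mul_apply, ← Units.val_mul, hGj'.1, hGj'.2]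
      simp only [mul_assoc, inv_mul_cancel_left])
    (fun a => hM.qa (i + kA) kB (by omega) _ (v a) (hF.rg a _ (memC _ hB)).1
      (hF.ev a _ (memC _ hB)))
    (by
      intro a
      refine rotR_conj (hM.qa i kA (by omega) _ _ (hF.rg a _ (memC _ hA)).1 ?_)
      have hc : Commute (Rq u (i + kA) kB) (Fq u i kA) := by
        refine MV.RR_commute kB fun l hl => ?_
        refine (MV.FF_commute kA fun l' hl' => ?_).symm
        exact hM.br.comm (i + l') (i + kA + l) (by omega) (by omega)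
      rw [← rotR_comm hc.inv_left, hF.ev a _ (memC _ hA), map_smul])
  have hv'ne : ∀ a, v' a ≠ 0 := by
    intro a h
    have h1 := hON'.1 a a
    rw [if_pos rfl, h, map_zero] at h1
    exact zero_ne_one h1
  have hevC : ∀ a, ∀ n ∈ C, (Fq u n.1 n.2).val (v' a) = th A n.2 (lab a n) • v' a := by
    intro a n hn
    obtain ⟨a', f, g, h1, h2, -, -⟩ := hcomb a
    rw [h2, map_add, map_smul, map_smul, hF.ev a n (memC n hn), hF.ev a' n (memC n hn),
      hκC a' a h1 n hn]
    module
  obtain ⟨lab', hlab'⟩ : ∃ lab' : ι → ℕ × ℕ → ℕ, ∀ a n, lab' a n =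
      if n = (i + kA, kB + 1) then (if t' a = true then lab a (i + kA, kB) + 1 else
        lab a (i + kA, kB) - 1) else lab a n := ⟨_, fun _ _ => rfl⟩
  have hlC : ∀ a, ∀ n ∈ C, lab' a n = lab a n := by
    intro a n hn
    have h0 : n ≠ (i + kA, kB + 1) := fun h => hKC (h ▸ hn)
    rw [hlab', if_neg h0]
  have hevK : ∀ a, (Fq u (i + kA) (kB + 1)).val (v' a) =
      th A (kB + 1) (lab' a (i + kA, kB + 1)) • v' a := by
    intro a
    have h1 : (Fq u (i + kA) (kB + 1)).val (v' a) =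
        (Fq u (i + kA) kB).val ((Jq u (i + kA) kB).val (v' a)) := rfl
    rw [h1, hY' a, map_smul, hevC a _ hB, hlab', if_pos rfl, smul_smul]
    by_cases ht : t' a = true
    · rw [if_pos ht, if_pos ht, N5]
    · rw [if_neg ht, if_neg ht, N6 _ _ (hF.rg a _ (memC _ hB)).1]
  refine ⟨v', lab', ⟨hON', ?_, ?_, ?_⟩, ?_⟩
  · rintro a n (hn | hn)
    · rw [hlC a n hn]
      exact hevC a n hn
    · rw [Set.mem_singleton_iff] at hn
      subst hn
      exact hevK a
  · rintro a n (hn | hn)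
    · rw [hlC a n hn]
      exact hF.rg a n (memC n hn)
    · rw [Set.mem_singleton_iff] at hn
      subst hn
      obtain ⟨x, h1, h2, h3⟩ := hM.lb (i + kA) (kB + 1) (by omega) (v' a) _ (hv'ne a) (hevK a)
      rw [N1 _ _ _ h3]
      exact ⟨h1, h2⟩
  · intro a b h
    have h1 : κ a = κ b := hκof a b fun n hn => by
      have := h n (Or.inl hn)
      rwa [hlC a n hn, hlC b n hn] at this
    refine hinj' a b h1 ?_
    have h2 := h (i + kA, kB + 1) (Or.inr rfl)
    rw [hlab', hlab', if_pos rfl, if_pos rfl, hκC a b h1 _ hB] at h2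
    cases ha : t' a <;> cases hb : t' b
    · rfl
    · rw [ha, hb, if_neg Bool.false_ne_true, if_pos rfl] at h2
      omega
    · rw [ha, hb, if_pos rfl, if_neg Bool.false_ne_true] at h2
      omega
    · rfl
  · intro a
    obtain ⟨a', f, g, -, h2, hf, hg⟩ := hcomb a
    have h0 : (0 : ℝ) ≤ 1 / ε := (norm_nonneg f).trans hf
    rw [h2, map_add, map_smul, map_smul, LinearMap.add_apply, LinearMap.smul_apply,
      LinearMap.smul_apply]
    refine (norm_add_le _ _).trans ?_
    rw [norm_smul, norm_smul]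
    have e1 := mul_le_mul hf (hK a) (norm_nonneg _) h0
    have e2 := mul_le_mul hg (hK a') (norm_nonneg _) h0
    have e3 : 2 / ε * K = 1 / ε * K + 1 / ε * K := by ring
    rw [e3]
    exact add_le_add e1 e2

end MP_fc1011_gt.TP
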