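import Pool.Agent.Lib.MP_fc1011_gt.TP.Spec2

/-!
# MP_fc1011_gt, package TP: the strands on the right in terms of the strands on the left
-/

set_option autoImplicit false

namespace MP_fc1011_gt.TP

private theorem rt_LL {G : Type} [Monoid G] (t : ℕ → G) :
    ∀ l, MV.LL t (l + 1) = t 0 * MV.LL (fun j => t (j + 1)) l
  | 0 => by
    change (1 : G) * t 0 = t 0 * 1
    rw [one_mul, mul_one]
  | l + 1 => by
    change MV.LL t (l + 1) * t (l + 1) = t 0 * (MV.LL (fun j => t (j + 1)) l * t (l + 1))
    rw [rt_LL t l, mul_assoc]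

private theorem rt_RR {G : Type} [Monoid G] (t : ℕ → G) :
    ∀ l, MV.RR t (l + 1) = MV.RR (fun j => t (j + 1)) l * t 0
  | 0 => by
    change t 0 * (1 : G) = 1 * t 0
    rw [one_mul, mul_one]
  | l + 1 => by
    change t (l + 1) * MV.RR t (l + 1) = (t (l + 1) * MV.RR (fun j => t (j + 1)) l) * t 0
    rw [rt_RR t l, mul_assoc]

private theorem rt_E {G : Type} [Monoid G] (s : ℕ → G) (q l : ℕ) :
    Lq s q (l + 1) * Rq s q (l + 1) = s q * (Lq s (q + 1) l * Rq s (q + 1) l) * s q := by
  have e : (fun j => s (q + (j + 1))) = fun j => s (q + 1 + j) := by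
    funext j
    rw [show q + (j + 1) = q + 1 + j by omega]
  have h1 := rt_LL (fun j => s (q + j)) l
  have h2 := rt_RR (fun j => s (q + j)) l
  rw [e] at h1 h2
  change MV.LL (fun j => s (q + j)) (l + 1) * MV.RR (fun j => s (q + j)) (l + 1) = _
  rw [h1, h2]
  change s (q + 0) * Lq s (q + 1) l * (Rq s (q + 1) l * s (q + 0)) = _
  rw [Nat.add_zero]
  simp only [mul_assoc]

theorem sRt (hGl : S_Gl) : S_Rt := by
  intro A m W _ _ u hA hm hbr hJ hF q hq
  -- `E q * D q` is a scalar
  have hval : ∀ (g h : (Module.End ℂ W)ˣ) (x : W), (g * h).val x = g.val (h.val x) :=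
    fun _ _ _ => rfl
  have hinv : ∀ (g : (Module.End ℂ W)ˣ) (x : W), g.val (g⁻¹.val x) = x := by
    intro g x
    rw [← hval, mul_inv_cancel]
    rfl
  have hinv' : ∀ (g : (Module.End ℂ W)ˣ) (x : W), g⁻¹.val (g.val x) = x := by
    intro g x
    rw [← hval, inv_mul_cancel]
    rfl
  have hED : ∀ l q, q + l + 1 = m → ∀ x : W,
      ((Lq u q l * Rq u q l) * Jq u 0 q).val x = A ^ (-6 : ℤ) • x := by
    intro l
    induction l with
    | zero =>
      intro q hql x
      have e : q = m - 1 := by omega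
      have e1 : (Lq u q 0 * Rq u q 0) * Jq u 0 q = Jq u 0 (m - 1) := by
        change ((1 : (Module.End ℂ W)ˣ) * 1) * Jq u 0 q = _
        rw [one_mul, one_mul, e]
      rw [e1]
      exact hJ x
    | succ l ih =>
      intro q hql x
      have h1 := ih (q + 1) (by omega)
      have e0 : Jq u 0 (q + 1) = u q * Jq u 0 q * u q := by
        change u (0 + q) * MV.JJ (fun j => u (0 + j)) q * u (0 + q) = _
        rw [Nat.zero_add]
        rfl
      have e1 : (Lq u q (l + 1) * Rq u q (l + 1)) * Jq u 0 q =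
          u q * ((Lq u (q + 1) l * Rq u (q + 1) l) * Jq u 0 (q + 1)) * (u q)⁻¹ := by
        rw [rt_E, e0]
        group
      rw [e1, hval, hval, h1, map_smul, hinv]
  have hDE : ∀ l q, q + l + 1 = m → ∀ x : W,
      (Jq u 0 q).val ((Lq u q l * Rq u q l).val x) = A ^ (-6 : ℤ) • x := by
    intro l q hql x
    have h1 := hED l q hql ((Lq u q l * Rq u q l).val x)
    rw [hval] at h1
    have h2 := congrArg (fun y => (Lq u q l * Rq u q l)⁻¹.val y) h1
    simp only [hinv', map_smul] at h2
    exact h2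
  have main : ∀ l q, q + l = m → ∀ x : W,
      (Fq u q l).val x = A ^ (6 * (q : ℤ) - 3 * (m : ℤ)) • (Fq u 0 q).val x := by
    intro l
    induction l with
    | zero =>
      intro q hql x
      have e : q = m := by omega
      subst e
      have h1 : (Fq u q 0).val x = x := rfl
      rw [h1, hF x, smul_smul, ← zpow_add₀ hA]
      have e2 : (6 * (q : ℤ) - 3 * (q : ℤ) + -(3 * (q : ℤ))) = 0 := by ring
      rw [e2, zpow_zero, one_smul]
    | succ l ih =>
      intro q hql x
      have h1 := (hGl _ m u hbr q l (by omega)).1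
      have h2 := ih (q + 1) (by omega) ((Lq u q l * Rq u q l).val x)
      have e0 : Fq u 0 (q + 1) = Fq u 0 q * Jq u 0 q := rfl
      rw [h1, hval, h2, e0, hval, hDE l q (by omega), map_smul, smul_smul, ← zpow_add₀ hA]
      congr 2
      push_cast
      ring
  exact main (m - q) q (by omega)

end MP_fc1011_gt.TP
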