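import Pool.Agent.Lib.MP_fc1011_gt.TP.Spec

/-!
# MP_fc1011_gt, package TP: shift by one strand
-/

set_option autoImplicit false

namespace MP_fc1011_gt.TP

private theorem br_shift {G : Type} [Monoid G] {m : ℕ} {s : ℕ → G} (hs : MV.Br m s) {q k : ℕ}
    (h : q + k ≤ m) : MV.Br k (fun j => s (q + j)) where
  brd j hj := hs.brd (q + j) (by omega)
  comm i j hij hj := hs.comm (q + i) (q + j) (by omega) (by omega)

private theorem LL_commute {G : Type} [Monoid G] {s : ℕ → G} {x : G} :
    ∀ j, (∀ l, l < j → Commute (s l) x) → Commute (MV.LL s j) x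
  | 0, _ => Commute.one_left x
  | j + 1, h => (LL_commute j fun l hl => h l (Nat.lt_succ_of_lt hl)).mul_left
      (h j (Nat.lt_succ_self j))

private theorem LL_shift {G : Type} [Monoid G] {m : ℕ} {t : ℕ → G} (ht : MV.Br m t) :
    ∀ k, k + 1 < m → ∀ j, j < k → MV.LL t (k + 1) * t j = t (j + 1) * MV.LL t (k + 1)
  | 0, _, j, hj => by omega
  | k + 1, hk, j, hj => by
    have e1 : MV.LL t (k + 1 + 1) = MV.LL t (k + 1) * t (k + 1) := rfl
    rcases Nat.lt_or_ge j k with h | h
    · have h1 : Commute (t j) (t (k + 1)) := ht.comm j (k + 1) (by omega) (by omega)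
      have ih := LL_shift ht k (by omega) j h
      rw [e1, mul_assoc, ← h1.eq, ← mul_assoc, ih, mul_assoc]
    · obtain rfl : j = k := by omega
      have e2 : MV.LL t (j + 1) = MV.LL t j * t j := rfl
      have hb := ht.brd j (by omega)
      have hc : Commute (MV.LL t j) (t (j + 1)) :=
        LL_commute j fun l hl => ht.comm l (j + 1) (by omega) (by omega)
      rw [e1, e2]
      calc MV.LL t j * t j * t (j + 1) * t j = MV.LL t j * (t j * t (j + 1) * t j) := by
            simp only [mul_assoc]
        _ = (MV.LL t j * t (j + 1)) * t j * t (j + 1) := by rw [hb]; simp only [mul_assoc]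
        _ = _ := by rw [hc.eq]; simp only [mul_assoc]

private theorem JJ_inter {G : Type} [Monoid G] {t t' : ℕ → G} {X : G} :
    ∀ k, (∀ j, j < k → X * t j = t' j * X) → X * MV.JJ t k = MV.JJ t' k * X
  | 0, _ => by
    change X * 1 = 1 * X
    rw [one_mul, mul_one]
  | k + 1, h => by
    have ih := JJ_inter k fun j hj => h j (by omega)
    have h1 := h k (by omega)
    change X * (t k * MV.JJ t k * t k) = t' k * MV.JJ t' k * t' k * X
    calc X * (t k * MV.JJ t k * t k) = (X * t k) * MV.JJ t k * t k := by simp only [mul_assoc]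
      _ = t' k * (X * MV.JJ t k) * t k := by rw [h1]; simp only [mul_assoc]
      _ = t' k * MV.JJ t' k * (X * t k) := by rw [ih]; simp only [mul_assoc]
      _ = _ := by rw [h1]; simp only [mul_assoc]

private theorem FF_inter {G : Type} [Monoid G] {t t' : ℕ → G} {X : G} :
    ∀ k, (∀ j, j + 1 < k → X * t j = t' j * X) → X * MV.FF t k = MV.FF t' k * X
  | 0, _ => by
    change X * 1 = 1 * X
    rw [one_mul, mul_one]
  | k + 1, h => by
    have ih := FF_inter k fun j hj => h j (by omega)
    have h1 := JJ_inter k fun j hj => h j (by omega)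
    change X * (MV.FF t k * MV.JJ t k) = MV.FF t' k * MV.JJ t' k * X
    rw [← mul_assoc, ih, mul_assoc, h1, mul_assoc]

theorem sSh : S_Sh := by
  intro G _ m s hs q k hk
  have ht : MV.Br (k + 2) (fun j => s (q + j)) := br_shift hs (by omega)
  have key : ∀ j, j < k → Lq s q (k + 1) * s (q + j) = s (q + 1 + j) * Lq s q (k + 1) := by
    intro j hj
    have h1 := LL_shift ht k (by omega) j hj
    have e : q + 1 + j = q + (j + 1) := by omega
    rw [e]
    exact h1
  refine ⟨?_, ?_, ?_⟩
  · exact JJ_inter k key
  · exact FF_inter k fun j hj => key j (by omega)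
  · exact FF_inter (k + 1) fun j hj => key j (by omega)

end MP_fc1011_gt.TP
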