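import Pool.Agent.Lib.MP_fc1011_gt.TP.Spec
import Pool.Agent.Lib.MP_fc1011_gt.MT.Around
import Pool.Agent.Lib.MP_fc1011_gt.MT.U2

/-!
# MP_fc1011_gt, paths of trees: the Temperley-Lieb relations in the path model
-/

set_option autoImplicit false

namespace MP_fc1011_gt.TP

open Finset MT

private theorem uu_pos {b : ℕ → ℂ} {R m i : ℕ} {a : ℕ → ℕ} (ha : Pth R m a) (h : a i = a (i + 2))
    (ψ : (ℕ → ℕ) → ℂ) : UU b R m i ψ a = b (a (i + 1)) / b (a i) *
      (ψ (Function.update a (i + 1) (a i + 1)) + ψ (Function.update a (i + 1) (a i - 1))) := by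
  rw [UU, if_pos ⟨ha, h⟩]

private theorem uu_path {b : ℕ → ℂ} {R m i : ℕ} {a : ℕ → ℕ} (ha : ¬ Pth R m a)
    (ψ : (ℕ → ℕ) → ℂ) : UU b R m i ψ a = 0 := by
  rw [UU, if_neg fun h => ha h.1]

private theorem uu_ne {b : ℕ → ℂ} {R m i : ℕ} {a : ℕ → ℕ} (h : a i ≠ a (i + 2))
    (ψ : (ℕ → ℕ) → ℂ) : UU b R m i ψ a = 0 := by
  rw [UU, if_neg fun h' => h h'.2]

/-- only one of the two summands is not zero -/
private theorem pick {x y : ℕ} (hy : y = x + 1 ∨ y + 1 = x) (F : ℕ → ℂ)
    (h : ∀ u, u ≠ y → F u = 0) : F (x + 1) + F (x - 1) = F y := by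
  rcases hy with hy | hy
  · rw [hy, h (x - 1) (by omega), add_zero]
  · rw [h (x + 1) (by omega), zero_add]
    congr 1
    omega

private theorem up_eq {d : ℂ} {b : ℕ → ℂ} {R m : ℕ} (hb : Hts d b R m) {j : ℕ} (hj : j + 2 < m)
    (φ : (ℕ → ℕ) → ℂ) {a : ℕ → ℕ} (ha : Pth R m a) :
    UU b R m j (UU b R m (j + 1) (UU b R m j φ)) a = UU b R m j φ a := by
  by_cases hx : a j = a (j + 2)
  swap
  · rw [uu_ne hx, uu_ne hx]
  rw [uu_pos ha hx, uu_pos ha hx]
  congr 1
  obtain ⟨x, hxx⟩ : ∃ x, a j = x := ⟨_, rfl⟩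
  obtain ⟨y, hyy⟩ : ∃ y, a (j + 3) = y := ⟨_, rfl⟩
  have hx2 : a (j + 2) = x := hx.symm.trans hxx
  have hbx : b x ≠ 0 := hb.ne x (hxx ▸ (ha.2.2.2 j).1) (hxx ▸ (ha.2.2.2 j).2)
  have hby : b y ≠ 0 := hb.ne y (hyy ▸ (ha.2.2.2 (j + 3)).1) (hyy ▸ (ha.2.2.2 (j + 3)).2)
  have hy : y = x + 1 ∨ y + 1 = x := by
    have h1 := ha.2.2.1 (j + 2) (by omega)
    have h2 : j + 2 + 1 = j + 3 := rfl
    rw [h2, hyy, hx2] at h1
    exact h1
  rw [hxx]
  let F : ℕ → ℂ := fun u => UU b R m (j + 1) (UU b R m j φ) (Function.update a (j + 1) u)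
  have hF : ∀ u, u ≠ y → F u = 0 := by
    intro u hu
    refine uu_ne ?_ _
    rw [Function.update_self, Function.update_of_ne (by omega)]
    have h2 : j + 1 + 2 = j + 3 := rfl
    rw [h2, hyy]
    exact hu
  have h1 : F (x + 1) + F (x - 1) = F y := pick hy F hF
  have hc : Pth R m (Function.update a (j + 1) y) :=
    around_up (by omega) ha hx (by rw [hxx]; exact hy) (hyy ▸ (ha.2.2.2 (j + 3)).1)
      (hyy ▸ (ha.2.2.2 (j + 3)).2)
  obtain ⟨c, hcc⟩ : ∃ c, Function.update a (j + 1) y = c := ⟨_, rfl⟩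
  rw [hcc] at hc
  have c0 : c j = x := by rw [← hcc, Function.update_of_ne (by omega), hxx]
  have c1 : c (j + 1) = y := by rw [← hcc, Function.update_self]
  have c2 : c (j + 2) = x := by rw [← hcc, Function.update_of_ne (by omega), hx2]
  have c3 : c (j + 3) = y := by rw [← hcc, Function.update_of_ne (by omega), hyy]
  have h2 : F y = φ (Function.update a (j + 1) (x + 1)) +
      φ (Function.update a (j + 1) (x - 1)) := by
    change UU b R m (j + 1) (UU b R m j φ) (Function.update a (j + 1) y) = _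
    rw [hcc, uu_pos hc (c1.trans c3.symm)]
    have e1 : j + 1 + 1 = j + 2 := rfl
    rw [e1, c1, c2]
    let H : ℕ → ℂ := fun w => UU b R m j φ (Function.update c (j + 2) w)
    have hH : ∀ w, w ≠ x → H w = 0 := by
      intro w hw
      refine uu_ne ?_ _
      rw [Function.update_of_ne (by omega), Function.update_self, c0]
      exact fun h => hw h.symm
    have h3 : H (y + 1) + H (y - 1) = H x := pick (by omega) H hH
    change b x / b y * (H (y + 1) + H (y - 1)) = _
    rw [h3]
    have h4 : H x = b y / b x * (φ (Function.update a (j + 1) (x + 1)) +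
        φ (Function.update a (j + 1) (x - 1))) := by
      change UU b R m j φ (Function.update c (j + 2) x) = _
      have h5 : Function.update c (j + 2) x = c := by
        rw [← c2, Function.update_eq_self]
      rw [h5, uu_pos hc (c0.trans c2.symm), c0, c1, ← hcc, Function.update_idem,
        Function.update_idem]
    rw [h4, ← mul_assoc, div_mul_div_comm, mul_comm (b x) (b y), div_self (mul_ne_zero hby hbx),
      one_mul]
  rw [← h2, ← h1]

private theorem dn_eq {d : ℂ} {b : ℕ → ℂ} {R m : ℕ} (hb : Hts d b R m) {j : ℕ} (hj : j + 2 < m)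
    (φ : (ℕ → ℕ) → ℂ) {a : ℕ → ℕ} (ha : Pth R m a) :
    UU b R m (j + 1) (UU b R m j (UU b R m (j + 1) φ)) a = UU b R m (j + 1) φ a := by
  by_cases hx : a (j + 1) = a (j + 1 + 2)
  swap
  · rw [uu_ne hx, uu_ne hx]
  rw [uu_pos ha hx, uu_pos ha hx]
  congr 1
  have e1 : j + 1 + 1 = j + 2 := rfl
  have e3 : j + 1 + 2 = j + 3 := rfl
  rw [e1]
  obtain ⟨x, hxx⟩ : ∃ x, a (j + 1) = x := ⟨_, rfl⟩
  obtain ⟨y, hyy⟩ : ∃ y, a j = y := ⟨_, rfl⟩
  have hx3 : a (j + 3) = x := hx.symm.trans hxx
  have hbx : b x ≠ 0 := hb.ne x (hxx ▸ (ha.2.2.2 (j + 1)).1) (hxx ▸ (ha.2.2.2 (j + 1)).2)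
  have hby : b y ≠ 0 := hb.ne y (hyy ▸ (ha.2.2.2 j).1) (hyy ▸ (ha.2.2.2 j).2)
  have hy : y = x + 1 ∨ y + 1 = x := by
    have h1 := ha.2.2.1 j (by omega)
    rw [hyy, hxx] at h1
    omega
  rw [hxx]
  let F : ℕ → ℂ := fun u => UU b R m j (UU b R m (j + 1) φ) (Function.update a (j + 2) u)
  have hF : ∀ u, u ≠ y → F u = 0 := by
    intro u hu
    refine uu_ne ?_ _
    rw [Function.update_self, Function.update_of_ne (by omega), hyy]
    exact fun h => hu h.symm
  have h1 : F (x + 1) + F (x - 1) = F y := pick hy F hF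
  have hc : Pth R m (Function.update a (j + 2) y) :=
    around_up (i := j + 1) (by omega) ha hx (by rw [hxx]; exact hy) (hyy ▸ (ha.2.2.2 j).1)
      (hyy ▸ (ha.2.2.2 j).2)
  obtain ⟨c, hcc⟩ : ∃ c, Function.update a (j + 2) y = c := ⟨_, rfl⟩
  rw [hcc] at hc
  have c0 : c j = y := by rw [← hcc, Function.update_of_ne (by omega), hyy]
  have c1 : c (j + 1) = x := by rw [← hcc, Function.update_of_ne (by omega), hxx]
  have c2 : c (j + 2) = y := by rw [← hcc, Function.update_self]
  have c3 : c (j + 3) = x := by rw [← hcc, Function.update_of_ne (by omega), hx3]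
  have h2 : F y = φ (Function.update a (j + 2) (x + 1)) +
      φ (Function.update a (j + 2) (x - 1)) := by
    change UU b R m j (UU b R m (j + 1) φ) (Function.update a (j + 2) y) = _
    rw [hcc, uu_pos hc (c0.trans c2.symm), c0, c1]
    let H : ℕ → ℂ := fun w => UU b R m (j + 1) φ (Function.update c (j + 1) w)
    have hH : ∀ w, w ≠ x → H w = 0 := by
      intro w hw
      refine uu_ne ?_ _
      rw [Function.update_self, Function.update_of_ne (by omega), e3, c3]
      exact hw
    have h3 : H (y + 1) + H (y - 1) = H x := pick (by omega) H hH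
    change b x / b y * (H (y + 1) + H (y - 1)) = _
    rw [h3]
    have h4 : H x = b y / b x * (φ (Function.update a (j + 2) (x + 1)) +
        φ (Function.update a (j + 2) (x - 1))) := by
      change UU b R m (j + 1) φ (Function.update c (j + 1) x) = _
      have h5 : Function.update c (j + 1) x = c := by
        rw [← c1, Function.update_eq_self]
      rw [h5, uu_pos (i := j + 1) hc (by rw [e3]; exact c1.trans c3.symm), e1, c1, c2, ← hcc,
        Function.update_idem, Function.update_idem]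
    rw [h4, ← mul_assoc, div_mul_div_comm, mul_comm (b x) (b y), div_self (mul_ne_zero hby hbx),
      one_mul]
  rw [← h2, ← h1]

/-- the operator at `p` after an update at a place far away -/
private theorem far_pos {b : ℕ → ℂ} {R m p q : ℕ} (hp : p + 1 < m) (hpq : p + 2 ≤ q ∨ q + 2 ≤ p)
    {φ : (ℕ → ℕ) → ℂ} (hφ : Supp R m φ) {a : ℕ → ℕ} (ha : Pth R m a) (h : a p = a (p + 2))
    (w : ℕ) : UU b R m p φ (Function.update a (q + 1) w) = b (a (p + 1)) / b (a p) *
      (φ (Function.update (Function.update a (q + 1) w) (p + 1) (a p + 1)) +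
        φ (Function.update (Function.update a (q + 1) w) (p + 1) (a p - 1))) := by
  obtain ⟨c, hcc⟩ : ∃ c, Function.update a (q + 1) w = c := ⟨_, rfl⟩
  have c0 : c p = a p := by rw [← hcc, Function.update_of_ne (by omega)]
  have c1 : c (p + 1) = a (p + 1) := by rw [← hcc, Function.update_of_ne (by omega)]
  have c2 : c (p + 2) = a (p + 2) := by rw [← hcc, Function.update_of_ne (by omega)]
  rw [hcc]
  by_cases hc : Pth R m c
  · rw [uu_pos hc (c0.trans (h.trans c2.symm)), c0, c1]
  · have h0 : ∀ v, φ (Function.update c (p + 1) v) = 0 := by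
      intro v
      refine hφ _ fun h1 => hc ?_
      have h2 : Function.update (Function.update c (p + 1) v) (p + 1) (a (p + 1)) = c := by
        rw [Function.update_idem, ← c1, Function.update_eq_self]
      rw [← h2]
      refine around_up hp h1 ?_ ?_ (ha.2.2.2 (p + 1)).1 (ha.2.2.2 (p + 1)).2
      · rw [Function.update_of_ne (by omega), Function.update_of_ne (by omega), c0, c2, h]
      · rw [Function.update_of_ne (by omega), c0]
        exact ha.2.2.1 p (by omega)
    rw [uu_path hc, h0, h0, add_zero, mul_zero]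

private theorem far_ne {b : ℕ → ℂ} {R m p q : ℕ} (hpq : p + 2 ≤ q ∨ q + 2 ≤ p)
    (φ : (ℕ → ℕ) → ℂ) {a : ℕ → ℕ} (h : a p ≠ a (p + 2)) (w : ℕ) :
    UU b R m p φ (Function.update a (q + 1) w) = 0 := by
  refine uu_ne ?_ _
  rw [Function.update_of_ne (by omega), Function.update_of_ne (by omega)]
  exact h

private theorem comm_eq {b : ℕ → ℂ} {R m i j : ℕ} (hij : i + 2 ≤ j) (hj : j + 1 < m)
    {φ : (ℕ → ℕ) → ℂ} (hφ : Supp R m φ) {a : ℕ → ℕ} (ha : Pth R m a) :
    UU b R m i (UU b R m j φ) a = UU b R m j (UU b R m i φ) a := by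
  by_cases h1 : a i = a (i + 2)
  · by_cases h2 : a j = a (j + 2)
    · rw [uu_pos ha h1, uu_pos ha h2, far_pos hj (Or.inr hij) hφ ha h2,
        far_pos hj (Or.inr hij) hφ ha h2, far_pos (by omega) (Or.inl hij) hφ ha h1,
        far_pos (by omega) (Or.inl hij) hφ ha h1]
      have h3 : ∀ u w, Function.update (Function.update a (j + 1) w) (i + 1) u =
          Function.update (Function.update a (i + 1) u) (j + 1) w := fun u w =>
        Function.update_comm (by omega) w u a
      rw [h3, h3, h3, h3]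
      ring
    · rw [uu_pos ha h1, uu_ne h2, far_ne (Or.inr hij) φ h2, far_ne (Or.inr hij) φ h2, add_zero,
        mul_zero]
  · by_cases h2 : a j = a (j + 2)
    · rw [uu_ne h1, uu_pos ha h2, far_ne (Or.inl hij) φ h1, far_ne (Or.inl hij) φ h1, add_zero,
        mul_zero]
    · rw [uu_ne h1, uu_ne h2]

/-- The Temperley-Lieb relations in the path model. -/
theorem sTLp : S_TLp := by
  intro d b R m hb
  refine ⟨fun j hj => ?_, fun j hj => ?_, fun j hj => ?_, fun i j hij hj => ?_⟩
  · refine LinearMap.ext fun ψ => funext fun a => ?_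
    change UU b R m j (ext R m (eP b R m j ψ)) a.1 = d * UU b R m j (ext R m ψ) a.1
    rw [ext_eP, sU2 d b R m j hb hj]
  · refine LinearMap.ext fun ψ => funext fun a => ?_
    change UU b R m j (ext R m (eP b R m (j + 1) (eP b R m j ψ))) a.1 =
      UU b R m j (ext R m ψ) a.1
    rw [ext_eP, ext_eP, up_eq hb hj _ a.2]
  · refine LinearMap.ext fun ψ => funext fun a => ?_
    change UU b R m (j + 1) (ext R m (eP b R m j (eP b R m (j + 1) ψ))) a.1 =
      UU b R m (j + 1) (ext R m ψ) a.1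
    rw [ext_eP, ext_eP, dn_eq hb hj _ a.2]
  · refine LinearMap.ext fun ψ => funext fun a => ?_
    change UU b R m i (ext R m (eP b R m j ψ)) a.1 = UU b R m j (ext R m (eP b R m i ψ)) a.1
    rw [ext_eP, ext_eP, comm_eq hij hj (ext_supp ψ) a.2]

end MP_fc1011_gt.TP
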