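import Pool.Agent.Lib.MP_fc1011_gt.TP.Spec

/-!
# MP_fc1011_gt, paths of trees: the weights at generic points
-/

set_option autoImplicit false

namespace MP_fc1011_gt.TP

open Finset MT

private theorem tg_sin (x : ℝ) (hx : |x| ≤ Real.pi / 2) :
    2 / Real.pi * |x| ≤ |Real.sin x| := by
  rcases le_total 0 x with h | h
  · rw [abs_of_nonneg h] at hx ⊢
    exact (Real.mul_le_sin h hx).trans (le_abs_self _)
  · rw [abs_of_nonpos h] at hx ⊢
    have h1 := Real.mul_le_sin (neg_nonneg.2 h) hx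
    rw [Real.sin_neg] at h1
    exact h1.trans (neg_le_abs _)

/-- the sine at a multiple of `π` which is not close to an integer -/
private theorem tg_dist (y δ : ℝ) (h : ∀ q : ℤ, δ ≤ |y - q|) :
    2 * δ ≤ |Real.sin (Real.pi * y)| := by
  obtain ⟨q, hq⟩ : ∃ q : ℤ, q = round y := ⟨_, rfl⟩
  have h1 : |y - q| ≤ 1 / 2 := by
    rw [hq]
    exact abs_sub_round _
  have h2 : |Real.sin (Real.pi * y)| = |Real.sin (Real.pi * (y - q))| := by
    have h3 : Real.pi * (y - q) = Real.pi * y - q * Real.pi := by ring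
    rw [h3, Real.sin_sub_int_mul_pi, abs_mul, abs_zpow, abs_neg, abs_one, one_zpow, one_mul]
  have hpi := Real.pi_pos
  have h4 : |Real.pi * (y - q)| = Real.pi * |y - q| := by
    rw [abs_mul, abs_of_pos hpi]
  have h5 := tg_sin (Real.pi * (y - q)) (by
    rw [h4]
    nlinarith)
  rw [h4] at h5
  have h6 : 2 / Real.pi * (Real.pi * |y - q|) = 2 * |y - q| := by
    field_simp
  rw [h6] at h5
  rw [h2]
  have := h q
  linarith

private theorem tg_mul (φ : ℝ) (n : ℕ) : |Real.sin (n * φ)| ≤ n * |Real.sin φ| := by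
  induction n with
  | zero => simp
  | succ n ih =>
    have h1 : ((n + 1 : ℕ) : ℝ) * φ = n * φ + φ := by
      push_cast
      ring
    rw [h1, Real.sin_add]
    have h2 : |Real.sin (n * φ) * Real.cos φ| ≤ |Real.sin (n * φ)| := by
      rw [abs_mul]
      exact mul_le_of_le_one_right (abs_nonneg _) (Real.abs_cos_le_one _)
    have h3 : |Real.cos (n * φ) * Real.sin φ| ≤ |Real.sin φ| := by
      rw [abs_mul]
      exact mul_le_of_le_one_left (abs_nonneg _) (Real.abs_cos_le_one _)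
    have h4 := abs_add_le (Real.sin (n * φ) * Real.cos φ) (Real.cos (n * φ) * Real.sin φ)
    push_cast
    linarith

theorem sTg : S_Tg := by
  intro R M m hR hmR hM
  have hpi := Real.pi_pos
  have hR1 : (0 : ℝ) < ((R + 1 : ℕ) : ℝ) := by positivity
  have hR2 : (0 : ℝ) ≤ (R : ℝ) := by positivity
  have hR3 : ((R + 1 : ℕ) : ℝ) = R + 1 := by push_cast; ring
  have hM1 : (0 : ℝ) < (M : ℝ) := by exact_mod_cast hM
  have hs2 : Real.sqrt 2 < 2 := by
    rw [Real.sqrt_lt' (by norm_num)]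
    norm_num
  have hs1 : 1 ≤ Real.sqrt 2 := by
    rw [Real.one_le_sqrt]
    norm_num
  obtain ⟨κ, hκ⟩ : ∃ κ : ℝ, κ = Real.sqrt 2 / 2 / ((R + 1 : ℕ) : ℝ) := ⟨_, rfl⟩
  have hκ0 : 0 < κ := by
    rw [hκ]
    positivity
  have hκ1 : κ * ((R + 1 : ℕ) : ℝ) = Real.sqrt 2 / 2 := by
    rw [hκ]
    field_simp
  have hκ2 : κ < 1 := by
    rw [hκ, div_lt_one hR1, hR3]
    linarith
  refine ⟨Complex.exp (((2 * Real.pi * (κ / M) : ℝ) : ℂ) * Complex.I), ?_, fun j hjM => ?_⟩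
  · exact Complex.norm_exp_ofReal_mul_I _
  obtain ⟨x, hx⟩ : ∃ x : ℝ, x = ((j : ℝ) + κ) / M := ⟨_, rfl⟩
  have hx0 : 0 < x := by
    rw [hx]
    positivity
  have hx1 : x < 1 := by
    rw [hx, div_lt_one hM1]
    have h1 : (j : ℝ) + 1 ≤ M := by exact_mod_cast hjM
    linarith
  obtain ⟨φ, hφ⟩ : ∃ φ : ℝ, φ = Real.pi * x := ⟨_, rfl⟩
  have hφ0 : 0 < φ := by
    rw [hφ]
    positivity
  have hφ1 : φ < Real.pi := by
    rw [hφ]
    nlinarith
  have hsin : 0 < Real.sin φ := Real.sin_pos_of_pos_of_lt_pi hφ0 hφ1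
  have hsin1 : Real.sin φ ≤ 1 := Real.sin_le_one φ
  obtain ⟨A, hA⟩ : ∃ A : ℂ, A = Complex.exp (Complex.I * ((-φ / 2 : ℝ) : ℂ)) := ⟨_, rfl⟩
  have hA2 : A ^ 2 = Complex.exp (-(φ : ℂ) * Complex.I) := by
    rw [hA, ← Complex.exp_nat_mul]
    congr 1
    push_cast
    ring
  have hA2' : (A ^ 2)⁻¹ = Complex.exp ((φ : ℂ) * Complex.I) := by
    rw [hA2, ← Complex.exp_neg]
    congr 1
    ring
  have hA2c : A ^ 2 = Complex.cos φ - Complex.sin φ * Complex.I := by
    rw [hA2, Complex.exp_mul_I, Complex.cos_neg, Complex.sin_neg]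
    ring
  have hd : -A ^ 2 - (A ^ 2)⁻¹ = -2 * Complex.cos φ := by
    rw [hA2', Complex.exp_mul_I, hA2c]
    ring
  obtain ⟨b, hb⟩ : ∃ b : ℕ → ℂ, ∀ n, b n =
      (-1) ^ (n + 1) * ((Real.sin (n * φ) / Real.sin φ : ℝ) : ℂ) := ⟨_, fun n => rfl⟩
  have hbn : ∀ n, ‖b n‖ = |Real.sin (n * φ)| / Real.sin φ := by
    intro n
    rw [hb, norm_mul, norm_pow, norm_neg, norm_one, one_pow, one_mul, Complex.norm_real,
      Real.norm_eq_abs, abs_div, abs_of_pos hsin]
  have hδ : ∀ n : ℕ, 1 ≤ n → n ≤ R → 1 / ((R + 1 : ℕ) * M : ℝ) ≤ |Real.sin (n * φ)| := by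
    intro n hn1 hnR
    have h1 : (n : ℝ) * φ = Real.pi * (n * x) := by
      rw [hφ]
      ring
    have h2 : 1 / ((R + 1 : ℕ) * M : ℝ) = 2 * (1 / (2 * ((R + 1 : ℕ) * M : ℝ))) := by
      field_simp
    rw [h1, h2]
    refine tg_dist _ _ fun q => ?_
    have hn1' : (1 : ℝ) ≤ n := by exact_mod_cast hn1
    have hnR' : (n : ℝ) ≤ R := by exact_mod_cast hnR
    have h3 : (n : ℝ) * x - q = (((n * j - q * M : ℤ) : ℝ) + n * κ) / M := by
      rw [hx]
      push_cast
      field_simp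
      ring
    have h4 : 1 / (2 * ((R + 1 : ℕ) * M : ℝ)) = 1 / (2 * ((R + 1 : ℕ) : ℝ)) / M := by
      field_simp
    rw [h3, h4, abs_div, abs_of_pos hM1]
    refine div_le_div_of_nonneg_right ?_ hM1.le
    have h5 : 1 / (2 * ((R + 1 : ℕ) : ℝ)) ≤ n * κ := by
      rw [div_le_iff₀ (by positivity)]
      have : (n : ℝ) * κ * (2 * ((R + 1 : ℕ) : ℝ)) = n * Real.sqrt 2 := by
        calc (n : ℝ) * κ * (2 * ((R + 1 : ℕ) : ℝ)) = n * 2 * (κ * ((R + 1 : ℕ) : ℝ)) := by ring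
          _ = _ := by rw [hκ1]; ring
      rw [this]
      nlinarith
    have h6 : 1 / (2 * ((R + 1 : ℕ) : ℝ)) ≤ 1 - n * κ := by
      rw [div_le_iff₀ (by positivity)]
      have : (1 - (n : ℝ) * κ) * (2 * ((R + 1 : ℕ) : ℝ)) =
          2 * ((R + 1 : ℕ) : ℝ) - n * Real.sqrt 2 := by
        calc (1 - (n : ℝ) * κ) * (2 * ((R + 1 : ℕ) : ℝ)) =
            2 * ((R + 1 : ℕ) : ℝ) - n * 2 * (κ * ((R + 1 : ℕ) : ℝ)) := by ring
          _ = _ := by rw [hκ1]; ring
      rw [this, hR3]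
      nlinarith
    obtain ⟨N, hN⟩ : ∃ N : ℤ, N = (n * j - q * M : ℤ) := ⟨_, rfl⟩
    rw [← hN]
    rcases le_or_gt 0 N with h7 | h7
    · have h8 : (0 : ℝ) ≤ N := by exact_mod_cast h7
      refine le_trans ?_ (le_abs_self _)
      linarith
    · have h8 : (N : ℝ) ≤ -1 := by
        have : N ≤ -1 := by omega
        exact_mod_cast this
      refine le_trans ?_ (neg_le_abs _)
      linarith
  have hlow : ∀ n, 1 ≤ n → n ≤ R → 1 / ((R + 1 : ℕ) * M : ℝ) ≤ ‖b n‖ := by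
    intro n hn1 hnR
    rw [hbn]
    refine (hδ n hn1 hnR).trans ?_
    rw [le_div_iff₀ hsin]
    exact mul_le_of_le_one_right (abs_nonneg _) hsin1
  refine ⟨A, b, ?_, ?_, ?_, ⟨?_, ?_, ?_, ?_, Or.inr hmR, hR⟩, ?_, hlow, ?_⟩
  · have h1 : (A ^ 4)⁻¹ = Complex.exp (2 * ((φ : ℂ) * Complex.I)) := by
      have h2 : A ^ 4 = A ^ 2 * A ^ 2 := by ring
      rw [h2, mul_inv, hA2', ← Complex.exp_add]
      congr 1
      ring
    rw [h1, ← Complex.exp_add]
    congr 1
    have h3 : (M : ℂ) ≠ 0 := by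
      have : M ≠ 0 := by omega
      exact_mod_cast this
    rw [hφ, hx]
    push_cast
    field_simp
    ring
  · rw [hA, Complex.norm_exp_I_mul_ofReal]
  · intro n hn h
    rw [hA, ← Complex.exp_nat_mul, Complex.exp_eq_one_iff] at h
    obtain ⟨l, hl⟩ := h
    have h1 : ((n : ℝ) * (-φ / 2) : ℝ) = l * (2 * Real.pi) := by
      have h2 : ((((n : ℝ) * (-φ / 2) : ℝ) : ℂ)) * Complex.I = ((l * (2 * Real.pi) : ℝ) : ℂ) *
          Complex.I := by
        push_cast
        push_cast at hl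
        linear_combination hl
      have h3 := mul_right_cancel₀ Complex.I_ne_zero h2
      exact_mod_cast h3
    have h2 : (n : ℝ) * x = -4 * l := by
      rw [hφ] at h1
      have : Real.pi * ((n : ℝ) * x) = Real.pi * (-4 * l) := by linarith
      exact mul_left_cancel₀ hpi.ne' this
    have h3 : (n : ℝ) * (j + κ) = -4 * l * M := by
      rw [← h2, hx]
      field_simp
    have hn' : (n : ℝ) ≠ 0 := by
      have : n ≠ 0 := by omega
      exact_mod_cast this
    have h4 : κ = -4 * l * M / n - j := by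
      field_simp
      linarith
    have h5 : Real.sqrt 2 = ((2 * ((R : ℚ) + 1) * (-4 * l * M / n - j) : ℚ) : ℝ) := by
      push_cast
      rw [← h4, ← hR3]
      linarith
    exact irrational_sqrt_two ⟨_, h5.symm⟩
  · rw [hb]
    simp
  · rw [hb]
    have h1 : Real.sin φ ≠ 0 := hsin.ne'
    have h2 : Real.sin (((1 : ℕ) : ℝ) * φ) / Real.sin φ = 1 := by
      rw [Nat.cast_one, one_mul, div_self h1]
    rw [h2]
    simp
  · intro n
    rw [hd, hb, hb, hb, ← Complex.ofReal_cos]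
    have h1 : Real.sin φ ≠ 0 := hsin.ne'
    have h2 : Real.sin (((n + 2 : ℕ) : ℝ) * φ) =
        2 * Real.cos φ * Real.sin (((n + 1 : ℕ) : ℝ) * φ) - Real.sin ((n : ℝ) * φ) := by
      have e1 : ((n + 2 : ℕ) : ℝ) * φ = ((n + 1 : ℕ) : ℝ) * φ + φ := by
        push_cast
        ring
      have e2 : (n : ℝ) * φ = ((n + 1 : ℕ) : ℝ) * φ - φ := by
        push_cast
        ring
      rw [e1, e2, Real.sin_add, Real.sin_sub]
      ring
    rw [h2]
    push_cast
    ring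
  · intro n hn1 hnR h0
    have h1 := hlow n hn1 hnR
    rw [h0, norm_zero] at h1
    have h2 : 0 < 1 / ((R + 1 : ℕ) * M : ℝ) := by positivity
    linarith
  · intro n
    rw [hbn, div_le_iff₀ hsin]
    have h1 := tg_mul φ n
    rw [abs_of_pos hsin] at h1
    exact h1
  · intro n hn1 hnR
    have h1 : A ^ (2 * n) = Complex.exp (-((n * φ : ℝ) : ℂ) * Complex.I) := by
      rw [pow_mul, hA2, ← Complex.exp_nat_mul]
      congr 1
      push_cast
      ring
    have h2 : A ^ (2 * n) - (A ^ (2 * n))⁻¹ = ((-2 * Real.sin (n * φ) : ℝ) : ℂ) * Complex.I := by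
      rw [h1, ← Complex.exp_neg]
      have e1 : -(-((n * φ : ℝ) : ℂ) * Complex.I) = ((n * φ : ℝ) : ℂ) * Complex.I := by ring
      rw [e1, Complex.exp_mul_I, Complex.exp_mul_I, Complex.cos_neg, Complex.sin_neg,
        ← Complex.ofReal_sin]
      push_cast
      ring
    rw [h2, norm_mul, Complex.norm_I, mul_one, Complex.norm_real, Real.norm_eq_abs, abs_mul,
      abs_neg, abs_two]
    exact mul_le_mul_of_nonneg_left (hδ n hn1 hnR) (by norm_num)

end MP_fc1011_gt.TP
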