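import Pool.Agent.Lib.MP_fc1011_gt.TP.Spec
set_option autoImplicit false
namespace MP_fc1011_gt.TP
open Finset MT

private theorem img_fix {α : Type} (f : α → α) (C : Set α) (h : ∀ n ∈ C, f n = n) : f '' C = C := by
  ext x
  constructor
  · rintro ⟨y, hy, rfl⟩
    rw [h y hy]
    exact hy
  · intro hx
    exact ⟨x, hx, h x hx⟩

private theorem mir (hLam : S_Lam) (T : Tree) : ∀ o q l : ℕ, q ≤ o → o + T.leaves ≤ q + l →
    flip q l '' nodes T o = nodes T.mirror (2 * q + l - o - T.leaves) := by
  induction T with
  | leaf =>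
    intro o q l h1 h2
    simp only [Tree.leaves] at h2
    simp only [nodes, Tree.mirror, Tree.leaves, Set.image_singleton, flip]
    rw [if_pos ⟨h1, h2⟩]
  | node S T ihS ihT =>
    intro o q l h1 h2
    have hS := (hLam.1 S).2.1
    have hT := (hLam.1 T).2.1
    simp only [Tree.leaves] at h2
    simp only [nodes, Tree.mirror, Tree.leaves, Set.image_union, Set.image_singleton]
    rw [ihS o q l h1 (by omega), ihT (o + S.leaves) q l (by omega) (by omega), hS, hT]
    have e1 : flip q l (o, S.leaves + T.leaves) =
        (2 * q + l - o - (S.leaves + T.leaves), T.leaves + S.leaves) := by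
      simp only [flip]
      rw [if_pos ⟨h1, h2⟩, Nat.add_comm S.leaves T.leaves]
    have e2 : 2 * q + l - (o + S.leaves) - T.leaves = 2 * q + l - o - (S.leaves + T.leaves) := by
      omega
    have e3 : 2 * q + l - o - S.leaves = 2 * q + l - o - (S.leaves + T.leaves) + T.leaves := by
      omega
    rw [e1, e2, e3, Set.union_comm (nodes S.mirror _)]

theorem sTn (hLam : S_Lam) : S_Tn := by
  intro o T T' p k h
  induction h with
  | whole o T =>
    rw [mir hLam T o o T.leaves le_rfl le_rfl]
    congr 1
    omega
  | @left o S S' p k T h ih =>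
    obtain ⟨h1, -, h3, -⟩ := hLam.2.2.2.2.2.2 o S S' p k h
    have hT := (hLam.1 T).1
    simp only [nodes, Set.image_union, Set.image_singleton]
    rw [← ih, h1, img_fix _ (nodes T (o + S.leaves))]
    · congr 2
      simp only [flip]
      rw [if_neg]
      omega
    · intro n hn
      obtain ⟨g1, -, g3⟩ := (hLam.2.2.1 T (o + S.leaves)).2.1 n hn
      simp only [flip]
      rw [if_neg]
      omega
  | @right o S T T' p k h ih =>
    obtain ⟨h1, h2, -, -⟩ := hLam.2.2.2.2.2.2 (o + S.leaves) T T' p k h
    have hS := (hLam.1 S).1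
    simp only [nodes, Set.image_union, Set.image_singleton]
    rw [← ih, h1, img_fix _ (nodes S o)]
    · congr 2
      simp only [flip]
      rw [if_neg]
      omega
    · intro n hn
      obtain ⟨-, g2, g3⟩ := (hLam.2.2.1 S o).2.1 n hn
      simp only [flip]
      rw [if_neg]
      omega

end MP_fc1011_gt.TP
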