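import Pool.Agent.Lib.MP_fc1011_gt.TP.Spec

/-!
# MP_fc1011_gt, paths of trees: the numbers of a block
-/

set_option autoImplicit false

namespace MP_fc1011_gt.TP

private theorem twoNe {z : ℂ} (h : ‖z‖ = 1) : z ≠ 0 := by
  intro h0
  rw [h0, norm_zero] at h
  exact zero_ne_one h

private theorem twoAlg {x1 x2 y1 y2 z1 z2 p q r : ℂ} (hx1 : x1 ≠ 0) (hx2 : x2 ≠ 0)
    (hy1 : y1 ≠ 0) (hy2 : y2 ≠ 0) (hz1 : z1 ≠ 0) (hz2 : z2 ≠ 0) (hxx : x1 ≠ x2) (hyy : y1 ≠ y2)
    (hzz : z1 ≠ z2) (hx : x1 * x2 = y1 * y2 * (z1 * z2))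
    (h1 : p * p + r * r = (y1 + y2) * p - y1 * y2) (h2 : r * (p + q) = (y1 + y2) * r)
    (h4 : q * q + r * r = (y1 + y2) * q - y1 * y2)
    (g1 : (x1 * (y1 + y2 - p)) * (x1 * (y1 + y2 - p)) + (r * x1) * (r * x2) =
      (z1 + z2) * (y1 * y2) * (x1 * (y1 + y2 - p)) - z1 * z2 * (y1 * y2) ^ 2)
    (g3 : (r * x2) * (x1 * (y1 + y2 - p) + x2 * (y1 + y2 - q)) = (z1 + z2) * (y1 * y2) * (r * x2))
    (g4 : (x2 * (y1 + y2 - q)) * (x2 * (y1 + y2 - q)) + (r * x1) * (r * x2) =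
      (z1 + z2) * (y1 * y2) * (x2 * (y1 + y2 - q)) - z1 * z2 * (y1 * y2) ^ 2) :
    p + q = y1 + y2 ∧ p * q - r * r = y1 * y2 ∧ q * x1 + p * x2 = y1 * y2 * (z1 + z2) := by
  have hπ : y1 * y2 ≠ 0 := mul_ne_zero hy1 hy2
  by_cases hr : r = 0
  · subst hr
    have e1 : (p - y1) * (p - y2) = 0 := by linear_combination h1
    have e2 : (q - y1) * (q - y2) = 0 := by linear_combination h4
    have e3 : (x1 * (y1 + y2 - p) - z1 * (y1 * y2)) * (x1 * (y1 + y2 - p) - z2 * (y1 * y2)) = 0 := by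
      linear_combination g1
    have e4 : (x2 * (y1 + y2 - q) - z1 * (y1 * y2)) * (x2 * (y1 + y2 - q) - z2 * (y1 * y2)) = 0 := by
      linear_combination g4
    -- the common part
    have key : ∀ u u' : ℂ, (u - z1 * (y1 * y2)) * (u - z2 * (y1 * y2)) = 0 →
        (u' - z1 * (y1 * y2)) * (u' - z2 * (y1 * y2)) = 0 →
        (u = u' ∨ u + u' = (z1 + z2) * (y1 * y2) ∧ u * u' = z1 * z2 * (y1 * y2) ^ 2) := by
      intro u u' hu hu'
      rcases mul_eq_zero.1 hu with hu | hu <;> rcases mul_eq_zero.1 hu' with hu' | hu'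
      · left; linear_combination hu - hu'
      · right
        rw [sub_eq_zero] at hu hu'
        constructor
        · rw [hu, hu']; ring
        · rw [hu, hu']; ring
      · right
        rw [sub_eq_zero] at hu hu'
        constructor
        · rw [hu, hu']; ring
        · rw [hu, hu']; ring
      · left; linear_combination hu - hu'
    have key2 : ∀ u u' : ℂ, (u - z1 * (y1 * y2)) * (u - z2 * (y1 * y2)) = 0 →
        (u' - z1 * (y1 * y2)) * (u' - z2 * (y1 * y2)) = 0 →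
        u * u' = x1 * x2 * (y1 * y2) → u + u' = (z1 + z2) * (y1 * y2) := by
      intro u u' hu hu' huu
      rcases key u u' hu hu' with h | h
      · exfalso
        rw [← h] at huu
        rcases mul_eq_zero.1 hu with hu | hu
        · rw [sub_eq_zero] at hu
          rw [hu, hx] at huu
          have h5 : (y1 * y2) * (y1 * y2) * z1 * (z1 - z2) = 0 := by linear_combination huu
          rcases mul_eq_zero.1 h5 with h6 | h6
          · exact mul_ne_zero (mul_ne_zero hπ hπ) hz1 h6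
          · exact hzz (sub_eq_zero.1 h6)
        · rw [sub_eq_zero] at hu
          rw [hu, hx] at huu
          have h5 : (y1 * y2) * (y1 * y2) * z2 * (z2 - z1) = 0 := by linear_combination huu
          rcases mul_eq_zero.1 h5 with h6 | h6
          · exact mul_ne_zero (mul_ne_zero hπ hπ) hz2 h6
          · exact hzz (sub_eq_zero.1 h6).symm
      · exact h.1
    rcases mul_eq_zero.1 e1 with hp | hp <;> rcases mul_eq_zero.1 e2 with hq | hq <;>
      rw [sub_eq_zero] at hp hq <;> subst hp <;> subst hq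
    · -- p = q = y1
      exfalso
      rcases key _ _ e3 e4 with h | h
      · have h5 : (x1 - x2) * y2 = 0 := by linear_combination h
        rcases mul_eq_zero.1 h5 with h6 | h6
        · exact hxx (sub_eq_zero.1 h6)
        · exact hy2 h6
      · have h5 : x1 * x2 * y2 * (y2 - q) = 0 := by
          linear_combination h.2 - (q * y2) * hx
        rcases mul_eq_zero.1 h5 with h6 | h6
        · exact mul_ne_zero (mul_ne_zero hx1 hx2) hy2 h6
        · exact hyy (sub_eq_zero.1 h6).symm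
    · refine ⟨rfl, by ring, ?_⟩
      have h5 := key2 _ _ e3 e4 (by ring)
      linear_combination h5
    · refine ⟨by ring, by ring, ?_⟩
      have h5 := key2 _ _ e3 e4 (by ring)
      linear_combination h5
    · exfalso
      rcases key _ _ e3 e4 with h | h
      · have h5 : (x1 - x2) * y1 = 0 := by linear_combination h
        rcases mul_eq_zero.1 h5 with h6 | h6
        · exact hxx (sub_eq_zero.1 h6)
        · exact hy1 h6
      · have h5 : x1 * x2 * y1 * (y1 - q) = 0 := by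
          linear_combination h.2 - (y1 * q) * hx
        rcases mul_eq_zero.1 h5 with h6 | h6
        · exact mul_ne_zero (mul_ne_zero hx1 hx2) hy1 h6
        · exact hyy (sub_eq_zero.1 h6)
  · have ha : p + q = y1 + y2 := by
      apply mul_left_cancel₀ hr
      rw [h2, mul_comm]
    have hc : x1 * (y1 + y2 - p) + x2 * (y1 + y2 - q) = (z1 + z2) * (y1 * y2) := by
      apply mul_left_cancel₀ (mul_ne_zero hr hx2)
      rw [g3]
      ring
    refine ⟨ha, ?_, ?_⟩
    · linear_combination p * ha - h1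
    · linear_combination hc + (x1 + x2) * ha

theorem sTwo : S_Two := by
  intro ε x1 x2 y1 y2 z1 z2 p q r hε hx1 hx2 hy1 hy2 hz1 hz2 hxe hye hzz hx h1 h2 h4 g1 g3 g4
  have hxx : x1 ≠ x2 := by
    intro h
    rw [h, sub_self, norm_zero] at hxe
    linarith
  have hyy : y1 ≠ y2 := by
    intro h
    rw [h, sub_self, norm_zero] at hye
    linarith
  obtain ⟨ha, hb, hc⟩ := twoAlg (twoNe hx1) (twoNe hx2) (twoNe hy1) (twoNe hy2) (twoNe hz1)
    (twoNe hz2) hxx hyy hzz hx h1 h2 h4 g1 g3 g4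
  have hyd : y1 - y2 ≠ 0 := sub_ne_zero.2 hyy
  -- the bounds
  have hbd : ∀ u v w w' : ℂ, ‖w‖ = 1 → ‖w'‖ = 1 →
      u * v = y1 * y2 * (z1 + z2) - y1 * w - y2 * w' → 2 * ε ≤ ‖v‖ →
      ‖u / (y1 - y2)‖ ≤ 1 / ε ^ 2 := by
    intro u v w w' hw hw' huv hv
    have h5 : ‖u * v‖ ≤ 4 := by
      rw [huv]
      have n1 := norm_sub_le (y1 * y2 * (z1 + z2) - y1 * w) (y2 * w')
      have n2 := norm_sub_le (y1 * y2 * (z1 + z2)) (y1 * w)
      have n3 := norm_add_le z1 z2
      have n4 : ‖y1 * y2 * (z1 + z2)‖ = ‖z1 + z2‖ := by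
        rw [norm_mul, norm_mul, hy1, hy2, one_mul, one_mul]
      have n5 : ‖y1 * w‖ = 1 := by rw [norm_mul, hy1, hw, one_mul]
      have n6 : ‖y2 * w'‖ = 1 := by rw [norm_mul, hy2, hw', one_mul]
      rw [hz1, hz2] at n3
      linarith
    rw [norm_mul] at h5
    rw [norm_div, div_le_div_iff₀ (by linarith) (by positivity), one_mul]
    have h6 : ‖u‖ * (2 * ε) ≤ 4 := (mul_le_mul_of_nonneg_left hv (norm_nonneg u)).trans h5
    have h7 : ‖u‖ * ε ≤ 2 := by linarith
    calc ‖u‖ * ε ^ 2 = (‖u‖ * ε) * ε := by ring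
      _ ≤ 2 * ε := mul_le_mul_of_nonneg_right h7 hε.le
      _ ≤ ‖y1 - y2‖ := hye
  obtain ⟨P1, hP1⟩ : ∃ P1, P1 = (p - y2) / (y1 - y2) := ⟨_, rfl⟩
  obtain ⟨P2, hP2⟩ : ∃ P2, P2 = (q - y2) / (y1 - y2) := ⟨_, rfl⟩
  obtain ⟨P3, hP3⟩ : ∃ P3, P3 = r / (y1 - y2) := ⟨_, rfl⟩
  have hn1 : ‖P1‖ ≤ 1 / ε ^ 2 := by
    rw [hP1]
    refine hbd (p - y2) (x2 - x1) x1 x2 hx1 hx2 ?_ (by rw [norm_sub_rev]; exact hxe)
    linear_combination hc - x1 * ha
  have hn2 : ‖P2‖ ≤ 1 / ε ^ 2 := by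
    rw [hP2]
    refine hbd (q - y2) (x1 - x2) x2 x1 hx2 hx1 ?_ hxe
    linear_combination hc - x2 * ha
  have hp : p = y2 + (y1 - y2) * P1 := by
    rw [hP1]
    field_simp
    ring
  have hq : q = y2 + (y1 - y2) * P2 := by
    rw [hP2]
    field_simp
    ring
  have hr : r = (y1 - y2) * P3 := by
    rw [hP3]
    field_simp
  have hs : P1 + P2 = 1 := by
    apply mul_left_cancel₀ hyd
    linear_combination ha - hp - hq
  have hm : P1 * P2 = P3 * P3 := by
    apply mul_left_cancel₀ (mul_ne_zero hyd hyd)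
    have h5 : (y1 - y2) * (y1 - y2) * (P1 * P2) = (p - y2) * (q - y2) := by
      rw [hp, hq]; ring
    have h6 : (y1 - y2) * (y1 - y2) * (P3 * P3) = r * r := by
      rw [hr]; ring
    rw [h5, h6]
    linear_combination hb - y2 * ha
  obtain ⟨α, β, hα, hβ, hαβ⟩ : ∃ α β : ℂ, α ^ 2 = P1 ∧ β ^ 2 = P2 ∧ α * β = P3 := by
    obtain ⟨α, hα⟩ := IsAlgClosed.exists_pow_nat_eq P1 (n := 2) (by norm_num)
    by_cases h0 : α = 0
    · have hP10 : P1 = 0 := by rw [← hα, h0]; ring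
      have hP30 : P3 = 0 := by
        rw [hP10, zero_mul] at hm
        exact mul_self_eq_zero.1 hm.symm
      refine ⟨α, 1, hα, ?_, ?_⟩
      · rw [hP10, zero_add] at hs
        rw [hs]; ring
      · rw [h0, hP30, zero_mul]
    · refine ⟨α, P3 / α, hα, ?_, ?_⟩
      · rw [div_pow, hα]
        have hP10 : P1 ≠ 0 := by rw [← hα]; exact pow_ne_zero 2 h0
        rw [div_eq_iff hP10]
        linear_combination -hm
      · field_simp
  have hnorm : ∀ (γ P : ℂ), γ ^ 2 = P → ‖P‖ ≤ 1 / ε ^ 2 → ‖γ‖ ≤ 1 / ε := by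
    intro γ P hγ hP
    rw [← hγ, norm_pow] at hP
    have h5 : ‖γ‖ ^ 2 ≤ (1 / ε) ^ 2 := by rw [one_div_pow]; exact hP
    exact (pow_le_pow_iff_left₀ (norm_nonneg γ) (by positivity) (by norm_num)).1 h5
  have h1' : α ^ 2 + β ^ 2 = 1 := by rw [hα, hβ, hs]
  rw [← hα] at hp
  rw [← hβ] at hq
  rw [← hαβ] at hr
  refine ⟨α, β, h1', hnorm α P1 hα hn1, hnorm β P2 hβ hn2, ?_, ?_, ?_, ?_⟩
  · rw [hp, hr]
    linear_combination (y1 - y2) * α * h1'
  · rw [hq, hr]
    linear_combination (y1 - y2) * β * h1'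
  · rw [hp, hr]
    ring
  · rw [hq, hr]
    ring

end MP_fc1011_gt.TP
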