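import Pool.Agent.Lib.MP_fc1011_gt.TP.Spec
import Pool.Agent.Lib.MP_fc1011_gt.MT.Sym
import Pool.Agent.Lib.MP_fc1011_gt.MT.Fin

/-!
# MP_fc1011_gt, paths of trees: the generators in the path model (`S_Un`)
-/

set_option autoImplicit false

namespace MP_fc1011_gt.TP

open Finset MT

/-- the generator -/
private noncomputable def gen (A : ℂ) (b : ℕ → ℂ) (R m j : ℕ) : Module.End ℂ (PT R m → ℂ) :=
  A • (1 : Module.End ℂ (PT R m → ℂ)) + A⁻¹ • eP b R m j

/-- the inverse generator -/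
private noncomputable def gen' (A : ℂ) (b : ℕ → ℂ) (R m j : ℕ) : Module.End ℂ (PT R m → ℂ) :=
  A⁻¹ • (1 : Module.End ℂ (PT R m → ℂ)) + A • eP b R m j

private theorem mul_aux {A : ℂ} (hA : A ≠ 0) {E : Type} [Ring E] [Algebra ℂ E] {e : E}
    (h : e * e = (-A ^ 2 - (A ^ 2)⁻¹) • e) :
    (A • (1 : E) + A⁻¹ • e) * (A⁻¹ • (1 : E) + A • e) = 1 ∧
      (A⁻¹ • (1 : E) + A • e) * (A • (1 : E) + A⁻¹ • e) = 1 := by
  have h1 : A * A⁻¹ = 1 := mul_inv_cancel₀ hA
  have h1' : A⁻¹ * A = 1 := inv_mul_cancel₀ hA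
  constructor
  · have h2 : (A • (1 : E) + A⁻¹ • e) * (A⁻¹ • (1 : E) + A • e) =
        (A * A⁻¹) • (1 : E) + (A * A) • e + (A⁻¹ * A⁻¹) • e + (A⁻¹ * A) • (e * e) := by
      simp only [mul_add, add_mul, smul_mul_assoc, mul_smul_comm, mul_one, one_mul]
      module
    rw [h2, h, h1, h1', one_smul, one_smul]
    have h3 : (A * A) • e + (A⁻¹ * A⁻¹) • e + (-A ^ 2 - (A ^ 2)⁻¹) • e = 0 := by
      rw [← add_smul, ← add_smul]
      have h4 : A * A + A⁻¹ * A⁻¹ + (-A ^ 2 - (A ^ 2)⁻¹) = 0 := by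
        rw [← inv_pow]
        ring
      rw [h4, zero_smul]
    rw [add_assoc, add_assoc, ← add_assoc ((A * A) • e), h3, add_zero]
  · have h2 : (A⁻¹ • (1 : E) + A • e) * (A • (1 : E) + A⁻¹ • e) =
        (A⁻¹ * A) • (1 : E) + (A * A) • e + (A⁻¹ * A⁻¹) • e + (A * A⁻¹) • (e * e) := by
      simp only [mul_add, add_mul, smul_mul_assoc, mul_smul_comm, mul_one, one_mul]
      module
    rw [h2, h, h1, h1', one_smul, one_smul]
    have h3 : (A * A) • e + (A⁻¹ * A⁻¹) • e + (-A ^ 2 - (A ^ 2)⁻¹) • e = 0 := by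
      rw [← add_smul, ← add_smul]
      have h4 : A * A + A⁻¹ * A⁻¹ + (-A ^ 2 - (A ^ 2)⁻¹) = 0 := by
        rw [← inv_pow]
        ring
      rw [h4, zero_smul]
    rw [add_assoc, add_assoc, ← add_assoc ((A * A) • e), h3, add_zero]

private theorem opG_foldl {G : Type} [Group G] (s : ℕ → G) (cs : List (ℕ × Bool)) (X : G) :
    cs.foldl (fun X c => (if c.2 = true then s c.1 else (s c.1)⁻¹) * X) X = opG s cs * X := by
  induction cs generalizing X with
  | nil => exact (one_mul X).symm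
  | cons c cs ih =>
    unfold opG
    rw [List.foldl_cons, List.foldl_cons, ih, ih, mul_one, mul_assoc]

private theorem opG_cons {G : Type} [Group G] (s : ℕ → G) (c : ℕ × Bool) (cs : List (ℕ × Bool)) :
    opG s (c :: cs) = opG s cs * (if c.2 = true then s c.1 else (s c.1)⁻¹) := by
  unfold opG
  rw [List.foldl_cons, opG_foldl, mul_one]
  rfl

theorem sUn (hTLp : S_TLp) : S_Un := by
  intro A b R m hA hH
  have hTL := hTLp _ b R m hH
  obtain ⟨Au, hAu⟩ : ∃ Au : ℂˣ, Au = Units.mk0 A hA := ⟨_, rfl⟩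
  have hv : (Au : ℂ) = A := by rw [hAu]; rfl
  have hvi : ((Au⁻¹ : ℂˣ) : ℂ) = A⁻¹ := by rw [Units.val_inv_eq_inv_val, hv]
  have hdl : MV.dl Au = -A ^ 2 - (A ^ 2)⁻¹ := by
    unfold MV.dl
    rw [hv, hvi, inv_pow]
  have hsg : ∀ j, MV.sg Au (eP b R m) j = gen A b R m j := by
    intro j
    unfold MV.sg gen
    rw [hv, hvi]
  have hBr : MV.Br m (MV.sg Au (eP b R m)) := MV.TL.br (by rw [hdl]; exact hTL)
  have hmul : ∀ j, j + 1 < m → gen A b R m j * gen' A b R m j = 1 ∧
      gen' A b R m j * gen A b R m j = 1 := fun j hj => mul_aux hA (hTL.sq j hj)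
  obtain ⟨u, hu⟩ : ∃ u : ℕ → (Module.End ℂ (PT R m → ℂ))ˣ, ∀ j, j + 1 < m →
      (u j).val = gen A b R m j ∧ ((u j)⁻¹).val = gen' A b R m j := by
    refine ⟨fun j => if h : j + 1 < m then
      ⟨gen A b R m j, gen' A b R m j, (hmul j h).1, (hmul j h).2⟩ else 1, fun j hj => ?_⟩
    simp only [dif_pos hj]
    exact ⟨trivial, rfl⟩
  refine ⟨u, ⟨?_, ?_⟩, ?_, ?_, ?_⟩
  · intro j hj
    apply Units.ext
    have h1 := hBr.brd j hj
    rw [hsg, hsg] at h1
    rw [Units.val_mul, Units.val_mul, Units.val_mul, Units.val_mul, (hu j (by omega)).1,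
      (hu (j + 1) (by omega)).1]
    exact h1
  · intro i j hij hj
    have h1 := hBr.comm i j hij hj
    rw [hsg, hsg] at h1
    rw [← Commute.units_val_iff, (hu i (by omega)).1, (hu j (by omega)).1]
    exact h1
  · intro j hj
    rw [(hu j hj).1]
    rfl
  · intro j hj φ ψ
    rw [(hu j hj).1]
    unfold gen
    have h1 : BP b R m (eP b R m j φ) ψ = BP b R m φ (eP b R m j ψ) := by
      rw [BP_apply, BP_apply, ext_eP, ext_eP]
      exact (sSym sFin _ b R m j hH hj _ _ (ext_supp φ) (ext_supp ψ)).symm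
    simp only [LinearMap.add_apply, LinearMap.smul_apply, Module.End.one_apply, map_add, map_smul,
      smul_eq_mul, h1]
  · intro cs
    induction cs with
    | nil =>
      intro _ ψ
      rfl
    | cons c cs ih =>
      intro hcs ψ
      have hc : c.1 + 1 < m := hcs c List.mem_cons_self
      have h1 := fun ψ => ih (fun c hc => hcs c (List.mem_cons_of_mem _ hc)) ψ
      rw [opG_cons, Units.val_mul, Module.End.mul_apply, h1]
      have h2 : ext R m ((if c.2 = true then u c.1 else (u c.1)⁻¹ :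
          (Module.End ℂ (PT R m → ℂ))ˣ).val ψ) = sg A A⁻¹ b R m c (ext R m ψ) := by
        funext a
        unfold sg
        by_cases hc2 : c.2 = true
        · rw [if_pos hc2, if_pos hc2, if_pos hc2, (hu c.1 hc).1]
          unfold gen
          rw [LinearMap.add_apply, LinearMap.smul_apply, LinearMap.smul_apply,
            Module.End.one_apply, ext_add, ext_smul, ext_smul, ext_eP]
          rfl
        · rw [if_neg hc2, if_neg hc2, if_neg hc2, (hu c.1 hc).2]
          unfold gen'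
          rw [LinearMap.add_apply, LinearMap.smul_apply, LinearMap.smul_apply,
            Module.End.one_apply, ext_add, ext_smul, ext_smul, ext_eP]
          rfl
      rw [h2]
      rfl

end MP_fc1011_gt.TP
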