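import Pool.Agent.Lib.MP_fc1011_gt.TP.Spec

/-!
# MP_fc1011_gt, paths of trees: two frames of the same set
-/

set_option autoImplicit false

namespace MP_fc1011_gt.TP

open Finset MT

theorem sUq (hNum : S_Num) (hAdj : S_Adj) : S_Uq := by
  intro A m ε W _ _ ι _ _ B u M C hC x w K₀ K hK₀ hx hw
  obtain ⟨v₀, lab₀, F₀, hb₀⟩ := hx
  obtain ⟨v, lab, F, hb⟩ := hw
  obtain ⟨n1, -⟩ := hNum A M.nA M.rou
  obtain ⟨-, aF, -, -⟩ := hAdj A m ε W B u M
  have key : ∀ a b, B (v₀ b) (v a) ≠ 0 → ∀ n ∈ C, lab₀ b n = lab a n := by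
    intro a b h n hn
    have e := aF n.1 n.2 (hC n hn) (v₀ b) (v a)
    rw [F₀.ev b n hn, F.ev a n hn, map_smul, LinearMap.smul_apply, map_smul, smul_eq_mul,
      smul_eq_mul] at e
    exact n1 n.2 _ _ (mul_right_cancel₀ h e)
  have bd : ∀ a, ‖B (v a) x‖ ≤ K₀ := by
    intro a
    have haa : B (v a) (v a) = 1 := by rw [F.on.1 a a, if_pos rfl]
    obtain ⟨b, hb1⟩ : ∃ b, B (v₀ b) (v a) ≠ 0 := by
      by_contra hcon
      have h0 : ∀ b, B (v₀ b) (v a) = 0 := fun b => by
        by_contra h1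
        exact hcon ⟨b, h1⟩
      have h1 : v a = 0 := by
        rw [← F₀.on.2 (v a)]
        exact Finset.sum_eq_zero fun b _ => by rw [h0 b, zero_smul]
      rw [h1, map_zero] at haa
      exact zero_ne_one haa
    have h2 : ∀ b', b' ≠ b → B (v₀ b') (v a) = 0 := by
      intro b' hne
      by_contra h3
      exact hne (F₀.inj b' b fun n hn => by rw [key a b' h3 n hn, key a b hb1 n hn])
    have h3 : v a = B (v₀ b) (v a) • v₀ b := by
      conv_lhs => rw [← F₀.on.2 (v a)]
      exact Finset.sum_eq_single b (fun b' _ hne => by rw [h2 b' hne, zero_smul])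
        fun h => absurd (Finset.mem_univ b) h
    set c : ℂ := B (v₀ b) (v a) with hc
    have h4 : c * c = 1 := by
      have h6 : B (c • v₀ b) (c • v₀ b) = c * c := by
        rw [map_smul, map_smul, LinearMap.smul_apply, F₀.on.1 b b, if_pos rfl, smul_eq_mul,
          smul_eq_mul, mul_one]
      rw [← h6, ← h3, haa]
    have h5 : ‖c‖ = 1 := by
      have h6 : ‖c‖ * ‖c‖ = 1 := by rw [← norm_mul, h4, norm_one]
      nlinarith [norm_nonneg c]
    rw [h3, map_smul, LinearMap.smul_apply, smul_eq_mul, norm_mul, h5, one_mul]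
    exact hb₀ b
  have e : B x w = ∑ a, B (v a) w * B (v a) x := by
    conv_lhs => rw [← F.on.2 w]
    rw [map_sum]
    refine Finset.sum_congr rfl fun a _ => ?_
    rw [map_smul, smul_eq_mul, M.sym x (v a)]
  rw [e]
  refine (norm_sum_le _ _).trans ?_
  have hs : ∀ a ∈ (Finset.univ : Finset ι), ‖B (v a) w * B (v a) x‖ ≤ K₀ * K := by
    intro a _
    rw [norm_mul, mul_comm K₀ K]
    exact mul_le_mul (hb a) (bd a) (norm_nonneg _) ((norm_nonneg _).trans (hb a))
  refine (Finset.sum_le_card_nsmul _ _ _ hs).trans (le_of_eq ?_)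
  rw [nsmul_eq_mul, Finset.card_univ]

end MP_fc1011_gt.TP
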