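import Pool.Agent.Lib.MP_fc1011_gt.TP.Spec

/-!
# MP_fc1011_gt, package TP: `S_Wd` (the element of the crossings of a half twist)
-/

set_option autoImplicit false

namespace MP_fc1011_gt.TP

open Finset MT

private theorem wd_foldl {G : Type} [Group G] (s : ℕ → G) (cs : List (ℕ × Bool)) (X : G) :
    cs.foldl (fun X c => (if c.2 = true then s c.1 else (s c.1)⁻¹) * X) X = opG s cs * X := by
  induction cs generalizing X with
  | nil => simp [opG]
  | cons c cs ih =>
    rw [opG, List.foldl_cons, List.foldl_cons, ih, ih ((if c.2 = true then s c.1 else (s c.1)⁻¹) * 1)]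
    simp only [mul_one, mul_assoc]

private theorem wd_append {G : Type} [Group G] (s : ℕ → G) (cs cs' : List (ℕ × Bool)) :
    opG s (cs ++ cs') = opG s cs' * opG s cs := by
  rw [opG, List.foldl_append, wd_foldl]
  rfl

private theorem wd_cons {G : Type} [Group G] (s : ℕ → G) (c : ℕ × Bool) (cs : List (ℕ × Bool)) :
    opG s (c :: cs) = opG s cs * (if c.2 = true then s c.1 else (s c.1)⁻¹) := by
  rw [opG, List.foldl_cons, wd_foldl, mul_one]

private theorem wd_rev (k : ℕ) : (List.range (k + 1)).reverse = k :: (List.range k).reverse := by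
  rw [List.range_succ, List.reverse_append]
  rfl

private theorem wd_ht (k : ℕ) :
    halfTwist (k + 2) = halfTwist (k + 1) ++ (List.range (k + 1)).reverse := by
  rw [halfTwist, halfTwist]
  show List.flatMap _ (List.range (k + 1)) = List.flatMap _ (List.range k) ++ _
  rw [List.range_succ, List.flatMap_append]
  simp [List.range_succ]

private theorem wd_LL {G : Type} [Group G] (s : ℕ → G) (p k : ℕ) :
    opG s ((List.range k).reverse.map fun j => (p + j, true)) = MV.LL (fun j => s (p + j)) k := by
  induction k with
  | zero => rfl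
  | succ k ih =>
    rw [wd_rev, List.map_cons, wd_cons, ih]
    rfl

private theorem wd_RR {G : Type} [Group G] (s : ℕ → G) (p k : ℕ) :
    opG s ((List.range k).reverse.map fun j => (p + j, false)) =
      (MV.RR (fun j => s (p + j)) k)⁻¹ := by
  induction k with
  | zero => simp [opG, MV.RR]
  | succ k ih =>
    rw [wd_rev, List.map_cons, wd_cons, ih]
    show _ = (s (p + k) * MV.RR (fun j => s (p + j)) k)⁻¹
    rw [mul_inv_rev]
    simp

theorem sWd : S_Wd := by
  intro G _ m s hs p k hk
  have key : ∀ k : ℕ, p + (k + 1) ≤ m →
      opG s ((halfTwist (k + 1)).map fun j => (p + j, true)) = Hq s p (k + 1) ∧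
      opG s ((halfTwist (k + 1)).map fun j => (p + j, false)) = (Hq s p (k + 1))⁻¹ := by
    intro k
    induction k with
    | zero =>
      intro _
      constructor
      · show (1 : G) = 1 * 1
        rw [mul_one]
      · show (1 : G) = (1 * 1)⁻¹
        simp
    | succ k ih =>
      intro hk
      obtain ⟨h1, h2⟩ := ih (by omega)
      have hbr : MV.Br (k + 2) (fun j => s (p + j)) :=
        ⟨fun j hj => hs.brd (p + j) (by omega), fun i j hij hj => hs.comm (p + i) (p + j)
          (by omega) (by omega)⟩
      constructor
      · rw [wd_ht, List.map_append, wd_append, h1, wd_LL]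
        exact (MV.HH_eq hbr (k + 1) (by omega)).symm
      · rw [wd_ht, List.map_append, wd_append, h2, wd_RR, ← mul_inv_rev]
        rfl
  rcases k with _ | k
  · constructor
    · rfl
    · show (1 : G) = 1⁻¹
      simp
  · exact key k hk

end MP_fc1011_gt.TP
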