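import Pool.Agent.Lib.MP_fc1011_gt.TP.Spec2

/-!
# MP_fc1011_gt, paths of trees: walks
-/

set_option autoImplicit false

namespace MP_fc1011_gt.TP

open Finset MT

section

variable {A : ℂ} {m : ℕ} {ε : ℝ} {W : Type} [AddCommGroup W] [Module ℂ W] {ι : Type}
  [Fintype ι] [DecidableEq ι] {B : LinearMap.BilinForm ℂ W} {u : ℕ → (Module.End ℂ W)ˣ}

private theorem wk_scale {C : Set (ℕ × ℕ)} {w : W} {K c : ℝ} (h : Bd A ι B u C w K) (hc : 1 ≤ c) :
    Bd A ι B u C w (c * K) := by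
  obtain ⟨v, lab, hF, hb⟩ := h
  refine ⟨v, lab, hF, fun a => (hb a).trans ?_⟩
  have hK : 0 ≤ K := (norm_nonneg _).trans (hb a)
  nlinarith

private theorem wk_RotH (hLam : S_Lam) {T T' : Tree} (hT : T.leaves = m) (hT' : T'.leaves = m)
    {C : Set (ℕ × ℕ)} {i kA kB : ℕ} (h1 : 1 ≤ kA) (h2 : 1 ≤ kB) (h3 : (i, kA) ∈ C)
    (h4 : (i + kA, kB) ∈ C) (h5 : (i, kA + kB + 1) ∈ C)
    (h : (nodes T 0 = C ∪ {(i, kA + kB)} ∧ nodes T' 0 = C ∪ {(i + kA, kB + 1)}) ∨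
      (nodes T 0 = C ∪ {(i + kA, kB + 1)} ∧ nodes T' 0 = C ∪ {(i, kA + kB)})) :
    RotH m C i kA kB := by
  obtain ⟨-, -, hN, -, -, -, -⟩ := hLam
  obtain ⟨-, a1, a2⟩ := hN T 0
  obtain ⟨-, b1, b2⟩ := hN T' 0
  rw [hT] at a1
  rw [hT'] at b1
  have hCT : ∀ n ∈ C, n ∈ nodes T 0 := by
    intro n hn
    rcases h with h | h
    · rw [h.1]; exact Or.inl hn
    · rw [h.1]; exact Or.inl hn
  have hCT' : ∀ n ∈ C, n ∈ nodes T' 0 := by
    intro n hn
    rcases h with h | h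
    · rw [h.2]; exact Or.inl hn
    · rw [h.2]; exact Or.inl hn
  have hle : ∀ n ∈ C, n.1 + n.2 ≤ m := by
    intro n hn
    have := (a1 n (hCT n hn)).2.1
    omega
  refine ⟨h1, h2, ?_, h3, h4, h5, hle, ?_⟩
  · have := hle _ h5
    simp only at this
    omega
  · intro n hn
    rcases h with h | h
    · refine ⟨a2 n (hCT n hn) _ (by rw [h.1]; exact Or.inr rfl),
        b2 n (hCT' n hn) _ (by rw [h.2]; exact Or.inr rfl), fun n' hn' => a2 n (hCT n hn) n' (hCT n' hn')⟩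
    · refine ⟨b2 n (hCT' n hn) _ (by rw [h.2]; exact Or.inr rfl),
        a2 n (hCT n hn) _ (by rw [h.1]; exact Or.inr rfl), fun n' hn' => a2 n (hCT n hn) n' (hCT n' hn')⟩

private theorem wk_R (hLam : S_Lam) (hRn : S_Rn) (hR : S_RotR) (hL : S_RotL)
    (hM : Mdl A m ε W B u) {T T' : Tree} (h : ElR T T') (hT : T.leaves = m) {w : W} {K : ℝ}
    (hb : Bd A ι B u (nodes T 0) w K) :
    T'.leaves = m ∧ Bd A ι B u (nodes T' 0) w (2 / ε * K) := by
  have hT' : T'.leaves = m := by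
    rw [hLam.2.2.2.1 T T' h, hT]
  refine ⟨hT', ?_⟩
  obtain ⟨C, i, kA, kB, h1, h2, h3, h4, h5, h6⟩ := hRn.1 T T' h 0
  have hRot := wk_RotH hLam hT hT' h1 h2 h3 h4 h5 h6
  rcases h6 with h6 | h6
  · rw [h6.1] at hb
    rw [h6.2]
    exact hR A m ε W ι B u hM C i kA kB hRot w K hb
  · rw [h6.1] at hb
    rw [h6.2]
    exact hL A m ε W ι B u hM C i kA kB hRot w K hb

private theorem wk_T (hLam : S_Lam) (hTn : S_Tn) (hH : S_HalfF)
    (hM : Mdl A m ε W B u) {T T' : Tree} {p k : ℕ} (h : Turn 0 T T' p k) (hT : T.leaves = m)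
    {w : W} {K : ℝ} (hb : Bd A ι B u (nodes T 0) w K) :
    T'.leaves = m ∧ p + k ≤ m ∧ Bd A ι B u (nodes T' 0) ((Hq u p k).val w) K ∧
      Bd A ι B u (nodes T' 0) ((Hq u p k)⁻¹.val w) K := by
  obtain ⟨h1, h2, h3, h4⟩ := hLam.2.2.2.2.2.2 0 T T' p k h
  obtain ⟨-, a1, a2⟩ := hLam.2.2.1 T 0
  have hpk : p + k ≤ m := by omega
  refine ⟨by rw [h1, hT], hpk, ?_⟩
  rw [hTn 0 T T' p k h]
  refine hH A m ε W ι B u hM (nodes T 0) p k hpk h4 ?_ w K hb
  intro n hn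
  refine ⟨?_, a2 n hn _ h4⟩
  have := (a1 n hn).2.1
  omega

private theorem wk_L (hLam : S_Lam) (hTn : S_Tn) (hRn : S_Rn) (hR : S_RotR) (hL : S_RotL)
    (hH : S_HalfF) (hM : Mdl A m ε W B u) {T T' : Tree} (h : ElL T T') (hT : T.leaves = m)
    {w : W} {K : ℝ} (hb : Bd A ι B u (nodes T 0) w K) :
    T'.leaves = m ∧ Bd A ι B u (nodes T' 0) w (2 / ε * K) := by
  obtain ⟨T₁, T₂, p, k, h1, h2, h3⟩ := hRn.2 T T' h 0
  obtain ⟨g1, -, g2, -⟩ := wk_T hLam hTn hH hM h1 hT hb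
  obtain ⟨g3, g4⟩ := wk_R hLam hRn hR hL hM h2 g1 g2
  obtain ⟨g5, -, -, g6⟩ := wk_T hLam hTn hH hM h3 g3 g4
  refine ⟨g5, ?_⟩
  have e : (Hq u p k)⁻¹.val ((Hq u p k).val w) = w := by
    have h7 : (Hq u p k)⁻¹.val * (Hq u p k).val = 1 := (Hq u p k).inv_mul
    have h8 : ((Hq u p k)⁻¹.val * (Hq u p k).val) w = w := by rw [h7]; rfl
    exact h8
  rw [e] at g6
  exact g6

private theorem wk_M (hLam : S_Lam) (hRn2 : S_Rn2) (hRM : S_RotM)
    (hM : Mdl A m ε W B u) {T T' : Tree} (h : ElM T T') (hT : T.leaves = m) {w : W} {K : ℝ}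
    (hb : Bd A ι B u (nodes T 0) w K) :
    T'.leaves = m ∧ Bd A ι B u (nodes T' 0) w (2 / ε * K) := by
  have hT' : T'.leaves = m := by
    rw [hRn2.1 T T' h, hT]
  refine ⟨hT', ?_⟩
  obtain ⟨C, i, kA, kC, h1, h2, h3, h4, h5, h6, h7⟩ := hRn2.2.1 T T' h 0
  obtain ⟨-, a1, a2⟩ := hLam.2.2.1 T 0
  obtain ⟨-, b1, b2⟩ := hLam.2.2.1 T' 0
  rw [hT] at a1
  rw [hT'] at b1
  rw [h6] at a1 a2 hb
  rw [h7] at b1 b2 ⊢
  have hle : ∀ n ∈ C, n.1 + n.2 ≤ m := by
    intro n hn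
    have := (a1 n (Or.inl hn)).2.1
    omega
  refine hRM A m ε W ι B u hM C i kA kC ⟨h1, h2, ?_, h3, h4, h5, hle, ?_⟩ w K hb
  · have := hle _ h5
    simp only at this
    omega
  · intro n hn
    exact ⟨a2 n (Or.inl hn) _ (Or.inr rfl), b2 n (Or.inl hn) _ (Or.inr rfl),
      fun n' hn' => a2 n (Or.inl hn) n' (Or.inl hn')⟩

private theorem wk_cancel (H : (Module.End ℂ W)ˣ) (w : W) : H⁻¹.val (H.val w) = w := by
  have h8 : (H⁻¹.val * H.val) w = w := by rw [H.inv_mul]; rfl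
  exact h8

private theorem wk_N (hLam : S_Lam) (hTn : S_Tn) (hRn2 : S_Rn2) (hRM : S_RotM)
    (hH : S_HalfF) (hM : Mdl A m ε W B u) {T T' : Tree} (h : ElM T' T) (hT : T.leaves = m)
    {w : W} {K : ℝ} (hb : Bd A ι B u (nodes T 0) w K) :
    T'.leaves = m ∧ Bd A ι B u (nodes T' 0) w (2 / ε * K) := by
  obtain ⟨T₁, T₂, p, k, h1, h2, h3⟩ := hRn2.2.2 T' T h 0
  obtain ⟨g1, -, g2, -⟩ := wk_T hLam hTn hH hM h1 hT hb
  obtain ⟨g3, g4⟩ := wk_M hLam hRn2 hRM hM h2 g1 g2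
  obtain ⟨g5, -, -, g6⟩ := wk_T hLam hTn hH hM h3 g3 g4
  refine ⟨g5, ?_⟩
  rw [wk_cancel] at g6
  exact g6

private theorem wk_Ch (hLam : S_Lam) (hTn : S_Tn) (hRn : S_Rn) (hRn2 : S_Rn2) (hR : S_RotR)
    (hL : S_RotL) (hRM : S_RotM) (hH : S_HalfF) (hM : Mdl A m ε W B u) {T T' : Tree} {n : ℕ}
    (h : Ch2 T T' n) (hT : T.leaves = m) {w : W} {K : ℝ} (hb : Bd A ι B u (nodes T 0) w K) :
    T'.leaves = m ∧ Bd A ι B u (nodes T' 0) w ((2 / ε) ^ n * K) := by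
  induction h with
  | refl => exact ⟨hT, by rw [pow_zero, one_mul]; exact hb⟩
  | stepR h1 h2 ih =>
    obtain ⟨g1, g2⟩ := ih
    obtain ⟨g3, g4⟩ := wk_R hLam hRn hR hL hM h2 g1 g2
    refine ⟨g3, ?_⟩
    rw [pow_succ', mul_assoc]
    exact g4
  | stepL h1 h2 ih =>
    obtain ⟨g1, g2⟩ := ih
    obtain ⟨g3, g4⟩ := wk_L hLam hTn hRn hR hL hH hM h2 g1 g2
    refine ⟨g3, ?_⟩
    rw [pow_succ', mul_assoc]
    exact g4
  | stepM h1 h2 ih =>
    obtain ⟨g1, g2⟩ := ih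
    obtain ⟨g3, g4⟩ := wk_M hLam hRn2 hRM hM h2 g1 g2
    refine ⟨g3, ?_⟩
    rw [pow_succ', mul_assoc]
    exact g4
  | stepN h1 h2 ih =>
    obtain ⟨g1, g2⟩ := ih
    obtain ⟨g3, g4⟩ := wk_N hLam hTn hRn2 hRM hH hM h2 g1 g2
    refine ⟨g3, ?_⟩
    rw [pow_succ', mul_assoc]
    exact g4

private theorem wk_core (hNum : S_Num) (hM : Mdl A m ε W B u) {C₀ : Set (ℕ × ℕ)}
    {n1 n2 n3 n4 : ℕ × ℕ} {c c' : ℂ} (h2 : n2.1 + n2.2 ≤ m) (h3 : n3 ∈ C₀) (h4 : n4 ∈ C₀)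
    (e2 : ∀ x : W, (Fq u n2.1 n2.2).val x = c • (Fq u n3.1 n3.2).val x)
    (t2 : ∀ x, c * th A n3.2 x = th A n2.2 x)
    (e1 : ∀ x : W, (Fq u n1.1 n1.2).val x = c' • (Fq u n4.1 n4.2).val x)
    (t1 : ∀ x, c' * th A n4.2 x = th A n1.2 x) {w : W} {K : ℝ}
    (hb : Bd A ι B u (C₀ ∪ {n1}) w K) : Bd A ι B u (C₀ ∪ {n2}) w K := by
  classical
  obtain ⟨v, lab, hF, hK⟩ := hb
  obtain ⟨N1, -⟩ := hNum A hM.nA hM.rou
  have hvne : ∀ a, v a ≠ 0 := by
    intro a h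
    have h1 := hF.on.1 a a
    rw [if_pos rfl, h, map_zero] at h1
    exact zero_ne_one h1
  obtain ⟨lab', hlab'⟩ : ∃ lab' : ι → ℕ × ℕ → ℕ, ∀ a n, lab' a n =
      if n ∈ C₀ then lab a n else lab a n3 := ⟨_, fun _ _ => rfl⟩
  have ev' : ∀ a, ∀ n ∈ C₀ ∪ {n2}, (Fq u n.1 n.2).val (v a) = th A n.2 (lab' a n) • v a := by
    intro a n hn
    rw [hlab']
    by_cases h : n ∈ C₀
    · rw [if_pos h]
      exact hF.ev a n (Or.inl h)
    · rw [if_neg h]
      rcases hn with hn | hn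
      · exact absurd hn h
      · rw [Set.mem_singleton_iff] at hn
        subst hn
        rw [e2, hF.ev a n3 (Or.inl h3), smul_smul, t2]
  have key : ∀ a, lab a n1 = lab a n4 := by
    intro a
    have h5 := hF.ev a n1 (Or.inr rfl)
    rw [e1, hF.ev a n4 (Or.inl h4), smul_smul, t1] at h5
    exact (N1 _ _ _ (smul_left_injective ℂ (hvne a) h5)).symm
  refine ⟨v, lab', ⟨hF.on, ev', ?_, ?_⟩, hK⟩
  · intro a n hn
    by_cases h : n ∈ C₀
    · rw [hlab', if_pos h]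
      exact hF.rg a n (Or.inl h)
    · have h0 := ev' a n hn
      rcases hn with hn | hn
      · exact absurd hn h
      · rw [Set.mem_singleton_iff] at hn
        subst hn
        obtain ⟨x, h5, h6, h7⟩ := hM.lb n.1 n.2 h2 (v a) _ (hvne a) h0
        rw [N1 _ _ _ h7]
        exact ⟨h5, h6⟩
  · intro a b h
    have h5 : ∀ n ∈ C₀, lab a n = lab b n := by
      intro n hn
      have h6 := h n (Or.inl hn)
      rwa [hlab', hlab', if_pos hn, if_pos hn] at h6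
    refine hF.inj a b ?_
    rintro n (hn | hn)
    · exact h5 n hn
    · rw [Set.mem_singleton_iff] at hn
      subst hn
      rw [key a, key b, h5 _ h4]

private theorem wk_root (hLam : S_Lam) (hNum : S_Num) (hM : Mdl A m ε W B u)
    (hr : ∀ q, q ≤ m → ∀ x : W,
      (Fq u q (m - q)).val x = A ^ (6 * (q : ℤ) - 3 * (m : ℤ)) • (Fq u 0 q).val x)
    {T T' : Tree} (h : Reroot T T') (hT : T.leaves = m) {w : W} {K : ℝ}
    (hb : Bd A ι B u (nodes T 0) w K) : T'.leaves = m ∧ Bd A ι B u (nodes T' 0) w K := by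
  have hA0 : A ≠ 0 := by
    intro h0
    have := hM.nA
    rw [h0, norm_zero] at this
    exact zero_ne_one this
  -- the sets of nodes
  have hsets : ∀ P Q R : Tree, P.leaves + Q.leaves + R.leaves = m → ∃ C₀ : Set (ℕ × ℕ),
      nodes (.node (.node P Q) R) 0 = C₀ ∪ {(0, P.leaves + Q.leaves)} ∧
      nodes (.node P (.node Q R)) 0 = C₀ ∪ {(P.leaves, Q.leaves + R.leaves)} ∧
      (0, P.leaves) ∈ C₀ ∧ (P.leaves + Q.leaves, R.leaves) ∈ C₀ := by
    intro P Q R _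
    refine ⟨{(0, P.leaves + Q.leaves + R.leaves)} ∪ (nodes P 0 ∪ (nodes Q P.leaves ∪
      nodes R (P.leaves + Q.leaves))), ?_, ?_, ?_, ?_⟩
    · ext n
      simp only [nodes, Tree.leaves, Set.mem_union, Set.mem_singleton_iff, zero_add]
      constructor
      · rintro (h | ((h | (h | h)) | h))
        · exact Or.inl (Or.inl h)
        · exact Or.inr h
        · exact Or.inl (Or.inr (Or.inl h))
        · exact Or.inl (Or.inr (Or.inr (Or.inl h)))
        · exact Or.inl (Or.inr (Or.inr (Or.inr h)))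
      · rintro ((h | (h | (h | h))) | h)
        · exact Or.inl h
        · exact Or.inr (Or.inl (Or.inr (Or.inl h)))
        · exact Or.inr (Or.inl (Or.inr (Or.inr h)))
        · exact Or.inr (Or.inr h)
        · exact Or.inr (Or.inl (Or.inl h))
    · ext n
      simp only [nodes, Tree.leaves, Set.mem_union, Set.mem_singleton_iff, zero_add,
        ← add_assoc P.leaves Q.leaves R.leaves]
      constructor
      · rintro (h | (h | (h | (h | h))))
        · exact Or.inl (Or.inl h)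
        · exact Or.inl (Or.inr (Or.inl h))
        · exact Or.inr h
        · exact Or.inl (Or.inr (Or.inr (Or.inl h)))
        · exact Or.inl (Or.inr (Or.inr (Or.inr h)))
      · rintro ((h | (h | (h | h))) | h)
        · exact Or.inl h
        · exact Or.inr (Or.inl h)
        · exact Or.inr (Or.inr (Or.inr (Or.inl h)))
        · exact Or.inr (Or.inr (Or.inr (Or.inr h)))
        · exact Or.inr (Or.inr (Or.inl h))
    · exact Or.inr (Or.inl (hLam.2.2.1 P 0).1)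
    · exact Or.inr (Or.inr (Or.inr (hLam.2.2.1 R (P.leaves + Q.leaves)).1))
  have hexp : ∀ (q k x : ℕ), q + k = m →
      A ^ (6 * (q : ℤ) - 3 * (m : ℤ)) * th A q x = th A k x := by
    intro q k x hq
    unfold th
    rw [← zpow_add₀ hA0]
    congr 1
    have : (m : ℤ) = q + k := by exact_mod_cast hq.symm
    rw [this]
    ring
  have hexp' : ∀ (q k x : ℕ), q + k = m →
      (A ^ (6 * (q : ℤ) - 3 * (m : ℤ)))⁻¹ * th A k x = th A q x := by
    intro q k x hq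
    rw [← hexp q k x hq, ← mul_assoc, inv_mul_cancel₀ (zpow_ne_zero _ hA0), one_mul]
  have hF : ∀ q k : ℕ, q + k = m → ∀ x : W,
      (Fq u q k).val x = A ^ (6 * (q : ℤ) - 3 * (m : ℤ)) • (Fq u 0 q).val x := by
    intro q k hq x
    have := hr q (by omega) x
    rwa [show m - q = k by omega] at this
  have hF' : ∀ q k : ℕ, q + k = m → ∀ x : W,
      (Fq u 0 q).val x = (A ^ (6 * (q : ℤ) - 3 * (m : ℤ)))⁻¹ • (Fq u q k).val x := by
    intro q k hq x
    rw [hF q k hq x, smul_smul, inv_mul_cancel₀ (zpow_ne_zero _ hA0), one_smul]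
  cases h with
  | fwd P Q R =>
    have hm : P.leaves + Q.leaves + R.leaves = m := hT
    obtain ⟨C₀, s1, s2, s3, s4⟩ := hsets P Q R hm
    refine ⟨by change P.leaves + (Q.leaves + R.leaves) = m; omega, ?_⟩
    rw [s1] at hb
    rw [s2]
    exact wk_core hNum hM (n1 := (0, P.leaves + Q.leaves))
      (n2 := (P.leaves, Q.leaves + R.leaves)) (n3 := (0, P.leaves))
      (n4 := (P.leaves + Q.leaves, R.leaves)) (by simp only; omega) s3 s4
      (hF P.leaves (Q.leaves + R.leaves) (by omega))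
      (fun x => hexp P.leaves (Q.leaves + R.leaves) x (by omega))
      (hF' (P.leaves + Q.leaves) R.leaves hm)
      (fun x => hexp' (P.leaves + Q.leaves) R.leaves x hm) hb
  | bwd P Q R =>
    have hm : P.leaves + (Q.leaves + R.leaves) = m := hT
    obtain ⟨C₀, s1, s2, s3, s4⟩ := hsets P Q R (by omega)
    refine ⟨by change P.leaves + Q.leaves + R.leaves = m; omega, ?_⟩
    rw [s2] at hb
    rw [s1]
    exact wk_core hNum hM (n1 := (P.leaves, Q.leaves + R.leaves))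
      (n2 := (0, P.leaves + Q.leaves)) (n3 := (P.leaves + Q.leaves, R.leaves))
      (n4 := (0, P.leaves)) (by simp only; omega) s4 s3
      (hF' (P.leaves + Q.leaves) R.leaves (by omega))
      (fun x => hexp' (P.leaves + Q.leaves) R.leaves x (by omega))
      (hF P.leaves (Q.leaves + R.leaves) hm)
      (fun x => hexp P.leaves (Q.leaves + R.leaves) x hm) hb

end

private theorem wk_foldl {G : Type} [Group G] (s : ℕ → G) (cs : List (ℕ × Bool)) :
    ∀ X : G, cs.foldl (fun X c => (if c.2 = true then s c.1 else (s c.1)⁻¹) * X) X =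
      opG s cs * X := by
  induction cs with
  | nil => intro X; exact (one_mul X).symm
  | cons c cs ih =>
    intro X
    unfold opG
    rw [List.foldl_cons, List.foldl_cons, ih, ih (_ * 1), mul_one, mul_assoc]

private theorem wk_append {G : Type} [Group G] (s : ℕ → G) (cs cs' : List (ℕ × Bool)) :
    opG s (cs ++ cs') = opG s cs' * opG s cs := by
  conv_lhs => unfold opG
  rw [List.foldl_append, wk_foldl s cs', ← opG]

theorem sWk (hLam : S_Lam) (hTn : S_Tn) (hRn : S_Rn) (hRn2 : S_Rn2) (hMv2 : S_Mv2) (hWd : S_Wd)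
    (hRotR : S_RotR) (hRotL : S_RotL) (hRotM : S_RotM) (hHalfF : S_HalfF) (hNum : S_Num) :
    S_Wk := by
  intro A m ε W _ _ ι _ _ B u hM hr S T cs N hS hW w K hb
  have hε0 := hM.e0
  have hε1 := hM.e1
  have h2 : 1 ≤ 2 / ε := by
    rw [le_div_iff₀ hε0]
    linarith
  induction hW with
  | start =>
    refine ⟨hS, ?_⟩
    rw [pow_zero, one_mul]
    exact hb
  | @turn cs N T T' p k s h1 h2 ih =>
    obtain ⟨g1, g2⟩ := ih
    obtain ⟨g3, g4, g5, g6⟩ := wk_T hLam hTn hHalfF hM h2 g1 g2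
    refine ⟨g3, ?_⟩
    rw [wk_append]
    obtain ⟨d1, d2⟩ := hWd _ m u hM.br p k g4
    cases s
    · rw [d2]
      exact g6
    · rw [d1]
      exact g5
  | @change cs N T T' c h1 h3 ih =>
    obtain ⟨g1, g2⟩ := ih
    obtain ⟨n, hn, h4⟩ := hMv2 T T' c h3
    obtain ⟨g3, g4⟩ := wk_Ch hLam hTn hRn hRn2 hRotR hRotL hRotM hHalfF hM h4 g1 g2
    refine ⟨g3, ?_⟩
    have h5 := wk_scale g4 (c := (2 / ε) ^ (c - n)) (one_le_pow₀ h2)
    have e : (2 / ε) ^ (c - n) * ((2 / ε) ^ n * ((2 / ε) ^ N * K)) = (2 / ε) ^ (N + c) * K := by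
      rw [← mul_assoc, ← mul_assoc, ← pow_add, ← pow_add]
      congr 2
      omega
    rw [e] at h5
    exact h5
  | @reroot cs N T T' h1 h3 ih =>
    obtain ⟨g1, g2⟩ := ih
    exact wk_root hLam hNum hM hr h3 g1 g2

end MP_fc1011_gt.TP
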