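import Pool.Agent.Lib.MP_fc1011_gt.TP.As
import Pool.Agent.Lib.MP_fc1011_gt.TP.Dg
import Pool.Agent.Lib.MP_fc1011_gt.TP.Gh
import Pool.Agent.Lib.MP_fc1011_gt.TP.Gj
import Pool.Agent.Lib.MP_fc1011_gt.TP.Gn
import Pool.Agent.Lib.MP_fc1011_gt.TP.HalfF
import Pool.Agent.Lib.MP_fc1011_gt.TP.In
import Pool.Agent.Lib.MP_fc1011_gt.TP.Lam
import Pool.Agent.Lib.MP_fc1011_gt.TP.Mdl
import Pool.Agent.Lib.MP_fc1011_gt.TP.Mv
import Pool.Agent.Lib.MP_fc1011_gt.TP.Rn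
import Pool.Agent.Lib.MP_fc1011_gt.TP.RotL
import Pool.Agent.Lib.MP_fc1011_gt.TP.RotR
import Pool.Agent.Lib.MP_fc1011_gt.TP.TLp
import Pool.Agent.Lib.MP_fc1011_gt.TP.Tg
import Pool.Agent.Lib.MP_fc1011_gt.TP.Tn
import Pool.Agent.Lib.MP_fc1011_gt.TP.Two
import Pool.Agent.Lib.MP_fc1011_gt.TP.Un
import Pool.Agent.Lib.MP_fc1011_gt.TP.Uq
import Pool.Agent.Lib.MP_fc1011_gt.TP.Wd
import Pool.Agent.Lib.MP_fc1011_gt.TP.Wk
import Pool.Agent.Lib.MP_fc1011_gt.TP.Abs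
import Pool.Agent.Lib.MP_fc1011_gt.TP.Adj
import Pool.Agent.Lib.MP_fc1011_gt.TP.Gc
import Pool.Agent.Lib.MP_fc1011_gt.TP.Num
import Pool.Agent.Lib.MP_fc1011_gt.TP.Sh
import Pool.Agent.Lib.MP_fc1011_gt.TP.Gl
import Pool.Agent.Lib.MP_fc1011_gt.TP.Rt
import Pool.Agent.Lib.MP_fc1011_gt.TP.RotM
import Pool.Agent.Lib.MP_fc1011_gt.TP.Rn2
import Pool.Agent.Lib.MP_fc1011_gt.TP.Mv2

/-!
# MP_fc1011_gt, paths of trees: all modules put together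
-/

set_option autoImplicit false

namespace MP_fc1011_gt.TP

theorem tRotR : S_RotR := sRotR sGj sGc sNum (sAdj sNum) (sAbs sTwo)

theorem tRotL : S_RotL := sRotL sGj sGc sNum (sAdj sNum) (sAbs sTwo)

theorem tRotM : S_RotM := sRotM sGj sGc (sGl sSh) sNum (sAdj sNum) (sAbs sTwo)

theorem tHalfF : S_HalfF := sHalfF (sGh sGc) sNum (sAdj sNum)

theorem tWk : S_Wk := sWk sLam (sTn sLam) (sRn sLam) (sRn2 sLam) (sMv2 sLam (sMv sLam)) sWd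
  tRotR tRotL tRotM tHalfF sNum

theorem tGn : S_Gn := sGn sLam sTLp (sUn sTLp) sDg (sMdl sSh sNum) (sIn sNum) tWk
  (sUq sNum (sAdj sNum)) (sRt (sGl sSh))

theorem main : S_As := sAs tGn sTg

end MP_fc1011_gt.TP
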