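import Pool.Agent.Lib.MP_fc1011_gt.MT.Spec
import Pool.Agent.Lib.MP_fc1011_gt.MV.TLalg
import Pool.Agent.Lib.MP_fc1011_gt.TP.Defs

/-!
# MP_fc1011_gt, paths of trees: the space of functions on the paths
-/

set_option autoImplicit false

namespace MP_fc1011_gt.TP

open Finset MT

/-- The paths, as a type. -/
abbrev PT (R m : ℕ) : Type := {a : ℕ → ℕ // Pth R m a}

open Classical in
/-- Extension by zero. -/
noncomputable def ext (R m : ℕ) (ψ : PT R m → ℂ) (a : ℕ → ℕ) : ℂ :=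
  if h : Pth R m a then ψ ⟨a, h⟩ else 0

theorem ext_of {R m : ℕ} (ψ : PT R m → ℂ) {a : ℕ → ℕ} (h : Pth R m a) : ext R m ψ a = ψ ⟨a, h⟩ :=
  dif_pos h

theorem ext_not {R m : ℕ} (ψ : PT R m → ℂ) {a : ℕ → ℕ} (h : ¬ Pth R m a) : ext R m ψ a = 0 :=
  dif_neg h

theorem ext_supp {R m : ℕ} (ψ : PT R m → ℂ) : Supp R m (ext R m ψ) := fun _ h => ext_not ψ h

theorem ext_add {R m : ℕ} (φ ψ : PT R m → ℂ) : ext R m (φ + ψ) = ext R m φ + ext R m ψ := by
  funext a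
  by_cases h : Pth R m a
  · simp only [Pi.add_apply, ext_of _ h]
  · simp only [Pi.add_apply, ext_not _ h, add_zero]

theorem ext_smul {R m : ℕ} (c : ℂ) (ψ : PT R m → ℂ) : ext R m (c • ψ) = c • ext R m ψ := by
  funext a
  by_cases h : Pth R m a
  · simp only [Pi.smul_apply, ext_of _ h]
  · simp only [Pi.smul_apply, ext_not _ h, smul_zero]

theorem UU_add (b : ℕ → ℂ) (R m i : ℕ) (φ ψ : (ℕ → ℕ) → ℂ) (a : ℕ → ℕ) :
    UU b R m i (φ + ψ) a = UU b R m i φ a + UU b R m i ψ a := by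
  unfold UU
  by_cases h : Pth R m a ∧ a i = a (i + 2)
  · rw [if_pos h, if_pos h, if_pos h]
    simp only [Pi.add_apply]
    ring
  · rw [if_neg h, if_neg h, if_neg h, add_zero]

theorem UU_smul (b : ℕ → ℂ) (R m i : ℕ) (c : ℂ) (ψ : (ℕ → ℕ) → ℂ) (a : ℕ → ℕ) :
    UU b R m i (c • ψ) a = c * UU b R m i ψ a := by
  unfold UU
  by_cases h : Pth R m a ∧ a i = a (i + 2)
  · rw [if_pos h, if_pos h]
    simp only [Pi.smul_apply, smul_eq_mul]
    ring
  · rw [if_neg h, if_neg h, mul_zero]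

/-- The operator of a cap and a cup on the functions of paths. -/
noncomputable def eP (b : ℕ → ℂ) (R m i : ℕ) : Module.End ℂ (PT R m → ℂ) where
  toFun ψ a := UU b R m i (ext R m ψ) a.1
  map_add' φ ψ := by
    funext a
    simp only [ext_add, UU_add, Pi.add_apply]
  map_smul' c ψ := by
    funext a
    simp only [ext_smul, UU_smul, Pi.smul_apply, smul_eq_mul, RingHom.id_apply]

theorem eP_apply (b : ℕ → ℂ) (R m i : ℕ) (ψ : PT R m → ℂ) (a : PT R m) :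
    eP b R m i ψ a = UU b R m i (ext R m ψ) a.1 := rfl

theorem BB_add_right (b : ℕ → ℂ) (R m : ℕ) (φ ψ χ : (ℕ → ℕ) → ℂ) :
    BB b R m φ (ψ + χ) = BB b R m φ ψ + BB b R m φ χ := by
  unfold BB
  rw [← Finset.sum_add_distrib]
  refine Finset.sum_congr rfl fun a _ => ?_
  simp only [Pi.add_apply]
  ring

theorem BB_smul_right (b : ℕ → ℂ) (R m : ℕ) (c : ℂ) (φ ψ : (ℕ → ℕ) → ℂ) :
    BB b R m φ (c • ψ) = c * BB b R m φ ψ := by
  unfold BB
  rw [Finset.mul_sum]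
  refine Finset.sum_congr rfl fun a _ => ?_
  simp only [Pi.smul_apply, smul_eq_mul]
  ring

theorem BB_symm (b : ℕ → ℂ) (R m : ℕ) (φ ψ : (ℕ → ℕ) → ℂ) :
    BB b R m φ ψ = BB b R m ψ φ := by
  unfold BB
  refine Finset.sum_congr rfl fun a _ => ?_
  rw [mul_comm (φ a)]

/-- The bilinear form on the functions of paths. -/
noncomputable def BP (b : ℕ → ℂ) (R m : ℕ) : LinearMap.BilinForm ℂ (PT R m → ℂ) :=
  LinearMap.mk₂ ℂ (fun φ ψ => BB b R m (ext R m φ) (ext R m ψ))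
    (fun φ ψ χ => by rw [ext_add, BB_symm, BB_add_right, BB_symm, BB_symm _ _ _ _ (ext R m ψ)])
    (fun c φ ψ => by rw [ext_smul, BB_symm, BB_smul_right, BB_symm, smul_eq_mul])
    (fun φ ψ χ => by rw [ext_add, BB_add_right])
    (fun c φ ψ => by rw [ext_smul, BB_smul_right, smul_eq_mul])

theorem BP_apply (b : ℕ → ℂ) (R m : ℕ) (φ ψ : PT R m → ℂ) :
    BP b R m φ ψ = BB b R m (ext R m φ) (ext R m ψ) := rfl

/-- The vector of a matching. -/
noncomputable def kP (b : ℕ → ℂ) (R : ℕ) {m : ℕ} (μ : Matching m) : PT R m → ℂ :=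
  fun a => ket b R μ a.1

theorem ext_kP (b : ℕ → ℂ) (R : ℕ) {m : ℕ} (μ : Matching m) :
    ext R m (kP b R μ) = ket b R μ := by
  funext a
  by_cases h : Pth R m a
  · rw [ext_of _ h]; rfl
  · rw [ext_not _ h]
    unfold ket
    rw [if_neg (fun h1 => h h1.1)]

theorem ext_eP (b : ℕ → ℂ) (R m i : ℕ) (ψ : PT R m → ℂ) :
    ext R m (eP b R m i ψ) = UU b R m i (ext R m ψ) := by
  funext a
  by_cases h : Pth R m a
  · rw [ext_of _ h]; rfl
  · rw [ext_not _ h]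
    unfold UU
    rw [if_neg (fun h1 => h h1.1)]

end MP_fc1011_gt.TP
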