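import Pool.Agent.Lib.MP_fc1011_gt.TP.Spec

/-!
# TP/Rn: the nodes of a tree after a change; left changes
-/

set_option autoImplicit false

namespace MP_fc1011_gt.TP

open MP_fc1011_gt.TP.Tree

/-- the intervals which are common to both trees -/
private def com (A B : Tree) (o : ℕ) : Set (ℕ × ℕ) :=
  {(o, A.leaves + B.leaves + 1)} ∪ (nodes A o ∪ (nodes B (o + A.leaves) ∪
    {(o + A.leaves + B.leaves, 1)}))

private theorem base1 (A B : Tree) (o : ℕ) : nodes (.node (.node A B) .leaf) o =
    com A B o ∪ {(o, A.leaves + B.leaves)} := by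
  have h : o + (A.leaves + B.leaves) = o + A.leaves + B.leaves := by ring
  ext n
  simp only [nodes, com, leaves, h, Set.mem_union, Set.mem_singleton_iff]
  tauto

private theorem base2 (A B : Tree) (o : ℕ) : nodes (.node A (.node B .leaf)) o =
    com A B o ∪ {(o + A.leaves, B.leaves + 1)} := by
  have h : A.leaves + (B.leaves + 1) = A.leaves + B.leaves + 1 := by ring
  ext n
  simp only [nodes, com, leaves, h, Set.mem_union, Set.mem_singleton_iff]
  tauto

private theorem com_mem (hLam : S_Lam) (A B : Tree) (o : ℕ) :
    (o, A.leaves) ∈ com A B o ∧ (o + A.leaves, B.leaves) ∈ com A B o ∧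
      (o, A.leaves + B.leaves + 1) ∈ com A B o := by
  have hA := (hLam.2.2.1 A o).1
  have hB := (hLam.2.2.1 B (o + A.leaves)).1
  exact ⟨Or.inr (Or.inl hA), Or.inr (Or.inr (Or.inl hB)), Or.inl rfl⟩

theorem sRn (hLam : S_Lam) : S_Rn := by
  obtain ⟨hmir, -, -, hR, -, -, -⟩ := id hLam
  refine ⟨?_, ?_⟩
  · intro T T' h
    induction h with
    | fwd A B =>
      intro o
      obtain ⟨h1, h2, h3⟩ := com_mem hLam A B o
      exact ⟨com A B o, o, A.leaves, B.leaves, (hmir A).1, (hmir B).1, h1, h2, h3,
        Or.inl ⟨base1 A B o, base2 A B o⟩⟩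
    | bwd A B =>
      intro o
      obtain ⟨h1, h2, h3⟩ := com_mem hLam A B o
      exact ⟨com A B o, o, A.leaves, B.leaves, (hmir A).1, (hmir B).1, h1, h2, h3,
        Or.inr ⟨base2 A B o, base1 A B o⟩⟩
    | @left S S' T hS ih =>
      intro o
      obtain ⟨C, i, kA, kB, hA, hB, m1, m2, m3, hc⟩ := ih o
      have hl : S'.leaves = S.leaves := hR _ _ hS
      refine ⟨{(o, S.leaves + T.leaves)} ∪ (C ∪ nodes T (o + S.leaves)), i, kA, kB, hA, hB,
        Or.inr (Or.inl m1), Or.inr (Or.inl m2), Or.inr (Or.inl m3), ?_⟩
      rcases hc with ⟨h1, h2⟩ | ⟨h1, h2⟩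
      · left
        refine ⟨?_, ?_⟩
        · ext n
          simp only [nodes, h1, Set.mem_union, Set.mem_singleton_iff]
          tauto
        · ext n
          simp only [nodes, h2, hl, Set.mem_union, Set.mem_singleton_iff]
          tauto
      · right
        refine ⟨?_, ?_⟩
        · ext n
          simp only [nodes, h1, Set.mem_union, Set.mem_singleton_iff]
          tauto
        · ext n
          simp only [nodes, h2, hl, Set.mem_union, Set.mem_singleton_iff]
          tauto
    | @right S T T' hT ih =>
      intro o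
      obtain ⟨C, i, kA, kB, hA, hB, m1, m2, m3, hc⟩ := ih (o + S.leaves)
      have hl : T'.leaves = T.leaves := hR _ _ hT
      refine ⟨{(o, S.leaves + T.leaves)} ∪ (C ∪ nodes S o), i, kA, kB, hA, hB,
        Or.inr (Or.inl m1), Or.inr (Or.inl m2), Or.inr (Or.inl m3), ?_⟩
      rcases hc with ⟨h1, h2⟩ | ⟨h1, h2⟩
      · left
        refine ⟨?_, ?_⟩
        · ext n
          simp only [nodes, h1, Set.mem_union, Set.mem_singleton_iff]
          tauto
        · ext n
          simp only [nodes, h2, hl, Set.mem_union, Set.mem_singleton_iff]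
          tauto
      · right
        refine ⟨?_, ?_⟩
        · ext n
          simp only [nodes, h1, Set.mem_union, Set.mem_singleton_iff]
          tauto
        · ext n
          simp only [nodes, h2, hl, Set.mem_union, Set.mem_singleton_iff]
          tauto
  · intro T T' h
    induction h with
    | fwd A B =>
      intro o
      have h2 := Turn.whole o (.node B.mirror (.node A.mirror .leaf))
      have e1 : (Tree.node B.mirror (.node A.mirror .leaf)).mirror = .node (.node .leaf A) B := by
        simp only [Tree.mirror, (hmir A).2.2, (hmir B).2.2]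
      have e2 : (Tree.node B.mirror (.node A.mirror .leaf)).leaves =
          (Tree.node .leaf (.node A B)).leaves := by
        simp only [leaves, (hmir A).2.1, (hmir B).2.1]
        ring
      rw [e1, e2] at h2
      exact ⟨_, _, _, _, Turn.whole o _, ElR.fwd B.mirror A.mirror, h2⟩
    | bwd A B =>
      intro o
      have h2 := Turn.whole o (.node (.node B.mirror A.mirror) .leaf)
      have e1 : (Tree.node (.node B.mirror A.mirror) .leaf).mirror = .node .leaf (.node A B) := by
        simp only [Tree.mirror, (hmir A).2.2, (hmir B).2.2]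
      have e2 : (Tree.node (.node B.mirror A.mirror) .leaf).leaves =
          (Tree.node (.node .leaf A) B).leaves := by
        simp only [leaves, (hmir A).2.1, (hmir B).2.1]
        ring
      rw [e1, e2] at h2
      exact ⟨_, _, _, _, Turn.whole o _, ElR.bwd B.mirror A.mirror, h2⟩
    | @left S S' T _ ih =>
      intro o
      obtain ⟨T₁, T₂, p, k, h1, h2, h3⟩ := ih o
      exact ⟨_, _, p, k, Turn.left T h1, ElR.left T h2, Turn.left T h3⟩
    | @right S T T' _ ih =>
      intro o
      obtain ⟨T₁, T₂, p, k, h1, h2, h3⟩ := ih (o + S.leaves)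
      exact ⟨_, _, p, k, Turn.right S h1, ElR.right S h2, Turn.right S h3⟩

end MP_fc1011_gt.TP
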