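import Pool.Agent.Lib.MP_fc1011_gt.TP.Model
import Pool.Agent.Lib.MP_fc1011_gt.Quotient

/-!
# MP_fc1011_gt, paths of trees: the statements of the modules (package TP)

Theorem: `R(K) ≤ 4 N + 10 m` for a diagram with `m` strands which follows a path of trees of cost
`N` from the left comb to the left comb (`Walk`, see `TP/Defs.lean`).

Every `S_X` is proved in its own file `TP/X.lean` (`namespace MP_fc1011_gt.TP`) as
`theorem sX (hA : S_A) … : S_X` where `S_A`, … are the statements named after `uses`; the docstring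
contains the proof.  Auxiliary declarations are private.

Idea.  `W` = functions on the paths (path model of the Temperley-Lieb algebra, `TP/Model.lean`) with
the bilinear form `B`.  A frame of a tree is a `B`-orthonormal basis which consists of joint
eigenvectors of the full twists of the strands of all subtrees; the eigenvalue of the full twist of
`k` strands is `th A k x = A ^ (x ^ 2 - 1 - 3 k)`, `x` is called the label.  A half twist of a subtree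
maps frames to frames of the mirror tree; a change `((A B) c) ↔ (A (B c))`, `c` a single strand,
changes frames by blocks of size 2 (or 1) whose entries are at most `1/ε`.
-/

set_option autoImplicit false

namespace MP_fc1011_gt.TP

open Finset MT

/-! ## Part 1: words in the braid group

`s : ℕ → G` satisfies the braid relations `MV.Br m s` (`m` strands, `s j` for `j + 1 < m`).
Lemmas of `MV/TLalg.lean` (`JJ_commute`, `FF_commute`, `RR_commute`, `HH_commute`, `JJ_comm`,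
`FF_comm`, `JJ_eq`, `HH_eq`, `HH_sq`) can be applied to the shifted sequence `fun j => s (q + j)`,
which satisfies `MV.Br k` if `q + k ≤ m`. -/

/-- The full twist of the strands `q, …, q + k - 1`. -/
def Fq {G : Type} [Monoid G] (s : ℕ → G) (q k : ℕ) : G := MV.FF (fun j => s (q + j)) k

/-- The strand `q + k` goes once around the strands `q, …, q + k - 1`. -/
def Jq {G : Type} [Monoid G] (s : ℕ → G) (q k : ℕ) : G := MV.JJ (fun j => s (q + j)) k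

/-- The half twist of the strands `q, …, q + k - 1`. -/
def Hq {G : Type} [Monoid G] (s : ℕ → G) (q k : ℕ) : G := MV.HH (fun j => s (q + j)) k

/-- `s (q + k - 1) … s (q + 1) s q`. -/
def Rq {G : Type} [Monoid G] (s : ℕ → G) (q k : ℕ) : G := MV.RR (fun j => s (q + j)) k

/-- `s q s (q + 1) … s (q + k - 1)`. -/
def Lq {G : Type} [Monoid G] (s : ℕ → G) (q k : ℕ) : G := MV.LL (fun j => s (q + j)) k

/-- Two intervals `(q, k)` (the strands `q, …, q + k - 1`) are disjoint or nested. -/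
def Cpt (n n' : ℕ × ℕ) : Prop :=
  n.1 + n.2 ≤ n'.1 ∨ n'.1 + n'.2 ≤ n.1 ∨ (n.1 ≤ n'.1 ∧ n'.1 + n'.2 ≤ n.1 + n.2) ∨
    (n'.1 ≤ n.1 ∧ n.1 + n.2 ≤ n'.1 + n'.2)

/-- The image of an interval under the half twist of the strands `p, …, p + k - 1`. -/
def flip (p k : ℕ) (n : ℕ × ℕ) : ℕ × ℕ :=
  if p ≤ n.1 ∧ n.1 + n.2 ≤ p + k then (2 * p + k - n.1 - n.2, n.2) else n

/-- (30 lines) **A strand around two groups of strands.**

Proof.  Induction on `kB`: `MV.JJ s (j+1) = s j * JJ s j * s j`, `RR s (j+1) = s j * RR s j`,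
`LL s (j+1) = LL s j * s j` (all `rfl`), and the shifts `i + (kA + j) = (i + kA) + j`.  The second
equation is `MV.JJ_eq`. -/
def S_Gj : Prop := ∀ (G : Type) [Monoid G] (s : ℕ → G) (i kA kB : ℕ),
  Jq s i (kA + kB) = Rq s (i + kA) kB * Jq s i kA * Lq s (i + kA) kB ∧
    Jq s (i + kA) kB = Rq s (i + kA) kB * Lq s (i + kA) kB

/-- (80 lines) **Shift.**

Proof.  `X = Lq s q (k + 1) = s_q s_(q+1) … s_(q+k)`.  With `t j = s (q + j)`, `MV.Br (k + 2) t`: for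
`j < k`: `LL t (k+1) * t j = t (j+1) * LL t (k+1)` (induction on `k`: for `j + 1 < k` `t j` commutes
with `t k`; for `j + 1 = k`, `LL t (k+1) = LL t (k-1) * t (k-1) * t k`, `brd`, and `t k` commutes with
`LL t (k-1)` (`t (j+1) = t k`)).  Then a general lemma: if `X * t j = t' j * X` for all `j < k` then
`X * JJ t k = JJ t' k * X` and the same for `FF t k`, `FF t (k+1)` (induction, `MV.JJ`, `MV.FF`).
`t' j = s (q + 1 + j)`. -/
def S_Sh : Prop := ∀ (G : Type) [Monoid G] (m : ℕ) (s : ℕ → G), MV.Br m s → ∀ q k : ℕ,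
  q + k + 1 < m → Lq s q (k + 1) * Jq s q k = Jq s (q + 1) k * Lq s q (k + 1) ∧
    Lq s q (k + 1) * Fq s q k = Fq s (q + 1) k * Lq s q (k + 1) ∧
    Lq s q (k + 1) * Fq s q (k + 1) = Fq s (q + 1) (k + 1) * Lq s q (k + 1)

/-- (80 lines) **Full twists of compatible intervals commute.**

Proof.  By symmetry two cases.  Disjoint, `n.1 + n.2 ≤ n'.1`: `MV.FF_commute` twice, the generators
`s (n.1 + l)`, `l + 1 < n.2`, and `s (n'.1 + l')`, `l' + 1 < n'.2`, commute (`Br.comm`).  Nested, `n'` inside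
of `n`: `MV.FF_commute` for `n'`: every generator `s (n'.1 + l)`, `l + 1 < n'.2`, is `s (n.1 + i)` with
`i + 1 < n.2`, which commutes with `Fq s n.1 n.2` by `MV.FF_comm`.  The second claim: also the
generators of `(p, k)` commute with `Fq s n.1 n.2` if `n` is disjoint from `(p, k)` or contains it. -/
def S_Gc : Prop := ∀ (G : Type) [Monoid G] (m : ℕ) (s : ℕ → G), MV.Br m s →
  (∀ n n' : ℕ × ℕ, n.1 + n.2 ≤ m → n'.1 + n'.2 ≤ m → Cpt n n' →
    Commute (Fq s n.1 n.2) (Fq s n'.1 n'.2)) ∧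
  ∀ (n : ℕ × ℕ) (p k : ℕ), n.1 + n.2 ≤ m → p + k ≤ m →
    (n.1 + n.2 ≤ p ∨ p + k ≤ n.1 ∨ (n.1 ≤ p ∧ p + k ≤ n.1 + n.2)) →
    ∀ j, j + 1 < k → Commute (s (p + j)) (Fq s n.1 n.2)

/-- (150 lines; uses `S_Gc`) **Half twists.**

Proof.  First claim: `MV.HH_sq`.  Second claim.  If `n` is not inside of `(p, k)` then `flip p k n = n`, and
`Fq s n.1 n.2` commutes with the generators of `(p, k)` (`S_Gc`, second part; a Cpt case which is not one
of the three there is `n` inside), so with `Hq s p k` (`MV.HH_commute`).  Let `n` be inside, `t j = s (p + j)`,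
`MV.Br k t`, `n.1 = p + i`, `l = n.2`, `i + l ≤ k`, `j₀ = k - i - l` (the new first strand is `p + j₀`).
(1) `t j * HH t k = HH t k * t (k - 2 - j)` for `j + 2 ≤ k`.  Induction on `k`: `HH t (k+1) = HH t k * RR t k = LL t k * HH t k`
(`MV.HH_eq`), `RR t k * t i = t (i - 1) * RR t k` for `1 ≤ i < k` (as in `S_Sh`, mirrored), `t j * LL t k = LL t k * t (j - 1)`
for `1 ≤ j < k`.  For `j < k - 1`: `t j * HH t (k+1) = t j * HH t k * RR t k = HH t k * t (k-2-j) * RR t k = HH t k * RR t k * t (k-1-j)`; for `j = k - 1 ≥ 1`: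
`t j * LL t k * HH t k = LL t k * t (j-1) * HH t k = LL t k * HH t k * t 0`; `k = 1`: trivial.
(2) General lemma: if `X * a j = a' j * X` for `j + 1 < l` then `X * FF a l = FF a' l * X`.
(3) For every `u : ℕ → G` with `MV.Br l u`: `FF (fun j => u (l - 2 - j)) l = FF u l`.  By (1) for `u` and (2),
`HH u l * FF (fun j => u (l-2-j)) l = FF u l * HH u l = HH u l * FF u l` (`FF u l = HH u l * HH u l`); cancel in the group.
(4) By (1), (2) `FF (fun r => t (j₀ + r)) l * HH t k = HH t k * FF (fun r => t (k - 2 - j₀ - r)) l` and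
`k - 2 - j₀ - r = i + (l - 2 - r)` for `r + 1 < l` (`FF` depends only on the values for `r + 1 < l`: congruence lemma), so by (3)
for `u r = t (i + r)` it is `HH t k * FF (fun r => t (i + r)) l`. -/
def S_Gh : Prop := ∀ (G : Type) [Group G] (m : ℕ) (s : ℕ → G), MV.Br m s → ∀ p k : ℕ,
  p + k ≤ m → Hq s p k * Hq s p k = Fq s p k ∧
    ∀ n : ℕ × ℕ, n.1 + n.2 ≤ m → Cpt n (p, k) →
      Fq s (flip p k n).1 (flip p k n).2 * Hq s p k = Hq s p k * Fq s n.1 n.2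

/-- The element of a list of crossings (the first crossing is the rightmost factor). -/
def opG {G : Type} [Group G] (s : ℕ → G) (cs : List (ℕ × Bool)) : G :=
  cs.foldl (fun X c => (if c.2 = true then s c.1 else (s c.1)⁻¹) * X) 1

/-- (80 lines) **The element of the crossings of a half twist.**

Proof.  `opG s (cs ++ cs') = opG s cs' * opG s cs` (from `foldl` with an arbitrary start `X`:
`foldl … X = opG … * X`).  `halfTwist (k+1) = halfTwist k ++ (List.range k).reverse` for `k ≥ 1`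
(`List.range_succ`; `halfTwist 0 = halfTwist 1 = []`).  With `t j = s (p + j)`: `opG` of
`(List.range k).reverse.map fun j => (p + j, true)` is `LL t k` (induction on `k`: `List.range_succ`,
`List.reverse_append`: the first crossing is `k - 1`), so by induction `opG (…, true) = LL t k * HH t k = HH t (k+1)`
(`MV.HH_eq`).  `false`: `opG` of `(List.range k).reverse.map fun j => (p + j, false)` is `(RR t k)⁻¹`, so by induction
`(RR t k)⁻¹ * (HH t k)⁻¹ = (HH t k * RR t k)⁻¹`. -/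
def S_Wd : Prop := ∀ (G : Type) [Group G] (m : ℕ) (s : ℕ → G), MV.Br m s → ∀ p k : ℕ, p + k ≤ m →
  opG s ((halfTwist k).map fun j => (p + j, true)) = Hq s p k ∧
    opG s ((halfTwist k).map fun j => (p + j, false)) = (Hq s p k)⁻¹

/-! ## Part 2: blocks of size two -/

/-- (100 lines) **The numbers of a block.**

Here the matrix `Y = (p, r; r, q)` is symmetric and satisfies `Y² = σ Y - π`, `σ = y1 + y2`, `π = y1 y2`
(`h1`-`h4`), `Z = π⁻¹ (x1 (σ - p), - r x1; - r x2, x2 (σ - q))` satisfies `Z² = (z1 + z2) Z - z1 z2`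
(`g1`-`g4`, multiplied by `π²`).

Proof of (a) `p + q = σ`, (b) `p q - r² = π`, (c) `q x1 + p x2 = π (z1 + z2)`.
Case `r ≠ 0`: `h2` gives (a), with `h1`: (b), `g3` gives (after the factor `r x2`) `x1 (σ - p) + x2 (σ - q) = π (z1 + z2)`, i.e. (c).
Case `r = 0`: `p, q ∈ {y1, y2}` (`h1`, `h4`), `Z₁ = x1 (σ - p) / π ∈ {z1, z2}`, `Z₂ = x2 (σ - q) / π ∈ {z1, z2}` (`g1`, `g4`);
note `p (σ - p) = π`, so `x1 = p Z₁`, `x2 = q Z₂`.  If `p = q` then `x1 x2 = p² Z₁ Z₂`; `Z₁ ≠ Z₂` as `x1 ≠ x2`, so `Z₁ Z₂ = z1 z2`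
and `p² = y1 y2`, so `y1 = y2`, a contradiction.  So `{p, q} = {y1, y2}`: (a), (b), and `Z₁ Z₂ = z1 z2` by `hx`, so `{Z₁, Z₂} = {z1, z2}`
(`Z₁ = Z₂ = z1` would give `z1 = z2`), and (c): `q x1 = q p Z₁ = π Z₁`, `p x2 = π Z₂`.

Now with `D = (y1 - y2) (x2 - x1)`, `P₁ = (p - y2)/(y1 - y2)`, `P₂ = (q - y2)/(y1 - y2)`, `P₃ = r/(y1 - y2)`: from (a), (c)
`(p - y2) (x2 - x1) = y1 y2 (z1 + z2) - y1 x1 - y2 x2`, of norm at most `4`, and `(q - y2) (x1 - x2) = y1 y2 (z1 + z2) - y1 x2 - y2 x1`; so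
`‖P₁‖, ‖P₂‖ ≤ 4 / (2 ε)² = 1/ε²`.  `P₁ + P₂ = 1`, `P₁ P₂ = P₃²` by (a), (b).  Choose `α` with `α² = P₁` (`IsAlgClosed.exists_pow_nat_eq` or
`Complex.cpow`); if `α ≠ 0`, `β = P₃ / α`; otherwise `P₃ = 0`, `P₂ = 1`, `β = 1`.  Then `α² = P₁`, `α β = P₃`, `β² = P₂`, so
`‖α‖, ‖β‖ ≤ 1/ε`, `p = y2 + (y1 - y2) α²` etc. -/
def S_Two : Prop := ∀ (ε : ℝ) (x1 x2 y1 y2 z1 z2 p q r : ℂ), 0 < ε →
  ‖x1‖ = 1 → ‖x2‖ = 1 → ‖y1‖ = 1 → ‖y2‖ = 1 → ‖z1‖ = 1 → ‖z2‖ = 1 →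
  2 * ε ≤ ‖x1 - x2‖ → 2 * ε ≤ ‖y1 - y2‖ → z1 ≠ z2 → x1 * x2 = y1 * y2 * (z1 * z2) →
  -- h1, h2, h4: `Y² = σ Y - π`
  p * p + r * r = (y1 + y2) * p - y1 * y2 → r * (p + q) = (y1 + y2) * r →
  q * q + r * r = (y1 + y2) * q - y1 * y2 →
  -- g1, g3, g4
  (x1 * (y1 + y2 - p)) * (x1 * (y1 + y2 - p)) + (r * x1) * (r * x2) =
    (z1 + z2) * (y1 * y2) * (x1 * (y1 + y2 - p)) - z1 * z2 * (y1 * y2) ^ 2 →
  (r * x2) * (x1 * (y1 + y2 - p) + x2 * (y1 + y2 - q)) = (z1 + z2) * (y1 * y2) * (r * x2) →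
  (x2 * (y1 + y2 - q)) * (x2 * (y1 + y2 - q)) + (r * x1) * (r * x2) =
    (z1 + z2) * (y1 * y2) * (x2 * (y1 + y2 - q)) - z1 * z2 * (y1 * y2) ^ 2 →
  ∃ α β : ℂ, α ^ 2 + β ^ 2 = 1 ∧ ‖α‖ ≤ 1 / ε ∧ ‖β‖ ≤ 1 / ε ∧
    p * α + r * β = y1 * α ∧ r * α + q * β = y1 * β ∧
    p * β - r * α = y2 * β ∧ r * β - q * α = -(y2 * α)

section W

variable {W : Type} [AddCommGroup W] [Module ℂ W] {ι : Type} [Fintype ι] [DecidableEq ι]

/-- The family `v` is orthonormal and spans. -/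
def ON (B : LinearMap.BilinForm ℂ W) (v : ι → W) : Prop :=
  (∀ a b, B (v a) (v b) = if a = b then 1 else 0) ∧ ∀ w, ∑ a, B (v a) w • v a = w

/-- The operator satisfies the equation with the roots `y`, `z` on the vector `w`. -/
def Qd (X : Module.End ℂ W) (y z : ℂ) (w : W) : Prop := X (X w) = (y + z) • X w - (y * z) • w

end W

/-- (250 lines; uses `S_Two`) **Change of an orthonormal family.**

Proof.  (0) By `hκ` and `ON`: `Y (v a) = ∑_b B (v b) (Y (v a)) • v b`, only `b` with `κ b = κ a` occur.  By `hinj` there is at most one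
`b ≠ a` with `κ b = κ a`, and then `t b ≠ t a`.  Let `π a` be this `b` if it exists and `π a = a` otherwise; `π (π a) = a`, `κ (π a) = κ a`.
(1) `π a = a`: `Y (v a) = y • v a`; `hY`: `(y - y1 a) (y - y2 a) = 0`.  Let `f a = 1`, `g a = 0`, `t' a = true` if `y = y1 a`, else `false`
(then `y = y2 a`).
(2) `π a ≠ a`; let `u, u'` be `a, π a` in the order `t u = true`, `t u' = false`; `x1, …` have the same values at `u`, `u'` (`hx1` …).
`Y (v u) = p v u + r v u'`, `Y (v u') = r v u + q v u'` (`hYs`, symmetry of `B`).  `hY` at `u`, `u'` gives the first hypotheses of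
`S_Two` (compare coefficients of `v u`, `v u'` by applying `B (v u)`, `B (v u')`).  For `Z`: with `π₀ = y1 y2`,
`π₀ • w = Y ((y1+y2) • w - Y w)` for `w = v u, v u'` (`hY`), so `π₀ • Z w = X ((y1 + y2) • w - Y w)` (`hZY`):
`π₀ Z (v u) = x1 (σ - p) v u - r x2 v u'`, `π₀ Z (v u') = - r x1 v u + x2 (σ - q) v u'`; `hZ` (multiplied by `π₀²`) gives the other
hypotheses.  `S_Two` gives `α β`.  Let `f u = α`, `g u = β`, `f u' = - α`, `g u' = β`, `t' u = true`, `t' u' = false`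
(`choose` for the `u`; for `u'` take the values at `π u'`).
(3) `v' a = f a • v a + g a • v (π a)`.  `Y (v' u) = (p α + r β) v u + (r α + q β) v u' = y1 • v' u`,
`v' u' = - α v u' + β v u`, `Y (v' u') = (p β - r α) v u + (r β - q α) v u' = y2 • v' u'`.
`ON`: `B (v' a) (v' b)` for `b = a`: `f² + g² = 1` (or `1`); for `b = π a ≠ a`: `f a g (π a) + g a f (π a) = 0`; otherwise `0`.
Spanning: `∑_a B (v' a) w • v' a`, expand; by the substitution `a ↦ π a` (`Equiv.sum_comp`, `Function.Involutive.toPerm`) the terms with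
`g a ^ 2 B (v (π a)) w • v (π a)` become `g a ^ 2 B (v a) w • v a` and the mixed terms cancel (for `π a = a` they are `0`).
(4) `κ a = κ b`, `t' a = t' b`: `b = a` or `b = π a ≠ a`, and in the second case `t' a = t a ≠ t b = t' b`. -/
def S_Abs : Prop := ∀ (W : Type) [AddCommGroup W] [Module ℂ W] (ι K : Type) [Fintype ι]
  [DecidableEq ι] (B : LinearMap.BilinForm ℂ W) (v : ι → W) (κ : ι → K) (t : ι → Bool)
  (X Y Z : Module.End ℂ W) (x1 x2 y1 y2 z1 z2 : ι → ℂ) (ε : ℝ), 0 < ε → ε ≤ 1 →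
  (∀ x y, B x y = B y x) → ON B v →
  (∀ a b, κ a = κ b → t a = t b → a = b) →
  (∀ a b, κ a = κ b → x1 a = x1 b ∧ x2 a = x2 b ∧ y1 a = y1 b ∧ y2 a = y2 b ∧ z1 a = z1 b ∧
    z2 a = z2 b) →
  (∀ a, ‖x1 a‖ = 1 ∧ ‖x2 a‖ = 1 ∧ ‖y1 a‖ = 1 ∧ ‖y2 a‖ = 1 ∧ ‖z1 a‖ = 1 ∧ ‖z2 a‖ = 1 ∧
    2 * ε ≤ ‖x1 a - x2 a‖ ∧ 2 * ε ≤ ‖y1 a - y2 a‖ ∧ z1 a ≠ z2 a ∧
    x1 a * x2 a = y1 a * y2 a * (z1 a * z2 a)) →
  (∀ a, X (v a) = (if t a = true then x1 a else x2 a) • v a) →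
  (∀ x y, B (Y x) y = B x (Y y)) →
  (∀ a b, κ a ≠ κ b → B (v a) (Y (v b)) = 0) →
  (∀ w, Z (Y w) = X w) →
  (∀ a, Qd Y (y1 a) (y2 a) (v a)) →
  (∀ a, Qd Z (z1 a) (z2 a) (v a)) →
  ∃ (v' : ι → W) (t' : ι → Bool), ON B v' ∧
    (∀ a, Y (v' a) = (if t' a = true then y1 a else y2 a) • v' a) ∧
    (∀ a b, κ a = κ b → t' a = t' b → a = b) ∧
    ∀ a, ∃ (a' : ι) (f g : ℂ), κ a' = κ a ∧ v' a = f • v a + g • v a' ∧ ‖f‖ ≤ 1 / ε ∧ ‖g‖ ≤ 1 / ε

/-! ## Part 3: frames -/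

/-- The eigenvalue of the full twist of `k` strands with the label `x`. -/
noncomputable def th (A : ℂ) (k x : ℕ) : ℂ := A ^ ((x : ℤ) ^ 2 - 1 - 3 * (k : ℤ))

/-- The first eigenvalue of a strand which goes around others. -/
noncomputable def ra (A : ℂ) (t x : ℕ) : ℂ := A ^ (2 * (x : ℤ) - (t : ℤ))

/-- The second eigenvalue of a strand which goes around others. -/
noncomputable def rb (A : ℂ) (t x : ℕ) : ℂ := A ^ (-(2 * (x : ℤ)) - (t : ℤ))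

/-- The situation of Part 3: the braid group acts on `W` by operators which are symmetric for `B`.
(`qa`, `qb`: a strand which goes around `k` strands with the label `x`, and with the label `x` of all
`k + 1` strands.) -/
structure Mdl (A : ℂ) (m : ℕ) (ε : ℝ) (W : Type) [AddCommGroup W] [Module ℂ W]
    (B : LinearMap.BilinForm ℂ W) (u : ℕ → (Module.End ℂ W)ˣ) : Prop where
  nA : ‖A‖ = 1
  rou : ∀ n : ℕ, 0 < n → A ^ n ≠ 1
  gap : ∀ n : ℕ, 1 ≤ n → n ≤ m + 1 → 2 * ε ≤ ‖A ^ (2 * n) - (A ^ (2 * n))⁻¹‖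
  e0 : 0 < ε
  e1 : ε ≤ 1
  sym : ∀ x y, B x y = B y x
  br : MV.Br m u
  adj : ∀ j, j + 1 < m → ∀ x y, B ((u j).val x) y = B x ((u j).val y)
  lb : ∀ q k, q + k ≤ m → ∀ (w : W) (c : ℂ), w ≠ 0 → (Fq u q k).val w = c • w →
    ∃ x : ℕ, 1 ≤ x ∧ x ≤ k + 1 ∧ c = th A k x
  qa : ∀ q k, q + k < m → ∀ (x : ℕ) (w : W), 1 ≤ x → (Fq u q k).val w = th A k x • w →
    Qd (Jq u q k).val (ra A 2 x) (rb A 2 x) w
  qb : ∀ q k, q + k < m → ∀ (x : ℕ) (w : W), 1 ≤ x → (Fq u q (k + 1)).val w = th A (k + 1) x • w →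
    Qd (Jq u q k).val (ra A 4 x) (rb A 4 x) w

/-- `v` is a frame for the set `C` of intervals, `lab a n` is the label of `v a` at the interval `n`. -/
structure Frame (A : ℂ) {W : Type} [AddCommGroup W] [Module ℂ W] {ι : Type} [Fintype ι]
    [DecidableEq ι] (B : LinearMap.BilinForm ℂ W) (u : ℕ → (Module.End ℂ W)ˣ) (C : Set (ℕ × ℕ))
    (v : ι → W) (lab : ι → ℕ × ℕ → ℕ) : Prop where
  on : ON B v
  ev : ∀ a, ∀ n ∈ C, (Fq u n.1 n.2).val (v a) = th A n.2 (lab a n) • v a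
  rg : ∀ a, ∀ n ∈ C, 1 ≤ lab a n ∧ lab a n ≤ n.2 + 1
  inj : ∀ a b, (∀ n ∈ C, lab a n = lab b n) → a = b

/-- `w` has coordinates of modulus at most `K` in a frame for `C`. -/
def Bd (A : ℂ) {W : Type} [AddCommGroup W] [Module ℂ W] (ι : Type) [Fintype ι] [DecidableEq ι]
    (B : LinearMap.BilinForm ℂ W) (u : ℕ → (Module.End ℂ W)ˣ) (C : Set (ℕ × ℕ)) (w : W) (K : ℝ) :
    Prop :=
  ∃ (v : ι → W) (lab : ι → ℕ × ℕ → ℕ), Frame A B u C v lab ∧ ∀ a, ‖B (v a) w‖ ≤ K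

/-- (120 lines) **Numbers.**

Proof.  `A ≠ 0`, `‖A ^ n‖ = 1`.  (1) `th A k x = th A k y` gives `A ^ (x² - y²) = 1`, so `x² = y²` (`rou` for `|x² - y²|`).
(2) norms.  (3) `ra - rb = A ^ (-t) (A ^ (2x) - A ^ (-2x))`.  (4) `ra * rb = A ^ (-2 t)`.  (5), (6): exponents:
`2 x - 2 + x² - 1 - 3 k = (x+1)² - 1 - 3 (k+1)`, `-2 x - 2 + x² - 1 - 3k = (x-1)² - 1 - 3(k+1)`; (7), (8):
`(x-1)² - 1 - 3 k + 2 x - 4 = x² - 1 - 3 (k+1)`, `(x+1)² - 1 - 3 k - 2x - 4 = x² - 1 - 3 (k+1)`.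
(9) `ra A t x ≠ rb A t x`: `A ^ (4 x) ≠ 1`. -/
def S_Num : Prop := ∀ (A : ℂ), ‖A‖ = 1 → (∀ n : ℕ, 0 < n → A ^ n ≠ 1) →
  (∀ k x y : ℕ, th A k x = th A k y → x = y) ∧
  (∀ k x t : ℕ, ‖th A k x‖ = 1 ∧ ‖ra A t x‖ = 1 ∧ ‖rb A t x‖ = 1) ∧
  (∀ t x : ℕ, ‖ra A t x - rb A t x‖ = ‖A ^ (2 * x) - (A ^ (2 * x))⁻¹‖) ∧
  (∀ t x : ℕ, ra A t x * rb A t x = (A ^ (2 * t))⁻¹) ∧
  (∀ k x : ℕ, ra A 2 x * th A k x = th A (k + 1) (x + 1)) ∧
  (∀ k x : ℕ, 1 ≤ x → rb A 2 x * th A k x = th A (k + 1) (x - 1)) ∧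
  (∀ k x : ℕ, 1 ≤ x → ra A 4 x * th A k (x - 1) = th A (k + 1) x) ∧
  (∀ k x : ℕ, rb A 4 x * th A k (x + 1) = th A (k + 1) x) ∧
  (∀ t x : ℕ, 1 ≤ x → ra A t x ≠ rb A t x)

/-- (80 lines; uses `S_Gj`, `S_Num`) **Symmetric operators, and the labels of `k` and of `k + 1` strands.**

Proof.  (1) `JJ (j+1) = s j * JJ j * s j`: induction with `adj`.  (2) `Fq u q (k+1) = Fq u q k * Jq u q k`, the two factors commute
(`MV.FF_commute`, `MV.JJ_comm`: the generators of `Fq u q k` commute with `Jq u q k`), induction.  (3) `HH (j+1) = HH j * RR j`, the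
adjoint of `RR j` is `LL j`, and `HH (j+1) = LL j * HH j` (`MV.HH_eq`).
(4) From `Fq u q (k+1) = Fq u q k * Jq u q k`: `Jq w = c • w` with `c = th A (k+1) j / th A k x`.  `qa`: `c² = (ra + rb) c - ra rb` as `w ≠ 0`, so
`c = ra A 2 x` or `rb A 2 x`; by `S_Num` `th A (k+1) j = th A (k+1) (x + 1)` or `… (x - 1)`, so `j = x + 1` or `j = x - 1`. -/
def S_Adj : Prop := ∀ (A : ℂ) (m : ℕ) (ε : ℝ) (W : Type) [AddCommGroup W] [Module ℂ W]
  (B : LinearMap.BilinForm ℂ W) (u : ℕ → (Module.End ℂ W)ˣ), Mdl A m ε W B u →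
  (∀ q k, q + k < m → ∀ x y, B ((Jq u q k).val x) y = B x ((Jq u q k).val y)) ∧
  (∀ q k, q + k ≤ m → ∀ x y, B ((Fq u q k).val x) y = B x ((Fq u q k).val y)) ∧
  (∀ q k, q + k ≤ m → ∀ x y, B ((Hq u q k).val x) y = B x ((Hq u q k).val y)) ∧
  ∀ q k, q + k < m → ∀ (x j : ℕ) (w : W), 1 ≤ x → 1 ≤ j → w ≠ 0 →
    (Fq u q k).val w = th A k x • w → (Fq u q (k + 1)).val w = th A (k + 1) j • w →
    (j = x + 1 ∧ (Jq u q k).val w = ra A 2 x • w ∧ (Jq u q k).val w = ra A 4 j • w) ∨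
      (j + 1 = x ∧ (Jq u q k).val w = rb A 2 x • w ∧ (Jq u q k).val w = rb A 4 j • w)

/-- The hypotheses of `S_RotR` and `S_RotL`: `C` contains the intervals `A = (i, kA)`, `B = (i + kA, kB)`
and `J = (i, kA + kB + 1)`, and is compatible with itself, with `I = (i, kA + kB)` and with
`K = (i + kA, kB + 1)`. -/
def RotH (m : ℕ) (C : Set (ℕ × ℕ)) (i kA kB : ℕ) : Prop :=
  1 ≤ kA ∧ 1 ≤ kB ∧ i + kA + kB < m ∧ (i, kA) ∈ C ∧ (i + kA, kB) ∈ C ∧ (i, kA + kB + 1) ∈ C ∧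
    (∀ n ∈ C, n.1 + n.2 ≤ m) ∧
    ∀ n ∈ C, Cpt n (i, kA + kB) ∧ Cpt n (i + kA, kB + 1) ∧ ∀ n' ∈ C, Cpt n n'

/-- (200 lines; uses `S_Gj`, `S_Gc`, `S_Num`, `S_Adj`, `S_Abs`) **The change
`((A B) c) → (A (B c))`.**

Proof.  `I`, `K` as in `RotH`; `I, K ∉ C` (`Cpt I K` is false as `kA, kB ≥ 1`).  Let `v`, `lab` be a frame for `C ∪ {I}`.  Apply `S_Abs` with
`κ a = fun n => if n ∈ C then lab a n else 0` (type `ℕ × ℕ → ℕ`), `t a = decide (lab a I + 1 = lab a J)`,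
`X = Jq u i (kA + kB)`, `Y = Jq u (i + kA) kB`, `Z = Rq * Jq u i kA * Rq⁻¹` with `Rq = Rq u (i + kA) kB` (units; `.val`), so `Z * Y = X` (`S_Gj`).
With the labels `α = lab a (i, kA)`, `β = lab a (i + kA, kB)`, `j = lab a J`: `x1 = ra A 4 j`, `x2 = rb A 4 j`, `y1 = ra A 2 β`, `y2 = rb A 2 β`,
`z1 = ra A 2 α`, `z2 = rb A 2 α`.  `hX`: `S_Adj` (4) for `I`, `J` (`v a ≠ 0` as `B (v a) (v a) = 1`).  Symmetry of `Y`: `S_Adj` (1).
`κ a ≠ κ b`: there is `n ∈ C` with different labels; `Fq n` commutes with `Y`, as it commutes with `Fq u (i+kA) kB` and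
`Fq u (i+kA) (kB+1) = Fq u (i+kA) kB * Y` (`S_Gc`); so `th (lab a n) B (v a) (Y (v b)) = B (Fq n (v a)) (Y (v b)) = B (v a) (Y (Fq n (v b))) = th (lab b n) B (v a) (Y (v b))`.
`hY`: `qa` for `(i + kA, kB)`.  `hZ`: `Fq u i kA` commutes with the generators `u (i + kA + l)` of `Rq`, so `w' = Rq⁻¹ (v a)` is an eigenvector with
label `α`, `qa` for `w'`, and apply `Rq`.  Norms, products `A⁻⁸ = A⁻⁴ A⁻⁴`, differences: `S_Num`, `gap` (the labels are at most `m + 1`).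
`hinj`: `t a = t b` and equal `j` give equal labels at `I` (`S_Adj` (4)).
Result: `v'`, `t'`; `lab' a n = if n = K then (if t' a then β + 1 else β - 1) else lab a n`.  For `n ∈ C`: `v' a` is a combination of `v a` and `v a'` with
the same labels on `C`.  For `K`: `Fq K = Fq u (i+kA) kB * Y`, `S_Num` (5), (6).  Range: by `lb` for `K` and `v' a ≠ 0` the label is `x` with
`1 ≤ x ≤ kB + 2`, `th A (kB+1) (β ± 1) = th A (kB+1) x` (`S_Num` (1)).  Injectivity: equal labels on `C` and at `K` give `κ a = κ b`, `t' a = t' b`.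
Coordinates: `‖B (v' a) w‖ ≤ (1/ε) (‖B (v a) w‖ + ‖B (v a') w‖)`. -/
def S_RotR : Prop := ∀ (A : ℂ) (m : ℕ) (ε : ℝ) (W : Type) [AddCommGroup W] [Module ℂ W] (ι : Type)
  [Fintype ι] [DecidableEq ι] (B : LinearMap.BilinForm ℂ W) (u : ℕ → (Module.End ℂ W)ˣ),
  Mdl A m ε W B u → ∀ (C : Set (ℕ × ℕ)) (i kA kB : ℕ), RotH m C i kA kB → ∀ (w : W) (K : ℝ),
  Bd A ι B u (C ∪ {(i, kA + kB)}) w K → Bd A ι B u (C ∪ {(i + kA, kB + 1)}) w (2 / ε * K)

/-- (200 lines; uses `S_Gj`, `S_Gc`, `S_Num`, `S_Adj`, `S_Abs`) **The change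
`(A (B c)) → ((A B) c)`.**

Proof.  As `S_RotR` with the roles of `X` and `Y` exchanged.  `v`, `lab` is a frame for `C ∪ {K}`; `t a = decide (lab a K = lab a (i+kA,kB) + 1)`,
`X = Jq u (i + kA) kB`, `Y = Jq u i (kA + kB)`, `Z = Rq * (Jq u i kA)⁻¹ * Rq⁻¹`, `Z * Y = X`; `x1 = ra A 2 β`, `x2 = rb A 2 β`,
`y1 = ra A 4 j`, `y2 = rb A 4 j`, `z1 = (ra A 2 α)⁻¹`, `z2 = (rb A 2 α)⁻¹`.  `hX`: `S_Adj` (4) for `(i+kA,kB)`, `K`.  `hY`: `qb` for `J`.
`Y` preserves the classes: `Fq n`, `n ∈ C`, commutes with `Fq I` and `Fq J = Fq I * Y`.  `hZ`: for `w'` with the label `α` at `(i, kA)`, `M = Jq u i kA`: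
`M² w' = (r + r') M w' - r r' w'`; apply `M⁻²` (which commutes) and divide by `r r'`.  Products: `A⁻⁴ = A⁻⁸ A⁴`.
New labels `lab' a n = if n = I then (if t' a then j - 1 else j + 1) else lab a n`.  For `I`: `Fq I (Y w) = Fq J w`, so with `Y v' = y v'`:
`y • Fq I v' = th A (k+1) j • v'`, `k = kA + kB`, and `S_Num` (7), (8) (cancel `y ≠ 0`; for `t' a = true` and `j = 1` (7) also holds with the
label `0`).  Range: `lb` for `I`: `v' a` has a label `x` with `1 ≤ x ≤ k + 1` at `I`, equal to `j ∓ 1` by `S_Num` (1). -/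
def S_RotL : Prop := ∀ (A : ℂ) (m : ℕ) (ε : ℝ) (W : Type) [AddCommGroup W] [Module ℂ W] (ι : Type)
  [Fintype ι] [DecidableEq ι] (B : LinearMap.BilinForm ℂ W) (u : ℕ → (Module.End ℂ W)ˣ),
  Mdl A m ε W B u → ∀ (C : Set (ℕ × ℕ)) (i kA kB : ℕ), RotH m C i kA kB → ∀ (w : W) (K : ℝ),
  Bd A ι B u (C ∪ {(i + kA, kB + 1)}) w K → Bd A ι B u (C ∪ {(i, kA + kB)}) w (2 / ε * K)

/-- (150 lines; uses `S_Gh` for `G = (Module.End ℂ W)ˣ`, `S_Num`, `S_Adj`) **Half twists of frames.**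

Proof.  `H = Hq u p k`, `F = Fq u p k = H * H`.  Let `v`, `lab` be a frame for `C`, `x_a = lab a (p, k)`.  Choose `c a` with `c a ^ 2 = (th A k x_a)⁻¹`
(then `‖c a‖ = 1`), `v' a = c a • H (v a)`.  `B (H x) y = B x (H y)` (`S_Adj` (3)), so `B (v' a) (v' b) = c a c b B (v a) (F (v b)) = c a c b th A k x_b δ_ab`.
Spanning: let `w = H w₀` (`w₀ = H⁻¹ w`): `B (v' a) w = c a B (v a) (F w₀) = c a th A k x_a B (v a) w₀` (`F` symmetric, `F (v a) = th • v a`), so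
`∑ B (v' a) w • v' a = H (∑ c a ^ 2 th A k x_a B (v a) w₀ • v a) = H w₀ = w`.  Labels: `lab' a n = lab a (flip p k n)`; for `n' = flip p k n`, `n ∈ C`:
`flip p k n' = n` (`n` inside of `(p, k)`: `n'` is inside too; otherwise `n' = n`) and `Fq n' (H (v a)) = H (Fq n (v a))` (`S_Gh`; note `n'.2 = n.2`).
Injectivity: `n = flip p k n'`.  Coordinates: `‖B (v' a) (H w)‖ = ‖B (v a) (F w)‖ = ‖th • B (v a) w‖ = ‖B (v a) w‖` and
`‖B (v' a) (H⁻¹ w)‖ = ‖B (v a) (H (H⁻¹ w))‖ = ‖B (v a) w‖`. -/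
def S_HalfF : Prop := ∀ (A : ℂ) (m : ℕ) (ε : ℝ) (W : Type) [AddCommGroup W] [Module ℂ W] (ι : Type)
  [Fintype ι] [DecidableEq ι] (B : LinearMap.BilinForm ℂ W) (u : ℕ → (Module.End ℂ W)ˣ),
  Mdl A m ε W B u → ∀ (C : Set (ℕ × ℕ)) (p k : ℕ), p + k ≤ m → (p, k) ∈ C →
  (∀ n ∈ C, n.1 + n.2 ≤ m ∧ Cpt n (p, k)) → ∀ (w : W) (K : ℝ), Bd A ι B u C w K →
  Bd A ι B u (flip p k '' C) ((Hq u p k).val w) K ∧
    Bd A ι B u (flip p k '' C) ((Hq u p k)⁻¹.val w) K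

/-- (80 lines; uses `S_Num`, `S_Adj`) **Two frames of the same set.**

Proof.  Let `v`, `lab` and `v₀`, `lab₀` be frames for `C`.  `B (v₀ b) (v a) ≠ 0` implies `lab₀ b n = lab a n` for all `n ∈ C` (`Fq n` is symmetric,
`S_Num` (1)), so for given `a` there is at most one such `b` (`inj`), and there is one, as otherwise `v a = ∑ B (v₀ b) (v a) • v₀ b = 0`, but
`B (v a) (v a) = 1`.  So `v a = c • v₀ b`, `c² = 1`, `‖B (v a) x‖ = ‖B (v₀ b) x‖ ≤ K₀`.  Then `B x w = ∑_a B (v a) w * B x (v a)`. -/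
def S_Uq : Prop := ∀ (A : ℂ) (m : ℕ) (ε : ℝ) (W : Type) [AddCommGroup W] [Module ℂ W] (ι : Type)
  [Fintype ι] [DecidableEq ι] (B : LinearMap.BilinForm ℂ W) (u : ℕ → (Module.End ℂ W)ˣ),
  Mdl A m ε W B u → ∀ (C : Set (ℕ × ℕ)), (∀ n ∈ C, n.1 + n.2 ≤ m) →
  ∀ (x w : W) (K₀ K : ℝ), 0 ≤ K₀ → Bd A ι B u C x K₀ → Bd A ι B u C w K →
  ‖B x w‖ ≤ Fintype.card ι * (K₀ * K)

/-! ## Part 4: trees -/

/-- `Rot T T' c`: in the tree `T` a subtree `((A B) C)` is replaced by `(A (B C))`, or the other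
way round, and the result is `T'`; `c` is the square of the smaller one of the numbers of leaves
of `A` and `C`. -/
inductive Rot : Tree → Tree → ℕ → Prop
  | fwd (A B C : Tree) :
      Rot (.node (.node A B) C) (.node A (.node B C)) (min A.leaves C.leaves ^ 2)
  | bwd (A B C : Tree) :
      Rot (.node A (.node B C)) (.node (.node A B) C) (min A.leaves C.leaves ^ 2)
  | left {S S' : Tree} {c : ℕ} (T : Tree) : Rot S S' c → Rot (.node S T) (.node S' T) c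
  | right (S : Tree) {T T' : Tree} {c : ℕ} : Rot T T' c → Rot (.node S T) (.node S T') c

/-- The intervals of the subtrees of a tree whose first leaf is the strand `o`. -/
def nodes : Tree → ℕ → Set (ℕ × ℕ)
  | .leaf, o => {(o, 1)}
  | .node S T, o => {(o, S.leaves + T.leaves)} ∪ (nodes S o ∪ nodes T (o + S.leaves))

/-- Changes `((A B) c) ↔ (A (B c))` of a subtree, `c` a leaf. -/
inductive ElR : Tree → Tree → Prop
  | fwd (A B : Tree) : ElR (.node (.node A B) .leaf) (.node A (.node B .leaf))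
  | bwd (A B : Tree) : ElR (.node A (.node B .leaf)) (.node (.node A B) .leaf)
  | left {S S' : Tree} (T : Tree) : ElR S S' → ElR (.node S T) (.node S' T)
  | right (S : Tree) {T T' : Tree} : ElR T T' → ElR (.node S T) (.node S T')

/-- Changes `(c (A B)) ↔ ((c A) B)` of a subtree, `c` a leaf. -/
inductive ElL : Tree → Tree → Prop
  | fwd (A B : Tree) : ElL (.node .leaf (.node A B)) (.node (.node .leaf A) B)
  | bwd (A B : Tree) : ElL (.node (.node .leaf A) B) (.node .leaf (.node A B))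
  | left {S S' : Tree} (T : Tree) : ElL S S' → ElL (.node S T) (.node S' T)
  | right (S : Tree) {T T' : Tree} : ElL T T' → ElL (.node S T) (.node S T')

/-- Chains of such changes. -/
inductive Ch : Tree → Tree → ℕ → Prop
  | refl (T : Tree) : Ch T T 0
  | stepR {S T U : Tree} {n : ℕ} : Ch S T n → ElR T U → Ch S U (n + 1)
  | stepL {S T U : Tree} {n : ℕ} : Ch S T n → ElL T U → Ch S U (n + 1)

/-- (80 lines) **Leaves and nodes.**

Proof.  Inductions.  For `node S T`: the intervals of `S` are in `[o, o + S.leaves)`, those of `T` in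
`[o + S.leaves, o + S.leaves + T.leaves)`. -/
def S_Lam : Prop :=
  (∀ T : Tree, 1 ≤ T.leaves ∧ T.mirror.leaves = T.leaves ∧ T.mirror.mirror = T) ∧
  (∀ n : ℕ, (Tree.comb n).leaves = n + 1) ∧
  (∀ (T : Tree) (o : ℕ), (o, T.leaves) ∈ nodes T o ∧
    (∀ n ∈ nodes T o, o ≤ n.1 ∧ n.1 + n.2 ≤ o + T.leaves ∧ 1 ≤ n.2) ∧
    ∀ n ∈ nodes T o, ∀ n' ∈ nodes T o, Cpt n n') ∧
  (∀ T T' : Tree, ElR T T' → T'.leaves = T.leaves) ∧
  (∀ T T' : Tree, ElL T T' → T'.leaves = T.leaves) ∧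
  (∀ (T T' : Tree) (c : ℕ), Rot T T' c → T'.leaves = T.leaves) ∧
  ∀ (o : ℕ) (T T' : Tree) (p k : ℕ), Turn o T T' p k →
    T'.leaves = T.leaves ∧ o ≤ p ∧ p + k ≤ o + T.leaves ∧ (p, k) ∈ nodes T o

/-- (120 lines; uses `S_Lam`) **The nodes after a half twist.**

Proof.  (1) `T' = T.mirror`, `p = o`, `k = T.leaves`: induction on `T` for a general claim: for every `q, l` with `q ≤ o`, `o + T.leaves ≤ q + l`:
`flip q l '' nodes T o = nodes T.mirror (2 q + l - o - T.leaves)`; for `node S T`, `mirror = node T.mirror S.mirror`, the first strand is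
`2q + l - o - S.leaves - T.leaves`, and `flip q l` maps the root to the root, `nodes T (o + S.leaves)` to `nodes T.mirror (2q + l - o - S.leaves - T.leaves)`, `nodes S o`
to `nodes S.mirror (2q + l - o - S.leaves)`.  For `q = o`, `l = T.leaves` this is the claim.
(2) `left`, `right`: `(p, k)` is inside of the interval of the subtree `S` (`S_Lam`), `flip p k` fixes the root `(o, S.leaves + T.leaves)` (it is inside of `(p, k)`
only if it is equal to `(p, k)`, and then `flip p k (p, k) = (p, k)`) and the intervals of the other subtree (disjoint from `(p, k)` and not empty). -/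
def S_Tn : Prop := ∀ (o : ℕ) (T T' : Tree) (p k : ℕ), Turn o T T' p k →
  nodes T' o = flip p k '' nodes T o

/-- (120 lines; uses `S_Lam`) **The nodes after a change; left changes.**

Proof.  First part, induction.  Base, at `o` with `a = A.leaves`, `b = B.leaves`: `i = o`, `kA = a`, `kB = b`,
`C = {(o, a + b + 1)} ∪ nodes A o ∪ nodes B (o + a) ∪ {(o + a + b, 1)}` (the roots of `A`, `B` are in `C`, `S_Lam`).  `left`: add the root and the nodes of `T`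
to `C` (`S'.leaves = S.leaves`), `right`: add the root and the nodes of `S`.
Second part, induction.  Base: `T = (c (A B))`; `T₁ = T.mirror = ((B' A') c)`, `T₂ = (B' (A' c))`, `T₂.mirror = ((c A) B)` (`mirror_mirror`), both `Turn.whole`
with the same `p = o`, `k` (the numbers of leaves agree).  `bwd` in the same way, and `left`, `right` by the constructors. -/
def S_Rn : Prop :=
  (∀ (T T' : Tree), ElR T T' → ∀ o : ℕ, ∃ (C : Set (ℕ × ℕ)) (i kA kB : ℕ), 1 ≤ kA ∧ 1 ≤ kB ∧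
    (i, kA) ∈ C ∧ (i + kA, kB) ∈ C ∧ (i, kA + kB + 1) ∈ C ∧
    ((nodes T o = C ∪ {(i, kA + kB)} ∧ nodes T' o = C ∪ {(i + kA, kB + 1)}) ∨
      (nodes T o = C ∪ {(i + kA, kB + 1)} ∧ nodes T' o = C ∪ {(i, kA + kB)}))) ∧
  ∀ (T T' : Tree), ElL T T' → ∀ o : ℕ, ∃ (T₁ T₂ : Tree) (p k : ℕ),
    Turn o T T₁ p k ∧ ElR T₁ T₂ ∧ Turn o T₂ T' p k

/-- (150 lines; uses `S_Lam`) **A general change is a chain of `min(|A|, |C|) ^ 2` elementary ones.**

Proof.  Closure properties of `Ch`: transitivity (`Ch S T a → Ch T U b → Ch S U (a + b)`), symmetry (`ElR`, `ElL` are symmetric), congruence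
(`Ch S S' n → Ch (node S T) (node S' T) n` and on the right), mirror (`ElR T T' → ElL T.mirror T'.mirror` and conversely, so
`Ch T T' n → Ch T.mirror T'.mirror n`).  Monotonicity is not needed: write `∃ n ≤ …`.
(1) For every tree `C` with `c` leaves: `Ch C (comb (c - 1)) n` with `2 n ≤ (c - 1) (c - 2)`.  Induction on `C`: `C = node X Y`, `x`, `y` leaves: change `X`, `Y` to combs, then
`(comb (x-1)) (comb (y-1))` to `comb (x + y - 1)` by `y - 1` steps: for `y = 1` it is `comb x` by definition; `(X ((comb y') leaf)) → ((X (comb y')) leaf)` (`ElR.bwd`), then the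
induction on `y` inside, and `node (comb …) leaf = comb (… + 1)`.  `(x-1)(x-2) + (y-1)(y-2) + 2 (y-1) ≤ (x+y-1)(x+y-2)` (difference `2 y (x - 1)`).
(2) `Ch (node (node A B) (comb k)) (node A (node B (comb k))) (3 k + 1)`.  Induction on `k`: `k = 0`: `ElR.fwd`.  `comb (k+1) = node (comb k) leaf`:
`((A B) (K c)) → (((A B) K) c) → ((A (B K)) c) → (A ((B K) c)) → (A (B (K c)))`: `1 + (3 k + 1) + 1 + 1`.
(3) General `C` with `c` leaves: by (1), (2) `((A B) C) → ((A B) comb) → (A (B comb)) → (A (B C))` of length `≤ (c-1)(c-2) + 3 (c - 1) + 1 = c²`.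
(4) By the mirror image: `≤ |A|²`.  So `≤ min ^ 2`.  `Rot.bwd` by symmetry, `left`, `right` by congruence. -/
def S_Mv : Prop := ∀ (T T' : Tree) (c : ℕ), Rot T T' c → ∃ n ≤ c, Ch T T' n

/-- (150 lines; uses `S_Lam`, `S_Tn`, `S_Rn`, `S_Wd`, `S_RotR`, `S_RotL`, `S_HalfF`, `S_Num` and
`S_RotM`, `S_Rn2`, `S_Mv2` of `TP/Spec2.lean`) **Walks.**

Proof.  (a) `ElR T T'`, `T.leaves = m`, `Bd (nodes T 0) w K → Bd (nodes T' 0) w (2/ε K)`: `S_Rn`, `RotH m C i kA kB` from `S_Lam` for `T` and for `T'`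
(the nodes are in `[0, m)`; `C ∪ {I}`, `C ∪ {K}` are the sets of nodes of the two trees; `i + kA + kB < m` from `(i, kA + kB + 1) ∈ C`).
(b) `Turn 0 T T' p k`: `Bd (nodes T 0) w K → Bd (nodes T' 0) (H w) K` and with `H⁻¹`: `S_HalfF`, `S_Tn`, `S_Lam`.
(c) `ElL T T'`: by `S_Rn`, (b), (a), (b): `w → H w → H w → H⁻¹ H w = w`, factor `2/ε`.
(d) `Ch T T' n`: factor `(2/ε)^n`, (`K ≥ 0` as `ι` is not empty or the claim is monotone: `Bd … w K → K ≤ K' → Bd … w K'`; if `ι` is empty, `Bd` does not depend on `K`).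
(e) Induction on `Walk`: `opG u (cs ++ cs') = opG u cs' * opG u cs`, `S_Wd`; for `change` use `S_Mv2`, `n ≤ c`, `2/ε ≥ 1`.
(f) `reroot`: `T = ((A B) C)`, `T' = (A (B C))` (both directions), `a, b, c` leaves, `a + b + c = m`: `nodes T 0 = C₀ ∪ {(0, a+b)}`, `nodes T' 0 = C₀ ∪ {(a, b+c)}` with
`(0, a), (a+b, c) ∈ C₀`.  By the last hypothesis `Fq u a (m - a)` is a multiple of `Fq u 0 a`, and `Fq u (a+b) c` of `Fq u 0 (a+b)`, and
`A ^ (6 q - 3 m) th A q x = th A (m - q) x`.  So the same `v` is a frame for `nodes T' 0` with the label `lab (0, a)` at `(a, b+c)`; its range from `lb`; injectivity: the label at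
`(0, a+b)` is equal to the label at `(a+b, c)`.  The other direction in the same way (the label at `(0, a+b)` is that at `(a+b, c)`). -/
def S_Wk : Prop := ∀ (A : ℂ) (m : ℕ) (ε : ℝ) (W : Type) [AddCommGroup W] [Module ℂ W] (ι : Type)
  [Fintype ι] [DecidableEq ι] (B : LinearMap.BilinForm ℂ W) (u : ℕ → (Module.End ℂ W)ˣ),
  Mdl A m ε W B u → (∀ q, q ≤ m → ∀ x : W,
    (Fq u q (m - q)).val x = A ^ (6 * (q : ℤ) - 3 * (m : ℤ)) • (Fq u 0 q).val x) →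
  ∀ (S T : Tree) (cs : List (ℕ × Bool)) (N : ℕ), S.leaves = m → Walk S cs N T →
  ∀ (w : W) (K : ℝ), Bd A ι B u (nodes S 0) w K →
    T.leaves = m ∧ Bd A ι B u (nodes T 0) ((opG u cs).val w) ((2 / ε) ^ N * K)

/-! ## Part 5: the path model -/

/-- (200 lines) **The Temperley-Lieb relations in the path model.**

Proof.  `ext_eP`, and the lemmas `around_le`, `around_top`, `around_up` of `MT/Around.lean` (copy what is needed; `MT/U2.lean`: `sU2 : S_U2`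
gives `sq`).  Write `a_{i,x}` for `Function.update a i x`.
`up`: let `a` be a path, `x = a j = a (j+2)` (otherwise both sides vanish), `y = a (j+3)`, so `y = x ± 1`.
`U_j U_{j+1} U_j ψ a = b (a (j+1)) / b x * ∑_{u = x ± 1} (U_{j+1} U_j ψ) (a_{j+1,u})`, the summand is `0` unless `u = y` (and `a_{j+1,y}` is a path, as `1 ≤ y ≤ R`);
`(U_{j+1} U_j ψ) (a_{j+1,y}) = b x / b y * ∑_{w = y ± 1} (U_j ψ) (a_{j+1,y; j+2,w})`, the summand is `0` unless `w = x`, and then the path is `a_{j+1,y}` (`a (j+2) = x`), and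
`(U_j ψ) (a_{j+1,y}) = b y / b x * (ψ (a_{j+1,x+1}) + ψ (a_{j+1,x-1}))`.  Total: `b (a (j+1)) / b x * (…) = U_j ψ a` (`b x`, `b y ≠ 0`).
(`x - 1` is natural subtraction; a path has values `≥ 1`, so if `x = 1` the update to `0` is not a path and gives `0`.)
`dn`: in the same way: `x = a (j+1) = a (j+3)`, `y = a j = x ± 1`, the middle operator needs the value `y` at `j + 2`.
`comm`: `i + 2 ≤ j`: `U_i` changes only the place `i + 1`, `U_j` only the place `j + 1`, and the conditions of `U_i` (places `i, i+2`) and of `U_j` (places `j, j+2`)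
and the coefficients involve places which are not changed by the other one, except `i + 2 ≤ j`; `Function.update_comm`. -/
def S_TLp : Prop := ∀ (d : ℂ) (b : ℕ → ℂ) (R m : ℕ), Hts d b R m → MV.TL d m (eP b R m)

/-- (120 lines; uses `S_TLp`) **The generators in the path model and the words of crossings.**

Proof.  `u j = ⟨A + A⁻¹ e_j, A⁻¹ + A e_j, …⟩` for `j + 1 < m`, `1` otherwise (`(A + A⁻¹ e) (A⁻¹ + A e) = 1 + (A² + A⁻² + d) e = 1`).  `MV.Br m u`: `MV.TL.br` with the unit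
`Units.mk0 A hA` (`MV.dl`, `MV.sg`), `Units.ext`.  Symmetry: `MT/Sym.lean` (`sSym`), `MT/Fin.lean` (`sFin`), `BP_apply`, `ext_eP`, `ext_supp`.
The last claim: induction on `cs` (for all `ψ`): `MT.rho (c :: cs) ψ = rho cs (sg c ψ)`, `opG u (c :: cs) = opG u cs * u_c`, and
`ext ((u_c).val ψ) = sg … c (ext ψ)` (`ext_add`, `ext_smul`, `ext_eP`). -/
def S_Un : Prop := ∀ (A : ℂ) (b : ℕ → ℂ) (R m : ℕ), A ≠ 0 → Hts (-A ^ 2 - (A ^ 2)⁻¹) b R m →
  ∃ u : ℕ → (Module.End ℂ (PT R m → ℂ))ˣ, MV.Br m u ∧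
    (∀ j, j + 1 < m → (u j).val = A • (1 : Module.End ℂ (PT R m → ℂ)) + A⁻¹ • eP b R m j) ∧
    (∀ j, j + 1 < m → ∀ φ ψ, BP b R m ((u j).val φ) ψ = BP b R m φ ((u j).val ψ)) ∧
    ∀ (cs : List (ℕ × Bool)), (∀ c ∈ cs, c.1 + 1 < m) → ∀ ψ : PT R m → ℂ,
      ext R m ((opG u cs).val ψ) = rho A A⁻¹ b R m cs (ext R m ψ)

/-- (120 lines) **The first strands are diagonal.**

Proof.  `MT/Around.lean` (`sAround`) for `around j`, `j + 1 < m`: `opG u ((around j).map (·, true)) = Jq u 0 (j + 1)` (`around_succ` in `MT/Around.lean`: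
`around (j+1) = (j+1) :: around j ++ [j+1]`, `MV.JJ`), so with the last claim of `S_Un` `(Jq u 0 (j+1)).val ψ a = A ^ (a (j+2)² - a (j+1)² - 3) ψ a`.  `Jq u 0 0 = 1` and
`a 0 = 1`, `a 1 = 2` if `0 < m` (a step from `1`, values `≥ 1`): exponent `0`.  `Fq u 0 (k+1) = Fq u 0 k * Jq u 0 k`, so by induction
`(Fq u 0 k).val ψ a = A ^ (a k ^ 2 - 1 - 3 k) ψ a = th A k (a k) * ψ a` (the exponents telescope). -/
def S_Dg : Prop := ∀ (A : ℂ) (b : ℕ → ℂ) (R m : ℕ), A ≠ 0 → A ^ 4 ≠ 1 →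
  Hts (-A ^ 2 - (A ^ 2)⁻¹) b R m → ∀ u : ℕ → (Module.End ℂ (PT R m → ℂ))ˣ,
  (∀ (cs : List (ℕ × Bool)), (∀ c ∈ cs, c.1 + 1 < m) → ∀ ψ : PT R m → ℂ,
      ext R m ((opG u cs).val ψ) = rho A A⁻¹ b R m cs (ext R m ψ)) →
  (∀ k, k < m → ∀ (ψ : PT R m → ℂ) (a : PT R m), (Jq u 0 k).val ψ a =
    A ^ ((a.1 (k + 1) : ℤ) ^ 2 - (a.1 k : ℤ) ^ 2 - 3) * ψ a) ∧
  ∀ k, k ≤ m → ∀ (ψ : PT R m → ℂ) (a : PT R m), (Fq u 0 k).val ψ a = th A k (a.1 k) * ψ a

/-- (180 lines; uses `S_Sh`, `S_Num`; `u` from `S_Un`, the diagonal form from `S_Dg`) **The path model is a model.**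

Proof.  `lb`: `MV.aeval_ann` with the unit `Units.mk0 A hA`, `e = fun j => eP b R m (q + j)` (`MV.TL` of `k` strands, from the hypothesis, shifted), and
`Fq u q k` `.val` `= MV.FF (MV.sg A e) k` (`FF` depends only on the generators with index `< k - 1`, and `Units.val` is multiplicative): `ann` annihilates it, so
`∏_j (c - lam A k j) • w = 0` (`Module.End.aeval_apply_of_hasEigenvector` or directly `aeval_mul_comm`-like induction: `aeval F p w = p.eval c • w`), so `c = lam A k j`,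
`j ≤ k/2`, `x = k - 2 j + 1`: `(k-2j)² + 2 (k-2j) - 3k = x² - 1 - 3k`.
`qa`, `qb`: induction on `q`.  `q = 0`: `S_Dg`.  `qa`: `w a = 0` or `a k = x` (`S_Num` (1)); in the second case `(Jq w) a = λ w a`, `λ = A ^ (a(k+1)² - x² - 3)`,
`a (k+1) = x ± 1`, so `λ = ra A 2 x` or `rb A 2 x`.  `qb`: `w a = 0` or `a (k+1) = x`, `λ = A ^ (x² - a(k)² - 3)`, `a k = x ∓ 1`, `λ = ra A 4 x` or `rb A 4 x`.
(`k < m`, so `a` makes a step from `k` to `k + 1`.)  `q → q + 1`: `X = Lq u q (k+1)` (`S_Sh`): for `w` put `w' = X⁻¹ w`; `Fq u q k w' = th • w'`, so `Qd (Jq u q k) w'`,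
and apply `X`. -/
def S_Mdl : Prop := ∀ (A : ℂ) (b : ℕ → ℂ) (R m : ℕ) (ε : ℝ), ‖A‖ = 1 →
  (∀ n : ℕ, 0 < n → A ^ n ≠ 1) →
  (∀ n : ℕ, 1 ≤ n → n ≤ m + 1 → 2 * ε ≤ ‖A ^ (2 * n) - (A ^ (2 * n))⁻¹‖) → 0 < ε → ε ≤ 1 →
  Hts (-A ^ 2 - (A ^ 2)⁻¹) b R m → MV.TL (-A ^ 2 - (A ^ 2)⁻¹) m (eP b R m) →
  ∀ u : ℕ → (Module.End ℂ (PT R m → ℂ))ˣ, MV.Br m u →
  (∀ j, j + 1 < m → (u j).val = A • (1 : Module.End ℂ (PT R m → ℂ)) + A⁻¹ • eP b R m j) →
  (∀ j, j + 1 < m → ∀ φ ψ, BP b R m ((u j).val φ) ψ = BP b R m φ ((u j).val ψ)) →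
  (∀ k, k < m → ∀ (ψ : PT R m → ℂ) (a : PT R m), (Jq u 0 k).val ψ a =
    A ^ ((a.1 (k + 1) : ℤ) ^ 2 - (a.1 k : ℤ) ^ 2 - 3) * ψ a) →
  (∀ k, k ≤ m → ∀ (ψ : PT R m → ℂ) (a : PT R m), (Fq u 0 k).val ψ a = th A k (a.1 k) * ψ a) →
  Mdl A m ε (PT R m → ℂ) (BP b R m) u

/-- (150 lines; uses `S_Num`) **The frame of the left comb.**

Proof.  `ι = PT R m`, `v a = c a • Pi.single a 1`, `c a ^ 2 = ∏_{j<m} b (a (j+1)) ≠ 0` (`Hts.ne`, the values of a path are in `[1, R]`).  `BP φ ψ = ∑_a φ a ψ a / ∏_j b (a (j+1))`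
(a sum over `Om R m`; `Om` is the set of all paths by `sFin`; convert to a sum over the type `PT R m`), so `B (v a) ψ = ψ a / c a`: orthonormal, spanning.
Labels: `nodes (comb (m-1)) 0 = {(0, k) : 1 ≤ k ≤ m} ∪ {(j, 1) : j < m}` (at least `⊆` and `(0, k) ∈` for `1 ≤ k ≤ m`; induction).
`lab a n = if n.2 = 1 then 2 else a n.2`; `Fq u q 1 = 1` (`MV.FF s 1 = 1 * 1`), `th A 1 2 = A ^ 0 = 1`; for `(0, k)`, `k ≠ 1`: hypothesis; `a 1 = 2`.  Range: `1 ≤ a k ≤ k + 1`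
(`around_le`).  Injectivity: equal values at `2 ≤ k ≤ m`, at `0`, `1` and at `k ≥ m` (`1`).
Size: `‖ket μ a‖² ≤ R ^ m`: `ket μ a = ∏_x g x`, `g x = b (a (x+1))` or `1`; `‖g x‖ ≤ h x`, `h x = R` if `x < μ x` and `1` otherwise, `h x * h (μ x) = R`, so
`(∏ h)² = ∏ h x * ∏ h (μ x) = R ^ m` (`Equiv.prod_comp` with the involution).  `‖c a‖² = ∏ ‖b‖ ≥ ε ^ m`.  So `‖B (v a) (kP μ)‖² ≤ (R/ε)^m`. -/
def S_In : Prop := ∀ (A : ℂ) (b : ℕ → ℂ) (R m : ℕ) (ε : ℝ), 0 < m → ‖A‖ = 1 →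
  (∀ n : ℕ, 0 < n → A ^ n ≠ 1) → Hts (-A ^ 2 - (A ^ 2)⁻¹) b R m → 0 < ε →
  (∀ n, 1 ≤ n → n ≤ R → ε ≤ ‖b n‖) → (∀ n : ℕ, ‖b n‖ ≤ n) →
  ∀ u : ℕ → (Module.End ℂ (PT R m → ℂ))ˣ,
  (∀ k, k ≤ m → ∀ (ψ : PT R m → ℂ) (a : PT R m), (Fq u 0 k).val ψ a = th A k (a.1 k) * ψ a) →
  ∀ (_ : Fintype (PT R m)) (_ : DecidableEq (PT R m)) (μ : Matching m),
    Bd A (PT R m) (BP b R m) u (nodes (Tree.comb (m - 1)) 0) (kP b R μ) (Real.sqrt ((R / ε) ^ m))

/-- (100 lines; uses `S_Lam`, `S_TLp`, `S_Un`, `S_Dg`, `S_Mdl`, `S_In`, `S_Wk`, `S_Uq`, and `S_Rt` of `TP/Spec2.lean`) **The generic bound.**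

Proof.  `EE = BB (ket ν) (rho cs (ket μ)) = BP (kP ν) ((opG u cs).val (kP μ))` (`hEv` = the conclusion of `MT.S_Eval`, `ext_kP`, `S_Un`; the crossings of a walk satisfy
`c.1 + 1 < m`: `S_Lam` for `Turn`, members of `halfTwist k` are `< k - 1`).  `u`, `Mdl` from `S_Un`, `S_Dg`, `S_Mdl`; `S_In` for `μ` and `ν`; `S_Wk` gives
`Bd (nodes (comb (m-1)) 0) ((opG u cs).val (kP μ)) ((2/ε)^N K₀)`, `K₀² = (R/ε)^m`; `S_Uq`: `‖…‖ ≤ card * K₀ * (2/ε)^N K₀`, `card (PT R m) ≤ 2 ^ m` (`MT.sFin`).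
`Fintype (PT R m)` from `MT.sFin`. -/
def S_Gn : Prop :=
  (∀ (A A' d : ℂ) (b : ℕ → ℂ) (R m : ℕ), Hts d b R m → ∀ (cs : List (ℕ × Bool)),
    (∀ c ∈ cs, c.1 + 1 < m) → ∀ μ ν : Matching m,
    EE A A' d cs μ ν = BB b R m (ket b R ν) (rho A A' b R m cs (ket b R μ))) →
  ∀ (A : ℂ) (b : ℕ → ℂ) (R m : ℕ) (ε : ℝ), 0 < m → ‖A‖ = 1 → (∀ n : ℕ, 0 < n → A ^ n ≠ 1) →
  (∀ n : ℕ, 1 ≤ n → n ≤ m + 1 → 2 * ε ≤ ‖A ^ (2 * n) - (A ^ (2 * n))⁻¹‖) → 0 < ε → ε ≤ 1 →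
  Hts (-A ^ 2 - (A ^ 2)⁻¹) b R m → (∀ n, 1 ≤ n → n ≤ R → ε ≤ ‖b n‖) → (∀ n : ℕ, ‖b n‖ ≤ n) →
  ∀ (cs : List (ℕ × Bool)) (N : ℕ), Walk (Tree.comb (m - 1)) cs N (Tree.comb (m - 1)) →
  (∀ c ∈ cs, c.1 + 1 < m) ∧ ∀ μ ν : Matching m,
    ‖EE A A⁻¹ (-A ^ 2 - (A ^ 2)⁻¹) cs μ ν‖ ≤ (2 * R / ε) ^ m * (2 / ε) ^ N

/-! ## Part 6: analysis and assembly -/

/-- (180 lines) **The weights at generic points.**

Proof.  As `MT/TrigGen.lean`, with `κ = (√2/2) / (R+1)` in place of `1/(R+1)`.  `ζ = exp (2πi κ/M)`, `φ = π (j + κ) / M ∈ (0, π)`, `A = exp (-iφ/2)`, `b` by the recursion,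
`sin φ * b n = (-1)^(n+1) sin (nφ)`, `‖b n‖ ≤ n`.  `A ^ n = 1`, `n > 0`, would give `nφ/2 ∈ 2πℤ`, `n (j + κ) = 4 M l` with an integer `l`, so `κ` rational, but `√2` is
irrational.  `|sin (nφ)| ≥ 2 dist (n (j + κ)/M, ℤ) ≥ 2 dist (n κ, ℤ)/M ≥ 1 / ((R+1) M)` for `1 ≤ n ≤ R`, as `nκ ≥ 1/(2(R+1))` and `nκ ≤ √2/2 < 1 - 1/(2 (R+1))`
(`R ≥ 2`).  `‖b n‖ = |sin (nφ)| / sin φ ≥ |sin (nφ)|`, `‖A ^ (2n) - A ^ (-2n)‖ = 2 |sin (nφ)|`. -/
def S_Tg : Prop := ∀ (R M m : ℕ), 2 ≤ R → m + 2 ≤ R → 1 ≤ M → ∃ ζ : ℂ, ‖ζ‖ = 1 ∧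
  ∀ j : ℕ, j < M → ∃ (A : ℂ) (b : ℕ → ℂ),
  (A ^ 4)⁻¹ = ζ * Complex.exp (2 * Real.pi * Complex.I * (j / M)) ∧ ‖A‖ = 1 ∧
  (∀ n : ℕ, 0 < n → A ^ n ≠ 1) ∧ Hts (-A ^ 2 - (A ^ 2)⁻¹) b R m ∧ (∀ n : ℕ, ‖b n‖ ≤ n) ∧
  (∀ n : ℕ, 1 ≤ n → n ≤ R → 1 / ((R + 1 : ℕ) * M : ℝ) ≤ ‖b n‖) ∧
  ∀ n : ℕ, 1 ≤ n → n ≤ R → 2 * (1 / ((R + 1 : ℕ) * M : ℝ)) ≤ ‖A ^ (2 * n) - (A ^ (2 * n))⁻¹‖

/-- (150 lines; uses `S_Gn`, `S_Tg` and the theorems of the package MT (`import Pool.Agent.Lib.MP_fc1011_gt.MT.Final`);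
model: `MT/Asm.lean`) **Assembly.**

Proof.  `m ≥ 2` (`Matching 1` is empty).  `MT.S_Bridge` for the diagram `D` with the word `cs.map fun c => Letter.twist c.1 (if c.2 then 1 else -1)`, so `D.crossings = cs`.
Case `N + m ≤ s`: `R = m + 2`, `M = s + 1`, `ε = 1 / ((m+3)(s+1))`; by `S_Gn`, `‖d‖ = ‖b 2‖ ≥ ε`, all values of `∑ c k z^k` at the `M` points are at most
`(1/ε) (2R/ε)^m (2/ε)^N`, `MT.S_Interp`: `|V(-1)| ≤ (s+1) * that`.  `(s+1)/ε = (s+1)² (m+3) ≤ s^6`, `2R/ε = 2 (m+2)(m+3)(s+1) ≤ 2 (s+2)(s+3)(s+1) ≤ s^7`,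
`(2/ε)^N ≤ s^(4N)`: for `N ≥ 1`, `s ≥ 3` and `2 (s+3)(s+1) ≤ s^4`.  Total `6 + 7 m + 4 N ≤ 4 N + 10 m`.
Case `s < N + m`: `MT.S_Uni`, `MT.S_TrigUni` at `exp (2πi/r)`, `r ≥ 3`: `‖∑ c k z_r^k‖ ≤ 2^m` (`‖d‖ ≥ 1`), `MT.S_Extra`: `|V(-1)| ≤ (s+1) (4 s²)^s 2^m ≤ s^(2 + 4 s + m)`, `s ≤ N + m - 1`:
`2 + 4 (N + m - 1) + m ≤ 4 N + 10 m`.  Then take logarithms (`quotient`). -/
def S_As : Prop := ∀ (m : ℕ), 0 < m → ∀ (μ ν : Matching m) (cs : List (ℕ × Bool)) (N : ℕ),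
  Walk (Tree.comb (m - 1)) cs N (Tree.comb (m - 1)) → ∀ V : LaurentPolynomial ℤ, IsJones cs μ ν V →
  2 ≤ span V → quotient V ≤ 4 * N + 10 * m

end MP_fc1011_gt.TP
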