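import Pool.Agent.Lib.MP_fc1011_gt.TP.Spec

/-!
# MP_fc1011_gt, paths of trees: the statements of the second part

Changes `((A b) C) → (A (b C))` with a single strand `b` in the middle, and changes of the root.
See the header of `TP/Spec.lean`.
-/

set_option autoImplicit false

namespace MP_fc1011_gt.TP

open Finset MT

/-- (80 lines; uses `S_Sh`) **The first strand around the others.**

Proof.  `t j = s (q + j)`, `MV.Br (l + 1) t`.  `HH t (l+1) = HH t l * RR t l` (`rfl`) `= LL t l * HH t l` (`MV.HH_eq`).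
(3) `Hq s q (l+1) * Fq s q l = LL t l * HH t l * FF t l = LL t l * FF t l * HH t l` (`FF t l = HH t l * HH t l`, `MV.HH_sq`), and
`LL t l * FF t l = Fq s (q+1) l * LL t l` (`l = 0` trivial; `l = k + 1`: the last equation of `S_Sh`, `q + k + 1 < m`).
(1) `FF t (l+1) = HH t (l+1) * HH t (l+1) = LL t l * HH t l * (HH t l * RR t l) = LL t l * FF t l * RR t l = Fq s (q+1) l * LL t l * RR t l`.
(2) `(LL * RR) * H = LL * (RR * LL) * HH t l = LL * JJ t l * HH t l = LL * HH t l * JJ t l = H * JJ t l` (`MV.JJ_eq`; `JJ t l` commutes with `HH t l`: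
`MV.HH_commute`, `MV.JJ_comm`). -/
def S_Gl : Prop := ∀ (G : Type) [Monoid G] (m : ℕ) (s : ℕ → G), MV.Br m s → ∀ q l : ℕ,
  q + l + 1 ≤ m → Fq s q (l + 1) = Fq s (q + 1) l * (Lq s q l * Rq s q l) ∧
    (Lq s q l * Rq s q l) * Hq s q (l + 1) = Hq s q (l + 1) * Jq s q l ∧
    Hq s q (l + 1) * Fq s q l = Fq s (q + 1) l * Hq s q (l + 1)

/-- (120 lines; uses `S_Gl`) **The strands on the right in terms of the strands on the left.**

Proof.  `s = u`, `E q = Lq s q (m-1-q) * Rq s q (m-1-q)` (`q < m`: the strand `q` goes around the strands on its right), `D q = Jq s 0 q`.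
`E q = s q * E (q+1) * s q` for `q + 1 < m` (`LL t (l+1) = t 0 * LL t' l`, `RR t (l+1) = RR t' l * t 0` with `t' j = t (j+1)`, by induction on `l`), and
`D (q+1) = s q * D q * s q` (`MV.JJ`).  So `E q * D q = s q * (E (q+1) * D (q+1)) * (s q)⁻¹`, and `E (m-1) * D (m-1) = D (m-1)` acts as `A⁻⁶`, hence by
induction on `m - 1 - q` every `E q * D q`, `q < m`, acts as `A⁻⁶` (a scalar).
Now induction on `m - q`.  `q = m`: `Fq s m 0 = 1`, `Fq u 0 m` acts as `A ^ (- 3 m)`.  From `q + 1` to `q`: `Fq s q (m-q) = Fq s (q+1) (m-q-1) * E q` (`S_Gl`),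
`Fq s 0 (q+1) = Fq s 0 q * D q`: for `x`: `Fq s q (m-q) x = Fq s (q+1) (m-q-1) (E q x) = A ^ (6 (q+1) - 3 m) • Fq s 0 (q+1) (E q x) = A ^ (…) • Fq s 0 q (D q (E q x))`, and
`D q * E q` also acts as `A⁻⁶` (as `E q * D q` is a scalar).  `6 (q+1) - 3 m - 6 = 6 q - 3 m`. -/
def S_Rt : Prop := ∀ (A : ℂ) (m : ℕ) (W : Type) [AddCommGroup W] [Module ℂ W]
  (u : ℕ → (Module.End ℂ W)ˣ), A ≠ 0 → 0 < m → MV.Br m u →
  (∀ x : W, (Jq u 0 (m - 1)).val x = A ^ (-6 : ℤ) • x) →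
  (∀ x : W, (Fq u 0 m).val x = A ^ (-(3 * (m : ℤ))) • x) →
  ∀ q, q ≤ m → ∀ x : W, (Fq u q (m - q)).val x = A ^ (6 * (q : ℤ) - 3 * (m : ℤ)) • (Fq u 0 q).val x

/-- The hypotheses of `S_RotM`: `C` contains the intervals `A = (i, kA)`, `C' = (i + kA + 1, kC)` and
`J = (i, kA + kC + 1)`, and is compatible with itself, with `I = (i, kA + 1)` and with
`K = (i + kA, kC + 1)`. -/
def RotHM (m : ℕ) (C : Set (ℕ × ℕ)) (i kA kC : ℕ) : Prop :=
  1 ≤ kA ∧ 1 ≤ kC ∧ i + kA + kC < m ∧ (i, kA) ∈ C ∧ (i + kA + 1, kC) ∈ C ∧ (i, kA + kC + 1) ∈ C ∧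
    (∀ n ∈ C, n.1 + n.2 ≤ m) ∧
    ∀ n ∈ C, Cpt n (i, kA + 1) ∧ Cpt n (i + kA, kC + 1) ∧ ∀ n' ∈ C, Cpt n n'

/-- (220 lines; uses `S_Gj`, `S_Gc`, `S_Gl`, `S_Num`, `S_Adj`, `S_Abs`; model: `TP/RotL.lean`) **The change
`((A b) C) → (A (b C))`, `b` a single strand.**

Proof.  `v`, `lab` is a frame for `C ∪ {I}`; `q = i + kA` is the strand `b`, `R = Rq u q kC`, `L = Lq u q kC`, `M = L * R` (`b` goes around `C'`).  Labels
`α = lab a (i, kA)`, `γ = lab a (i + kA + 1, kC)`, `j = lab a J`.  Apply `S_Abs` with `κ a = fun n => if n ∈ C then lab a n else 0`,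
`t a = decide (lab a I = lab a (i, kA) + 1)`, `X = Jq u i kA`, `Y = M⁻¹`, `Z = R⁻¹ * Jq u i (kA + kC) * R`.  `Z * Y = X`: by `S_Gj`
`Jq u i (kA + kC) = R * Jq u i kA * L`, so `Z = Jq u i kA * L * R = X * M`.
`x1 = ra A 2 α`, `x2 = rb A 2 α`, `y1 = (ra A 2 γ)⁻¹`, `y2 = (rb A 2 γ)⁻¹`, `z1 = ra A 4 j`, `z2 = rb A 4 j`; products `A⁻⁴ = A⁴ A⁻⁸`; norms, gaps (`‖y⁻¹ - y'⁻¹‖ = ‖y - y'‖` for
`‖y‖ = ‖y'‖ = 1`), `z1 ≠ z2`: `S_Num`, `gap`.
`hX`: `S_Adj` (4) for `(i, kA)`, `I`: `Fq u i (kA + 1) = Fq u i kA * Jq u i kA`.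
Symmetry of `M`: the adjoint of `RR` is `LL` and conversely (induction with `adj`), so `M` and `M⁻¹` are symmetric.
`Y` preserves the classes: `Fq u q (kC+1) = Fq u (q+1) kC * M` (`S_Gl` (1)); `Fq n`, `n ∈ C`, commutes with `Fq K` and `Fq u (q+1) kC` (`S_Gc`), so with `M`.
`hY`: for `w` with the label `γ` at `(q+1, kC)`: `H = Hq u q (kC+1)`, `w' = H⁻¹ w` has the label `γ` at `(q, kC)` (`S_Gl` (3)), `qa`: `Qd (Jq u q kC) … w'`, and
`M H = H Jq u q kC` (`S_Gl` (2)), so `Qd M (ra A 2 γ) (rb A 2 γ) w`; then the inverse (`rl_qinv` in `TP/RotL.lean`).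
`hZ`: `R` commutes with `Fq J` (`S_Gc`, second part, the generators of `R` are inside of `J`), so `R (v a)` has the label `j` at `J`; `qb` for `J` (`Jq u i (kA+kC)`), and conjugate.
New labels: `lab' a n = if n = K then (if t' a then γ + 1 else γ - 1) else lab a n`: `Fq K (v' a) = Fq u (q+1) kC (M (v' a))`, `M (v' a) = y⁻¹ • v' a`, `S_Num` (5), (6).
Range, injectivity, coordinates as in `S_RotR`. -/
def S_RotM : Prop := ∀ (A : ℂ) (m : ℕ) (ε : ℝ) (W : Type) [AddCommGroup W] [Module ℂ W] (ι : Type)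
  [Fintype ι] [DecidableEq ι] (B : LinearMap.BilinForm ℂ W) (u : ℕ → (Module.End ℂ W)ˣ),
  Mdl A m ε W B u → ∀ (C : Set (ℕ × ℕ)) (i kA kC : ℕ), RotHM m C i kA kC → ∀ (w : W) (K : ℝ),
  Bd A ι B u (C ∪ {(i, kA + 1)}) w K → Bd A ι B u (C ∪ {(i + kA, kC + 1)}) w (2 / ε * K)

/-- Changes `((A b) C) → (A (b C))` of a subtree, `b` a leaf. -/
inductive ElM : Tree → Tree → Prop
  | base (A C : Tree) : ElM (.node (.node A .leaf) C) (.node A (.node .leaf C))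
  | left {S S' : Tree} (T : Tree) : ElM S S' → ElM (.node S T) (.node S' T)
  | right (S : Tree) {T T' : Tree} : ElM T T' → ElM (.node S T) (.node S T')

/-- Chains of elementary changes. -/
inductive Ch2 : Tree → Tree → ℕ → Prop
  | refl (T : Tree) : Ch2 T T 0
  | stepR {S T U : Tree} {n : ℕ} : Ch2 S T n → ElR T U → Ch2 S U (n + 1)
  | stepL {S T U : Tree} {n : ℕ} : Ch2 S T n → ElL T U → Ch2 S U (n + 1)
  | stepM {S T U : Tree} {n : ℕ} : Ch2 S T n → ElM T U → Ch2 S U (n + 1)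
  | stepN {S T U : Tree} {n : ℕ} : Ch2 S T n → ElM U T → Ch2 S U (n + 1)

/-- (100 lines; uses `S_Lam`; model: `TP/Rn.lean`) **The nodes after a change with a leaf in the middle.**

Proof.  Leaves: induction.  Nodes: induction; base at `o` with `a = A.leaves`, `c = C.leaves`: `i = o`, `kA = a`, `kC = c`,
`C₀ = {(o, a + c + 1)} ∪ nodes A o ∪ {(o + a, 1)} ∪ nodes C (o + a + 1)`; `left`, `right`: add the root and the nodes of the other subtree.
Third part, induction; base: `T' = (A (b C))`, `T₁ = T'.mirror = ((C' b) A')`, `T₂ = (C' (b A'))`, `T₂.mirror = ((A b) C)`. -/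
def S_Rn2 : Prop :=
  (∀ T T' : Tree, ElM T T' → T'.leaves = T.leaves) ∧
  (∀ (T T' : Tree), ElM T T' → ∀ o : ℕ, ∃ (C : Set (ℕ × ℕ)) (i kA kC : ℕ), 1 ≤ kA ∧ 1 ≤ kC ∧
    (i, kA) ∈ C ∧ (i + kA + 1, kC) ∈ C ∧ (i, kA + kC + 1) ∈ C ∧
    nodes T o = C ∪ {(i, kA + 1)} ∧ nodes T' o = C ∪ {(i + kA, kC + 1)}) ∧
  ∀ (T T' : Tree), ElM T T' → ∀ o : ℕ, ∃ (T₁ T₂ : Tree) (p k : ℕ),
    Turn o T' T₁ p k ∧ ElM T₁ T₂ ∧ Turn o T₂ T p k

/-- (120 lines; uses `S_Lam`, `S_Mv`; model: `TP/Mv.lean`) **A general change is a chain of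
`min(|A|, |B|, |C|) ^ 2` elementary ones.**

Proof.  `Ch T T' n → Ch2 T T' n`; transitivity, symmetry, congruence of `Ch2` as in `TP/Mv.lean`.  If `A` or `C` is the smallest one: `S_Mv` (for `Rot.fwd A B C`).
If `B` is: (1) `B` to `comb (b - 1)`, `2 n ≤ (b-1)(b-2)` steps (copy `toComb`, `merge` of `TP/Mv.lean`); (2) for `B = comb k`:
`Ch2 (node (node A (comb k)) C) (node A (node (comb k) C)) (3 k + 1)` for all `A`, `C`, by induction on `k`: `k = 0`: `ElM.base`; `comb (k+1) = node (comb k) leaf`: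
`((A (K b)) C) → (((A K) b) C)` (`ElR.bwd`) `→ ((A K) (b C))` (`ElM.base`) `→ (A (K (b C)))` (induction, `3 k + 1`) `→ (A ((K b) C))` (`stepN`, `ElM.base` inside).
Total `2 n + 3 (b - 1) + 1 ≤ b²`. -/
def S_Mv2 : Prop := ∀ (T T' : Tree) (c : ℕ), Change T T' c → ∃ n ≤ c, Ch2 T T' n

end MP_fc1011_gt.TP
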